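import Pool.Agent.Lib.MP_f80667_ag.Lv.D

/-!
Displacements of the points of a part of the variety: definitions.

* `SOk f L sm`: the set of points `sm` is invariant and a union of residue classes.
* `NrS sm L r`: congruent points of `sm`.
* `DrSm sm L π s M`: the displacements over `M` of level `s` of points of `sm`.
* `PjSm sm L ψ`: an integral projection; the points with `D (u (x))` a unit are in `sm`.
* `CvrSm sm L ψ`: the projections cover `sm`.
-/

open ZC BE PE CV IntermediateField

namespace GX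

section defs

variable {F : Type} [Field F] {N : ℕ} {ι : Type} {K Ω : Type} [Field K] [Field Ω] [Algebra K Ω]
  [Algebra F K] [Algebra F Ω] [IsScalarTower F K Ω]

/-- The set of points `sm` is invariant and a union of residue classes. -/
class SOk (f : ι → MvPolynomial (Fin N) F) (L : Ld K Ω) (sm : (Xf f).pt Ω → Prop) : Prop where
  act : ∀ (γ : Ω ≃ₐ[K] Ω) (P : (Xf f).pt Ω), sm P → sm ((Xf f).act γ P)
  nea : ∀ P P' : (Xf f).pt Ω, Nea f L P P' → sm P → sm P'

variable {f : ι → MvPolynomial (Fin N) F} (sm : (Xf f).pt Ω → Prop) (L : Ld K Ω)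

/-- Congruent points of `sm`. -/
def NrS (r : ℝ) (P P' : (Xf f).pt Ω) : Prop := Nrh f L r P P' ∧ sm P ∧ sm P'

/-- The displacements over `M` of level `s` of points of `sm`. -/
noncomputable def DrSm (π : Ω) (s : ℕ) (M : IntermediateField K Ω) :
    AddSubgroup ((Xf f).pt Ω →₀ ℤ) :=
  Dsp L (Xf f) (NrS sm L (L.nm π ^ s)) M

/-- An integral projection; the points with `D (u (x))` a unit are in `sm`. -/
structure PjSm {d : ℕ} (ψ : Prj K N d) : Prop extends Pj f L ψ where
  gd : ∀ (P : (Xf f).pt Ω) (x : Fin N → Ω), Co P x → (∀ i, L.nm (x i) ≤ 1) →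
    L.nm (MvPolynomial.aeval (ψ.uv x) ψ.D) = 1 → sm P

/-- The projections cover `sm`. -/
def CvrSm {d m : ℕ} (ψ : Fin m → Prj K N d) : Prop :=
  ∀ (P : (Xf f).pt Ω) (x : Fin N → Ω), sm P → Co P x → (∀ i, L.nm (x i) ≤ 1) →
    (∃ i, L.nm (x i) = 1) → ∃ i, L.nm (MvPolynomial.aeval ((ψ i).uv x) (ψ i).D) = 1

end defs

end GX
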