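import Pool.Agent.Lib.MP_f80667_ag.Rsm.A
import Pool.Agent.Lib.MP_f80667_ag.Gx.Gc

/-! Displacements of the points of a part of the variety: the basic properties and the moving lemma for an arc. -/

open ZC BE PE CV IntermediateField Polynomial

namespace GX

variable {F : Type} [Field F] {N d m : ℕ} {ι : Type} {K Ω : Type} [Field K] [CharZero K]
  [Field Ω] [Algebra K Ω] [Algebra F K] [Algebra F Ω] [IsScalarTower F K Ω] [IsAlgClosure K Ω]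
  {f : ι → MvPolynomial (Fin N) F} {sm : (Xf f).pt Ω → Prop} {L : Ld K Ω} {π : Ω}
  {M M' : IntermediateField K Ω} {ψ : Prj K N d}

omit [CharZero K] [IsAlgClosure K Ω] in
instance : CoeOut (PjSm sm L ψ) (Pj f L ψ) := ⟨PjSm.toPj⟩

omit [CharZero K] [IsAlgClosure K Ω] in
theorem nrS_mono {r r' : ℝ} (hr : r ≤ r') {P P' : (Xf f).pt Ω} (h : NrS sm L r P P') :
    NrS sm L r' P P' := ⟨nrh_mono hr h.1, h.2⟩

omit [CharZero K] [IsAlgClosure K Ω] in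
theorem nrS_act [SOk f L sm] (γ : Ω ≃ₐ[K] Ω) {r : ℝ} {P P' : (Xf f).pt Ω} (h : NrS sm L r P P') :
    NrS sm L r ((Xf f).act γ P) ((Xf f).act γ P') :=
  ⟨nrh_act γ h.1, SOk.act L γ P h.2.1, SOk.act L γ P' h.2.2⟩

omit [CharZero K] [IsAlgClosure K Ω] in
/-- A point near a point of `sm`. -/
theorem SOk.nr [SOk f L sm] {r : ℝ} (hr : r < 1) {P P' : (Xf f).pt Ω} (h : Nrh f L r P P')
    (hP : sm P) : sm P' := SOk.nea (L := L) P P' ⟨r, hr, h⟩ hP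

theorem drSm_le {s : ℕ} : DrSm sm L π s M ≤ Dr f L π s M := dsp_mono fun _ _ h => h.1

theorem dr_ptSm [FiniteDimensional K M] {s : ℕ} {P P' : (Xf f).pt Ω} (hP : Fp (Xf f) M P)
    (hP' : Fp (Xf f) M P') (h : Nrh f L (L.nm π ^ s) P P') (hS : sm P) (hS' : sm P') :
    (Finsupp.single P 1 - Finsupp.single P' 1 : (Xf f).pt Ω →₀ ℤ) ∈ DrSm sm L π s M :=
  dsp_pt hP hP' ⟨h, hS, hS'⟩

/-- Two near points over `M`, the first one in the good part of the projection. -/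
theorem dr_ptG [SOk f L sm] [FiniteDimensional K M] (h : PjSm sm L ψ) {s : ℕ}
    {P P' : (Xf f).pt Ω} (hP : Fp (Xf f) M P) (hP' : Fp (Xf f) M P')
    (hn : Nrh f L (L.nm π ^ s) P P') (hs : L.nm π ^ s < 1) {x : Fin N → Ω} (hx : Co P x)
    (hx1 : ∀ i, L.nm (x i) ≤ 1) (hD : L.nm (MvPolynomial.aeval (ψ.uv x) ψ.D) = 1) :
    (Finsupp.single P 1 - Finsupp.single P' 1 : (Xf f).pt Ω →₀ ℤ) ∈ DrSm sm L π s M :=
  dr_ptSm hP hP' hn (h.gd P x hx hx1 hD) (SOk.nr hs hn (h.gd P x hx hx1 hD))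

/-- Two near points over `M`, the second one in the good part of the projection. -/
theorem dr_ptG' [SOk f L sm] [FiniteDimensional K M] (h : PjSm sm L ψ) {s : ℕ}
    {P P' : (Xf f).pt Ω} (hP : Fp (Xf f) M P) (hP' : Fp (Xf f) M P')
    (hn : Nrh f L (L.nm π ^ s) P P') (hs : L.nm π ^ s < 1) {x : Fin N → Ω} (hx : Co P' x)
    (hx1 : ∀ i, L.nm (x i) ≤ 1) (hD : L.nm (MvPolynomial.aeval (ψ.uv x) ψ.D) = 1) :
    (Finsupp.single P 1 - Finsupp.single P' 1 : (Xf f).pt Ω →₀ ℤ) ∈ DrSm sm L π s M :=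
  dr_ptSm hP hP' hn (SOk.nr hs (nrh_symm hn) (h.gd P' x hx hx1 hD)) (h.gd P' x hx hx1 hD)

theorem dr_monoSm (hπ : Uf L π) {s t : ℕ} (h : s ≤ t) : DrSm sm L π t M ≤ DrSm sm L π s M :=
  dsp_mono fun _ _ => nrS_mono (hπ.pow_le h)

theorem dr_upSm [SOk f L sm] [FiniteDimensional K M] (h : Em L M M') {s : ℕ} :
    DrSm sm L π s M ≤ DrSm sm L π s M' := by
  have : Hf (Xf f) := inferInstance
  exact dsp_up h fun γ _ _ _ h1 => nrS_act γ h1

/-- Generators. -/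
theorem dr_genSm [FiniteDimensional K M] {s : ℕ} : DrSm sm L π s M = AddSubgroup.closure
    {z | ∃ M' y y', Em L M M' ∧ Fp (Xf f) M' y ∧ Fp (Xf f) M' y' ∧
      NrS sm L (L.nm π ^ s) y y' ∧
        z = Nm M M' (Finsupp.single y 1 - Finsupp.single y' 1 : (Xf f).pt Ω →₀ ℤ)} :=
  dsp_gen

theorem dr_fxSm [FiniteDimensional K M] {s : ℕ} {z : (Xf f).pt Ω →₀ ℤ}
    (hz : z ∈ DrSm sm L π s M) : Fx M z := dsp_fx hz

/-- The norms of the displacements over an unramified field. -/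
theorem dr_nmSm [FiniteDimensional K M] (hM : Um L M) {s : ℕ} {z : (Xf f).pt Ω →₀ ℤ}
    (hz : z ∈ DrSm sm L π s M) : Nm (K := K) ⊥ M z ∈ DrSm sm L π s ⊥ := GM.nm_dsp hM hz

omit [CharZero K] [IsAlgClosure K Ω] in
/-- The points of the chart of the projection are in `sm`. -/
theorem PjSm.gd' (h : PjSm sm L ψ) {c : Fin (d + 1) → Ω} {w : Ω} (hc : ∀ r, L.nm (c r) ≤ 1)
    (hw : L.nm w ≤ 1) (hG : pe c w ψ.G = 0) (hD : L.nm (MvPolynomial.aeval c ψ.D) = 1)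
    {P : (Xf f).pt Ω} (hP : Co P fun j => pe c w (ψ.A j)) : sm P := by
  refine h.gd P _ hP (fun j => pe_le (h.iA j) hc hw) ?_
  have h1 : ψ.uv (fun j => pe c w (ψ.A j)) = MvPolynomial.aeval c ψ.D • c :=
    funext fun r => h.inu c w hG r
  obtain ⟨e, -, he⟩ := h.homD
  rw [h1, aeval_smul_hom he, L.mul, L.pow, hD, one_pow, one_mul]

/-- **LA** for an arc in the space of a projection. -/
theorem la_chSm [SOk f L sm] (h : PjSm sm L ψ) {M : IntermediateField K Ω} [FiniteDimensional K M]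
    {π : Ω} (hM : π ∈ M) (h0 : 0 < L.nm π) (h1 : L.nm π < 1)
    (hπ : ∀ x ∈ M, x ≠ 0 → ∃ k : ℤ, L.nm x = L.nm π ^ k) {a : Fin (d + 1) → Polynomial Ω}
    (ha : Arc L M a) {w₀ : Ω} (hw : w₀ ∈ M) (hw1 : L.nm w₀ ≤ 1)
    (hD : L.nm (MvPolynomial.aeval (fun r => (a r).eval 0) ψ.D) = 1)
    (hG : L.nm (pe (fun r => (a r).eval 0) w₀ ψ.G) < 1) {P : Ω → (Xf f).pt Ω}
    (hP : ∀ c, L.nm c < 1 → ∃ w, L.nm (w - w₀) < 1 ∧
      GM.ev₂ (c, w) (ga a ψ.G) = 0 ∧ Co (P c) fun j => GM.ev₂ (c, w) (ga a (ψ.A j)))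
    {q q' : Polynomial Ω} (hq : Dpo L M q) (hq' : Dpo L M q') (hd : q.natDegree = q'.natDegree)
    {l u s : ℕ} (hs : (l = 1 ∧ u = 0 ∧ s ≠ 0) ∨
      (l.Prime ∧ L.nm (l : Ω) = L.nm π ^ u ∧ u < (l - 1) * s))
    (hqq : ∀ i, L.nm (q.coeff i - q'.coeff i) ≤ L.nm π ^ (s + u)) :
    ∃ z ∈ DrSm sm L π s M, rcy P q - rcy P q' - l • z ∈ (Xf f).ratEq M Ω := by
  have hC := ch_of h.toPj ha (ρ := Finset.univ.sup fun r => (a r).natDegree)
    fun r => Finset.le_sup (f := fun r => (a r).natDegree) (Finset.mem_univ r)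
  have hS : ∀ (Q : Ω × Ω) (p : (Xf f).pt Ω), L.nm Q.1 ≤ 1 → L.nm Q.2 ≤ 1 →
      GM.ev₂ Q (ga a ψ.G) = 0 → L.nm ((MvPolynomial.aeval a ψ.D).eval Q.1) = 1 →
      (Co p fun j => GM.ev₂ Q (ga a (ψ.A j))) → sm p := by
    intro Q p h2 h3 h4 h5 h6
    have e1 : ∀ j, GM.ev₂ Q (ga a (ψ.A j)) = pe (fun r => (a r).eval Q.1) Q.2 (ψ.A j) :=
      fun j => ga_ev a (ψ.A j) Q.1 Q.2
    simp only [e1] at h6
    refine h.gd' (fun r => L.eval_le (fun j => (ha r j).2) h2) h3 ?_ ?_ h6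
    · rw [← ga_ev a ψ.G Q.1 Q.2]
      exact h4
    · rw [← GM.ae_eval (F := K)]
      exact h5
  refine GM.la_co (V := Xf f) (Cx := fun p x => Co p x ∧ sm p) (nr := NrS sm L (L.nm π ^ s))
    (A := fun j => ga a (ψ.A j)) hC.mc hC.ig hC.iδ hC.iA hC.bez (fun Q h2 h3 h4 h5 => ?_)
    (fun p p' x h2 h3 => co_eq h2.1 h3.1) (fun γ _ p x h2 => ⟨co_act γ h2.1, SOk.act L γ p h2.2⟩)
    (fun Φ pt h2 h3 => hC.gpm h2 fun P hP => (h3 P hP).1) hM h0 h1 hπ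
    (fun p p' x x' h2 h3 h4 h5 h6 h7 h8 => ⟨⟨x, x', h2.1, h3.1, h4, h5, h6, h7, h8⟩, h2.2, h3.2⟩)
    ?_ hw hw1 ?_ (P := P) (fun c hc => ?_) hq hq' hs hqq
  · obtain ⟨h6, p, h7⟩ := hC.ex h2 h3 h4 h5
    exact ⟨h6, p, h7, hS Q p h2 h3 h4 h5 h7⟩
  · rw [GM.ae_eval (F := K)]
    exact hD
  · rw [ga_ev]
    exact hG
  · obtain ⟨w, h2, h3, h4⟩ := hP c hc
    refine ⟨w, h2, h3, h4, hS (c, w) (P c) hc.le ?_ h3 ?_ h4⟩
    · have h5 := L.add (w - w₀) w₀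
      rw [sub_add_cancel] at h5
      exact h5.trans (max_le h2.le hw1)
    · rw [GM.ae_eval (F := K)]
      refine h.D_close (fun r => L.eval_le (fun j => (ha r j).2) (by rw [L.zero]; exact zero_le_one))
        (fun r => L.eval_le (fun j => (ha r j).2) hc.le) (fun r => ?_) hD
      have h5 := L.eval_close (f := a r) (fun j => (ha r j).2) (x := 0) (y := c)
        (by rw [L.zero]; exact zero_le_one) hc.le
      rw [zero_sub, L.neg] at h5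
      exact h5.trans_lt hc

end GX
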