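import Pool.Agent.Lib.MP_f80667_ag.Gx.PjA
import Pool.Agent.Lib.MP_f80667_ag.Gx.D

/-!
Models over the integers: definitions.

* `Gsk f d`: over an (algebraically closed) field: `f = 0` has dimension at most `d`, and for every smooth point `y` and every component
  there is a smooth point of the component whose tangent space does not contain `y`, or the component is a cone over `y`.
* `Ovf F V`: the valuation ring of `F` under the valuation ring `V` of `Ω`; `rsF F V`: its reduction.
* `Gsm V f d`: the `f_i` are a flat model over the valuation ring of `F` under `V` with such a reduction.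
* `Smo V f d P`: the reduction of the point `P` is smooth.
-/

open MvPolynomial

namespace GX

/-- The variety `f = 0` over an algebraically closed field has dimension at most `d`; for each component (a minimal prime ideal `P`) and
each point `y` of the variety at which the tangent space of the cone has dimension at most `d + 1`, the component contains a point `x` at
which the tangent space of the cone has dimension at most `d + 1` and does not contain `y`, or the component is a cone over `y`. -/
structure Gsk {κ : Type} [Field κ] {N : ℕ} {ι : Type} (f : ι → MvPolynomial (Fin N) κ) (d : ℕ) :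
    Prop where
  hom : ∀ i, ∃ e, (f i).IsHomogeneous e
  dim : Algebra.trdeg κ (MvPolynomial (Fin N) κ ⧸ Ideal.span (Set.range f)) ≤ (d + 1 : ℕ)
  gen : ∀ P ∈ (Ideal.span (Set.range f)).minimalPrimes, ∀ y, Zp f y →
    Module.finrank κ (tgs f y) ≤ d + 1 →
      (∃ x, Zp f x ∧ (∀ g ∈ P, eval x g = 0) ∧ Module.finrank κ (tgs f x) ≤ d + 1 ∧
        y ∉ tgs f x) ∨
      ∀ x, (∀ g ∈ P, eval x g = 0) → ∀ c : κ, ∀ g ∈ P, eval (x + c • y) g = 0

section val

variable {Ω : Type} [Field Ω] (V : ValuationSubring Ω)

/-- The valuation ring of `F` under `V`. -/
def Ovf (F : Type) [Field F] [Algebra F Ω] : ValuationSubring F := V.comap (algebraMap F Ω)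

/-- The residues of the elements of the valuation ring of `F`. -/
noncomputable def rsF (F : Type) [Field F] [Algebra F Ω] :
    Ovf V F →+* IsLocalRing.ResidueField V :=
  (IsLocalRing.residue V).comp
    (((algebraMap F Ω).comp (Ovf V F).subtype).codRestrict V fun x => x.2)

/-- The reduction of polynomials over the valuation ring. -/
noncomputable def fbr {F : Type} [Field F] [Algebra F Ω] {N : ℕ} {ι : Type}
    (f₀ : ι → MvPolynomial (Fin N) (Ovf V F)) :
    ι → MvPolynomial (Fin N) (IsLocalRing.ResidueField V) :=
  fun i => MvPolynomial.map (rsF V F) (f₀ i)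

variable {F : Type} [Field F] [Algebra F Ω] {N : ℕ} {ι : Type}

/-- The `f_i` are a flat model over the valuation ring of `F` under `V` whose special fibre satisfies `Gsk`: the `f_i` have coefficients in the
valuation ring, and the ideal generated by them over the valuation ring contains every polynomial of which it contains a multiple by a
nonzero constant. -/
structure Gsm (f : ι → MvPolynomial (Fin N) F) (d : ℕ) : Prop where
  hom : ∀ i, ∃ e, (f i).IsHomogeneous e
  red : ∃ f₀ : ι → MvPolynomial (Fin N) (Ovf V F),
    (∀ i, MvPolynomial.map (Ovf V F).subtype (f₀ i) = f i) ∧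
      (∀ (r : Ovf V F) (g : MvPolynomial (Fin N) (Ovf V F)),
        r ≠ 0 → C r * g ∈ Ideal.span (Set.range f₀) → g ∈ Ideal.span (Set.range f₀)) ∧
      Gsk (fbr V f₀) d

/-- The point with coordinates `x` of the variety over the residue field is smooth. -/
def Sky {κ : Type} [Field κ] {N : ℕ} {ι : Type} (f : ι → MvPolynomial (Fin N) κ) (d : ℕ)
    (x : Fin N → κ) : Prop :=
  Module.finrank κ (tgs f x) ≤ d + 1

/-- The reduction of the point `P` is smooth: the tangent space of the cone over the special fibre at the reduction of `P` has dimension
at most `d + 1`. -/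
def Smo (f : ι → MvPolynomial (Fin N) F) (d : ℕ) (P : (Xf f).pt Ω) : Prop :=
  ∃ f₀ : ι → MvPolynomial (Fin N) (Ovf V F),
    (∀ i, MvPolynomial.map (Ovf V F).subtype (f₀ i) = f i) ∧
      ∃ x : Fin N → V, Co P (fun j => (x j : Ω)) ∧ (∃ j, IsUnit (x j)) ∧
        Sky (fbr V f₀) d fun j => IsLocalRing.residue V (x j)

end val

end GX
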