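import Pool.Agent.Lib.MP_f80667_ag.Ng.A
import Pool.Agent.Lib.MP_f80667_ag.Gx.Dt
import Pool.Agent.Lib.MP_f80667_ag.Gx.VD
import Pool.Agent.Lib.MP_f80667_ag.Rsm.D

/-!
Models whose special fibre satisfies `Gsk` (`Rsm/D`): auxiliary definitions.

* `Gsr κ f d`: a model over a discrete valuation ring with such a reduction; the ideal of the model is prime.
* `Cvs φ f ψ`: the projections cover the smooth points of the reduction.
* `Dts V f ψ f₀ ψ₀`: `f₀` and `ψ₀` are `f` and `ψ` over the valuation ring, the projections are good and cover the smooth points.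
* `Gsv V f d`: a flat model over the valuation ring of `F` under `V` with such a reduction.
* `Smr V f d P`: the reduction of `P` is smooth.
-/

open MvPolynomial

namespace GX

/-- A model over a discrete valuation ring. -/
structure Gsr {R : Type} (κ : Type) [CommRing R] [Field κ] [Algebra R κ] {N : ℕ} {ι : Type}
    (f : ι → MvPolynomial (Fin N) R) (d : ℕ) : Prop where
  hom : ∀ i, ∃ e, (f i).IsHomogeneous e
  prime : (Ideal.span (Set.range f)).IsPrime
  trd : ((d + 1 : ℕ) : Cardinal) ≤
    Algebra.trdeg R (MvPolynomial (Fin N) R ⧸ Ideal.span (Set.range f))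
  red : Gsk (fr κ f) d

/-- The projections cover the smooth points of the reduction. -/
def Cvs {R κ : Type} [CommRing R] [Field κ] (φ : R →+* κ) {N d m : ℕ} {ι : Type}
    (f : ι → MvPolynomial (Fin N) R) (ψ : Fin m → Prj R N d) : Prop :=
  ∀ y : Fin N → κ, Zp (fun i => map φ (f i)) y →
    Module.finrank κ (tgs (fun i => map φ (f i)) y) ≤ d + 1 →
      ∃ i, eval (((ψ i).map φ).uv y) ((ψ i).map φ).D ≠ 0

section val

variable {F : Type} [Field F] {Ω : Type} [Field Ω] [Algebra F Ω] (V : ValuationSubring Ω)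
  {N d m : ℕ} {ι : Type}

/-- `f₀` and `ψ₀` are `f` and `ψ` over the valuation ring. -/
structure Dts (f : ι → MvPolynomial (Fin N) F) (ψ : Fin m → Prj F N d)
    (f₀ : ι → MvPolynomial (Fin N) (V.comap (algebraMap F Ω)))
    (ψ₀ : Fin m → Prj (V.comap (algebraMap F Ω)) N d) : Prop where
  mf : ∀ i, MvPolynomial.map (V.comap (algebraMap F Ω)).subtype (f₀ i) = f i
  mp : ∀ i, (ψ₀ i).map (V.comap (algebraMap F Ω)).subtype = ψ i
  hom : ∀ i, ∃ e, (f₀ i).IsHomogeneous e
  ok : ∀ i, (ψ₀ i).Ok f₀
  cov : Cvs (rdO F V) f₀ ψ₀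

/-- The `f_i` are a flat model over the valuation ring of `F` under `V` whose special fibre satisfies `Gsk`. -/
structure Gsv (f : ι → MvPolynomial (Fin N) F) (d : ℕ) : Prop where
  hom : ∀ i, ∃ e, (f i).IsHomogeneous e
  red : ∃ f₀ : ι → MvPolynomial (Fin N) (V.comap (algebraMap F Ω)),
    (∀ i, MvPolynomial.map (V.comap (algebraMap F Ω)).subtype (f₀ i) = f i) ∧
      (∀ (r : V.comap (algebraMap F Ω)) (g : MvPolynomial (Fin N) (V.comap (algebraMap F Ω))),
        r ≠ 0 → C r * g ∈ Ideal.span (Set.range f₀) → g ∈ Ideal.span (Set.range f₀)) ∧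
      Gsk (fun i => MvPolynomial.map (rdO F V) (f₀ i)) d

/-- The reduction of the point `P` is smooth: the tangent space of the cone over the special fibre at the reduction of `P` has dimension
at most `d + 1`. -/
def Smr (f : ι → MvPolynomial (Fin N) F) (d : ℕ) (P : (Xf f).pt Ω) : Prop :=
  ∃ f₀ : ι → MvPolynomial (Fin N) (V.comap (algebraMap F Ω)),
    (∀ i, MvPolynomial.map (V.comap (algebraMap F Ω)).subtype (f₀ i) = f i) ∧
      ∃ x : Fin N → V, Co P (fun j => (x j : Ω)) ∧ (∃ j, IsUnit (x j)) ∧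
        Module.finrank (IsLocalRing.ResidueField V)
          (tgs (fun i => MvPolynomial.map (rdO F V) (f₀ i)) fun j =>
            IsLocalRing.residue V (x j)) ≤ d + 1

theorem rsF_eq : rsF V F = rdO F V := rfl

variable {V}

theorem Gsm.gsv {f : ι → MvPolynomial (Fin N) F} (h : Gsm V f d) : Gsv V f d := ⟨h.hom, h.red⟩

theorem smo_iff {f : ι → MvPolynomial (Fin N) F} {P : (Xf f).pt Ω} : Smo V f d P ↔ Smr V f d P :=
  Iff.rfl

end val

end GX
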