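import Pool.Agent.Lib.MP_f80667_ag.Gx.PjC

/-! The degree of transcendence of the affine part, not a domain. -/

open MvPolynomial

namespace GX

variable {κ : Type} [Field κ]

/-- The homomorphism `X_0 ↦ T`, `X_i ↦ T ^ m X_i`. -/
private noncomputable def gbb (κ : Type) [Field κ] (s m : ℕ) :
    MvPolynomial (Option (Fin s)) κ →ₐ[κ] Polynomial (MvPolynomial (Fin s) κ) :=
  aeval fun o => o.elim Polynomial.X fun i => Polynomial.C (X i) * Polynomial.X ^ m

private theorem gbb_monomial (s m : ℕ) (u : Option (Fin s) →₀ ℕ) (c : κ) :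
    gbb κ s m (monomial u c) = Polynomial.C (monomial u.some c) *
      Polynomial.X ^ (u none + m * u.some.degree) := by
  have h0 : (u.prod fun o n => (o.elim Polynomial.X fun i : Fin s =>
      Polynomial.C (X i) * Polynomial.X ^ m : Polynomial (MvPolynomial (Fin s) κ)) ^ n) =
        (Option.elim none Polynomial.X fun i : Fin s =>
          Polynomial.C (X i) * Polynomial.X ^ m : Polynomial (MvPolynomial (Fin s) κ)) ^ u none *
        u.some.prod fun i n => (Option.elim (Option.some i) Polynomial.X fun i : Fin s =>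
          Polynomial.C (X i) * Polynomial.X ^ m : Polynomial (MvPolynomial (Fin s) κ)) ^ n :=
    Finsupp.prod_option_index u (fun (o : Option (Fin s)) (n : ℕ) =>
      (o.elim Polynomial.X fun i : Fin s =>
        Polynomial.C (X i) * Polynomial.X ^ m : Polynomial (MvPolynomial (Fin s) κ)) ^ n)
      (fun o => pow_zero _) (fun o a b => pow_add _ _ _)
  unfold gbb
  rw [aeval_monomial, h0]
  simp only [Option.elim_none, Option.elim_some, mul_pow, Finsupp.prod_mul]
  have h1 : (u.some.prod fun i n => (Polynomial.X ^ m) ^ n :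
      Polynomial (MvPolynomial (Fin s) κ)) = Polynomial.X ^ (m * u.some.degree) := by
    unfold Finsupp.prod Finsupp.degree
    simp only [← pow_mul]
    rw [Finset.prod_pow_eq_pow_sum, ← Finset.mul_sum]
    rfl
  have h2 : (u.some.prod fun i n => (Polynomial.C (X i)) ^ n :
      Polynomial (MvPolynomial (Fin s) κ)) = Polynomial.C (monomial u.some 1) := by
    rw [monomial_eq, C_1, one_mul]
    unfold Finsupp.prod
    rw [map_prod]
    simp only [map_pow]
  rw [h1, h2, pow_add]
  have h3 : (algebraMap κ (Polynomial (MvPolynomial (Fin s) κ))) c = Polynomial.C (C c) := rfl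
  have h4 : (monomial u.some c : MvPolynomial (Fin s) κ) = C c * monomial u.some 1 := by
    rw [C_mul_monomial, mul_one]
  rw [h3, h4, map_mul]
  ring

private theorem gbb_coeff (s m : ℕ) (p : MvPolynomial (Option (Fin s)) κ)
    (b : Option (Fin s) →₀ ℕ) :
    coeff b.some ((gbb κ s m p).coeff (b none + m * b.some.degree)) = coeff b p := by
  induction p using MvPolynomial.induction_on' with
  | monomial u c =>
    rw [gbb_monomial, Polynomial.coeff_C_mul, Polynomial.coeff_X_pow, coeff_monomial]
    by_cases h : u = b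
    · subst h
      rw [if_pos rfl, if_pos rfl, mul_one, coeff_monomial, if_pos rfl]
    · rw [if_neg h]
      split_ifs with h1
      · rw [mul_one, coeff_monomial, if_neg]
        intro h2
        refine h (Finsupp.ext fun o => ?_)
        cases o with
        | none =>
          rw [h2] at h1
          omega
        | some i => exact DFunLike.congr_fun h2 i
      · rw [mul_zero, coeff_zero]
  | add p q hp hq =>
    rw [map_add, Polynomial.coeff_add, coeff_add, hp, hq, coeff_add]

private theorem gbb_inj (s m : ℕ) : Function.Injective (gbb κ s m) := by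
  rw [injective_iff_map_eq_zero]
  intro p hp
  ext b
  rw [← gbb_coeff s m p b, hp, Polynomial.coeff_zero, coeff_zero, coeff_zero]

private theorem gb_hom {N : ℕ} {B : Type} [CommRing B] [Algebra κ B] (y : Fin N → B)
    {p : MvPolynomial (Fin N) κ} {e : ℕ} (hp : p.IsHomogeneous e) :
    aeval (fun j => Polynomial.X * Polynomial.C (y j)) p =
      Polynomial.X ^ e * Polynomial.C (aeval y p) := by
  have h1 : (fun j => Polynomial.X * Polynomial.C (y j)) =
      (Polynomial.X : Polynomial B) • fun j => Polynomial.C (y j) := rfl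
  rw [h1, aeval_smul_hom hp]
  congr 1
  exact MvPolynomial.aeval_algebraMap_apply (B := Polynomial B) y p

/-- The affine part, abstract quotient. -/
private theorem gb_aux {N d : ℕ} {ι : Type} {f : ι → MvPolynomial (Fin N) κ}
    (hom : ∀ i, ∃ e, (f i).IsHomogeneous e)
    (hd : Algebra.trdeg κ (MvPolynomial (Fin N) κ ⧸ Ideal.span (Set.range f)) ≤ (d + 1 : ℕ))
    (k : Fin N) {B : Type} [CommRing B] [Algebra κ B] (π : MvPolynomial (Fin N) κ →ₐ[κ] B)
    (hπs : Function.Surjective π) (hπk : π (X k) = 1) (hπf : ∀ i, π (f i) = 0) {s : ℕ}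
    {z : Fin s → B} (hz : AlgebraicIndependent κ z) : s ≤ d := by
  obtain ⟨y, hy⟩ : ∃ y : Fin N → B, y = fun j => π (X j) := ⟨_, rfl⟩
  have hπ : ∀ p, aeval y p = π p := by
    intro p
    have : (aeval y : MvPolynomial (Fin N) κ →ₐ[κ] B) = π :=
      MvPolynomial.algHom_ext fun j => by rw [aeval_X, hy]
    rw [this]
  have hyk : y k = 1 := by rw [hy]; exact hπk
  have hfi : ∀ i, aeval (fun j => Polynomial.X * Polynomial.C (y j)) (f i) =
      (0 : Polynomial B) := by
    intro i
    obtain ⟨e, he⟩ := hom i
    rw [gb_hom y he, hπ, hπf, map_zero, mul_zero]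
  let θ : (MvPolynomial (Fin N) κ ⧸ Ideal.span (Set.range f)) →ₐ[κ] Polynomial B :=
    Ideal.Quotient.liftₐ (Ideal.span (Set.range f))
      (aeval fun j => Polynomial.X * Polynomial.C (y j)) fun a ha => span_zero hfi ha
  have hθ : ∀ p, θ (Ideal.Quotient.mk _ p) =
      aeval (fun j => Polynomial.X * Polynomial.C (y j)) p := fun p => rfl
  choose w hw using fun i => hπs (z i)
  obtain ⟨m, hm⟩ : ∃ m, ∀ i, (w i).totalDegree ≤ m :=
    ⟨Finset.univ.sup fun i => (w i).totalDegree, fun i =>
      Finset.le_sup (f := fun i => (w i).totalDegree) (Finset.mem_univ i)⟩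
  let a : Fin s → MvPolynomial (Fin N) κ := fun i =>
    ∑ j ∈ Finset.range (m + 1), X k ^ (m - j) * homogeneousComponent j (w i)
  have ha : ∀ i, (a i).IsHomogeneous m := by
    intro i
    refine IsHomogeneous.sum _ _ _ fun j hj => ?_
    have h1 := (isHomogeneous_X_pow (R := κ) k (m - j)).mul
      (homogeneousComponent_isHomogeneous j (w i))
    have h2 : m - j + j = m := by
      have := Finset.mem_range.1 hj
      omega
    rwa [h2] at h1
  have haz : ∀ i, aeval y (a i) = z i := by
    intro i
    change aeval y (∑ j ∈ Finset.range (m + 1), _) = _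
    rw [map_sum]
    have h1 : ∀ j ∈ Finset.range (m + 1),
        aeval y (X k ^ (m - j) * homogeneousComponent j (w i)) =
          aeval y (homogeneousComponent j (w i)) := by
      intro j _
      rw [map_mul, map_pow, aeval_X, hyk, one_pow, one_mul]
    rw [Finset.sum_congr rfl h1, ← map_sum, ← hw i, ← hπ]
    congr 1
    rw [← Finset.sum_subset (Finset.range_mono (Nat.succ_le_succ (hm i)))]
    · exact sum_homogeneousComponent (w i)
    · intro j _ hj
      rw [Finset.mem_range, not_lt] at hj
      exact homogeneousComponent_eq_zero _ _ (by omega)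
  let v : Option (Fin s) → (MvPolynomial (Fin N) κ ⧸ Ideal.span (Set.range f)) :=
    fun o => o.elim (Ideal.Quotient.mk _ (X k)) fun i => Ideal.Quotient.mk _ (a i)
  have hcomp : θ.comp (aeval v) =
      (Polynomial.mapAlgHom (aeval z : MvPolynomial (Fin s) κ →ₐ[κ] B)).comp (gbb κ s m) := by
    refine MvPolynomial.algHom_ext fun o => ?_
    rw [AlgHom.comp_apply, AlgHom.comp_apply, aeval_X, gbb, aeval_X]
    cases o with
    | none =>
      change θ (Ideal.Quotient.mk _ (X k)) = Polynomial.map _ Polynomial.X
      rw [hθ, aeval_X, hyk, Polynomial.C_1, mul_one, Polynomial.map_X]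
    | some i =>
      change θ (Ideal.Quotient.mk _ (a i)) =
        Polynomial.map _ (Polynomial.C (X i) * Polynomial.X ^ m)
      rw [hθ, gb_hom y (ha i), haz, Polynomial.map_mul, Polynomial.map_pow, Polynomial.map_X,
        Polynomial.map_C, mul_comm]
      congr 2
      exact (aeval_X z i).symm
  have hv : AlgebraicIndependent κ v := by
    have h1 : Function.Injective (θ.comp (aeval v)) := by
      rw [hcomp]
      exact (Polynomial.map_injective _ hz).comp (gbb_inj s m)
    rw [AlgHom.coe_comp] at h1
    exact h1.of_comp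
  have hle := hv.cardinalMk_le_trdeg.trans hd
  rw [Cardinal.mk_fintype, Fintype.card_option, Fintype.card_fin] at hle
  have h2 : s + 1 ≤ d + 1 := by exact_mod_cast hle
  omega

/-- **The affine part.** `A` is the homogeneous coordinate ring, any number of components; elements of `A / (x_k - 1)` which are algebraically
independent are fewer than the degree of transcendence of `A`. Proof: `x_j ↦ T x_j` is a homomorphism `A → A / (x_k - 1) [T]`; the elements have lifts
to `A` with the image `T ^ m z_i`; `x_k` has the image `T`. -/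
theorem trd_aff {N d : ℕ} {ι : Type} {f : ι → MvPolynomial (Fin N) κ}
    (hom : ∀ i, ∃ e, (f i).IsHomogeneous e)
    (hd : Algebra.trdeg κ (MvPolynomial (Fin N) κ ⧸ Ideal.span (Set.range f)) ≤ (d + 1 : ℕ))
    (k : Fin N) {s : ℕ}
    {z : Fin s → (MvPolynomial (Fin N) κ ⧸ Ideal.span (Set.range f)) ⧸
      Ideal.span {Ideal.Quotient.mk (Ideal.span (Set.range f)) (X k) - 1}}
    (hz : AlgebraicIndependent κ z) : s ≤ d := by
  refine gb_aux hom hd k ((Ideal.Quotient.mkₐ κ
    (Ideal.span {Ideal.Quotient.mk (Ideal.span (Set.range f)) (X k) - 1})).comp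
      (Ideal.Quotient.mkₐ κ (Ideal.span (Set.range f))))
      ((Ideal.Quotient.mkₐ_surjective κ _).comp (Ideal.Quotient.mkₐ_surjective κ _)) ?_ ?_ hz
  · have h1 : Ideal.Quotient.mk
        (Ideal.span {Ideal.Quotient.mk (Ideal.span (Set.range f)) (X k) - 1})
        (Ideal.Quotient.mk (Ideal.span (Set.range f)) (X k) - 1) = 0 :=
      Ideal.Quotient.eq_zero_iff_mem.2 (Ideal.subset_span (Set.mem_singleton _))
    rw [map_sub, map_one, sub_eq_zero] at h1
    exact h1
  · intro i
    change Ideal.Quotient.mk _ (Ideal.Quotient.mk _ (f i)) = 0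
    rw [Ideal.Quotient.eq_zero_iff_mem.2
      (show f i ∈ Ideal.span (Set.range f) from Ideal.subset_span ⟨i, rfl⟩), map_zero]

end GX
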