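import Pool.Agent.Lib.MP_f80667_ag.Gx.PjB
import Pool.Agent.Lib.MP_f80667_ag.Gx.PjBb
import Pool.Agent.Lib.MP_f80667_ag.Gx.Ca
import Pool.Agent.Lib.MP_f80667_ag.Rsm.GbX

/-! Generic linear forms have no common zero on the variety, one coordinate, any number of components. -/

open MvPolynomial

namespace GX

variable {F : Type} [Field F] {N d : ℕ} {ι : Type} {f : ι → MvPolynomial (Fin N) F}

/-- The homomorphism which eliminates the coefficients `U_rk`. -/
private noncomputable def pjp {B : Type} [CommRing B] [Algebra F B] (d : ℕ) (k : Fin N)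
    (y : Fin N → B) : MvPolynomial (Fin (d + 1) × Fin N) F →ₐ[F]
      MvPolynomial (Fin (d + 1) × {j : Fin N // j ≠ k}) B :=
  aeval fun p => if hp : p.2 = k then -∑ j : {j : Fin N // j ≠ k}, X (p.1, j) * C (y j.1)
    else X (p.1, ⟨p.2, hp⟩)

/-- The affine part in a ring where `x_k` is invertible. -/
private theorem pj_aff (hom : ∀ i, ∃ e, (f i).IsHomogeneous e)
    (hd : Algebra.trdeg F (MvPolynomial (Fin N) F ⧸ Ideal.span (Set.range f)) ≤ (d + 1 : ℕ))
    (k : Fin N) :
    ∃ (B : Type) (_ : CommRing B) (_ : Algebra F B) (y : Fin N → B), Algebra.FiniteType F B ∧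
      (∀ (s : ℕ) (z : Fin s → B), AlgebraicIndependent F z → s ≤ d) ∧
      ∀ (T : Type) [CommRing T] (ρ : MvPolynomial (Fin N) F →+* T), (∀ i, ρ (f i) = 0) →
        ∀ v : T, v * ρ (X k) = 1 → ∃ β : B →+* T, (∀ a, β (algebraMap F B a) = ρ (C a)) ∧
          ∀ j, β (y j) = v * ρ (X j) := by
  let A : Type := MvPolynomial (Fin N) F ⧸ Ideal.span (Set.range f)
  let g : A := Ideal.Quotient.mk (Ideal.span (Set.range f)) (X k) - 1
  refine ⟨A ⧸ Ideal.span {g}, inferInstance, inferInstance,
    fun j => Ideal.Quotient.mk _ (Ideal.Quotient.mk _ (X j)), ?_, ?_, ?_⟩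
  · exact Algebra.FiniteType.of_surjective ((Ideal.Quotient.mkₐ F (Ideal.span {g})).comp
      (Ideal.Quotient.mkₐ F (Ideal.span (Set.range f))))
      ((Ideal.Quotient.mkₐ_surjective F _).comp (Ideal.Quotient.mkₐ_surjective F _))
  · intro s z hz
    exact trd_aff hom hd k hz
  intro T _ ρ h1 v hv
  let _ : Algebra F T := (ρ.comp C).toAlgebra
  have h2 : ∀ p : MvPolynomial (Fin N) F, aeval (fun j => ρ (X j)) p = ρ p := by
    intro p
    have h3 : (aeval (fun j => ρ (X j)) : MvPolynomial (Fin N) F →ₐ[F] T).toRingHom = ρ := by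
      refine MvPolynomial.ringHom_ext (fun a => ?_) fun j => ?_
      · change aeval _ (C a) = _
        rw [aeval_C]
        rfl
      · change aeval _ (X j) = _
        rw [aeval_X]
    exact RingHom.congr_fun h3 p
  have h4 : ∀ i, aeval (v • fun j => ρ (X j)) (f i) = 0 := by
    intro i
    obtain ⟨e, he⟩ := hom i
    rw [aeval_smul_hom he, h2, h1, mul_zero]
  let β₀ : A →+* T := Ideal.Quotient.lift _ (aeval (v • fun j => ρ (X j)) :
      MvPolynomial (Fin N) F →ₐ[F] T).toRingHom fun a ha => span_zero h4 ha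
  have hβ₀ : ∀ p, β₀ (Ideal.Quotient.mk _ p) = aeval (v • fun j => ρ (X j)) p := fun p => rfl
  have hg : β₀ g = 0 := by
    change β₀ (Ideal.Quotient.mk (Ideal.span (Set.range f)) (X k) - 1) = 0
    rw [map_sub, map_one, hβ₀, aeval_X, Pi.smul_apply, smul_eq_mul, hv, sub_self]
  refine ⟨Ideal.Quotient.lift (Ideal.span {g}) β₀ fun a ha => ?_, fun a => ?_, fun j => ?_⟩
  · obtain ⟨b, rfl⟩ := Ideal.mem_span_singleton'.1 ha
    rw [map_mul, hg, mul_zero]
  · change β₀ (Ideal.Quotient.mk _ (C a)) = _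
    rw [hβ₀, aeval_C]
    rfl
  · change β₀ (Ideal.Quotient.mk _ (X j)) = _
    rw [hβ₀, aeval_X]
    rfl

/-- The image of `h`. -/
private theorem pj_zero {T B : Type} [CommRing T] [CommRing B] [Algebra F B] {y : Fin N → B}
    (k : Fin N) (ρ : MvPolynomial (Fin N) (MvPolynomial (Fin (d + 1) × Fin N) F) →+* T)
    (h2 : ∀ r, ρ (lf (gu F d N r)) = 0) (v : T) (hv : v * ρ (X k) = 1) {β : B →+* T}
    (hβ1 : ∀ a, β (algebraMap F B a) = ρ (C (C a))) (hβ2 : ∀ j, β (y j) = v * ρ (X j))
    {h : MvPolynomial (Fin (d + 1) × Fin N) F} (hh : pjp d k y h = 0) : ρ (C h) = 0 := by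
  let ψ : MvPolynomial (Fin (d + 1) × {j : Fin N // j ≠ k}) B →+* T :=
    eval₂Hom β fun p => ρ (C (X (p.1, p.2.1)))
  have h3 : ψ.comp (pjp d k y).toRingHom = ρ.comp C := by
    refine MvPolynomial.ringHom_ext (fun a => ?_) fun p => ?_
    · change ψ (pjp d k y (C a)) = ρ (C (C a))
      have h4 : pjp d k y (C a) = C (algebraMap F B a) := by
        unfold pjp
        rw [aeval_C]
        rfl
      rw [h4]
      change eval₂Hom β _ (C _) = _
      rw [eval₂Hom_C, hβ1]
    · obtain ⟨r, j⟩ := p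
      change ψ (pjp d k y (X (r, j))) = ρ (C (X (r, j)))
      by_cases hj : j = k
      · subst hj
        have h4 : pjp d j y (X (r, j) : MvPolynomial (Fin (d + 1) × Fin N) F) =
            -∑ l : {l : Fin N // l ≠ j}, X (r, l) * C (y l.1) := by
          unfold pjp
          rw [aeval_X]
          exact dif_pos rfl
        have h5 : ψ (pjp d j y (X (r, j) : MvPolynomial (Fin (d + 1) × Fin N) F)) =
            -∑ l : {l : Fin N // l ≠ j}, ρ (C (X (r, l.1))) * (v * ρ (X l.1)) := by
          rw [h4, map_neg, map_sum]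
          congr 1
          refine Finset.sum_congr rfl fun l _ => ?_
          rw [map_mul]
          change eval₂Hom β _ (X _) * eval₂Hom β _ (C _) = _
          rw [eval₂Hom_C, eval₂Hom_X', hβ2]
        have h6 : ρ (C (X (r, j))) * ρ (X j) +
            ∑ l : {l : Fin N // l ≠ j}, ρ (C (X (r, l.1))) * ρ (X l.1) = 0 := by
          rw [← h2 r, lf, map_sum, ← Finset.add_sum_erase _ _ (Finset.mem_univ j)]
          congr 1
          · rw [← map_mul]
            rfl
          · rw [Finset.sum_subtype (p := fun l => l ≠ j) (Finset.univ.erase j) (fun l => by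
              simp)]
            refine Finset.sum_congr rfl fun l _ => ?_
            rw [← map_mul]
            rfl
        rw [h5]
        have h7 : ∑ l : {l : Fin N // l ≠ j}, ρ (C (X (r, l.1))) * (v * ρ (X l.1)) =
            v * ∑ l : {l : Fin N // l ≠ j}, ρ (C (X (r, l.1))) * ρ (X l.1) := by
          rw [Finset.mul_sum]
          exact Finset.sum_congr rfl fun l _ => by ring
        rw [h7]
        linear_combination (-v) * h6 + ρ (C (X (r, j))) * hv
      · have h4 : pjp d k y (X (r, j) : MvPolynomial (Fin (d + 1) × Fin N) F) =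
            X (r, ⟨j, hj⟩) := by
          unfold pjp
          rw [aeval_X]
          exact dif_neg hj
        rw [h4]
        change eval₂Hom β _ (X _) = _
        rw [eval₂Hom_X']
  have h4 : ψ (pjp d k y h) = ρ (C h) := RingHom.congr_fun h3 h
  rw [← h4, hh, map_zero]

/-- **Generic linear forms**, one coordinate. Proof: as `exists_hk`, with `trd_aff`. -/
theorem exists_hkS (hom : ∀ i, ∃ e, (f i).IsHomogeneous e)
    (hd : Algebra.trdeg F (MvPolynomial (Fin N) F ⧸ Ideal.span (Set.range f)) ≤ (d + 1 : ℕ))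
    (k : Fin N) :
    ∃ h : MvPolynomial (Fin (d + 1) × Fin N) F, h ≠ 0 ∧ ∃ s,
      C h * X k ^ s ∈ jf (MvPolynomial (Fin (d + 1) × Fin N) F) f ⊔
        Ideal.span (Set.range fun r => lf (gu F d N r)) := by
  obtain ⟨B, _, _, y, hfin, hB, hβ⟩ := pj_aff hom hd k
  have hcard : d + Fintype.card (Fin (d + 1) × {j : Fin N // j ≠ k}) <
      Fintype.card (Fin (d + 1) × Fin N) := by
    rw [Fintype.card_prod, Fintype.card_prod, Fintype.card_fin, Fintype.card_fin]
    have h1 : Fintype.card {j : Fin N // j ≠ k} = N - 1 := by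
      rw [Fintype.card_subtype_compl, Fintype.card_fin, Fintype.card_subtype_eq]
    have h2 : 0 < N := k.pos
    obtain ⟨n, rfl⟩ : ∃ n, N = n + 1 := ⟨N - 1, by omega⟩
    rw [h1, Nat.add_sub_cancel, Nat.mul_succ]
    omega
  obtain ⟨h, h0, hh⟩ := not_inj hB hcard (pjp d k y)
  refine ⟨h, h0, ?_⟩
  set J := jf (MvPolynomial (Fin (d + 1) × Fin N) F) f ⊔
    Ideal.span (Set.range fun r => lf (gu F d N r)) with hJ
  let S := MvPolynomial (Fin N) (MvPolynomial (Fin (d + 1) × Fin N) F) ⧸ J
  let T := Localization.Away (Ideal.Quotient.mk J (X k))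
  obtain ⟨v, hv⟩ := (IsLocalization.Away.algebraMap_isUnit (S := T)
    (Ideal.Quotient.mk J (X k))).exists_left_inv
  obtain ⟨ρ, hρ⟩ : ∃ ρ : MvPolynomial (Fin N) (MvPolynomial (Fin (d + 1) × Fin N) F) →+* T,
      ρ = (algebraMap S T).comp (Ideal.Quotient.mk J) := ⟨_, rfl⟩
  have hv' : v * ρ (X k) = 1 := by
    rw [hρ]
    exact hv
  obtain ⟨β, hβ1, hβ2⟩ := hβ T (ρ.comp (map (algebraMap F _))) (fun i => by
      rw [RingHom.comp_apply, hρ, RingHom.comp_apply]
      have h2 : Ideal.Quotient.mk J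
          (map (algebraMap F (MvPolynomial (Fin (d + 1) × Fin N) F)) (f i)) = 0 := by
        rw [Ideal.Quotient.eq_zero_iff_mem]
        exact Ideal.mem_sup_left (Ideal.subset_span ⟨i, rfl⟩)
      rw [h2, map_zero]) v (by
      rw [RingHom.comp_apply, map_X]
      exact hv')
  have h1 := pj_zero (y := y) k ρ (fun r => by
      rw [hρ, RingHom.comp_apply]
      have h2 : Ideal.Quotient.mk J (lf (gu F d N r)) = 0 := by
        rw [Ideal.Quotient.eq_zero_iff_mem]
        exact Ideal.mem_sup_right (Ideal.subset_span ⟨r, rfl⟩)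
      rw [h2, map_zero]) v hv' (β := β) (fun a => by
      rw [hβ1, RingHom.comp_apply, map_C]
      rfl) (fun j => by
      rw [hβ2, RingHom.comp_apply, map_X]) hh
  rw [hρ, RingHom.comp_apply, IsLocalization.map_eq_zero_iff
    (Submonoid.powers (Ideal.Quotient.mk J (X k))) T] at h1
  obtain ⟨⟨m, s, hs⟩, hm⟩ := h1
  refine ⟨s, ?_⟩
  rw [← Ideal.Quotient.eq_zero_iff_mem, map_mul, map_pow, mul_comm]
  rw [← hm]
  exact congrArg (· * _) hs

end GX
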