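import Pool.Agent.Lib.MP_f80667_ag.Rsm.Ga
import Pool.Agent.Lib.MP_f80667_ag.Gx.PjCb
import Pool.Agent.Lib.MP_f80667_ag.Ng.Bc
import Pool.Agent.Lib.MP_f80667_ag.Rsm.GbY

/-! General linear forms have no common zero on the variety, any number of components. -/

open MvPolynomial

namespace GX

variable {κ : Type} [Field κ] {N d : ℕ} {ι : Type} {f : ι → MvPolynomial (Fin N) κ}

private theorem pjcb_map {S : Type} [CommRing S] [Algebra κ S] (U : Fin (d + 1) → Fin N → S)
    {g : MvPolynomial (Fin N) (MvPolynomial (Fin (d + 1) × Fin N) κ)}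
    (hg : g ∈ jf (MvPolynomial (Fin (d + 1) × Fin N) κ) f ⊔
      Ideal.span (Set.range fun r => lf (gu κ d N r))) :
    map (aeval (fun q : Fin (d + 1) × Fin N => U q.1 q.2) :
      MvPolynomial (Fin (d + 1) × Fin N) κ →ₐ[κ] S).toRingHom g ∈
        jf S f ⊔ Ideal.span (Set.range fun r => lf (U r)) := by
  have h := Ideal.mem_map_of_mem (map (aeval (fun q : Fin (d + 1) × Fin N => U q.1 q.2) :
      MvPolynomial (Fin (d + 1) × Fin N) κ →ₐ[κ] S).toRingHom) hg
  rw [Ideal.map_sup, jf_map, Ideal.map_span, ← Set.range_comp] at h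
  have h1 : (⇑(map (aeval (fun q : Fin (d + 1) × Fin N => U q.1 q.2) :
      MvPolynomial (Fin (d + 1) × Fin N) κ →ₐ[κ] S).toRingHom) ∘ fun r => lf (gu κ d N r)) =
        fun r => (lf (U r) : MvPolynomial (Fin N) S) := by
    funext r
    simp only [Function.comp_apply, lf, map_sum, map_mul, map_C, map_X]
    refine Finset.sum_congr rfl fun j _ => ?_
    have h2 : (aeval (fun q : Fin (d + 1) × Fin N => U q.1 q.2) :
      MvPolynomial (Fin (d + 1) × Fin N) κ →ₐ[κ] S).toRingHom (gu κ d N r j) = U r j := by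
      change aeval _ (X (r, j)) = _
      rw [aeval_X]
    rw [h2]
  rw [h1] at h
  exact h

/-- **Generic linear forms.** Proof: the product of the `h` of `exists_hkS` (`Rsm/GbY`); specialize the generic matrix to `U` (`jf_map`, `jf_self`)
and divide by the value of `h`. -/
theorem exists_h1S [IsAlgClosed κ] (hom : ∀ i, ∃ e, (f i).IsHomogeneous e)
    (hd : Algebra.trdeg κ (MvPolynomial (Fin N) κ ⧸ Ideal.span (Set.range f)) ≤ (d + 1 : ℕ)) :
    ∃ h : MvPolynomial (Fin (d + 1) × Fin N) κ, h ≠ 0 ∧ ∀ U : Fin (d + 1) → Fin N → κ,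
      eval (fun q => U q.1 q.2) h ≠ 0 → ∀ k, ∃ s, (X k : MvPolynomial (Fin N) κ) ^ s ∈
        Ideal.span (Set.range f) ⊔ Ideal.span (Set.range fun r => lf (U r)) := by
  choose h h0 s hs using fun k => exists_hkS hom hd k
  refine ⟨∏ k, h k, Finset.prod_ne_zero_iff.2 fun k _ => h0 k, fun U hU k => ⟨s k, ?_⟩⟩
  have h1 : C (∏ k, h k) * X k ^ s k ∈ jf (MvPolynomial (Fin (d + 1) × Fin N) κ) f ⊔
      Ideal.span (Set.range fun r => lf (gu κ d N r)) := by
    rw [← Finset.mul_prod_erase _ _ (Finset.mem_univ k), map_mul, mul_comm (C (h k)), mul_assoc]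
    exact Ideal.mul_mem_left _ _ (hs k)
  have h2 := pjcb_map (S := κ) U h1
  rw [map_mul, map_C, map_pow, map_X, jf_self] at h2
  have h3 : (aeval (fun q : Fin (d + 1) × Fin N => U q.1 q.2) :
      MvPolynomial (Fin (d + 1) × Fin N) κ →ₐ[κ] κ).toRingHom (∏ k, h k) =
        eval (fun q : Fin (d + 1) × Fin N => U q.1 q.2) (∏ k, h k) := rfl
  rw [h3] at h2
  have h4 := Ideal.mul_mem_left _
    (C (eval (fun q : Fin (d + 1) × Fin N => U q.1 q.2) (∏ k, h k))⁻¹) h2
  rw [← mul_assoc, ← map_mul, inv_mul_cancel₀ hU, map_one, one_mul] at h4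
  exact h4

end GX
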