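import Pool.Agent.Lib.MP_f80667_ag.Rsm.Ga
import Pool.Agent.Lib.MP_f80667_ag.Ng.Fc
import Pool.Agent.Lib.MP_f80667_ag.Ng.F

/-! A general point of a component. -/

open MvPolynomial

namespace GX

variable {κ : Type} [Field κ] {N d : ℕ} {ι : Type} {f : ι → MvPolynomial (Fin N) κ}

/-- Nondegenerate forms exist only where the tangent space is small. Proof: `t ↦ U t` is injective on the tangent space. -/
theorem ndg_fr {U : Fin (d + 1) → Fin N → κ} {x : Fin N → κ} (h : Ndg f U x) :
    Module.finrank κ (tgs f x) ≤ d + 1 := by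
  classical
  let L : (Fin N → κ) →ₗ[κ] (Fin (d + 1) → κ) := Matrix.toLin' (Matrix.of U)
  have hL : ∀ t r, L t r = ∑ j, U r j * t j := fun t r => by
    change Matrix.toLin' (Matrix.of U) t r = _
    rw [Matrix.toLin'_apply]
    rfl
  have hinj : Function.Injective (L.comp (tgs f x).subtype) := by
    rw [← LinearMap.ker_eq_bot, Submodule.eq_bot_iff]
    intro t ht
    rw [LinearMap.mem_ker] at ht
    refine Subtype.ext (h t.1 t.2 fun r => ?_)
    rw [← hL]
    exact congrFun ht r
  have h1 := LinearMap.finrank_le_finrank_of_injective hinj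
  rwa [Module.finrank_fin_fun] at h1

/-- **A general point of the component.** Proof: as `Gdk.exists_pt0` in `Ng/Fc`: `hx` gives `x₀` in the component with small tangent space and `y ∉ tgs f x₀`; `exists_U1`, `ndg_rows` give `U₀`, `e` with a nonzero determinant: the polynomial `g₁` in `x` (the determinant of the rows `∂ f_i`, `U₀`)
is not in `P`; `g₂ = ∑ C (y_j) * pderiv j (f i)` is not in `P` for some `i`; `g₃ = X k - C (y k)` is not in `P` (`hk`). `P` is prime, so `g₁ g₂ g₃ ∉ P`, and `P` is the vanishing ideal of its zeros: there is a zero `x` of `P` with `g₁ g₂ g₃ (x) ≠ 0`; `ndg_of`, `ndg_fr`. -/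
theorem exists_ptS [IsAlgClosed κ] {P : Ideal (MvPolynomial (Fin N) κ)}
    (hP : P ∈ (Ideal.span (Set.range f)).minimalPrimes) {y : Fin N → κ} {k : Fin N}
    (hx : ∃ x, (∀ g ∈ P, eval x g = 0) ∧ Module.finrank κ (tgs f x) ≤ d + 1 ∧ y ∉ tgs f x)
    (hk : ∃ x : Fin N → κ, (∀ g ∈ P, eval x g = 0) ∧ x k ≠ y k) :
    ∃ x : Fin N → κ, (∀ g ∈ P, eval x g = 0) ∧ x k ≠ y k ∧
      Module.finrank κ (tgs f x) ≤ d + 1 ∧ y ∉ tgs f x := by
  classical
  have hpr : P.IsPrime := hP.1.1
  obtain ⟨x₀, hx₀, hfr, hy₀⟩ := hx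
  obtain ⟨U, hU⟩ := exists_U1 hfr
  obtain ⟨e, he⟩ := ndg_rows hU
  rw [mem_tgs] at hy₀
  push Not at hy₀
  obtain ⟨i, hi⟩ := hy₀
  obtain ⟨z, hz, hzk⟩ := hk
  let M : Matrix (Fin N) (Fin N) (MvPolynomial (Fin N) κ) := Matrix.of fun a j =>
    Sum.elim (fun i j => pderiv j (f i)) (fun r j => C (U r j)) (e a) j
  have hM : ∀ x : Fin N → κ, eval x M.det = (Matrix.of fun k => rwm f x U (e k)).det := by
    intro x
    rw [RingHom.map_det]
    congr 1
    ext a j
    change eval x (Sum.elim (fun i j => pderiv j (f i)) (fun r j => C (U r j)) (e a) j) =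
      Sum.elim (fun i j => eval x (pderiv j (f i))) U (e a) j
    rcases e a with b | b
    · rfl
    · exact eval_C _
  have hm1 : M.det ∉ P := by
    intro h
    apply he
    rw [← hM]
    exact hx₀ _ h
  have hm2 : (∑ j, pderiv j (f i) * C (y j)) ∉ P := by
    intro h
    apply hi
    have h2 := hx₀ _ h
    rw [map_sum] at h2
    rw [← h2]
    refine Finset.sum_congr rfl fun j _ => ?_
    rw [map_mul, eval_C]
  have hm3 : (X k - C (y k) : MvPolynomial (Fin N) κ) ∉ P := by
    intro h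
    have h2 := hz _ h
    rw [map_sub, eval_X, eval_C, sub_eq_zero] at h2
    exact hzk h2
  have hg : M.det * (∑ j, pderiv j (f i) * C (y j)) * (X k - C (y k)) ∉ P := by
    intro h
    rcases hpr.mem_or_mem h with h1 | h1
    · rcases hpr.mem_or_mem h1 with h2 | h2
      · exact hm1 h2
      · exact hm2 h2
    · exact hm3 h1
  rw [← IsPrime.vanishingIdeal_zeroLocus (K := κ) P, mem_vanishingIdeal_iff] at hg
  push Not at hg
  obtain ⟨x, hx, hgx⟩ := hg
  have hae : ∀ p : MvPolynomial (Fin N) κ, aeval x p = eval x p := fun p =>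
    DFunLike.congr_fun (coe_aeval_eq_eval x) p
  have hxf : ∀ g ∈ P, eval x g = 0 := by
    intro g hgP
    rw [← hae]
    exact hx g hgP
  rw [hae, map_mul, map_mul, map_sub, eval_X, eval_C, map_sum] at hgx
  have h1 := mul_ne_zero_iff.1 hgx
  have h2 := mul_ne_zero_iff.1 h1.1
  refine ⟨x, hxf, sub_ne_zero.1 h1.2, ?_, ?_⟩
  · refine ndg_fr (U := U) (ndg_of (e := e) ?_)
    rw [← hM]
    exact h2.1
  · intro ht
    rw [mem_tgs] at ht
    apply h2.2
    rw [← ht i]
    refine Finset.sum_congr rfl fun j _ => ?_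
    rw [map_mul, eval_C]

end GX
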