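import Pool.Agent.Lib.MP_f80667_ag.Rsm.Gb
import Pool.Agent.Lib.MP_f80667_ag.Rsm.Gc
import Pool.Agent.Lib.MP_f80667_ag.Ng.Ff

/-! The fibre at the points of a component with a different coordinate. -/

open MvPolynomial

namespace GX

variable {κ : Type} [Field κ] {N d : ℕ} {ι : Type} {f : ι → MvPolynomial (Fin N) κ}

/-- The differences `x_j - y_j` in the coordinate ring of a component. -/
private noncomputable def zgd (P : Ideal (MvPolynomial (Fin N) κ)) (y : Fin N → κ) :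
    Fin N → MvPolynomial (Fin N) κ ⧸ P :=
  fun j => Ideal.Quotient.mk _ (X j - C (y j))

/-- The matrix with the rows `∂ f_i` and `U_r` over the coordinate ring of a component. -/
private noncomputable def mgd (P : Ideal (MvPolynomial (Fin N) κ))
    (f : ι → MvPolynomial (Fin N) κ) (d : ℕ) (y : Fin N → κ)
    (k : Fin N) (e : Fin N → ι ⊕ Fin (d + 1)) :
    Matrix (Fin N) (Fin N) (MvPolynomial (Fin (d + 1) × {j : Fin N // j ≠ k})
      (MvPolynomial (Fin N) κ ⧸ P)) :=
  Matrix.of fun l j => Sum.elim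
    (fun i : ι => (C (Ideal.Quotient.mk P (pderiv j (f i))) :
      MvPolynomial (Fin (d + 1) × {j : Fin N // j ≠ k})
        (MvPolynomial (Fin N) κ ⧸ P)))
    (fun r : Fin (d + 1) => wk d k (zgd P y)
      (X (r, j) : MvPolynomial (Fin (d + 1) × Fin N) κ)) (e l)

private theorem gd_key {P : Ideal (MvPolynomial (Fin N) κ)} {y : Fin N → κ} {k : Fin N}
    (e : Fin N → ι ⊕ Fin (d + 1))
    {U : Fin (d + 1) → Fin N → κ} {x : Fin N → κ} (hx : ∀ g ∈ P, eval x g = 0)
    (hU : ∀ r, ∑ j, U r j * (x j - y j) = 0) (hk : x k ≠ y k) :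
    ∃ ψ : MvPolynomial (Fin (d + 1) × {j : Fin N // j ≠ k})
        (MvPolynomial (Fin N) κ ⧸ P) →+* κ,
      ψ (mgd P f d y k e).det = (Matrix.of fun l => rwm f x U (e l)).det ∧
      ∀ h, ψ (wk d k (zgd P y) h) = eval (fun q => U q.1 q.2) h := by
  have hav : ∀ p, (aeval x : MvPolynomial (Fin N) κ →ₐ[κ] κ) p = eval x p := by
    intro p
    rw [aeval_def, Algebra.algebraMap_self]
    rfl
  have hker : ∀ a ∈ P, (aeval x : MvPolynomial (Fin N) κ →ₐ[κ] κ) a = 0 := by
    intro a ha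
    rw [hav]
    exact hx a ha
  set φ : (MvPolynomial (Fin N) κ ⧸ P) →ₐ[κ] κ :=
    Ideal.Quotient.liftₐ _ (aeval x) hker with hφ
  have hφmk : ∀ p, φ (Ideal.Quotient.mk _ p) = eval x p := fun p => hav p
  have hz : ∀ j, φ (zgd P y j) = x j - y j := by
    intro j
    unfold zgd
    rw [hφmk, map_sub, eval_X, eval_C]
  have hU' : ∀ r, ∑ j, U r j * φ (zgd P y j) = 0 := by
    intro r
    rw [← hU r]
    exact Finset.sum_congr rfl fun j _ => by rw [hz]
  have hk' : φ (zgd P y k) ≠ 0 := by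
    rw [hz]
    exact sub_ne_zero.2 hk
  refine ⟨eval₂Hom φ.toRingHom
    (fun p : Fin (d + 1) × {j : Fin N // j ≠ k} => U p.1 p.2.1 / φ (zgd P y k)), ?_, ?_⟩
  · refine (RingHom.map_det (eval₂Hom φ.toRingHom
      (fun p : Fin (d + 1) × {j : Fin N // j ≠ k} => U p.1 p.2.1 / φ (zgd P y k)))
      (mgd P f d y k e)).trans ?_
    congr 1
    ext l j
    rw [RingHom.mapMatrix_apply, Matrix.map_apply, mgd, Matrix.of_apply, Matrix.of_apply, rwm]
    rcases e l with i | r
    · simp only [Sum.elim_inl, coe_eval₂Hom, eval₂_C]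
      exact hφmk _
    · simp only [Sum.elim_inr, coe_eval₂Hom]
      rw [wk_ev φ hU' hk', eval_X]
  · intro h
    exact wk_ev φ hU' hk' h

/-- The points of a component with a different coordinate: there is a smooth point of the component whose tangent space does not contain
`y`. Proof: as `Gdk.exists_hx` in `Ng/Ff` for the domain `B = κ[x] / P`; if no zero of `P` has `x k ≠ y k` then `h = 1`; otherwise `exists_ptS`. -/
private theorem gd_hx [IsAlgClosed κ] (hf : Gsk f d) {P : Ideal (MvPolynomial (Fin N) κ)}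
    (hP : P ∈ (Ideal.span (Set.range f)).minimalPrimes) {y : Fin N → κ}
    (hx : ∃ x, (∀ g ∈ P, eval x g = 0) ∧ Module.finrank κ (tgs f x) ≤ d + 1 ∧ y ∉ tgs f x)
    (k : Fin N) :
    ∃ h : MvPolynomial (Fin (d + 1) × Fin N) κ, h ≠ 0 ∧ ∀ U : Fin (d + 1) → Fin N → κ,
      eval (fun q => U q.1 q.2) h ≠ 0 → ∀ x, (∀ g ∈ P, eval x g = 0) →
        (∀ r, ∑ j, U r j * (x j - y j) = 0) → x k ≠ y k → Ndg f U x := by
  by_cases hk : ∃ x : Fin N → κ, (∀ g ∈ P, eval x g = 0) ∧ x k ≠ y k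
  · obtain ⟨x₀, hx₀, hxk, hfr, hyt⟩ := exists_ptS hP hx hk
    have hle : Ideal.span (Set.range f) ≤ P := hP.1.2
    have hx₀f : ∀ i, eval x₀ (f i) = 0 := fun i =>
      hx₀ _ (hle (Ideal.subset_span ⟨i, rfl⟩))
    have hv : (fun j => x₀ j - y j) ∉ tgs f x₀ := by
      intro hmem
      have h1 := (tgs f x₀).sub_mem (self_tgs hf.hom hx₀f) hmem
      have h2 : x₀ - (fun j => x₀ j - y j) = y := by
        funext j
        simp
      rw [h2] at h1
      exact hyt h1
    obtain ⟨U₀, hU₀, hN₀⟩ := exists_U0 hfr hv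
    obtain ⟨e, he⟩ := ndg_rows hN₀
    have hprime : P.IsPrime := hP.1.1
    have hq : (mgd P f d y k e).det ≠ 0 := by
      intro h0
      obtain ⟨ψ, h1, -⟩ := gd_key (f := f) e hx₀ hU₀ hxk
      rw [h0, map_zero] at h1
      exact he h1.symm
    have hN : 0 < N := k.pos
    have hcard : (d + 1) + Fintype.card (Fin (d + 1) × {j : Fin N // j ≠ k}) ≤
        Fintype.card (Fin (d + 1) × Fin N) := by
      have h1 : Fintype.card {j : Fin N // j ≠ k} = N - 1 := by
        rw [Fintype.card_subtype_compl, Fintype.card_fin, Fintype.card_subtype_eq]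
      rw [Fintype.card_prod, Fintype.card_prod, Fintype.card_fin, Fintype.card_fin, h1]
      obtain ⟨M, rfl⟩ : ∃ M, N = M + 1 := ⟨N - 1, by omega⟩
      rw [Nat.add_sub_cancel]
      nlinarith
    have hpos : 0 < Fintype.card (Fin (d + 1) × Fin N) := by
      rw [Fintype.card_prod, Fintype.card_fin, Fintype.card_fin]
      positivity
    have hsurj : Function.Surjective (Ideal.Quotient.factorₐ κ hle) :=
      Ideal.Quotient.factor_surjective hle
    have hdim : Algebra.trdeg κ (MvPolynomial (Fin N) κ ⧸ P) ≤ (d + 1 : ℕ) :=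
      (_root_.trdeg_le_of_surjective (Ideal.Quotient.factorₐ κ hle) hsurj).trans hf.dim
    obtain ⟨h, hh, hdvd⟩ := exists_dvd (F := κ) (n := d + 1) hdim hcard hpos
      (wk d k (zgd P y)) hq
    refine ⟨h, hh, fun U hUh x hx hU hxk' => ?_⟩
    obtain ⟨ψ, h1, h2⟩ := gd_key (f := f) e hx hU hxk'
    have h3 := map_dvd ψ hdvd
    rw [h1, h2] at h3
    refine ndg_of (e := e) fun h4 => hUh ?_
    rw [h4] at h3
    exact zero_dvd_iff.1 h3
  · push Not at hk
    exact ⟨1, one_ne_zero, fun U _ x hx _ hxk => absurd (hk x hx) hxk⟩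

/-- The points of a component which is a cone over `y`: there are none. -/
private theorem gd_cone [IsAlgClosed κ] (hf : Gsk f d) {P : Ideal (MvPolynomial (Fin N) κ)}
    (hP : P ∈ (Ideal.span (Set.range f)).minimalPrimes) {y : Fin N → κ}
    (hc : ∀ x, (∀ g ∈ P, eval x g = 0) → ∀ c : κ, ∀ g ∈ P, eval (x + c • y) g = 0)
    (k : Fin N) :
    ∃ h : MvPolynomial (Fin (d + 1) × Fin N) κ, h ≠ 0 ∧ ∀ U : Fin (d + 1) → Fin N → κ,
      eval (fun q => U q.1 q.2) h ≠ 0 → ∀ x, (∀ g ∈ P, eval x g = 0) →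
        (∀ r, ∑ j, U r j * (x j - y j) = 0) → x k ≠ y k → Ndg f U x := by
  obtain ⟨h, h0, hh⟩ := exists_h1S hf.hom hf.dim
  refine ⟨h, h0, fun U hU x hx hUx hk => absurd ?_ hk⟩
  have hle : Ideal.span (Set.range f) ≤ P := hP.1.2
  have h1 : ∀ g ∈ Ideal.span (Set.range f), eval (x + (-1 : κ) • y) g = 0 := fun g hg =>
    hc x hx (-1) g (hle hg)
  obtain ⟨s, hs⟩ := hh U hU k
  have h2 : Ideal.span (Set.range f) ⊔ Ideal.span (Set.range fun r => lf (U r)) ≤
      RingHom.ker (eval (x + (-1 : κ) • y)) := by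
    refine sup_le (fun g hg => h1 g hg) (Ideal.span_le.2 ?_)
    rintro _ ⟨r, rfl⟩
    change eval (x + (-1 : κ) • y) (lf (U r)) = 0
    rw [← hUx r, lf, map_sum]
    refine Finset.sum_congr rfl fun j _ => ?_
    rw [map_mul, eval_C, eval_X, Pi.add_apply, Pi.smul_apply, smul_eq_mul]
    ring
  have h3 : eval (x + (-1 : κ) • y) ((X k : MvPolynomial (Fin N) κ) ^ s) = 0 := h2 hs
  rw [map_pow, eval_X, Pi.add_apply, Pi.smul_apply, smul_eq_mul] at h3
  have h4 := eq_zero_of_pow_eq_zero h3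
  linear_combination h4

/-- **The points of a component with a different coordinate.** -/
theorem Gsk.exists_hx [IsAlgClosed κ] (hf : Gsk f d) {P : Ideal (MvPolynomial (Fin N) κ)}
    (hP : P ∈ (Ideal.span (Set.range f)).minimalPrimes) {y : Fin N → κ} (hy : Zp f y)
    (hs : Module.finrank κ (tgs f y) ≤ d + 1) (k : Fin N) :
    ∃ h : MvPolynomial (Fin (d + 1) × Fin N) κ, h ≠ 0 ∧ ∀ U : Fin (d + 1) → Fin N → κ,
      eval (fun q => U q.1 q.2) h ≠ 0 → ∀ x, (∀ g ∈ P, eval x g = 0) →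
        (∀ r, ∑ j, U r j * (x j - y j) = 0) → x k ≠ y k → Ndg f U x := by
  rcases hf.gen P hP y hy hs with ⟨x, -, h1, h2, h3⟩ | h
  · exact gd_hx hf hP ⟨x, h1, h2, h3⟩ k
  · exact gd_cone hf hP h k

end GX
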