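import Pool.Agent.Lib.MP_f80667_ag.Rsm.Gd
import Pool.Agent.Lib.MP_f80667_ag.Ng.Fb

/-! All points of a general fibre through a smooth point are nondegenerate. -/

open MvPolynomial

namespace GX

variable {κ : Type} [Field κ] {N d : ℕ} {ι : Type} {f : ι → MvPolynomial (Fin N) κ}

/-- **All points of a general fibre through a smooth point `y` are nondegenerate.** Proof: as `Gdk.exists_hd` in `Ng/Fg`: `exists_hy` for `x = y`, the product of the `h` of `Gsk.exists_hx` over the minimal prime ideals (finitely many: `Ideal.finite_minimalPrimes_of_isNoetherianRing`) and `k`; a zero of `f` is a zero of one of the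
minimal prime ideals (`Ideal.exists_minimalPrimes_le` for the maximal ideal of the point). -/
theorem Gsk.exists_hd [IsAlgClosed κ] (hf : Gsk f d) {y : Fin N → κ} (hy : Zp f y)
    (hs : Module.finrank κ (tgs f y) ≤ d + 1) :
    ∃ h : MvPolynomial (Fin (d + 1) × Fin N) κ, h ≠ 0 ∧ ∀ U : Fin (d + 1) → Fin N → κ,
      eval (fun q => U q.1 q.2) h ≠ 0 → ∀ x, (∀ i, eval x (f i) = 0) →
        (∀ r, ∑ j, U r j * (x j - y j) = 0) → Ndg f U x := by
  obtain ⟨h0, h00, h01⟩ := exists_hy (d := d) (f := f) hs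
  have hfin : (Ideal.span (Set.range f)).minimalPrimes.Finite :=
    Ideal.finite_minimalPrimes_of_isNoetherianRing _ _
  have hft : Fintype (Ideal.span (Set.range f)).minimalPrimes := hfin.fintype
  choose h hh0 hh1 using fun (P : (Ideal.span (Set.range f)).minimalPrimes) (k : Fin N) =>
    hf.exists_hx P.2 hy hs k
  refine ⟨h0 * ∏ P, ∏ k, h P k, mul_ne_zero h00 (Finset.prod_ne_zero_iff.2 fun P _ =>
    Finset.prod_ne_zero_iff.2 fun k _ => hh0 P k), fun U hU x hx hUx => ?_⟩
  rw [map_mul, map_prod] at hU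
  by_cases hxy : x = y
  · rw [hxy]
    exact h01 U (left_ne_zero_of_mul hU)
  · obtain ⟨k, hk⟩ := Function.ne_iff.1 hxy
    have h1 : Ideal.span (Set.range f) ≤ RingHom.ker (eval x) := by
      rw [Ideal.span_le]
      rintro _ ⟨i, rfl⟩
      exact hx i
    have hpr : (RingHom.ker (eval x)).IsPrime := RingHom.ker_isPrime (eval x)
    obtain ⟨P, hP, hPx⟩ := Ideal.exists_minimalPrimes_le h1
    have h2 := Finset.prod_ne_zero_iff.1 (right_ne_zero_of_mul hU) ⟨P, hP⟩ (Finset.mem_univ _)
    rw [map_prod] at h2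
    exact hh1 ⟨P, hP⟩ k U (Finset.prod_ne_zero_iff.1 h2 k (Finset.mem_univ k)) x
      (fun g hg => hPx hg) hUx hk

end GX
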