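import Pool.Agent.Lib.MP_f80667_ag.Rsm.Gb
import Pool.Agent.Lib.MP_f80667_ag.Rsm.Ge
import Pool.Agent.Lib.MP_f80667_ag.Ng.Hb

/-! A general projection over `κ` at a smooth point: the linear forms have coefficients in `R`. -/

open MvPolynomial

namespace GX

variable {R κ : Type} [CommRing R] [IsDomain R] [IsDiscreteValuationRing R] [Field κ]
  [Algebra R κ] {N d : ℕ} {ι : Type} {f : ι → MvPolynomial (Fin N) R}

private theorem rsgf_lv {R κ : Type} [CommRing R] [Field κ] [Algebra R κ] {N : ℕ}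
    (a : Fin N → R) (x : Fin N → κ) :
    eval x (lf fun j => algebraMap R κ (a j)) = lv a x := by
  simp only [lf, lv, map_sum, map_mul, eval_C, eval_X]

private theorem rsgf_map {R κ : Type} [CommRing R] [Field κ] [Algebra R κ] {N : ℕ}
    (a : Fin N → R) : map (algebraMap R κ) (lf a) = lf fun j => algebraMap R κ (a j) := by
  simp only [lf, map_sum, map_mul, map_C, map_X]

private theorem rsgf_hom {R : Type} [CommRing R] {N : ℕ} (a : Fin N → R) :
    (lf a).IsHomogeneous 1 := by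
  unfold lf
  refine IsHomogeneous.sum _ _ _ fun j _ => ?_
  have h := (isHomogeneous_C (Fin N) (a j)).mul (isHomogeneous_X R j)
  rwa [zero_add] at h

private theorem rsgf_sup {κ : Type} [Field κ] {N : ℕ} {I I' : Ideal (MvPolynomial (Fin N) κ)}
    {S S' : Set (MvPolynomial (Fin N) κ)} (hI : I = Ideal.span S) (hI' : I' = Ideal.span S')
    {x : Fin N → κ} (h : ∀ g ∈ S, eval x g = 0) (h' : ∀ g ∈ S', eval x g = 0)
    {g : MvPolynomial (Fin N) κ} (hg : g ∈ I ⊔ I') : eval x g = 0 := by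
  subst hI hI'
  rw [← Ideal.span_union] at hg
  have h1 : Ideal.span (S ∪ S') ≤ RingHom.ker (eval x) := by
    rw [Ideal.span_le]
    rintro g (hg | hg)
    · exact h g hg
    · exact h' g hg
  exact h1 hg

/-- **A general projection.** Proof: as `Gdr.exists_uv` in `Ng/Hb`, with `exists_h1S` in the place of `exists_h1` and `Gsk.exists_hd` in the place of `Gdk.exists_hd` (the helper lemmas `nghb_..` of `Ng/Hb` are private: copy them). -/
theorem Gsr.exists_uv (hR : Rk R κ) [IsAlgClosed κ] (hf : Gsr κ f d) {y : Fin N → κ}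
    (hy : Zp (fr κ f) y) (hs : Module.finrank κ (tgs (fr κ f) y) ≤ d + 1) :
    ∃ (U : Fin (d + 1) → Fin N → R) (V : Fin N → R) (Z : Finset (Fin N → κ)),
      (∀ k, ∃ s, (X k : MvPolynomial (Fin N) R) ^ s ∈
        Ideal.span (Set.range f) ⊔ Ideal.span (Set.range fun r => lf (U r))) ∧
      (fun r => lv (U r) y) ≠ (0 : Fin (d + 1) → κ) ∧
      (∀ x ∈ Z, (∀ i, aeval x (f i) = 0) ∧ ∀ r, lv (U r) x = lv (U r) y) ∧
      (∀ x ∈ Z, ∀ x' ∈ Z, lv V x = lv V x' → x = x') ∧
      ∀ g : MvPolynomial (Fin N) κ, ∃ q : Polynomial κ, q.degree < Z.card ∧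
        g - Polynomial.aeval (map (algebraMap R κ) (lf V)) q ∈ Ideal.span (Set.range (fr κ f)) ⊔
          ju (fun r j => algebraMap R κ (U r j)) y := by
  classical
  obtain ⟨f', hf'⟩ : ∃ f' : ι → MvPolynomial (Fin N) κ, f' = fr κ f := ⟨_, rfl⟩
  have hred : Gsk f' d := by rw [hf']; exact hf.red
  have hy' : Zp f' y := by rw [hf']; exact hy
  have hs' : Module.finrank κ (tgs f' y) ≤ d + 1 := by rw [hf']; exact hs
  obtain ⟨h1, h10, hh1⟩ := exists_h1S hred.hom hred.dim
  obtain ⟨h2, h20, hh2⟩ := hred.exists_hd hy' hs'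
  obtain ⟨u, hu⟩ := exists_ptR hR.inf (mul_ne_zero h10 h20)
  rw [map_mul] at hu
  obtain ⟨U, hU⟩ : ∃ U : Fin (d + 1) → Fin N → R, U = fun r j => u (r, j) := ⟨_, rfl⟩
  obtain ⟨W, hW⟩ : ∃ W : Fin (d + 1) → Fin N → κ, W = fun r j => algebraMap R κ (U r j) :=
    ⟨_, rfl⟩
  have hWu : (fun q : Fin (d + 1) × Fin N => W q.1 q.2) = fun q => algebraMap R κ (u q) := by
    rw [hW, hU]
  have hu1 : eval (fun q : Fin (d + 1) × Fin N => W q.1 q.2) h1 ≠ 0 := by
    rw [hWu]
    exact left_ne_zero_of_mul hu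
  have hu2 : eval (fun q : Fin (d + 1) × Fin N => W q.1 q.2) h2 ≠ 0 := by
    rw [hWu]
    exact right_ne_zero_of_mul hu
  have hFκ : ∀ k, ∃ s, (X k : MvPolynomial (Fin N) κ) ^ s ∈
      Ideal.span (Set.range f') ⊔ Ideal.span (Set.range fun r => lf (W r)) :=
    fun k => hh1 W hu1 k
  have hlv : ∀ (r : Fin (d + 1)) (x : Fin N → κ), eval x (lf (W r)) = lv (U r) x := fun r x => by
    rw [hW]
    exact rsgf_lv (U r) x
  have hne : (fun r => lv (U r) y) ≠ (0 : Fin (d + 1) → κ) := by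
    intro h
    apply hy.1
    funext k
    obtain ⟨s, hs⟩ := hFκ k
    have h3 := rsgf_sup rfl rfl (x := y) (by rintro _ ⟨i, rfl⟩; exact hy'.2 i) (by
      rintro _ ⟨r, rfl⟩
      change eval y (lf (W r)) = 0
      rw [hlv]
      exact congrFun h r) hs
    rw [map_pow, eval_X] at h3
    by_contra h4
    exact pow_ne_zero s h4 h3
  have hcl : ∀ k, ∃ s, (X k : MvPolynomial (Fin N) R) ^ s ∈
      Ideal.span (Set.range f) ⊔ Ideal.span (Set.range fun r => lf (U r)) := by
    have h5 : Set.range (Sum.elim f fun r => lf (U r)) =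
        Set.range f ∪ Set.range fun r => lf (U r) := Set.Sum.elim_range _ _
    have h6 : Set.range (fr κ (Sum.elim f fun r => lf (U r))) =
        Set.range f' ∪ Set.range fun r => lf (W r) := by
      have h7 : fr κ (Sum.elim f fun r => lf (U r)) = Sum.elim f' fun r => lf (W r) := by
        funext i
        rcases i with i | r
        · change map (algebraMap R κ) (f i) = f' i
          rw [hf']
        · change map (algebraMap R κ) (lf (U r)) = lf (W r)
          rw [rsgf_map, hW]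
      rw [h7]
      exact Set.Sum.elim_range _ _
    obtain ⟨s, hs⟩ := nakR hR (f := Sum.elim f fun r => lf (U r)) (by
      rintro (i | r)
      · exact hf.hom i
      · exact ⟨1, rsgf_hom (U r)⟩) (fun k => by
        obtain ⟨s, hs⟩ := hFκ k
        rw [h6, Ideal.span_union]
        exact ⟨s, hs⟩)
    intro k
    rw [h5, Ideal.span_union] at hs
    exact ⟨s, hs k⟩
  have hom' : ∀ i, ∃ e, (f' i).IsHomogeneous e := hred.hom
  have hz : ∀ x : Fin N → κ, (∀ g ∈ Ideal.span (Set.range f') ⊔ ju W y, eval x g = 0) →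
      (∀ i, eval x (f' i) = 0) ∧ ∀ r, ∑ j, W r j * (x j - y j) = 0 := by
    intro x hx
    refine ⟨fun i => hx _ (Ideal.mem_sup_left (Ideal.subset_span ⟨i, rfl⟩)), fun r => ?_⟩
    have h3 := hx _ (Ideal.mem_sup_right (Ideal.subset_span ⟨r, rfl⟩))
    simp only [map_sum, map_mul, map_sub, eval_C, eval_X] at h3
    exact h3
  have hJ : (Ideal.span (Set.range f') ⊔ ju W y).IsRadical := by
    refine rad_of_nd fun x hx j => ?_
    obtain ⟨h3, h4⟩ := hz x hx
    exact nd_sup h3 h4 (hh2 W hu2 x h3 h4) j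
  have hZ := fib_fin (y := y) (fin_low hom' hFκ)
  obtain ⟨V, hV⟩ := exists_vR hR.inf hZ
  have hv : ∀ x : Fin N → κ, eval x (map (algebraMap R κ) (lf V)) = lv V x := fun x => by
    rw [rsgf_map]
    exact rsgf_lv V x
  have hint := interp hJ (Z := hZ.toFinset) (fun x => by rw [Set.Finite.mem_toFinset]; rfl)
    (v := map (algebraMap R κ) (lf V)) (fun x hx x' hx' h => by
      rw [hv, hv] at h
      exact hV x ((Set.Finite.mem_toFinset hZ).1 hx) x' ((Set.Finite.mem_toFinset hZ).1 hx') h)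
  refine ⟨U, V, hZ.toFinset, hcl, hne, fun x hx => ?_, fun x hx x' hx' h =>
    hV x ((Set.Finite.mem_toFinset hZ).1 hx) x' ((Set.Finite.mem_toFinset hZ).1 hx') h,
      fun g => ?_⟩
  · obtain ⟨h3, h4⟩ := hz x ((Set.Finite.mem_toFinset hZ).1 hx)
    refine ⟨fun i => ?_, fun r => ?_⟩
    · have h5 := h3 i
      rw [hf'] at h5
      change eval x (map (algebraMap R κ) (f i)) = 0 at h5
      rw [eval_map] at h5
      exact h5
    · have h5 := h4 r
      simp only [mul_sub, Finset.sum_sub_distrib, hW] at h5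
      exact sub_eq_zero.1 h5
  · obtain ⟨q, hq, hq'⟩ := hint g
    refine ⟨q, hq, ?_⟩
    subst hW hf'
    exact hq'

end GX
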