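import Pool.Agent.Lib.MP_f80667_ag.Rsm.Gg

/-! Finitely many projections. -/

open MvPolynomial

namespace GX

variable {R κ : Type} [CommRing R] [IsDomain R] [IsDiscreteValuationRing R] [Field κ]
  [Algebra R κ] {N d : ℕ} {ι : Type} {f : ι → MvPolynomial (Fin N) R}

private theorem gh_cp {R κ : Type} [CommRing R] [CommRing κ] [Algebra R κ] {N d : ℕ}
    (ψ : Prj R N d) (x : Fin N → κ) :
    aeval x (ψ.cp (Polynomial.C ψ.D)) = aeval (ψ.uv x) ψ.D := by
  have h1 : ψ.cp (Polynomial.C ψ.D) = aeval (fun r => lf (ψ.u r)) ψ.D := by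
    unfold Prj.cp pe
    rw [Polynomial.coe_eval₂RingHom, Polynomial.eval₂_C]
    rfl
  have h2 : ∀ r, aeval x (lf (ψ.u r)) = ψ.uv x r := by
    intro r
    unfold Prj.uv lv lf
    rw [map_sum]
    refine Finset.sum_congr rfl fun j _ => ?_
    rw [map_mul, aeval_C, aeval_X]
  rw [h1, comp_aeval_apply, funext h2]

/-- **Finitely many.** Proof: as `cov_ofR` in `Ng/K`: the ideal of `κ[x]` generated by the reductions of all `ψ.cp (C ψ.D)`, `ψ` in order, is generated by finitely many of them (Noetherian); if all of these vanish at a zero `y` of the reduction, all `ψ.D` vanish at `y`, so `y` is not smooth by `Gsr.exists_at`.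
(`eval (((ψ i).map φ).uv y) ((ψ i).map φ).D = aeval ((ψ i).uv y) (ψ i).D`: `MvPolynomial.eval_map`, see the end of `exists_datl'` in `Ng/T`.) -/
theorem Gsr.exists_prj (hR : Rk R κ) [IsAlgClosed κ] (hf : Gsr κ f d) :
    ∃ (m : ℕ) (ψ : Fin m → Prj R N d), (∀ i, (ψ i).Ok f) ∧ Cvs (algebraMap R κ) f ψ := by
  classical
  obtain ⟨g, hg⟩ : ∃ g : {ψ : Prj R N d // ψ.Ok f} → MvPolynomial (Fin N) κ,
      g = fun ψ => map (algebraMap R κ) (ψ.1.cp (Polynomial.C ψ.1.D)) := ⟨_, rfl⟩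
  have h4 : (Ideal.span (Set.range g)).FG := IsNoetherian.noetherian _
  obtain ⟨T, hT, hT'⟩ := Submodule.fg_span_iff_fg_span_finset_subset _ |>.1 h4
  have h5 : ∀ t : T, ∃ ψ : {ψ : Prj R N d // ψ.Ok f}, g ψ = t := fun t => hT t.2
  choose q hq using h5
  refine ⟨T.card, fun i => (q (T.equivFin.symm i)).1, fun i => (q (T.equivFin.symm i)).2,
    fun y hy hs => ?_⟩
  by_contra hc
  push Not at hc
  obtain ⟨ψ₀, hok₀, hD⟩ := Gsr.exists_at hR hf hy hs
  apply hD
  have key : ∀ ψ : {ψ : Prj R N d // ψ.Ok f}, aeval y (g ψ) = aeval (ψ.1.uv y) ψ.1.D := by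
    intro ψ
    rw [hg, ← gh_cp]
    exact aeval_map_algebraMap κ y _
  have h6 : Ideal.span (Set.range g) ≤
      RingHom.ker (aeval y : MvPolynomial (Fin N) κ →ₐ[κ] κ) := by
    have h7 : Ideal.span (Set.range g) = Ideal.span (T : Set (MvPolynomial (Fin N) κ)) := hT'
    rw [h7, Ideal.span_le]
    intro t ht
    have h8 := hc (T.equivFin ⟨t, ht⟩)
    rw [Equiv.symm_apply_apply] at h8
    change aeval y t = 0
    have h9 := hq ⟨t, ht⟩
    have h10 : t = g (q ⟨t, ht⟩) := h9.symm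
    rw [h10, key]
    change eval ((q ⟨t, ht⟩).1.uv y) (map (algebraMap R κ) (q ⟨t, ht⟩).1.D) = 0 at h8
    rw [eval_map] at h8
    exact h8
  have h11 := h6 (Ideal.subset_span ⟨⟨ψ₀, hok₀⟩, rfl⟩)
  change aeval y (g ⟨ψ₀, hok₀⟩) = 0 at h11
  rw [key] at h11
  exact h11

end GX
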