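import Pool.Agent.Lib.MP_f80667_ag.Gx.XG
import Pool.Agent.Lib.MP_f80667_ag.Rsm.B

/-! The theorems of `Gx/XG` for the points of a part `sm` of the variety. -/

open ZC BE PE CV IntermediateField Polynomial

namespace GX

variable {F : Type} [Field F] {N d m : ℕ} {ι : Type} {f : ι → MvPolynomial (Fin N) F} {K Ω : Type}
  [Field K] [CharZero K] [Field Ω] [Algebra K Ω] [Algebra F K] [Algebra F Ω]
  [IsScalarTower F K Ω] [IsAlgClosure K Ω] {L : Ld K Ω}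

variable {sm : (Xf f).pt Ω → Prop} [SOk f L sm]

/-- A point over `M` near a given point with coordinates near `M`. -/
theorem exists_nearSm {ψ : Fin m → Prj K N d} (hψ : ∀ i, PjSm sm L (ψ i)) (hc : CvrSm sm L ψ)
    {M : IntermediateField K Ω} {x z : Fin N → Ω} {P : (Xf f).pt Ω} (hS : sm P) (hPx : Co P x)
    (hx : ∀ j, L.nm (x j) ≤ 1)
    (h1 : ∃ j, L.nm (x j) = 1) (h0 : ∀ i, MvPolynomial.aeval x (f i) = 0) (hz : Iv L M z)
    (hxz : ∀ j, L.nm (x j - z j) < 1) :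
    ∃ x' : Fin N → Ω, Iv L M x' ∧ x' ≠ 0 ∧ (∀ i, MvPolynomial.aeval x' (f i) = 0) ∧
      ∀ j, L.nm (x j - x' j) < 1 := by
  obtain ⟨k, hk⟩ := hc P x hS hPx hx h1
  have h := (hψ k).toPj
  obtain ⟨hzu, hzy, hzy'⟩ := h.uv_iv hz
  obtain ⟨hxu, hxy⟩ := h.uv_le hx
  have hu : ∀ r, L.nm ((ψ k).uv x r - (ψ k).uv z r) < 1 := fun r => lv_lt (h.iu r) hxz
  have hy : L.nm ((ψ k).yv x - (ψ k).yv z) < 1 := lv_lt h.iy hxz
  have hD := h.D_close hxu (fun r => (hzu r).2) hu hk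
  have hne : x ≠ 0 := by
    intro h2
    obtain ⟨j, hj⟩ := h1
    rw [h2, Pi.zero_apply, L.zero] at hj
    exact zero_ne_one hj
  have hDne : MvPolynomial.aeval ((ψ k).uv x) (ψ k).D ≠ 0 :=
    L.ne_zero (by rw [hk]; exact zero_lt_one)
  obtain ⟨hG, -⟩ := h.pt_eq hne h0 hDne
  obtain ⟨r₀, -, hr₀⟩ := Finset.exists_max_image Finset.univ
    (fun r => L.nm ((ψ k).uv x r - (ψ k).uv z r)) ⟨0, Finset.mem_univ _⟩
  have hGz : L.nm (pe ((ψ k).uv z) ((ψ k).yv z) (ψ k).G) < 1 := by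
    have h2 := pe_close h.iG hxu hxy (fun r => (hzu r).2) hzy'
      (t := max (L.nm ((ψ k).uv x r₀ - (ψ k).uv z r₀)) (L.nm ((ψ k).yv x - (ψ k).yv z)))
      ((L.nonneg _).trans (le_max_left _ _))
      (fun r => (hr₀ r (Finset.mem_univ r)).trans (le_max_left _ _)) (le_max_right _ _)
    rw [hG, zero_sub, L.neg] at h2
    exact h2.trans_lt (max_lt (hu r₀) hy)
  obtain ⟨w, hw, hw1, hwG, hww⟩ := h.root hzu hD hzy hzy' hGz
  obtain ⟨k1, -, k3, k4, k5, k6⟩ := h.pt_iv hzu hw hw1 hwG hD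
  refine ⟨_, k1, k3, k4, fun j => ?_⟩
  refine h.sheet hx (fun j => (k1 j).2) hne k3 h0 k4 hk (fun r => ?_) ?_ j
  · rw [k5]
    exact hu r
  · rw [k6]
    have h2 : (ψ k).yv x - w = ((ψ k).yv x - (ψ k).yv z) - (w - (ψ k).yv z) := by ring
    rw [h2]
    exact (L.sub _ _).trans_lt (max_lt hy (hww.trans_lt hGz))

end GX
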