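import Pool.Agent.Lib.MP_f80667_ag.Gx.XH
import Pool.Agent.Lib.MP_f80667_ag.Rsm.GxXG
import Pool.Agent.Lib.MP_f80667_ag.Rsm.B

/-! The theorems of `Gx/XH` for the points of a part `sm` of the variety. -/

open ZC BE PE CV IntermediateField Polynomial

namespace GX

section sec

end sec

variable {F : Type} [Field F] {N d m : ℕ} {ι : Type} {f : ι → MvPolynomial (Fin N) F} {K Ω : Type}
  [Field K] [CharZero K] [Field Ω] [Algebra K Ω] [Algebra F K] [Algebra F Ω]
  [IsScalarTower F K Ω] [IsAlgClosure K Ω] {L : Ld K Ω}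

variable {sm : (Xf f).pt Ω → Prop} [SOk f L sm]

/-- **The lift of a class.** Proof: normalized coordinates `x` of `P`, `x i = 1`; Teichmueller representatives `z j` of `x j`; `M` the field generated by the `z j`; `exists_near`: a point `sm` over `M`
congruent to `P`. If `γ P` is congruent to `P` then `γ` fixes the `z j`. -/
theorem exists_clsSm (hf : Hm f) {ψ : Fin m → Prj K N d} (hψ : ∀ i, PjSm sm L (ψ i))
    (hc : CvrSm sm L ψ) (P : (Xf f).pt Ω) (hS : sm P) : ∃ Q : (Xf f).pt Ω, Nea f L P Q ∧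
      ∀ γ : Ω ≃ₐ[K] Ω, Nea f L ((Xf f).act γ P) P → (Xf f).act γ Q = Q := by
  classical
  obtain ⟨x, i, hx, hi, hx1⟩ := exists_nco (L := L) hf P
  choose Nf hNf z hz hxz using fun j => Ld.te_rep (L := L) (hx1 j)
  have hN0 : ∏ j, Nf j ≠ 0 := Finset.prod_ne_zero_iff.2 fun j _ => hNf j
  have hz' : ∀ j, z j ∈ L.Te (∏ j, Nf j) := fun j =>
    Ld.te_dvd (Finset.dvd_prod_of_mem Nf (Finset.mem_univ j)) (hz j)
  generalize ∏ j, Nf j = N' at hN0 hz'
  have hz1 : ∀ j, L.nm (z j) ≤ 1 := fun j => Ld.te_int hN0 (hz' j)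
  have hmem : ∀ j, z j ∈ IntermediateField.adjoin K (Set.range z) := fun j =>
    IntermediateField.subset_adjoin K _ ⟨j, rfl⟩
  obtain ⟨x', hx', hne, hx0', hxx'⟩ := exists_nearSm hψ hc hS hx hx1 ⟨i, by rw [hi, L.one]⟩
    (co_zero hx) (M := IntermediateField.adjoin K (Set.range z)) (z := z)
    (fun j => ⟨hmem j, hz1 j⟩) hxz
  obtain ⟨Q, hQ⟩ := co_mk hne hx0'
  obtain ⟨k, -, hk⟩ := Finset.exists_max_image Finset.univ (fun j => L.nm (x j - x' j))
    ⟨i, Finset.mem_univ i⟩
  refine ⟨Q, ⟨L.nm (x k - x' k), hxx' k, nrh_mk (hxx' k) hx hQ hx1 (fun j => (hx' j).2)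
    ⟨i, by rw [hi, L.one]⟩ fun j => hk j (Finset.mem_univ j)⟩, ?_⟩
  rintro γ ⟨r, hr, hγ⟩
  have h1 : ∀ j, L.nm (γ (x j) - x j) ≤ r := nrh_one hf hr hγ (co_act γ hx) hx
    (by rw [hi, map_one]) hi (fun j => by rw [L.act]; exact hx1 j) hx1
  have hγz : ∀ j, γ (z j) = z j := by
    intro j
    refine Ld.te_inj hN0 (Ld.te_act γ (hz' j)) (hz' j) ?_
    have e : γ (z j) - z j = γ (z j - x j) + ((γ (x j) - x j) + (x j - z j)) := by
      rw [map_sub]
      ring
    rw [e]
    refine (L.add _ _).trans_lt (max_lt ?_ ((L.add _ _).trans_lt (max_lt ((h1 j).trans_lt hr)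
      (hxz j))))
    rw [L.act, L.sub_comm]
    exact hxz j
  have hfix : ∀ y ∈ IntermediateField.adjoin K (Set.range z), γ y = y := by
    intro y hy
    induction hy using IntermediateField.adjoin_induction with
    | mem w hw =>
      obtain ⟨j, rfl⟩ := hw
      exact hγz j
    | algebraMap a => exact γ.commutes a
    | add a b _ _ ha hb => rw [map_add, ha, hb]
    | inv a _ ha => rw [map_inv₀, ha]
    | mul a b _ _ ha hb => rw [map_mul, ha, hb]
  have h2 := co_act γ hQ
  have h3 : (fun j => γ (x' j)) = x' := funext fun j => hfix _ (hx' j).1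
  rw [h3] at h2
  exact co_eq h2 hQ

/-- **The equivariant lift of the classes of the points of `sm`.** -/
theorem exists_eqsSm (hf : Hm f) {ψ : Fin m → Prj K N d} (hψ : ∀ i, PjSm sm L (ψ i))
    (hc : CvrSm sm L ψ) :
    ∃ s : (Xf f).pt Ω → (Xf f).pt Ω, (∀ (γ : Ω ≃ₐ[K] Ω) P, s ((Xf f).act γ P) = (Xf f).act γ (s P)) ∧
      (∀ P, sm P → Nea f L P (s P)) ∧ ∀ P P', sm P → Nea f L P P' → s P = s P' := by
  classical
  let sd : Setoid ((Xf f).pt Ω) := ⟨Nea f L, ⟨Nea.refl hf, Nea.symm, Nea.trans hf⟩⟩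
  let iX : MulAction (Ω ≃ₐ[K] Ω) ((Xf f).pt Ω) :=
    { smul := fun γ P => (Xf f).act γ P
      one_smul := fun P => act_one (fct f) P
      mul_smul := fun γ δ P => act_mul (fct f) γ δ P }
  let iO : MulAction (Ω ≃ₐ[K] Ω) (Option ((Xf f).pt Ω)) :=
    { smul := fun γ o => o.map fun P => (Xf f).act γ P
      one_smul := fun o => by
        cases o with
        | none => rfl
        | some P => exact congrArg some (act_one (fct f) P)
      mul_smul := fun γ δ o => by
        cases o with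
        | none => rfl
        | some P => exact congrArg some (act_mul (fct f) γ δ P) }
  let iC : MulAction (Ω ≃ₐ[K] Ω) (Quotient sd) :=
    { smul := fun γ => Quotient.map ((Xf f).act γ) fun _ _ h => Nea.act γ h
      one_smul := fun c => by
        induction c using Quotient.inductionOn with
        | h P => exact congrArg (Quotient.mk sd) (act_one (fct f) P)
      mul_smul := fun γ δ c => by
        induction c using Quotient.inductionOn with
        | h P => exact congrArg (Quotient.mk sd) (act_mul (fct f) γ δ P) }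
  obtain ⟨s, hs1, hs2⟩ := xh_sec (Γ := Ω ≃ₐ[K] Ω) (C := Quotient sd)
    (X := Option ((Xf f).pt Ω))
    (fun c x => ∀ P, Quotient.mk sd P = c → sm P → ∃ y, x = some y ∧ Nea f L P y)
    (fun γ c x h P hP hSP => by
      have h1 : Quotient.mk sd ((Xf f).act γ⁻¹ P) = c := by
        have h2 : Quotient.mk sd ((Xf f).act γ⁻¹ P) = γ⁻¹ • (Quotient.mk sd P) := rfl
        rw [h2, hP, inv_smul_smul]
      obtain ⟨y, hy, hPy⟩ := h _ h1 (SOk.act L γ⁻¹ P hSP)
      refine ⟨(Xf f).act γ y, by rw [hy]; rfl, ?_⟩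
      have h3 := Nea.act γ hPy
      have h4 : (Xf f).act γ ((Xf f).act γ⁻¹ P) = P := by
        rw [← act_mul (fct f), mul_inv_cancel, act_one (fct f)]
      rwa [h4] at h3)
    (fun c => by
      induction c using Quotient.inductionOn with
      | h P =>
        by_cases hP : sm P
        · obtain ⟨Q, h1, h2⟩ := exists_clsSm hf hψ hc P hP
          refine ⟨some Q, fun P' h3 _ => ⟨Q, rfl, ?_⟩, fun γ hγ => ?_⟩
          · exact (Nea.trans hf (Quotient.exact h3) h1)
          · exact congrArg some (h2 γ (Quotient.exact hγ))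
        · refine ⟨none, fun P' h3 h4 => absurd (SOk.nea (L := L) P' P (Quotient.exact h3) h4) hP,
            fun _ _ => rfl⟩)
  refine ⟨fun P => (s (Quotient.mk sd P)).getD P, fun γ P => ?_, fun P hP => ?_,
    fun P P' hP h => ?_⟩
  · have h1 := hs1 γ (Quotient.mk sd P)
    change (s (γ • Quotient.mk sd P)).getD ((Xf f).act γ P) =
      (Xf f).act γ ((s (Quotient.mk sd P)).getD P)
    rw [h1]
    generalize s (Quotient.mk sd P) = o
    cases o with
    | none => rfl
    | some y => rfl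
  · obtain ⟨y, h1, h2⟩ := hs2 (Quotient.mk sd P) P rfl hP
    change Nea f L P ((s (Quotient.mk sd P)).getD P)
    rw [h1]
    exact h2
  · have h3 : Quotient.mk sd P = Quotient.mk sd P' := Quotient.sound h
    obtain ⟨y, h1, h2⟩ := hs2 (Quotient.mk sd P) P rfl hP
    change (s (Quotient.mk sd P)).getD P = (s (Quotient.mk sd P')).getD P'
    rw [← h3, h1]
    rfl

/-- If `k` is the residue degree of the field of `P` then `s P` is a point over `Ur ⊥ k`. -/
theorem eqs_fpSm (hf : Hm f) {s : (Xf f).pt Ω → (Xf f).pt Ω}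
    (h1 : ∀ (γ : Ω ≃ₐ[K] Ω) P, s ((Xf f).act γ P) = (Xf f).act γ (s P))
    (h2 : ∀ P P', sm P → Nea f L P P' → s P = s P') {M : IntermediateField K Ω} {k : ℕ}
    (hk : L.Rf M k) {P : (Xf f).pt Ω} (hS : sm P) (hP : Fp (Xf f) M P) :
    Fp (Xf f) (L.Ur ⊥ k) (s P) := by
  obtain ⟨x, i, hx, hi, hx1⟩ := exists_nco (L := L) hf P
  have h3 : ∀ j, ∃ z ∈ L.Te k, L.nm (x j - z) < 1 := fun j =>
    hk.res (x j) (fp_mem hP hx hi j) (hx1 j)
  choose z hz hxz using h3
  obtain ⟨j0, -, hj0⟩ := Finset.exists_max_image Finset.univ (fun j => L.nm (x j - z j))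
    ⟨i, Finset.mem_univ i⟩
  intro γ hγ
  have h4 : Nea f L P ((Xf f).act γ P) := by
    refine Nea.symm ⟨L.nm (x j0 - z j0), hxz j0, nrh_mk (hxz j0) (co_act γ hx) hx (fun j => ?_) hx1
      ⟨i, ?_⟩ fun j => ?_⟩
    · rw [L.act]
      exact hx1 j
    · rw [L.act, hi, L.one]
    · have h5 : γ (z j) = z j :=
        (IntermediateField.mem_fixingSubgroup_iff _ γ).1 hγ _ (Ld.te_ur (hz j))
      have h6 : γ (x j) - x j = γ (x j - z j) + (z j - x j) := by
        rw [map_sub, h5]
        ring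
      rw [h6]
      refine (L.add _ _).trans (max_le ?_ ?_)
      · rw [L.act]
        exact hj0 j (Finset.mem_univ j)
      · rw [L.sub_comm]
        exact hj0 j (Finset.mem_univ j)
  rw [← h1]
  exact (h2 _ _ hS h4).symm

end GX
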