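import Pool.Agent.Lib.MP_f80667_ag.Rsm.Ga

/-! Saturated models: change of the ring. -/

open MvPolynomial
open scoped TensorProduct

namespace GX

private theorem sat_smul {R R' M : Type} [CommRing R] [CommRing R'] [Algebra R R'] [CommRing M]
    [Algebra R M] (r : R') (y : R' ⊗[R] M) : (r ⊗ₜ[R] (1 : M)) * y = r • y := by
  induction y with
  | zero => rw [mul_zero, smul_zero]
  | tmul a b =>
    rw [Algebra.TensorProduct.tmul_mul_tmul, one_mul, TensorProduct.smul_tmul', smul_eq_mul]
  | add a b ha hb => rw [mul_add, smul_add, ha, hb]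

private theorem sat_aux {R R' P M : Type} [CommRing R] [CommRing R'] [IsDomain R'] [Algebra R R']
    [CommRing P] [Algebra R P] [CommRing M] [Algebra R M] [Module.Flat R M] (ψ : P →ₐ[R] M)
    {r : R'} (hr : r ≠ 0) (y : R' ⊗[R] P)
    (h : Algebra.TensorProduct.map (AlgHom.id R R') ψ ((r ⊗ₜ[R] (1 : P)) * y) = 0) :
    Algebra.TensorProduct.map (AlgHom.id R R') ψ y = 0 := by
  rw [map_mul, Algebra.TensorProduct.map_tmul, map_one, AlgHom.id_apply, sat_smul] at h
  have h4 := Module.Flat.isSMulRegular_of_nonZeroDivisors (M := R' ⊗[R] M)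
    (mem_nonZeroDivisors_of_ne_zero hr)
  apply h4
  show r • _ = r • _
  rw [h, smul_zero]

/-- **A flat model stays flat.** Proof: `M = R[x] / (f)` is torsion free over the valuation ring `R` (Bezout), so flat (`Module.Flat.flat_iff_torsion_eq_bot_of_isBezout`); `R' ⊗ M` is flat over the domain `R'`, so torsion free; the kernel of `R' ⊗ R[x] → R' ⊗ M` is the ideal generated by the
`f_i` (`Algebra.TensorProduct.lTensor_ker`, `Ideal.Quotient.mkₐ_ker`) and `R' ⊗ R[x] = R'[x]` (`MvPolynomial.algebraTensorAlgEquiv`); see `jf_radical` in `Gx/PjEb` for the same identifications. -/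
theorem sat_up {R R' : Type} [CommRing R] [IsDomain R] [ValuationRing R] [CommRing R']
    [IsDomain R'] [Algebra R R'] {N : ℕ} {ι : Type} {f : ι → MvPolynomial (Fin N) R}
    (h : ∀ (r : R) (g : MvPolynomial (Fin N) R), r ≠ 0 → C r * g ∈ Ideal.span (Set.range f) →
      g ∈ Ideal.span (Set.range f)) {r : R'} {g : MvPolynomial (Fin N) R'} (hr : r ≠ 0)
    (hg : C r * g ∈ Ideal.span (Set.range fun i => map (algebraMap R R') (f i))) :
    g ∈ Ideal.span (Set.range fun i => map (algebraMap R R') (f i)) := by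
  have htf : Submodule.torsion R (MvPolynomial (Fin N) R ⧸ Ideal.span (Set.range f)) = ⊥ := by
    rw [eq_bot_iff]
    rintro x hx
    rw [Submodule.mem_torsion_iff] at hx
    obtain ⟨⟨c, hc⟩, hcx⟩ := hx
    obtain ⟨s, rfl⟩ := Ideal.Quotient.mk_surjective x
    rw [Submodule.mem_bot, Ideal.Quotient.eq_zero_iff_mem]
    apply h c s (nonZeroDivisors.ne_zero hc)
    rw [← Ideal.Quotient.eq_zero_iff_mem, MvPolynomial.C_mul']
    exact hcx
  have hflat : Module.Flat R (MvPolynomial (Fin N) R ⧸ Ideal.span (Set.range f)) :=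
    Module.Flat.flat_iff_torsion_eq_bot_of_isBezout.2 htf
  have hk := Algebra.TensorProduct.lTensor_ker (A := R')
    (Ideal.Quotient.mkₐ R (Ideal.span (Set.range f))) (Ideal.Quotient.mkₐ_surjective R _)
  have hI : RingHom.ker (Ideal.Quotient.mkₐ R (Ideal.span (Set.range f))) =
      Ideal.span (Set.range f) := Ideal.Quotient.mkₐ_ker R _
  rw [hI] at hk
  have hj : ∀ g : MvPolynomial (Fin N) R',
      g ∈ Ideal.span (Set.range fun i => map (algebraMap R R') (f i)) ↔
      Algebra.TensorProduct.map (AlgHom.id R R') (Ideal.Quotient.mkₐ R (Ideal.span (Set.range f)))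
        ((algebraTensorAlgEquiv R R').symm g) = 0 := by
    intro g
    rw [← RingHom.mem_ker, hk]
    have h1 : Ideal.span (Set.range fun i => map (algebraMap R R') (f i)) =
        (((Ideal.span (Set.range f)).map
        (Algebra.TensorProduct.includeRight : MvPolynomial (Fin N) R →ₐ[R] R' ⊗[R] _)).map
        (algebraTensorAlgEquiv (σ := Fin N) R R').toRingEquiv) := by
      rw [Ideal.map_span, Ideal.map_span, ← Set.range_comp, ← Set.range_comp]
      congr 2
      funext i
      simp
    rw [h1]
    constructor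
    · intro h
      obtain ⟨x, hx, rfl⟩ := (Ideal.mem_map_of_equiv _ _).mp h
      simpa using hx
    · intro h
      exact (Ideal.mem_map_of_equiv _ _).mpr ⟨_, h, by simp⟩
  rw [hj] at hg ⊢
  have h2 : (algebraTensorAlgEquiv R R').symm (C r * g) =
      (r ⊗ₜ[R] (1 : MvPolynomial (Fin N) R)) * (algebraTensorAlgEquiv R R').symm g := by
    rw [map_mul]
    congr 1
    exact (algebraTensorAlgEquiv (σ := Fin N) R R').symm.commutes r
  rw [h2] at hg
  exact sat_aux _ hr _ hg

end GX
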