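import Pool.Agent.Lib.MP_f80667_ag.Rsm.Ga
import Pool.Agent.Lib.MP_f80667_ag.Cpe.Ext

/-! A prime ideal over an algebraically closed field stays prime. -/

open MvPolynomial

namespace GX

section hb

variable {E Ω : Type} [Field E] [Field Ω] [Algebra E Ω] {N : ℕ}

/-- The extension of a linear functional of `E[x]` to `R[x]`. -/
private noncomputable def hbl (l : MvPolynomial (Fin N) E →ₗ[E] E) (R : Type) [CommRing R]
    [Algebra E R] : MvPolynomial (Fin N) R →ₗ[R] R :=
  (basisMonomials (Fin N) R).constr R fun m => algebraMap E R (l (monomial m 1))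

private theorem hbl_mon (l : MvPolynomial (Fin N) E →ₗ[E] E) (R : Type) [CommRing R]
    [Algebra E R] (m : Fin N →₀ ℕ) (c : R) :
    hbl l R (monomial m c) = c * algebraMap E R (l (monomial m 1)) := by
  have h1 : monomial m c = c • basisMonomials (Fin N) R m := by
    rw [coe_basisMonomials, smul_monomial, smul_eq_mul, mul_one]
  rw [h1, map_smul, hbl, Module.Basis.constr_basis, smul_eq_mul]

private theorem hbl_map (l : MvPolynomial (Fin N) E →ₗ[E] E) {R S : Type} [CommRing R]
    [Algebra E R] [CommRing S] [Algebra E S] (θ : R →ₐ[E] S) (p : MvPolynomial (Fin N) R) :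
    hbl l S (MvPolynomial.map (θ : R →+* S) p) = θ (hbl l R p) := by
  induction p using MvPolynomial.induction_on' with
  | monomial m c =>
    rw [map_monomial, hbl_mon, hbl_mon, map_mul, θ.commutes]
    rfl
  | add p q hp hq => rw [map_add, map_add, map_add, map_add, hp, hq]

private theorem hbl_self (l : MvPolynomial (Fin N) E →ₗ[E] E) (p : MvPolynomial (Fin N) E) :
    hbl l E p = l p := by
  induction p using MvPolynomial.induction_on' with
  | monomial m c =>
    rw [hbl_mon, Algebra.algebraMap_self, RingHom.id_apply, ← smul_eq_mul, ← map_smul,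
      smul_monomial, smul_eq_mul, mul_one]
  | add p q hp hq => rw [map_add, map_add, hp, hq]

/-- The extension of a functional which vanishes on an ideal vanishes on its extension. -/
private theorem hbl_zero {I : Ideal (MvPolynomial (Fin N) E)} {l : MvPolynomial (Fin N) E →ₗ[E] E}
    (hl : ∀ p ∈ I, l p = 0) {a : MvPolynomial (Fin N) Ω}
    (ha : a ∈ I.map (MvPolynomial.map (algebraMap E Ω))) : hbl l Ω a = 0 := by
  have key : ∀ q : MvPolynomial (Fin N) Ω, ∀ p ∈ I,
      hbl l Ω (q * MvPolynomial.map (algebraMap E Ω) p) = 0 := by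
    intro q p hp
    induction q using MvPolynomial.induction_on' with
    | monomial m c =>
      have h1 : monomial m c * MvPolynomial.map (algebraMap E Ω) p =
          c • MvPolynomial.map ((Algebra.ofId E Ω : E →ₐ[E] Ω) : E →+* Ω) (monomial m 1 * p) := by
        have h2 : ((Algebra.ofId E Ω : E →ₐ[E] Ω) : E →+* Ω) = algebraMap E Ω := rfl
        rw [h2, map_mul, map_monomial, map_one, ← smul_mul_assoc, smul_monomial, smul_eq_mul,
          mul_one]
      rw [h1, map_smul, hbl_map, hbl_self, hl _ (I.mul_mem_left _ hp), map_zero, smul_zero]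
    | add p' q' hp' hq' => rw [add_mul, map_add, hp', hq', add_zero]
  rw [Ideal.map] at ha
  refine Submodule.span_induction (p := fun x _ => ∀ q, hbl l Ω (q * x) = 0) ?_ ?_ ?_ ?_ ha 1
    |> fun h => by rwa [one_mul] at h
  · rintro x ⟨p, hp, rfl⟩ q
    exact key q p hp
  · intro q
    rw [mul_zero, map_zero]
  · intro x y _ _ hx hy q
    rw [mul_add, map_add, hx, hy, add_zero]
  · intro c x _ hx q
    rw [smul_eq_mul, ← mul_assoc]
    exact hx _

/-- A polynomial outside of the extended ideal is detected by a functional over `E`. -/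
private theorem hb_ex {I : Ideal (MvPolynomial (Fin N) E)} {a : MvPolynomial (Fin N) Ω}
    (ha : a ∉ I.map (MvPolynomial.map (algebraMap E Ω))) :
    ∃ l : MvPolynomial (Fin N) E →ₗ[E] E, (∀ p ∈ I, l p = 0) ∧ hbl l Ω a ≠ 0 := by
  classical
  by_contra hcon
  push Not at hcon
  apply ha
  obtain ⟨J, hJ⟩ : ∃ J : Ideal (MvPolynomial (Fin N) Ω),
    J = I.map (MvPolynomial.map (algebraMap E Ω)) := ⟨_, rfl⟩
  rw [← hJ]
  let mk : MvPolynomial (Fin N) E →ₗ[E] (MvPolynomial (Fin N) E ⧸ I) :=
    (Ideal.Quotient.mkₐ E I).toLinearMap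
  have hmk : ∀ p, mk p = Ideal.Quotient.mk I p := fun p => rfl
  let b := Module.Basis.ofVectorSpace E (MvPolynomial (Fin N) E ⧸ I)
  have hsur : ∀ j, ∃ p, mk p = b j := fun j => by
    obtain ⟨p, hp⟩ := Ideal.Quotient.mk_surjective (b j)
    exact ⟨p, hp⟩
  choose P hP using hsur
  let L : (Fin N →₀ ℕ) → _ →₀ E := fun m => b.repr (mk (monomial m 1))
  let s : Finset _ := a.support.biUnion fun m => (L m).support
  -- the functionals
  have hz : ∀ j, ∑ m ∈ a.support, coeff m a * algebraMap E Ω (L m j) = 0 := by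
    intro j
    have h1 := hcon ((b.coord j) ∘ₗ mk) (fun p hp => by
      rw [LinearMap.comp_apply, hmk, Ideal.Quotient.eq_zero_iff_mem.2 hp, map_zero])
    have h2 : hbl ((b.coord j) ∘ₗ mk) Ω a =
        ∑ m ∈ a.support, coeff m a * algebraMap E Ω (L m j) := by
      conv_lhs => rw [← support_sum_monomial_coeff a]
      rw [map_sum]
      refine Finset.sum_congr rfl fun m _ => ?_
      rw [hbl_mon]
      rfl
    rw [← h2]
    exact h1
  have hm : ∀ m ∈ a.support, monomial m (1 : E) - ∑ j ∈ s, L m j • P j ∈ I := by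
    intro m hm
    rw [← Ideal.Quotient.eq_zero_iff_mem, ← hmk, map_sub, map_sum]
    have h1 : ∑ j ∈ s, mk (L m j • P j) = mk (monomial m 1) := by
      have h2 : ∀ j ∈ s, mk (L m j • P j) = L m j • b j := fun j _ => by rw [map_smul, hP]
      rw [Finset.sum_congr rfl h2]
      have h3 := b.linearCombination_repr (mk (monomial m 1))
      rw [Finsupp.linearCombination_apply, Finsupp.sum] at h3
      rw [← h3]
      symm
      refine Finset.sum_subset (fun j hj => Finset.mem_biUnion.2 ⟨m, hm, hj⟩) fun j _ hj => ?_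
      rw [Finsupp.notMem_support_iff] at hj
      rw [show L m j = 0 from hj, zero_smul]
    rw [h1, sub_self]
  have h1 : a = ∑ m ∈ a.support, C (coeff m a) * MvPolynomial.map (algebraMap E Ω)
        (monomial m (1 : E) - ∑ j ∈ s, L m j • P j) +
      ∑ j ∈ s, C (∑ m ∈ a.support, coeff m a * algebraMap E Ω (L m j)) *
        MvPolynomial.map (algebraMap E Ω) (P j) := by
    have h2 : ∀ m ∈ a.support, C (coeff m a) * MvPolynomial.map (algebraMap E Ω)
        (monomial m (1 : E) - ∑ j ∈ s, L m j • P j) = monomial m (coeff m a) -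
          ∑ j ∈ s, C (coeff m a * algebraMap E Ω (L m j)) *
            MvPolynomial.map (algebraMap E Ω) (P j) := by
      intro m _
      rw [map_sub, map_sum, mul_sub, map_monomial, map_one, C_mul_monomial, mul_one,
        Finset.mul_sum]
      congr 1
      refine Finset.sum_congr rfl fun j _ => ?_
      rw [smul_eq_C_mul, map_mul, map_C, C_mul, mul_assoc]
    rw [Finset.sum_congr rfl h2, Finset.sum_sub_distrib, support_sum_monomial_coeff,
      Finset.sum_comm]
    have h3 : ∀ j ∈ s, C (∑ m ∈ a.support, coeff m a * algebraMap E Ω (L m j)) *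
        MvPolynomial.map (algebraMap E Ω) (P j) = ∑ m ∈ a.support,
          C (coeff m a * algebraMap E Ω (L m j)) * MvPolynomial.map (algebraMap E Ω) (P j) := by
      intro j _
      rw [map_sum, Finset.sum_mul]
    rw [Finset.sum_congr rfl h3, sub_add_cancel]
  rw [h1]
  refine J.add_mem (J.sum_mem fun m hma => J.mul_mem_left _ ?_) (J.sum_mem fun j _ => ?_)
  · rw [hJ]
    exact Ideal.mem_map_of_mem _ (hm m hma)
  · rw [hz j, C_0, zero_mul]
    exact J.zero_mem

end hb

/-- **A prime ideal over an algebraically closed field stays prime.** Proof: let `e_j` be a basis of `A = E[x] / (f)` over `E`, then `Ω[x] / (f) = Ω ⊗ A` has the basis `e_j` over `Ω`. If `a b ∈ (f) Ω[x]`, `a, b ∉ (f) Ω[x]`: `a = ∑ a_j e_j`, `b = ∑ b_j e_j` with `a_j₀ ≠ 0`, `b_j₁ ≠ 0`; let `R` be the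
`E`-subalgebra of `Ω` generated by the (finitely many) `a_j`, `b_j`: `R` is a domain of finite type, there is a homomorphism `φ : R →ₐ[E] E` with `φ (a_j₀ b_j₁) ≠ 0` (Nullstellensatz for `R [1 / (a_j₀ b_j₁)]`; see `To/Ib`, the same argument for points). In `R ⊗ A` (a free `R`-module with basis `e_j`, contained in `Ω ⊗ A`)
`a b = 0`, so `φ (a) φ (b) = 0` in `A`, but both are not `0`: contradiction. `(f) Ω[x] ≠ ⊤` by the same basis (`1 ≠ 0` in `A`). -/
theorem prime_up {E Ω : Type} [Field E] [IsAlgClosed E] [Field Ω] [Algebra E Ω] {N : ℕ}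
    {ι : Type} {f : ι → MvPolynomial (Fin N) E} (h : (Ideal.span (Set.range f)).IsPrime) :
    (Ideal.span (Set.range fun i => map (algebraMap E Ω) (f i))).IsPrime := by
  classical
  obtain ⟨I, hI⟩ : ∃ I, I = Ideal.span (Set.range f) := ⟨_, rfl⟩
  have hJ : Ideal.span (Set.range fun i => MvPolynomial.map (algebraMap E Ω) (f i)) =
      I.map (MvPolynomial.map (algebraMap E Ω)) := by
    rw [hI, Ideal.map_span, ← Set.range_comp]
    rfl
  rw [hJ]
  rw [← hI] at h
  -- membership over `E` is detected by the functionals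
  have hE : ∀ p : MvPolynomial (Fin N) E,
      (∀ l : MvPolynomial (Fin N) E →ₗ[E] E, (∀ q ∈ I, l q = 0) → l p = 0) → p ∈ I := by
    intro p hp
    by_contra hcon
    have h1 : p ∉ I.map (MvPolynomial.map (algebraMap E E)) := by
      have h2 : MvPolynomial.map (σ := Fin N) (algebraMap E E) = RingHom.id _ := by
        ext1 <;> simp
      rw [h2, Ideal.map_id]
      exact hcon
    obtain ⟨l, hl, hlp⟩ := hb_ex h1
    rw [hbl_self] at hlp
    exact hlp (hp l hl)
  refine ⟨fun htop => ?_, fun {a b} hab => ?_⟩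
  · refine h.ne_top ((Ideal.eq_top_iff_one I).2 (hE 1 fun l hl => ?_))
    have h1 : (1 : MvPolynomial (Fin N) Ω) ∈ I.map (MvPolynomial.map (algebraMap E Ω)) := by
      rw [htop]
      exact Submodule.mem_top
    have h2 := hbl_zero hl h1
    have h3 := hbl_map l (Algebra.ofId E Ω) 1
    rw [map_one, h2, hbl_self] at h3
    exact (map_eq_zero (Algebra.ofId E Ω)).1 h3.symm
  · by_contra hcon
    rw [not_or] at hcon
    obtain ⟨l, hl, hla⟩ := hb_ex hcon.1
    obtain ⟨m, hm, hmb⟩ := hb_ex hcon.2
    obtain ⟨S, hS⟩ : ∃ S : Finset Ω, S = a.coeffs ∪ (b.coeffs ∪ {(hbl l Ω a * hbl m Ω b)⁻¹}) :=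
      ⟨_, rfl⟩
    have hft : Algebra.FiniteType E (Algebra.adjoin E (S : Set Ω)) :=
      (Subalgebra.fg_iff_finiteType _).1 (Subalgebra.fg_adjoin_finset S)
    obtain ⟨φ⟩ := CV.exists_point E (Algebra.adjoin E (S : Set Ω))
    obtain ⟨R, hR⟩ : ∃ R : Subalgebra E Ω, R = Algebra.adjoin E (S : Set Ω) := ⟨_, rfl⟩
    rw [← hR] at φ
    have hsub : ∀ y ∈ S, y ∈ R := fun y hy => by
      rw [hR]
      exact Algebra.subset_adjoin hy
    have lift : ∀ p : MvPolynomial (Fin N) Ω, (∀ c ∈ p.coeffs, c ∈ R) →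
        ∃ q : MvPolynomial (Fin N) R, MvPolynomial.map ((R.val : R →ₐ[E] Ω) : R →+* Ω) q = p := by
      intro p hp
      have h1 : p ∈ Set.range (MvPolynomial.map (σ := Fin N) ((R.val : R →ₐ[E] Ω) : R →+* Ω)) := by
        rw [mem_range_map_iff_coeffs_subset]
        intro c hc
        exact ⟨⟨c, hp c hc⟩, rfl⟩
      exact h1
    obtain ⟨qa, hqa⟩ := lift a fun c hc => hsub c (by
      rw [hS]
      exact Finset.mem_union_left _ hc)
    obtain ⟨qb, hqb⟩ := lift b fun c hc => hsub c (by
      rw [hS]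
      exact Finset.mem_union_right _ (Finset.mem_union_left _ hc))
    have hinv : (hbl l Ω a * hbl m Ω b)⁻¹ ∈ R := hsub _ (by
      rw [hS]
      exact Finset.mem_union_right _ (Finset.mem_union_right _ (Finset.mem_singleton_self _)))
    have e1 := hbl_map l (R.val : R →ₐ[E] Ω) qa
    have e2 := hbl_map m (R.val : R →ₐ[E] Ω) qb
    rw [hqa] at e1
    rw [hqb] at e2
    have hne : φ (hbl l R qa) ≠ 0 ∧ φ (hbl m R qb) ≠ 0 := by
      have h1 : hbl l R qa * hbl m R qb * ⟨_, hinv⟩ = 1 := by
        apply Subtype.ext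
        change (R.val (hbl l R qa)) * (R.val (hbl m R qb)) * (hbl l Ω a * hbl m Ω b)⁻¹ = 1
        rw [← e1, ← e2]
        exact mul_inv_cancel₀ (mul_ne_zero hla hmb)
      have h2 := congrArg φ h1
      rw [map_mul, map_mul, map_one] at h2
      refine ⟨fun h3 => ?_, fun h3 => ?_⟩
      · rw [h3, zero_mul, zero_mul] at h2
        exact zero_ne_one h2
      · rw [h3, mul_zero, zero_mul] at h2
        exact zero_ne_one h2
    have hprod : MvPolynomial.map (φ : R →+* E) qa * MvPolynomial.map (φ : R →+* E) qb ∈ I := by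
      refine hE _ fun k hk => ?_
      rw [← map_mul, ← hbl_self, hbl_map]
      have h1 : hbl k R (qa * qb) = 0 := by
        apply Subtype.ext
        have h2 := hbl_map k (R.val : R →ₐ[E] Ω) (qa * qb)
        rw [map_mul, hqa, hqb, hbl_zero hk hab] at h2
        exact h2.symm
      rw [h1, map_zero]
    rcases h.mem_or_mem hprod with h1 | h1
    · have h2 := hl _ h1
      rw [← hbl_self, hbl_map] at h2
      exact hne.1 h2
    · have h2 := hm _ h1
      rw [← hbl_self, hbl_map] at h2
      exact hne.2 h2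

end GX
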