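import Pool.Agent.Lib.MP_f80667_ag.Rsm.Ga
import Pool.Agent.Lib.MP_f80667_ag.Gx.PjE

/-! Saturated models: the ideal of the generic fibre. -/

open MvPolynomial

namespace GX

private theorem hd_den {R Q : Type} [CommRing R] [IsDomain R] [Field Q] [Algebra R Q]
    [IsFractionRing R Q] {σ : Type} (b : MvPolynomial σ Q) :
    ∃ r : R, r ≠ 0 ∧ ∃ b' : MvPolynomial σ R,
      map (algebraMap R Q) (C r) * b = map (algebraMap R Q) b' := by
  induction b using MvPolynomial.induction_on with
  | C a =>
    obtain ⟨x, s, hs, rfl⟩ := IsFractionRing.div_surjective (A := R) a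
    have hs0 : algebraMap R Q s ≠ 0 := by
      rw [Ne, IsFractionRing.to_map_eq_zero_iff]
      exact nonZeroDivisors.ne_zero hs
    refine ⟨s, nonZeroDivisors.ne_zero hs, C x, ?_⟩
    rw [map_C, map_C, ← C_mul, mul_div_cancel₀ _ hs0]
  | add p q hp hq =>
    obtain ⟨r, hr, p', hp'⟩ := hp
    obtain ⟨s, hs, q', hq'⟩ := hq
    refine ⟨r * s, mul_ne_zero hr hs, C s * p' + C r * q', ?_⟩
    rw [C_mul, map_mul, map_add, map_mul, map_mul, ← hp', ← hq']
    ring
  | mul_X p i hp =>
    obtain ⟨r, hr, p', hp'⟩ := hp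
    refine ⟨r, hr, p' * X i, ?_⟩
    rw [map_mul, map_X, ← hp']
    ring

private theorem hd_span {R Q : Type} [CommRing R] [IsDomain R] [Field Q] [Algebra R Q]
    [IsFractionRing R Q] {N : ℕ} {ι : Type} {f : ι → MvPolynomial (Fin N) R}
    {x : MvPolynomial (Fin N) Q}
    (hx : x ∈ Ideal.span (Set.range fun i => map (algebraMap R Q) (f i))) :
    ∃ r : R, r ≠ 0 ∧ ∃ y ∈ Ideal.span (Set.range f),
      map (algebraMap R Q) (C r) * x = map (algebraMap R Q) y := by
  induction hx using Submodule.span_induction with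
  | mem x hx =>
    obtain ⟨i, rfl⟩ := hx
    refine ⟨1, one_ne_zero, f i, Ideal.subset_span ⟨i, rfl⟩, ?_⟩
    rw [C_1, map_one, one_mul]
  | zero => exact ⟨1, one_ne_zero, 0, Ideal.zero_mem _, by rw [mul_zero, map_zero]⟩
  | add p q _ _ hp hq =>
    obtain ⟨r, hr, p', hpm, hp'⟩ := hp
    obtain ⟨s, hs, q', hqm, hq'⟩ := hq
    refine ⟨r * s, mul_ne_zero hr hs, C s * p' + C r * q',
      Ideal.add_mem _ (Ideal.mul_mem_left _ _ hpm) (Ideal.mul_mem_left _ _ hqm), ?_⟩
    rw [C_mul, map_mul, map_add, map_mul, map_mul, ← hp', ← hq']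
    ring
  | smul b p _ hp =>
    obtain ⟨r, hr, p', hpm, hp'⟩ := hp
    obtain ⟨s, hs, b', hb'⟩ := hd_den (R := R) b
    refine ⟨r * s, mul_ne_zero hr hs, b' * p', Ideal.mul_mem_left _ _ hpm, ?_⟩
    rw [C_mul, map_mul, map_mul, ← hp', ← hb', smul_eq_mul]
    ring

/-- **The ideal of the generic fibre.** Proof: let `Q` be the fraction field of `R` (a subfield of `Ω`), `l : Ω → Q` a `Q`-linear map with `l 1 = 1`; the coefficientwise image under `l` (`exists_lc`, `jf_coeff` of `Gx/PjE`) of `g = ∑ h_i f_i` is `g = ∑ l (h_i) f_i` over `Q`; multiply by a common denominator of the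
coefficients of the `l (h_i)`: `C r * g ∈ (f)`. -/
theorem con_sat {R Ω : Type} [CommRing R] [IsDomain R] [Field Ω] [Algebra R Ω] {N : ℕ} {ι : Type}
    {f : ι → MvPolynomial (Fin N) R} (hinj : Function.Injective (algebraMap R Ω))
    (h : ∀ (r : R) (g : MvPolynomial (Fin N) R), r ≠ 0 → C r * g ∈ Ideal.span (Set.range f) →
      g ∈ Ideal.span (Set.range f)) {g : MvPolynomial (Fin N) R}
    (hg : map (algebraMap R Ω) g ∈ Ideal.span (Set.range fun i => map (algebraMap R Ω) (f i))) :
    g ∈ Ideal.span (Set.range f) := by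
  let φ : FractionRing R →+* Ω := IsFractionRing.lift hinj
  letI : Algebra (FractionRing R) Ω := φ.toAlgebra
  have hφ : ∀ r : R, algebraMap (FractionRing R) Ω (algebraMap R (FractionRing R) r)
      = algebraMap R Ω r := fun r => IsFractionRing.lift_algebraMap hinj r
  obtain ⟨l, hl⟩ := LinearMap.exists_leftInverse_of_injective
    (Algebra.linearMap (FractionRing R) Ω) (by
      rw [LinearMap.ker_eq_bot]
      exact (algebraMap (FractionRing R) Ω).injective)
  have hl1 : ∀ q : FractionRing R, l (algebraMap (FractionRing R) Ω q) = q :=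
    fun q => LinearMap.congr_fun hl q
  have hm : ∀ p : MvPolynomial (Fin N) R,
      map (algebraMap (FractionRing R) Ω) (map (algebraMap R (FractionRing R)) p)
        = map (algebraMap R Ω) p := by
    intro p
    rw [map_map]
    have h1 : (algebraMap (FractionRing R) Ω).comp (algebraMap R (FractionRing R))
        = algebraMap R Ω := RingHom.ext hφ
    rw [h1]
  have h1 : map (algebraMap R (FractionRing R)) g
      ∈ Ideal.span (Set.range fun i => map (algebraMap R (FractionRing R)) (f i)) := by
    refine jf_coeff (F := FractionRing R) (κ := Ω)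
      (f := fun i => map (algebraMap R (FractionRing R)) (f i)) l
      (g := map (algebraMap R Ω) g) ?_ ?_
    · have h2 : jf Ω (fun i => map (algebraMap R (FractionRing R)) (f i))
          = Ideal.span (Set.range fun i => map (algebraMap R Ω) (f i)) := by
        have h3 : (fun i => map (algebraMap (FractionRing R) Ω)
            (map (algebraMap R (FractionRing R)) (f i)))
            = fun i => map (algebraMap R Ω) (f i) := funext fun i => hm (f i)
        change Ideal.span (Set.range fun i => map (algebraMap (FractionRing R) Ω)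
            (map (algebraMap R (FractionRing R)) (f i))) = _
        rw [h3]
      rw [h2]
      exact hg
    · intro m
      rw [coeff_map, coeff_map, ← hφ, hl1]
  obtain ⟨r, hr, y, hy, hry⟩ := hd_span h1
  refine h r g hr ?_
  have h2 : C r * g = y := by
    refine map_injective _ (IsFractionRing.injective R (FractionRing R)) ?_
    rw [map_mul, hry]
  rw [h2]
  exact hy

end GX
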