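import Pool.Agent.Lib.MP_f80667_ag.Rsm.Ha
import Pool.Agent.Lib.MP_f80667_ag.Rsm.Hd
import Pool.Agent.Lib.MP_f80667_ag.Ng.Pd

/-! The model over the infinite unramified extension. -/

open ZC BE PE CV IntermediateField

namespace GX

variable {K Ω : Type} [Field K] [Field Ω] [Algebra K Ω] [CharZero K] [IsAlgClosure K Ω]
  {L : Ld K Ω} {r l : ℕ} {F : Type} [Field F] [Algebra F K] [Algebra F Ω]
  [IsScalarTower F K Ω] {N d : ℕ} {ι : Type} {f : ι → MvPolynomial (Fin N) F}

/-- **The model over the infinite unramified extension.** Proof: as `Gdv.gdr` in `Ng/Pd`: `g i = map (iRl L r l F) (f₀ i)`; `hom`, `trd` (`trd_up`), `red` as there; `prime`: `(g)` is the preimage of `(f) Ω[x]` (`hp`) by `con_sat`, whose hypothesis is `sat_up` for `R = L.V.comap (algebraMap F Ω)` (a `ValuationSubring`) and `R' = Rl L r l`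
with `(iRl L r l F).toAlgebra`. -/
theorem Gsv.gsr (h : Gsv L.V f d) (hd : ((d + 1 : ℕ) : Cardinal) ≤
      Algebra.trdeg F (MvPolynomial (Fin N) F ⧸ Ideal.span (Set.range f)))
    (hp : (Ideal.span (Set.range fun i => MvPolynomial.map (algebraMap F Ω) (f i))).IsPrime) :
    ∃ g : ι → MvPolynomial (Fin N) (Rl L r l),
      (∀ i, MvPolynomial.map (Rl L r l).subtype (g i) =
        MvPolynomial.map (algebraMap F Ω) (f i)) ∧ Gsr L.κ g d := by
  obtain ⟨f₀, hf₀, hsat, hred⟩ := h.red
  have hcomp : (Rl L r l).subtype.comp (iRl L r l F) =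
      (algebraMap F Ω).comp (L.V.comap (algebraMap F Ω)).subtype := RingHom.ext fun _ => rfl
  have hg : ∀ i, MvPolynomial.map (Rl L r l).subtype (MvPolynomial.map (iRl L r l F) (f₀ i)) =
      MvPolynomial.map (algebraMap F Ω) (f i) := fun i => by
    rw [← hf₀ i, MvPolynomial.map_map, MvPolynomial.map_map, hcomp]
  have hmem : ∀ y : F, L.nm (algebraMap F Ω y) ≤ 1 → algebraMap F Ω y ∈ Rl L r l := fun y hy =>
    (iRl L r l F ⟨y, hy⟩).2
  have hrg : (fun i => MvPolynomial.map (Rl L r l).subtype
      (MvPolynomial.map (iRl L r l F) (f₀ i))) =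
      fun i => MvPolynomial.map (algebraMap F Ω) (f i) := funext hg
  refine ⟨fun i => MvPolynomial.map (iRl L r l F) (f₀ i), hg, ?_, ?_, ?_, ?_⟩
  · intro i
    obtain ⟨e, he⟩ := h.hom i
    refine ⟨e, fun m hm => he fun h0 => hm ?_⟩
    rw [← hf₀ i, MvPolynomial.coeff_map] at h0
    have h1 : MvPolynomial.coeff m (f₀ i) = 0 := Subtype.ext h0
    rw [MvPolynomial.coeff_map, h1, map_zero]
  · have hI : Ideal.span (Set.range fun i => MvPolynomial.map (iRl L r l F) (f₀ i)) =
        (Ideal.span (Set.range fun i => MvPolynomial.map (algebraMap F Ω) (f i))).comap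
          (MvPolynomial.map (Rl L r l).subtype) := by
      ext p
      rw [Ideal.mem_comap]
      constructor
      · intro hm
        have h3 := Ideal.mem_map_of_mem (MvPolynomial.map (Rl L r l).subtype) hm
        rw [Ideal.map_span, ← Set.range_comp] at h3
        have h4 : ((MvPolynomial.map (Rl L r l).subtype :
            MvPolynomial (Fin N) (Rl L r l) →+* MvPolynomial (Fin N) Ω) ∘
              fun i => MvPolynomial.map (iRl L r l F) (f₀ i)) =
            fun i => MvPolynomial.map (algebraMap F Ω) (f i) := hrg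
        rwa [h4] at h3
      · intro hm
        let : Algebra (L.V.comap (algebraMap F Ω)) (Rl L r l) := (iRl L r l F).toAlgebra
        refine con_sat (R := Rl L r l) (Ω := Ω) Subtype.val_injective
          (fun c q hc hq => sat_up hsat hc hq) ?_
        change MvPolynomial.map (Rl L r l).subtype p ∈ Ideal.span (Set.range fun i =>
          MvPolynomial.map (Rl L r l).subtype (MvPolynomial.map (iRl L r l F) (f₀ i)))
        rwa [hrg]
    rw [hI]
    have := hp
    exact Ideal.comap_isPrime _ _
  · refine trd_up hg (fun x => ?_) hd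
    by_cases hx : L.nm (algebraMap F Ω x) ≤ 1
    · refine ⟨1, one_ne_zero, ?_, ?_⟩
      · rw [map_one]
        exact one_mem _
      · rw [one_mul]
        exact hmem x hx
    · have hx0 : x ≠ 0 := by
        rintro rfl
        rw [map_zero, L.zero] at hx
        exact hx zero_le_one
      refine ⟨x⁻¹, inv_ne_zero hx0, ?_, ?_⟩
      · refine hmem _ ?_
        have h2 : algebraMap F Ω x * algebraMap F Ω x⁻¹ = 1 := by
          rw [← map_mul, mul_inv_cancel₀ hx0, map_one]
        have h3 : L.nm (algebraMap F Ω x) * L.nm (algebraMap F Ω x⁻¹) = 1 := by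
          rw [← L.mul, h2, L.one]
        by_contra h4
        rw [not_le] at hx h4
        exact absurd h3 (one_lt_mul_of_lt_of_le hx h4.le).ne'
      · rw [inv_mul_cancel₀ hx0, map_one]
        exact one_mem _
  · have h5 : fr L.κ (fun i => MvPolynomial.map (iRl L r l F) (f₀ i)) =
        fun i => MvPolynomial.map (rdO F L.V) (f₀ i) := funext fun i => by
      change MvPolynomial.map (algebraMap (Rl L r l) L.κ)
        (MvPolynomial.map (iRl L r l F) (f₀ i)) = _
      rw [MvPolynomial.map_map]
      rfl
    rw [h5]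
    exact hred

end GX
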