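import Pool.Agent.Lib.MP_f80667_ag.Rsm.Gh
import Pool.Agent.Lib.MP_f80667_ag.Rsm.Hc
import Pool.Agent.Lib.MP_f80667_ag.Ng.T

/-! Projections over a finite unramified extension. -/

open ZC BE PE CV IntermediateField

namespace GX

variable {K Ω : Type} [Field K] [Field Ω] [Algebra K Ω] [CharZero K] [IsAlgClosure K Ω]
  {L : Ld K Ω} {r l : ℕ} {π : Ω} {F : Type} [Field F] [Algebra F K] [Algebra F Ω]
  [IsScalarTower F K Ω] {N d : ℕ} {ι : Type} {f : ι → MvPolynomial (Fin N) F}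

omit [CharZero K] [IsAlgClosure K Ω] in
/-- The elements in `Ur ⊥ (r * l ^ a)`. -/
private def rsTT (L : Ld K Ω) (r l a : ℕ) : Subring (Rl L r l) where
  carrier := {x | (x : Ω) ∈ L.Ur ⊥ (r * l ^ a)}
  mul_mem' := by
    intro x y hx hy
    exact (show (x : Ω) * (y : Ω) ∈ L.Ur ⊥ (r * l ^ a) from mul_mem hx hy)
  one_mem' := one_mem (L.Ur ⊥ (r * l ^ a))
  add_mem' := by
    intro x y hx hy
    exact (show (x : Ω) + (y : Ω) ∈ L.Ur ⊥ (r * l ^ a) from add_mem hx hy)
  zero_mem' := zero_mem (L.Ur ⊥ (r * l ^ a))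
  neg_mem' := by
    intro x hx
    exact (show -(x : Ω) ∈ L.Ur ⊥ (r * l ^ a) from neg_mem hx)

omit [CharZero K] [IsAlgClosure K Ω] in
private theorem rsT_mem (x : L.V.comap (algebraMap F Ω)) (a : ℕ) :
    iRl L r l F x ∈ rsTT L r l a := by
  change algebraMap F Ω (x : F) ∈ L.Ur ⊥ (r * l ^ a)
  rw [IsScalarTower.algebraMap_apply F K Ω]
  exact IntermediateField.algebraMap_mem _ _

/-- The homomorphism from the valuation ring of `F`. -/
private def rsTr (L : Ld K Ω) (r l : ℕ) (F : Type) [Field F] [Algebra F K] [Algebra F Ω]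
    [IsScalarTower F K Ω] (a : ℕ) : (L.V.comap (algebraMap F Ω)) →+* rsTT L r l a :=
  (iRl L r l F).codRestrict (rsTT L r l a) fun x => rsT_mem x a

/-- The homomorphism to the valuation ring of `Ur ⊥ (r * l ^ a)`. -/
private def rsTe (L : Ld K Ω) (r l a : ℕ) :
    rsTT L r l a →+* (L.V.comap (algebraMap (L.Ur ⊥ (r * l ^ a)) Ω)) where
  toFun x := ⟨⟨((x : Rl L r l) : Ω), x.2⟩, (x : Rl L r l).2.1⟩
  map_one' := rfl
  map_mul' _ _ := rfl
  map_zero' := rfl
  map_add' _ _ := rfl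

/-- **The data over a finite unramified extension.** Proof: as `exists_datl'` in `Ng/T` (the private subrings `ngTT`, homomorphisms `ngTr`, `ngTe` have to be copied), with `Gsv.gsr`, `Gsr.exists_prj`; the covering statement is about the values over `L.κ`: `hrd`, `hfr` and the last lines of `exists_datl'` show that the
reductions of the `f₀ i` and of the `D_i (u_i (y))` are those over `Rl L r l`. -/
theorem exists_dts (hπ : Uf L π) (hr : r ≠ 0) (hl : 2 ≤ l) (h : Gsv L.V f d)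
    (hd : ((d + 1 : ℕ) : Cardinal) ≤
      Algebra.trdeg F (MvPolynomial (Fin N) F ⧸ Ideal.span (Set.range f)))
    (hp : (Ideal.span (Set.range fun i => MvPolynomial.map (algebraMap F Ω) (f i))).IsPrime) :
    ∃ (a m : ℕ) (ψ : Fin m → Prj (L.Ur ⊥ (r * l ^ a)) N d)
      (f₀ : ι → MvPolynomial (Fin N) (L.V.comap (algebraMap (L.Ur ⊥ (r * l ^ a)) Ω)))
      (ψ₀ : Fin m → Prj (L.V.comap (algebraMap (L.Ur ⊥ (r * l ^ a)) Ω)) N d),
      Dts L.V (fun i => MvPolynomial.map (algebraMap F (L.Ur ⊥ (r * l ^ a))) (f i)) ψ f₀ ψ₀ := by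
  have hdvr : IsDiscreteValuationRing (Rl L r l) := rl_dvr hπ hr (by omega)
  have hac : IsAlgClosed Ω := IsAlgClosure.isAlgClosed K
  have hcl : IsAlgClosed L.κ := L.κ_closed
  have hR : Rk (Rl L r l) L.κ := rl_rk hr hl
  obtain ⟨g, hg, hgd⟩ := h.gsr (r := r) (l := l) hd hp
  obtain ⟨m, ψS, hok, hcov⟩ := Gsr.exists_prj hR hgd
  obtain ⟨f₀, hf₀, -⟩ := h.red
  have hgi : ∀ i, MvPolynomial.map (iRl L r l F) (f₀ i) = g i := by
    intro i
    refine MvPolynomial.map_injective (Rl L r l).subtype Subtype.val_injective ?_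
    rw [hg i, ← hf₀ i, MvPolynomial.map_map, MvPolynomial.map_map]
    rfl
  have hT : Monotone (rsTT L r l) := fun a b hab x hx =>
    Ld.ur_dvd ⊥ (mul_dvd_mul_left r (pow_dvd_pow l hab)) hx
  have hU : ∀ x : Rl L r l, ∃ a, x ∈ rsTT L r l a := fun x => x.2.2
  have hf : ∀ b i, MvPolynomial.map (rsTT L r l b).subtype
      (MvPolynomial.map (rsTr L r l F b) (f₀ i)) = g i := by
    intro b i
    rw [← hgi i, MvPolynomial.map_map]
    rfl
  have h1 := fun i => dir_prj hT hU (ψS i)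
  have h2 := fun i => dir_ok hT hU hf (hok i)
  choose a1 h1 using h1
  choose a2 h2 using h2
  obtain ⟨a, ha⟩ : ∃ a, a = (∑ i, a1 i) + (∑ i, a2 i) := ⟨_, rfl⟩
  have ha1 : ∀ i, a1 i ≤ a := fun i => by
    have := Finset.single_le_sum (f := a1) (fun j _ => Nat.zero_le (a1 j)) (Finset.mem_univ i)
    omega
  have ha2 : ∀ i, a2 i ≤ a := fun i => by
    have := Finset.single_le_sum (f := a2) (fun j _ => Nat.zero_le (a2 j)) (Finset.mem_univ i)
    omega
  have h4 := fun i => h1 i a (ha1 i)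
  choose ψ' hψ' using h4
  have h5 : ∀ i, (ψ' i).Ok fun j => MvPolynomial.map (rsTr L r l F a) (f₀ j) :=
    fun i => h2 i a (ha2 i) (ψ' i) (hψ' i)
  have hmf : ∀ i, MvPolynomial.map (L.V.comap (algebraMap (L.Ur ⊥ (r * l ^ a)) Ω)).subtype
      (MvPolynomial.map (rsTe L r l a) (MvPolynomial.map (rsTr L r l F a) (f₀ i))) =
        MvPolynomial.map (algebraMap F (L.Ur ⊥ (r * l ^ a))) (f i) := by
    intro i
    rw [← hf₀ i, MvPolynomial.map_map, MvPolynomial.map_map, MvPolynomial.map_map]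
    rfl
  have hrd : (rdO (L.Ur ⊥ (r * l ^ a)) L.V).comp (rsTe L r l a) =
      (algebraMap (Rl L r l) L.κ).comp (rsTT L r l a).subtype := rfl
  have hfr : (fun i => MvPolynomial.map (rdO (L.Ur ⊥ (r * l ^ a)) L.V)
      (MvPolynomial.map (rsTe L r l a) (MvPolynomial.map (rsTr L r l F a) (f₀ i)))) =
        fun i => MvPolynomial.map (algebraMap (Rl L r l) L.κ) (g i) := by
    funext i
    rw [MvPolynomial.map_map, hrd, ← MvPolynomial.map_map, hf a i]
  refine ⟨a, m, fun i => ((ψ' i).map (rsTe L r l a)).map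
      (L.V.comap (algebraMap (L.Ur ⊥ (r * l ^ a)) Ω)).subtype,
    fun i => MvPolynomial.map (rsTe L r l a) (MvPolynomial.map (rsTr L r l F a) (f₀ i)),
    fun i => (ψ' i).map (rsTe L r l a), ⟨hmf, fun i => rfl, fun i => ?_,
    fun i => (h5 i).map (rsTe L r l a), fun y hy hfin => ?_⟩⟩
  · obtain ⟨e, he⟩ := h.hom i
    refine ⟨e, MvPolynomial.IsHomogeneous.of_map
      (f := (L.V.comap (algebraMap (L.Ur ⊥ (r * l ^ a)) Ω)).subtype) Subtype.val_injective ?_⟩
    rw [hmf i]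
    exact he.map _
  · rw [hfr] at hy hfin
    obtain ⟨i, hi⟩ := hcov y hy hfin
    refine ⟨i, ?_⟩
    have e1 : ((ψ' i).map (rsTe L r l a)).map (rdO (L.Ur ⊥ (r * l ^ a)) L.V) =
        (ψS i).map (algebraMap (Rl L r l) L.κ) := by
      rw [Prj.map_map, hrd, ← Prj.map_map, hψ' i]
    rw [e1]
    exact hi

end GX
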