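import Pool.Agent.Lib.MP_f80667_ag.Rsm.Ga
import Pool.Agent.Lib.MP_f80667_ag.Kt.M3

/-! The projections over the integers. -/

set_option linter.unusedSectionVars false

open ZC BE PE CV IntermediateField

namespace GX

section gen

variable {R S S' : Type} [CommRing R] [CommRing S] [CommRing S'] [Algebra R S] [Algebra R S']
  {N d : ℕ}

private theorem bs_ext {a b : Prj R N d} (hu : a.u = b.u) (hy : a.y = b.y) (hG : a.G = b.G)
    (hD : a.D = b.D) (hA : a.A = b.A) : a = b := by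
  cases a
  cases b
  cases hu
  cases hy
  cases hG
  cases hD
  cases hA
  rfl

private theorem bs_lv (φ : S →ₐ[R] S') (a : Fin N → R) (x : Fin N → S) :
    φ (lv a x) = lv a fun j => φ (x j) := by
  rw [lv, lv, map_sum]
  refine Finset.sum_congr rfl fun j _ => ?_
  rw [map_mul, AlgHom.commutes]

private theorem bs_pe (φ : S →ₐ[R] S') (ψ : Prj R N d) (x : Fin N → S)
    (P : Polynomial (MvPolynomial (Fin (d + 1)) R)) :
    φ (pe (ψ.uv x) (ψ.yv x) P) =
      pe (ψ.uv fun j => φ (x j)) (ψ.yv fun j => φ (x j)) P := by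
  rw [pe_hom]
  have h1 : (fun r => φ (ψ.uv x r)) = ψ.uv fun j => φ (x j) := funext fun r => bs_lv φ _ x
  have h2 : φ (ψ.yv x) = ψ.yv fun j => φ (x j) := bs_lv φ _ x
  rw [h1, h2]

private theorem bs_tw {R' : Type} [CommRing R'] [Algebra R R'] [Algebra R' S]
    [IsScalarTower R R' S] (ψ : Prj R N d) (x : Fin N → S)
    (P : Polynomial (MvPolynomial (Fin (d + 1)) R)) :
    pe ((ψ.map (algebraMap R R')).uv x) ((ψ.map (algebraMap R R')).yv x)
      (P.map (MvPolynomial.map (algebraMap R R'))) = pe (ψ.uv x) (ψ.yv x) P := by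
  rw [uv_map, yv_map, pe_map]

private theorem bs_twD {R' : Type} [CommRing R'] [Algebra R R'] [Algebra R' S]
    [IsScalarTower R R' S] (ψ : Prj R N d) (x : Fin N → S) :
    MvPolynomial.aeval ((ψ.map (algebraMap R R')).uv x) (ψ.map (algebraMap R R')).D =
      MvPolynomial.aeval (ψ.uv x) ψ.D := by
  rw [uv_map]
  exact MvPolynomial.aeval_map_algebraMap R' (ψ.uv x) ψ.D

end gen

section loc

variable {F : Type} [Field F] {N d m : ℕ} {ι : Type} {f : ι → MvPolynomial (Fin N) F}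
  {K Ω : Type} [Field K] [Field Ω] [Algebra K Ω] [Algebra F K] [Algebra F Ω]
  [IsScalarTower F K Ω] {L : Ld K Ω} {ψ : Fin m → Prj F N d}
  {f₀ : ι → MvPolynomial (Fin N) (L.V.comap (algebraMap F Ω))}
  {ψ₀ : Fin m → Prj (L.V.comap (algebraMap F Ω)) N d}

private theorem bs_nm (x : L.V.comap (algebraMap F Ω)) :
    L.nm (algebraMap K Ω (algebraMap F K (x : F))) ≤ 1 := by
  rw [← IsScalarTower.algebraMap_apply F K Ω]
  exact x.2

private theorem bs_hvK (x : L.V.comap (algebraMap F Ω)) :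
    L.rs.Hv (algebraMap K Ω (algebraMap F K (x : F))) (rdO F L.V x) := by
  rw [← IsScalarTower.algebraMap_apply F K Ω]
  exact rdO_hv x

private theorem bs_K (h : Dts L.V f ψ f₀ ψ₀) (i : Fin m) :
    (ψ i).map (algebraMap F K) =
      (ψ₀ i).map ((algebraMap F K).comp (L.V.comap (algebraMap F Ω)).subtype) := by
  rw [← h.mp i, Prj.map_map]

private theorem bs_okF (h : Dts L.V f ψ f₀ ψ₀) (i : Fin m) : (ψ i).Ok f := by
  have h1 := (h.ok i).map (L.V.comap (algebraMap F Ω)).subtype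
  have e2 : (fun i => MvPolynomial.map (L.V.comap (algebraMap F Ω)).subtype (f₀ i)) = f :=
    funext h.mf
  rw [h.mp i, e2] at h1
  exact h1

/-- The data over the valuation ring of `Ω`. -/
private theorem bs_V (h : Dts L.V f ψ f₀ ψ₀) (i : Fin m) :
    ((ψ₀ i).map (iO F L.V)).map (algebraMap L.V Ω) =
      ((ψ i).map (algebraMap F K)).map (algebraMap K Ω) := by
  rw [bs_K h i, Prj.map_map, Prj.map_map]
  have e : (algebraMap L.V Ω).comp (iO F L.V) = (algebraMap K Ω).comp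
      ((algebraMap F K).comp (L.V.comap (algebraMap F Ω)).subtype) := by
    refine RingHom.ext fun x => ?_
    exact IsScalarTower.algebraMap_apply F K Ω (x : F)
  rw [e]

private theorem bs_pV (h : Dts L.V f ψ f₀ ψ₀) (i : Fin m) (x : Fin N → Ω) :
    pe (((ψ i).map (algebraMap F K)).uv x) (((ψ i).map (algebraMap F K)).yv x)
        ((ψ i).map (algebraMap F K)).G =
      pe (((ψ₀ i).map (iO F L.V)).uv x) (((ψ₀ i).map (iO F L.V)).yv x)
        ((ψ₀ i).map (iO F L.V)).G ∧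
    (∀ j, pe (((ψ i).map (algebraMap F K)).uv x) (((ψ i).map (algebraMap F K)).yv x)
        (((ψ i).map (algebraMap F K)).A j) =
      pe (((ψ₀ i).map (iO F L.V)).uv x) (((ψ₀ i).map (iO F L.V)).yv x)
        (((ψ₀ i).map (iO F L.V)).A j)) ∧
    MvPolynomial.aeval (((ψ i).map (algebraMap F K)).uv x) ((ψ i).map (algebraMap F K)).D =
      MvPolynomial.aeval (((ψ₀ i).map (iO F L.V)).uv x) ((ψ₀ i).map (iO F L.V)).D := by
  obtain ⟨a, ha⟩ : ∃ a, a = (ψ i).map (algebraMap F K) := ⟨_, rfl⟩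
  obtain ⟨b, hb⟩ : ∃ b, b = (ψ₀ i).map (iO F L.V) := ⟨_, rfl⟩
  have e : b.map (algebraMap L.V Ω) = a.map (algebraMap K Ω) := by
    rw [ha, hb]
    exact bs_V h i
  rw [← ha, ← hb]
  refine ⟨?_, fun j => ?_, ?_⟩
  · rw [← bs_tw (R' := Ω) a x a.G, ← bs_tw (R' := Ω) b x b.G]
    change pe _ _ (a.map (algebraMap K Ω)).G = pe _ _ (b.map (algebraMap L.V Ω)).G
    rw [e]
  · rw [← bs_tw (R' := Ω) a x (a.A j), ← bs_tw (R' := Ω) b x (b.A j)]
    change pe _ _ ((a.map (algebraMap K Ω)).A j) = pe _ _ ((b.map (algebraMap L.V Ω)).A j)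
    rw [e]
  · rw [← bs_twD (R' := Ω) a x, ← bs_twD (R' := Ω) b x, e]

/-- The residues of the coordinates. -/
private noncomputable def bsr (x : Fin N → Ω) (hx : ∀ i, L.nm (x i) ≤ 1) : Fin N → L.κ :=
  fun j => IsLocalRing.residue L.V ⟨x j, hx j⟩

private theorem bs_rhv (x : Fin N → Ω) (hx : ∀ i, L.nm (x i) ≤ 1) (j : Fin N) :
    L.rs.Hv (x j) (bsr (L := L) x hx j) := ⟨hx j, rfl⟩

private theorem bs_hv (ρ : Prj L.V N d) (x : Fin N → Ω) (hx : ∀ i, L.nm (x i) ≤ 1)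
    (P : Polynomial (MvPolynomial (Fin (d + 1)) L.V)) :
    L.rs.Hv (pe (ρ.uv x) (ρ.yv x) P)
      (pe (ρ.uv (bsr (L := L) x hx)) (ρ.yv (bsr (L := L) x hx)) P) := by
  have h1 := bs_pe (Algebra.ofId L.V Ω) ρ (fun j => (⟨x j, hx j⟩ : L.V)) P
  have h2 := bs_pe (Algebra.ofId L.V L.κ) ρ (fun j => (⟨x j, hx j⟩ : L.V)) P
  have e1 : (fun j => (Algebra.ofId L.V Ω) (⟨x j, hx j⟩ : L.V)) = x := rfl
  have e2 : (fun j => (Algebra.ofId L.V L.κ) (⟨x j, hx j⟩ : L.V)) = bsr (L := L) x hx := rfl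
  rw [e1] at h1
  rw [e2] at h2
  rw [← h1, ← h2]
  exact ⟨(pe (ρ.uv fun j => (⟨x j, hx j⟩ : L.V)) (ρ.yv fun j => (⟨x j, hx j⟩ : L.V)) P).2, rfl⟩

private theorem bs_hvD (ρ : Prj L.V N d) (x : Fin N → Ω) (hx : ∀ i, L.nm (x i) ≤ 1) :
    L.rs.Hv (MvPolynomial.aeval (ρ.uv x) ρ.D)
      (MvPolynomial.aeval (ρ.uv (bsr (L := L) x hx)) ρ.D) := by
  have h1 := bs_hv ρ x hx (Polynomial.C ρ.D)
  rwa [pe_C, pe_C] at h1

private theorem bs_hvf (h : Dts L.V f ψ f₀ ψ₀) (x : Fin N → Ω) (hx : ∀ i, L.nm (x i) ≤ 1)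
    (i : ι) : L.rs.Hv (MvPolynomial.aeval x (f i))
      (MvPolynomial.aeval (bsr (L := L) x hx) (MvPolynomial.map (iO F L.V) (f₀ i))) := by
  have e : MvPolynomial.map (algebraMap F Ω) (f i) =
      MvPolynomial.map (algebraMap L.V Ω) (MvPolynomial.map (iO F L.V) (f₀ i)) := by
    rw [← h.mf i, MvPolynomial.map_map, MvPolynomial.map_map]
    rfl
  have e1 : MvPolynomial.aeval x (f i) =
      MvPolynomial.aeval x (MvPolynomial.map (iO F L.V) (f₀ i)) := by
    rw [← MvPolynomial.aeval_map_algebraMap Ω x (f i), e, MvPolynomial.aeval_map_algebraMap]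
  have h1 := MvPolynomial.comp_aeval_apply (R := L.V) (fun j => (⟨x j, hx j⟩ : L.V))
    (Algebra.ofId L.V Ω) (MvPolynomial.map (iO F L.V) (f₀ i))
  have h2 := MvPolynomial.comp_aeval_apply (R := L.V) (fun j => (⟨x j, hx j⟩ : L.V))
    (Algebra.ofId L.V L.κ) (MvPolynomial.map (iO F L.V) (f₀ i))
  have e3 : (fun j => (Algebra.ofId L.V Ω) (⟨x j, hx j⟩ : L.V)) = x := rfl
  have e4 : (fun j => (Algebra.ofId L.V L.κ) (⟨x j, hx j⟩ : L.V)) = bsr (L := L) x hx := rfl
  rw [e3] at h1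
  rw [e4] at h2
  rw [e1, ← h1, ← h2]
  exact ⟨(MvPolynomial.aeval (fun j => (⟨x j, hx j⟩ : L.V))
    (MvPolynomial.map (iO F L.V) (f₀ i))).2, rfl⟩

private theorem bs_zero (h : Dts L.V f ψ f₀ ψ₀) (x : Fin N → Ω) (hx : ∀ i, L.nm (x i) ≤ 1)
    (h0 : ∀ i, L.nm (MvPolynomial.aeval x (f i)) < 1) (i : ι) :
    MvPolynomial.aeval (bsr (L := L) x hx) (MvPolynomial.map (iO F L.V) (f₀ i)) = 0 :=
  (bs_hvf h x hx i).uniq (L.hv_zero.2 (h0 i))

end loc

private theorem bs_id {M : Type} [Field M] {N d : ℕ} (ψ : Prj M N d) :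
    ψ.map (algebraMap M M) = ψ := by
  have e : (MvPolynomial.map (algebraMap M M) : MvPolynomial (Fin (d + 1)) M →+* _) =
      RingHom.id _ := RingHom.ext fun p => MvPolynomial.map_id p
  obtain ⟨u, y, G, D, A⟩ := ψ
  unfold Prj.map
  rw [e]
  simp only [Polynomial.map_id]
  rfl

variable {F : Type} [Field F] {N d m : ℕ} {ι : Type} {f : ι → MvPolynomial (Fin N) F}
  {K Ω : Type} [Field K] [Field Ω] [Algebra K Ω] [Algebra F K] [Algebra F Ω]
  [IsScalarTower F K Ω] {L : Ld K Ω}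

/-- The projections over `K` are good over the integers. Proof: `Dat.pj` in `Gx/Dt` does not use the covering (`Dat.cov`): copy it (with its private helper lemmas `dt_..`) for `Dts`. -/
theorem Dts.pj {ψ : Fin m → Prj F N d}
    {f₀ : ι → MvPolynomial (Fin N) (L.V.comap (algebraMap F Ω))}
    {ψ₀ : Fin m → Prj (L.V.comap (algebraMap F Ω)) N d} (h : Dts L.V f ψ f₀ ψ₀) (i : Fin m) :
    Pj f L ((ψ i).map (algebraMap F K)) := by
  have okF := bs_okF h i
  have okK := okF.map (algebraMap F K)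
  refine ⟨?_, ?_, ?_, ?_, ?_, ?_, okK.mon, okK.homG, okK.homD, ?_, ?_, ?_, ?_, ?_, ?_, ?_⟩
  · intro r j
    rw [bs_K h i]
    exact bs_nm ((ψ₀ i).u r j)
  · intro j
    rw [bs_K h i]
    exact bs_nm ((ψ₀ i).y j)
  · intro j e
    rw [bs_K h i]
    change L.nm (algebraMap K Ω ((((ψ₀ i).G.map (MvPolynomial.map ((algebraMap F K).comp
      (L.V.comap (algebraMap F Ω)).subtype))).coeff j).coeff e)) ≤ 1
    rw [Polynomial.coeff_map, MvPolynomial.coeff_map]
    exact bs_nm (((ψ₀ i).G.coeff j).coeff e)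
  · intro e
    rw [bs_K h i]
    change L.nm (algebraMap K Ω ((MvPolynomial.map ((algebraMap F K).comp
      (L.V.comap (algebraMap F Ω)).subtype) (ψ₀ i).D).coeff e)) ≤ 1
    rw [MvPolynomial.coeff_map]
    exact bs_nm ((ψ₀ i).D.coeff e)
  · intro i' j e
    rw [bs_K h i]
    change L.nm (algebraMap K Ω (((((ψ₀ i).A i').map (MvPolynomial.map ((algebraMap F K).comp
      (L.V.comap (algebraMap F Ω)).subtype))).coeff j).coeff e)) ≤ 1
    rw [Polynomial.coeff_map, MvPolynomial.coeff_map]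
    exact bs_nm ((((ψ₀ i).A i').coeff j).coeff e)
  · intro i'
    obtain ⟨e, he⟩ := h.hom i'
    refine ⟨e, ?_⟩
    rw [← h.mf i']
    exact he.map _
  · obtain ⟨B, B', h1⟩ := (h.ok i).bez
    refine ⟨B.map (MvPolynomial.map ((algebraMap F K).comp
      (L.V.comap (algebraMap F Ω)).subtype)), B'.map (MvPolynomial.map ((algebraMap F K).comp
      (L.V.comap (algebraMap F Ω)).subtype)), ?_, ?_, ?_⟩
    · intro j e
      rw [Polynomial.coeff_map, MvPolynomial.coeff_map]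
      exact bs_nm ((B.coeff j).coeff e)
    · intro j e
      rw [Polynomial.coeff_map, MvPolynomial.coeff_map]
      exact bs_nm ((B'.coeff j).coeff e)
    · have h2 := congrArg (Polynomial.map (MvPolynomial.map ((algebraMap F K).comp
        (L.V.comap (algebraMap F Ω)).subtype))) h1
      rw [Polynomial.map_add, Polynomial.map_mul, Polynomial.map_mul, Polynomial.map_C,
        ← Polynomial.derivative_map] at h2
      rw [bs_K h i]
      exact h2
  · intro x hx h0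
    obtain ⟨k, hk⟩ := Function.ne_iff.1 hx
    obtain ⟨h1, h2⟩ := okF.on_pt h0 (Ne.isUnit hk)
    refine ⟨?_, fun j => ?_⟩
    · rw [← h1]
      exact bs_tw (R' := K) (ψ i) x (ψ i).G
    · rw [bs_twD (R' := K) (ψ i) x, ← h2 j]
      exact bs_tw (R' := K) (ψ i) x ((ψ i).A j)
  · obtain ⟨s, hs⟩ := okK.inX
    refine ⟨s, fun i' => ?_⟩
    have h1 := hs i'
    rw [MvPolynomial.aeval_map_algebraMap] at h1
    exact h1
  · intro c w hG
    exact (okK.in_A hG).1
  · intro c w hG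
    exact (okK.in_A hG).2.1
  · have h1 := okF.map (algebraMap F Ω)
    rw [Prj.map_map, ← IsScalarTower.algebraMap_eq F K Ω]
    exact h1
  · intro x hx hk h0
    obtain ⟨k, hk⟩ := hk
    have okV := (h.ok i).map (iO F L.V)
    have hku : IsUnit (bsr (L := L) x hx k) := Ne.isUnit ((L.hv_ne (bs_rhv x hx k)).2 hk)
    obtain ⟨h1, h2⟩ := okV.on_pt (bs_zero h x hx h0) hku
    obtain ⟨h3, h4, h5⟩ := bs_pV h i x
    refine ⟨?_, fun j => ?_⟩
    · rw [← L.hv_zero, h3, ← h1]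
      exact bs_hv _ x hx _
    · rw [← L.hv_zero, h4 j, h5]
      have h6 := (bs_hv ((ψ₀ i).map (iO F L.V)) x hx (((ψ₀ i).map (iO F L.V)).A j)).sub
        ((bs_hvD ((ψ₀ i).map (iO F L.V)) x hx).mul (bs_rhv x hx j))
      rw [h2 j, sub_self] at h6
      exact h6

/-- The projections over `K`. Proof: as `Dat.pj_of` in `Ng/Rb`. -/
theorem Dts.pj_of [CharZero K] [IsAlgClosure K Ω] {ψ : Fin m → Prj K N d}
    {f₀ : ι → MvPolynomial (Fin N) (L.V.comap (algebraMap K Ω))}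
    {ψ₀ : Fin m → Prj (L.V.comap (algebraMap K Ω)) N d} (hom : ∀ i, ∃ e, (f i).IsHomogeneous e)
    (h : Dts L.V (fun i => MvPolynomial.map (algebraMap F K) (f i)) ψ f₀ ψ₀) (i : Fin m) :
    Pj f L (ψ i) := by
  have h1 := h.pj (K := K) i
  rw [bs_id] at h1
  exact pj_base hom h1

/-- The projections over a finite extension. Proof: as `Dat.pj_xt` in `Kt/M3`. -/
theorem Dts.pj_xt [CharZero K] [IsAlgClosure K Ω] {ψ : Fin m → Prj K N d}
    {f₀ : ι → MvPolynomial (Fin N) (L.V.comap (algebraMap K Ω))}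
    {ψ₀ : Fin m → Prj (L.V.comap (algebraMap K Ω)) N d} (hom : ∀ i, ∃ e, (f i).IsHomogeneous e)
    (h : Dts L.V (fun i => MvPolynomial.map (algebraMap F K) (f i)) ψ f₀ ψ₀)
    (E : IntermediateField K Ω) [FiniteDimensional K E] (i : Fin m) :
    Pj f (xt L E) ((ψ i).map (algebraMap K E)) := by
  have hcl : IsAlgClosure E Ω := yd_ac E
  have hd : Dts (xt L E).V (fun i => MvPolynomial.map (algebraMap F K) (f i)) ψ f₀ ψ₀ := h
  exact pj_base2 hom (hd.pj (K := E) i)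

end GX
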