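import Pool.Agent.Lib.MP_f80667_ag.Rsm.Ga
import Pool.Agent.Lib.MP_f80667_ag.Gx.Ca
import Pool.Agent.Lib.MP_f80667_ag.Gx.Db

/-! The tangent space at a point of the good part of a projection. -/

open MvPolynomial

namespace GX

variable {κ : Type} [Field κ] {N d : ℕ} {ι : Type} {f : ι → MvPolynomial (Fin N) κ}

/-- The linear map `t ↦ U t`. -/
private def uvl (ψ : Prj κ N d) : (Fin N → κ) →ₗ[κ] (Fin (d + 1) → κ) where
  toFun t := ψ.uv t
  map_add' a b := uv_add ψ a b
  map_smul' c a := uv_smul ψ a c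

/-- A tangent vector with `U t = 0` is `0`. -/
private theorem tgs_zero {ψ : Prj κ N d} (h : ψ.Ok f) {x : Fin N → κ} (hx : Zp f x)
    (hD : eval (ψ.uv x) ψ.D ≠ 0) {t : Fin N → κ} (ht : t ∈ tgs f x) (hu : ψ.uv t = 0) :
    t = 0 := by
  obtain ⟨hx0, hxf⟩ := hx
  obtain ⟨k, hk⟩ : ∃ k, x k ≠ 0 := by
    by_contra hcon
    push Not at hcon
    exact hx0 (funext hcon)
  have h1 : ∀ i, aeval (dn x t) (f i) = (0 : DualNumber κ) := by
    intro i
    rw [aeval_dn, du_zero, du_inj]
    refine ⟨?_, ?_⟩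
    · rw [aeval_eq_eval]
      exact hxf i
    · simp only [aeval_eq_eval]
      exact ht i
  have hk' : IsUnit (dn x t k) := du_unit (isUnit_iff_ne_zero.2 hk)
  obtain ⟨hG, hA⟩ := h.on_pt h1 hk'
  rw [uv_dn, yv_dn, pe_dn, du_zero, du_inj, hu] at hG
  obtain ⟨hG0, hG1⟩ := hG
  simp only [Pi.zero_apply, zero_mul, Finset.sum_const_zero, zero_add] at hG1
  have hD' : IsUnit (aeval (ψ.uv x) ψ.D : κ) := by
    rw [aeval_eq_eval]
    exact isUnit_iff_ne_zero.2 hD
  have hy : ψ.yv t = 0 :=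
    (mul_eq_zero.1 hG1).resolve_right (h.gy_unit hG0 hD').ne_zero
  funext j
  have hj := hA j
  rw [uv_dn, yv_dn, pe_dn, aeval_dn, hu, hy, dn, du_mul, du_inj] at hj
  obtain ⟨-, hj1⟩ := hj
  simp only [Pi.zero_apply, zero_mul, mul_zero, Finset.sum_const_zero, add_zero] at hj1
  exact (mul_eq_zero.1 hj1.symm).resolve_left hD'.ne_zero

/-- **The tangent space at a point of the good part of a projection.** Proof: `t ↦ U t` (`U = ψ.u`) is injective on `tgs f x`: let `t ∈ tgs f x`, `U t = 0`. The derivative in the direction `t` at `x` of the elements `X k ^ s * cp G`, `X k ^ s * (cp (A j) - cp (C D) * X j)` of `(f)` (`onG`, `onA`, `k` with `x k ≠ 0`) is `0`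
(an element of `(f)` vanishes at `x` and its derivative in the direction `t` is `0`). As `U t = 0`, the first is `x k ^ s * G' (u (x), y (x)) * y (t)`, and `G' (u (x), y (x)) ≠ 0` by `bez`, so `y (t) = 0`; then the second is `- x k ^ s * D (u (x)) * t j`. -/
theorem ok_fr {ψ : Prj κ N d} (h : ψ.Ok f) {x : Fin N → κ} (hx : Zp f x)
    (hD : eval (ψ.uv x) ψ.D ≠ 0) : Module.finrank κ (tgs f x) ≤ d + 1 := by
  have hinj : Function.Injective ((uvl ψ).comp (tgs f x).subtype) := by
    rw [← LinearMap.ker_eq_bot, LinearMap.ker_eq_bot']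
    rintro ⟨t, ht⟩ h0
    exact Subtype.ext (tgs_zero h hx hD ht h0)
  have h1 := LinearMap.finrank_le_finrank_of_injective hinj
  rwa [Module.finrank_fin_fun] at h1

end GX
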