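import Pool.Agent.Lib.MP_f80667_ag.Rsm.Ga
import Pool.Agent.Lib.MP_f80667_ag.Rsm.A
import Pool.Agent.Lib.MP_f80667_ag.Ng.Hb

/-! The points with smooth reduction. -/

open ZC BE PE CV IntermediateField

namespace GX

variable {F : Type} [Field F] {N d : ℕ} {ι : Type} {f : ι → MvPolynomial (Fin N) F}
  {Ω : Type} [Field Ω] [Algebra F Ω]

private theorem rid_smul {κ : Type} [Field κ] {φ : MvPolynomial (Fin N) κ} {n : ℕ}
    (h : φ.IsHomogeneous n) (t : κ) (b : Fin N → κ) :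
    MvPolynomial.eval (fun j => t * b j) φ = t ^ n * MvPolynomial.eval b φ := by
  rw [MvPolynomial.eval_eq, MvPolynomial.eval_eq, Finset.mul_sum]
  refine Finset.sum_congr rfl fun d hd => ?_
  have hdeg : ∑ i ∈ d.support, d i = n := by
    have h1 : d.degree = n := by
      by_contra h2
      exact MvPolynomial.mem_support_iff.1 hd (h.coeff_eq_zero h2)
    rwa [Finsupp.degree_apply] at h1
  rw [← hdeg, ← Finset.prod_pow_eq_pow_sum]
  simp only [mul_pow, Finset.prod_mul_distrib]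
  ring

private theorem rid_tgs {κ : Type} [Field κ] {g : ι → MvPolynomial (Fin N) κ}
    (hg : ∀ i, ∃ e, (g i).IsHomogeneous e) {t : κ} (ht : t ≠ 0) (x : Fin N → κ) :
    tgs g (fun j => t * x j) = tgs g x := by
  ext v
  rw [mem_tgs, mem_tgs]
  refine forall_congr' fun i => ?_
  obtain ⟨e, he⟩ := hg i
  have h1 : ∑ j, MvPolynomial.eval (fun j => t * x j) (MvPolynomial.pderiv j (g i)) * v j =
      t ^ (e - 1) * ∑ j, MvPolynomial.eval x (MvPolynomial.pderiv j (g i)) * v j := by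
    rw [Finset.mul_sum]
    refine Finset.sum_congr rfl fun j _ => ?_
    rw [rid_smul he.pderiv, mul_assoc]
  rw [h1]
  constructor
  · intro h
    exact (mul_eq_zero.1 h).resolve_left (pow_ne_zero _ ht)
  · intro h
    rw [h, mul_zero]

private theorem rid_f₀ {V : ValuationSubring Ω} {f₀ f₁ : ι → MvPolynomial (Fin N) (V.comap (algebraMap F Ω))}
    (h₀ : ∀ i, MvPolynomial.map (V.comap (algebraMap F Ω)).subtype (f₀ i) = f i)
    (h₁ : ∀ i, MvPolynomial.map (V.comap (algebraMap F Ω)).subtype (f₁ i) = f i) : f₁ = f₀ :=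
  funext fun i => MvPolynomial.map_injective _ Subtype.val_injective ((h₁ i).trans (h₀ i).symm)

private theorem rid_hom {V : ValuationSubring Ω} (hom : ∀ i, ∃ e, (f i).IsHomogeneous e)
    {f₀ : ι → MvPolynomial (Fin N) (V.comap (algebraMap F Ω))}
    (h₀ : ∀ i, MvPolynomial.map (V.comap (algebraMap F Ω)).subtype (f₀ i) = f i) (i : ι) :
    ∃ e, (f₀ i).IsHomogeneous e := by
  obtain ⟨e, he⟩ := hom i
  refine ⟨e, fun m hm => he ?_⟩
  rw [← h₀ i, MvPolynomial.coeff_map]
  exact fun h => hm (Subtype.val_injective h)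

/-- Two systems of primitive coordinates over the valuation ring differ by a unit. -/
private theorem rid_unit {V : ValuationSubring Ω} {c : Ω} (hc : c ≠ 0) {x x' : Fin N → V}
    (h : ∀ j, (x' j : Ω) = c * x j) (hx : ∃ j, IsUnit (x j)) (hx' : ∃ j, IsUnit (x' j)) :
    ∃ u : V, IsUnit u ∧ ∀ j, x' j = u * x j := by
  obtain ⟨j, v, hv⟩ := hx
  obtain ⟨j', v', hv'⟩ := hx'
  have h1 : c ∈ V := by
    have e : c = (x' j : Ω) * ((v⁻¹ : Vˣ) : V) := by
      have e1 : (x j : Ω) * (((v⁻¹ : Vˣ) : V) : Ω) = 1 := by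
        rw [← hv]
        exact congrArg Subtype.val v.mul_inv
      rw [h j, mul_assoc, e1, mul_one]
    rw [e]
    exact V.mul_mem _ _ (x' j).2 ((v⁻¹ : Vˣ) : V).2
  have h2 : c⁻¹ ∈ V := by
    have e : c⁻¹ = (x j' : Ω) * ((v'⁻¹ : Vˣ) : V) := by
      have e1 : (x' j' : Ω) * (((v'⁻¹ : Vˣ) : V) : Ω) = 1 := by
        rw [← hv']
        exact congrArg Subtype.val v'.mul_inv
      rw [h j', mul_assoc] at e1
      exact (eq_inv_of_mul_eq_one_right e1).symm
    rw [e]
    exact V.mul_mem _ _ (x j').2 ((v'⁻¹ : Vˣ) : V).2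
  refine ⟨⟨c, h1⟩, ?_, fun k => Subtype.ext (h k)⟩
  exact IsUnit.of_mul_eq_one ⟨c⁻¹, h2⟩ (Subtype.ext (mul_inv_cancel₀ hc))

/-- The tangent spaces at a point do not depend on the coordinates. Proof: the coordinates differ by a unit `u` of `V`; the reductions of the `f₀ i` are homogeneous, so `∂ f_i (u x) = u ^ (e - 1) ∂ f_i (x)`; `f₀` is unique (`MvPolynomial.map_injective`). -/
theorem Smr.of_co {V : ValuationSubring Ω} (hom : ∀ i, ∃ e, (f i).IsHomogeneous e)
    {f₀ : ι → MvPolynomial (Fin N) (V.comap (algebraMap F Ω))}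
    (hf₀ : ∀ i, MvPolynomial.map (V.comap (algebraMap F Ω)).subtype (f₀ i) = f i)
    {P : (Xf f).pt Ω} (hP : Smr V f d P) {x : Fin N → V} (hx : Co P fun j => (x j : Ω))
    (hx1 : ∃ j, IsUnit (x j)) : Module.finrank (IsLocalRing.ResidueField V)
      (tgs (fun i => MvPolynomial.map (rdO F V) (f₀ i)) fun j =>
        IsLocalRing.residue V (x j)) ≤ d + 1 := by
  obtain ⟨f₁, h₁, x', hx', hx1', hr⟩ := hP
  rw [rid_f₀ hf₀ h₁] at hr
  obtain ⟨Q, hQ, hQx⟩ := hx
  obtain ⟨Q', hQ', hQx'⟩ := hx'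
  have hrel : Q.Rel Q' := Quotient.exact (hQ.symm.trans hQ')
  obtain ⟨c, hc, hc1⟩ := hrel
  obtain ⟨u, hu, hux⟩ := rid_unit hc (x := x) (x' := x') (fun j => by
    have e := congrFun hc1 j
    rw [hQx', hQx] at e
    exact e) hx1 hx1'
  have e : (fun j => IsLocalRing.residue V (x' j)) =
      fun j => IsLocalRing.residue V u * IsLocalRing.residue V (x j) := funext fun j => by
    rw [hux j, map_mul]
  rw [e, rid_tgs (fun i => ?_) ((IsLocalRing.residue_ne_zero_iff_isUnit u).2 hu)] at hr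
  · exact hr
  · obtain ⟨k, hk⟩ := rid_hom hom hf₀ i
    exact ⟨k, hk.map _⟩

end GX
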