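import Pool.Agent.Lib.MP_f80667_ag.Rsm.If
import Pool.Agent.Lib.MP_f80667_ag.Rsm.Ic
import Pool.Agent.Lib.MP_f80667_ag.Rsm.Id

/-! The projections of the points with smooth reduction. -/

open ZC BE PE CV IntermediateField

namespace GX

section aux

variable {F : Type} [Field F] {N : ℕ} {ι : Type} {f : ι → MvPolynomial (Fin N) F}
  {K Ω : Type} [Field K] [Field Ω] [Algebra K Ω] [Algebra F K] [Algebra F Ω]
  [IsScalarTower F K Ω] {L : Ld K Ω}

/-- The homomorphism of the valuation rings of `F` and `K`. -/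
private def rsmieFK (L : Ld K Ω) :
    (L.V.comap (algebraMap F Ω)) →+* (L.V.comap (algebraMap K Ω)) where
  toFun x := ⟨algebraMap F K x, by
    change algebraMap K Ω (algebraMap F K (x : F)) ∈ L.V
    rw [← IsScalarTower.algebraMap_apply F K Ω]
    exact x.2⟩
  map_one' := Subtype.ext (map_one (algebraMap F K))
  map_mul' _ _ := Subtype.ext (map_mul (algebraMap F K) _ _)
  map_zero' := Subtype.ext (map_zero (algebraMap F K))
  map_add' _ _ := Subtype.ext (map_add (algebraMap F K) _ _)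

private theorem rsmie_rd : (rdO K L.V).comp (rsmieFK (F := F) L) = rdO F L.V := by
  refine RingHom.ext fun x => ?_
  change IsLocalRing.residue L.V (iO K L.V (rsmieFK L x)) =
    IsLocalRing.residue L.V (iO F L.V x)
  refine congrArg _ (Subtype.ext ?_)
  exact (IsScalarTower.algebraMap_apply F K Ω (x : F)).symm

/-- The reductions of the equations over `F` and over `K` are the same. -/
private theorem rsmie_f {f₀ : ι → MvPolynomial (Fin N) (L.V.comap (algebraMap K Ω))}
    {f₁ : ι → MvPolynomial (Fin N) (L.V.comap (algebraMap F Ω))}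
    (hf₀ : ∀ i, MvPolynomial.map (L.V.comap (algebraMap K Ω)).subtype (f₀ i) =
      MvPolynomial.map (algebraMap F K) (f i))
    (hf₁ : ∀ i, MvPolynomial.map (L.V.comap (algebraMap F Ω)).subtype (f₁ i) = f i) :
    (fun i => MvPolynomial.map (rdO K L.V) (f₀ i)) =
      fun i => MvPolynomial.map (rdO F L.V) (f₁ i) := by
  funext i
  have h1 : f₀ i = MvPolynomial.map (rsmieFK L) (f₁ i) := by
    refine MvPolynomial.map_injective (L.V.comap (algebraMap K Ω)).subtype
      Subtype.val_injective ?_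
    rw [hf₀, ← hf₁, MvPolynomial.map_map, MvPolynomial.map_map]
    rfl
  rw [h1, MvPolynomial.map_map, rsmie_rd]

omit [Algebra F K] [IsScalarTower F K Ω] in
/-- The residues of the coordinates are the coordinates of a point of the reduction. -/
private theorem rsmie_zp {f₁ : ι → MvPolynomial (Fin N) (L.V.comap (algebraMap F Ω))}
    (hf₁ : ∀ i, MvPolynomial.map (L.V.comap (algebraMap F Ω)).subtype (f₁ i) = f i)
    {P : (Xf f).pt Ω} {x : Fin N → L.V} (hx : Co P fun j => (x j : Ω))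
    (hx1 : ∃ j, IsLocalRing.residue L.V (x j) ≠ 0) :
    Zp (fun i => MvPolynomial.map (rdO F L.V) (f₁ i)) fun j => IsLocalRing.residue L.V (x j) := by
  refine ⟨fun h => ?_, fun i => ?_⟩
  · obtain ⟨j, hj⟩ := hx1
    exact hj (congrFun h j)
  · have h1 := co_zero hx i
    have h3 : ((MvPolynomial.eval x (MvPolynomial.map (iO F L.V) (f₁ i)) : L.V) : Ω) =
        MvPolynomial.aeval (fun j => (x j : Ω)) (f i) := by
      rw [← hf₁ i, MvPolynomial.aeval_def, MvPolynomial.eval₂_map, MvPolynomial.eval_map]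
      change L.V.subtype (MvPolynomial.eval₂ _ _ _) = _
      rw [MvPolynomial.hom_eval₂]
      rfl
    have h2 : MvPolynomial.eval x (MvPolynomial.map (iO F L.V) (f₁ i)) = 0 := by
      refine Subtype.ext ?_
      rw [h3, h1]
      rfl
    have h4 : MvPolynomial.eval (fun j => IsLocalRing.residue L.V (x j))
        (MvPolynomial.map (rdO F L.V) (f₁ i)) =
        IsLocalRing.residue L.V (MvPolynomial.eval x (MvPolynomial.map (iO F L.V) (f₁ i))) := by
      rw [MvPolynomial.eval_map, MvPolynomial.eval_map, MvPolynomial.hom_eval₂]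
      rfl
    rw [h4, h2, map_zero]

omit [Algebra F K] [IsScalarTower F K Ω] in
private theorem rsmie_res {x : L.V} :
    IsLocalRing.residue L.V x ≠ 0 ↔ L.nm (x : Ω) = 1 :=
  L.hv_ne (x := (x : Ω)) (r := IsLocalRing.residue L.V x) ⟨x.2, rfl⟩

end aux

variable {F : Type} [Field F] {N d m : ℕ} {ι : Type} {f : ι → MvPolynomial (Fin N) F}
  {K Ω : Type} [Field K] [Field Ω] [Algebra K Ω] [Algebra F K] [Algebra F Ω]
  [IsScalarTower F K Ω] {L : Ld K Ω} {ψ : Fin m → Prj K N d}
  {f₀ : ι → MvPolynomial (Fin N) (L.V.comap (algebraMap K Ω))}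
  {ψ₀ : Fin m → Prj (L.V.comap (algebraMap K Ω)) N d}

/-- The points of the good part of a projection have smooth reduction. Proof: `ok_fr` for the reduction of `ψ₀ i` (`(h.ok i).map (rdO K L.V)`), `Dts.val`; `x` is primitive because `D` is homogeneous of degree `≥ 1`; the reductions of `f₁` and of `f₀` are the same (`f₀` is the image of `f₁`: both are mapped to `f` over `K`). -/
theorem Dts.smr {f₁ : ι → MvPolynomial (Fin N) (L.V.comap (algebraMap F Ω))}
    (hf₁ : ∀ i, MvPolynomial.map (L.V.comap (algebraMap F Ω)).subtype (f₁ i) = f i)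
    (h : Dts L.V (fun i => MvPolynomial.map (algebraMap F K) (f i)) ψ f₀ ψ₀) (i : Fin m)
    {P : (Xf f).pt Ω} {x : Fin N → Ω} (hx : Co P x) (hx1 : ∀ j, L.nm (x j) ≤ 1)
    (hD : L.nm (MvPolynomial.aeval ((ψ i).uv x) (ψ i).D) = 1) : Smr L.V f d P := by
  have hok := (h.ok i).map (rdO K L.V)
  obtain ⟨x', hx'⟩ : ∃ x' : Fin N → L.V, (fun j => (x' j : Ω)) = x :=
    ⟨fun j => ⟨x j, hx1 j⟩, rfl⟩
  subst hx'
  have hD' := (h.val i x').1 hD
  have hne : ∃ j, IsLocalRing.residue L.V (x' j) ≠ 0 := by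
    by_contra hno
    have hno' : ∀ j, IsLocalRing.residue L.V (x' j) = 0 := fun j => by
      by_contra hj
      exact hno ⟨j, hj⟩
    obtain ⟨e, he, hh⟩ := hok.homD
    refine hD' ?_
    have e1 : (((ψ₀ i).map (rdO K L.V)).uv fun j => IsLocalRing.residue L.V (x' j)) = 0 := by
      funext r
      change lv _ _ = 0
      rw [lv]
      refine Finset.sum_eq_zero fun j _ => ?_
      rw [hno' j, mul_zero]
    rw [e1]
    have h2 := aeval_smul_hom hh (0 : Fin (d + 1) → L.κ) (0 : L.κ)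
    rw [smul_zero, zero_pow he, zero_mul, MvPolynomial.aeval_eq_eval] at h2
    exact h2
  have hz := rsmie_zp hf₁ hx hne
  rw [rsmie_f h.mf hf₁] at hok
  obtain ⟨j, hj⟩ := hne
  exact ⟨f₁, hf₁, x', hx, ⟨j, (IsLocalRing.residue_ne_zero_iff_isUnit _).1 hj⟩,
    ok_fr hok hz hD'⟩

/-- The projections cover the points with smooth reduction. Proof: `h.cov`, `Dts.val`, `Smr.of_co`. -/
theorem Dts.cvr (hom : ∀ i, ∃ e, (f i).IsHomogeneous e)
    {f₁ : ι → MvPolynomial (Fin N) (L.V.comap (algebraMap F Ω))}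
    (hf₁ : ∀ i, MvPolynomial.map (L.V.comap (algebraMap F Ω)).subtype (f₁ i) = f i)
    (h : Dts L.V (fun i => MvPolynomial.map (algebraMap F K) (f i)) ψ f₀ ψ₀)
    {P : (Xf f).pt Ω} (hP : Smr L.V f d P) {x : Fin N → Ω} (hx : Co P x)
    (hx1 : ∀ j, L.nm (x j) ≤ 1) (hx2 : ∃ j, L.nm (x j) = 1) :
    ∃ i, L.nm (MvPolynomial.aeval ((ψ i).uv x) (ψ i).D) = 1 := by
  obtain ⟨x', hx'⟩ : ∃ x' : Fin N → L.V, (fun j => (x' j : Ω)) = x :=
    ⟨fun j => ⟨x j, hx1 j⟩, rfl⟩
  subst hx'
  obtain ⟨j, hj⟩ := hx2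
  have hr : IsLocalRing.residue L.V (x' j) ≠ 0 := rsmie_res.2 hj
  have h1 := Smr.of_co hom hf₁ hP hx ⟨j, (IsLocalRing.residue_ne_zero_iff_isUnit _).1 hr⟩
  have hz := rsmie_zp hf₁ hx ⟨j, hr⟩
  rw [← rsmie_f h.mf hf₁] at h1 hz
  obtain ⟨i, hi⟩ := h.cov _ hz h1
  exact ⟨i, (h.val i x').2 hi⟩

end GX
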