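import Pool.Agent.Lib.MP_f80667_ag.Rsm.Ga
import Pool.Agent.Lib.MP_f80667_ag.Kt.M3

/-! The values of the denominators. -/

open ZC BE PE CV IntermediateField

namespace GX

section gen

variable {R S : Type} [CommRing R] [CommRing S] [Algebra R S] {N d : ℕ}

private theorem if_twD {R' : Type} [CommRing R'] [Algebra R R'] [Algebra R' S]
    [IsScalarTower R R' S] (ψ : Prj R N d) (x : Fin N → S) :
    MvPolynomial.aeval ((ψ.map (algebraMap R R')).uv x) (ψ.map (algebraMap R R')).D =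
      MvPolynomial.aeval (ψ.uv x) ψ.D := by
  rw [uv_map]
  exact MvPolynomial.aeval_map_algebraMap R' (ψ.uv x) ψ.D

private theorem if_hom {S' : Type} [CommRing S'] [Algebra R S'] (φ : S →ₐ[R] S')
    (ψ : Prj R N d) (x : Fin N → S) :
    φ (MvPolynomial.aeval (ψ.uv x) ψ.D) =
      MvPolynomial.aeval (ψ.uv fun j => φ (x j)) ψ.D := by
  rw [MvPolynomial.comp_aeval_apply]
  have h1 : (fun r => φ (ψ.uv x r)) = ψ.uv fun j => φ (x j) := by
    funext r
    change φ (lv _ x) = lv _ fun j => φ (x j)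
    rw [lv, lv, map_sum]
    refine Finset.sum_congr rfl fun j _ => ?_
    rw [map_mul, AlgHom.commutes]
  rw [h1]

end gen

variable {N d m : ℕ} {ι : Type} {K Ω : Type} [Field K] [Field Ω] [Algebra K Ω] {L : Ld K Ω}

/-- The values of the denominators modulo the maximal ideal. Proof: as `dt_hvD` in `Gx/Dt`. -/
theorem Dts.val {f : ι → MvPolynomial (Fin N) K} {ψ : Fin m → Prj K N d}
    {f₀ : ι → MvPolynomial (Fin N) (L.V.comap (algebraMap K Ω))}
    {ψ₀ : Fin m → Prj (L.V.comap (algebraMap K Ω)) N d} (h : Dts L.V f ψ f₀ ψ₀) (i : Fin m)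
    (x : Fin N → L.V) :
    L.nm (MvPolynomial.aeval ((ψ i).uv fun j => (x j : Ω)) (ψ i).D) = 1 ↔
      MvPolynomial.eval (((ψ₀ i).map (rdO K L.V)).uv fun j => IsLocalRing.residue L.V (x j))
        ((ψ₀ i).map (rdO K L.V)).D ≠ 0 := by
  obtain ⟨ρ, hρ⟩ : ∃ ρ, ρ = (ψ₀ i).map (iO K L.V) := ⟨_, rfl⟩
  have e1 : ρ.map (algebraMap L.V Ω) = (ψ i).map (algebraMap K Ω) := by
    rw [hρ, ← h.mp i, Prj.map_map, Prj.map_map]
    rfl
  have e2 : ρ.map (algebraMap L.V L.κ) = (ψ₀ i).map (rdO K L.V) := by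
    rw [hρ, Prj.map_map]
    rfl
  have h1 : MvPolynomial.aeval ((ψ i).uv fun j => (x j : Ω)) (ψ i).D =
      ((MvPolynomial.aeval (ρ.uv x) ρ.D : L.V) : Ω) := by
    have a1 := if_twD (R' := Ω) (ψ i) fun j => (x j : Ω)
    have a2 := if_twD (R' := Ω) ρ fun j => (x j : Ω)
    rw [e1] at a2
    have a3 := if_hom (Algebra.ofId L.V Ω) ρ x
    exact (a1.symm.trans a2).trans a3.symm
  have h2 : MvPolynomial.eval (((ψ₀ i).map (rdO K L.V)).uv fun j =>
      IsLocalRing.residue L.V (x j)) ((ψ₀ i).map (rdO K L.V)).D =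
      IsLocalRing.residue L.V (MvPolynomial.aeval (ρ.uv x) ρ.D) := by
    have a2 := if_twD (R' := L.κ) ρ fun j => IsLocalRing.residue L.V (x j)
    rw [e2] at a2
    have a3 := if_hom (Algebra.ofId L.V L.κ) ρ x
    exact a2.trans a3.symm
  rw [h1, h2]
  exact (L.hv_ne ⟨(MvPolynomial.aeval (ρ.uv x) ρ.D).2, rfl⟩).symm

end GX
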