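import Pool.Agent.Lib.MP_f80667_ag.Rsm.Id

/-! The set of the points with smooth reduction. -/

open ZC BE PE CV IntermediateField

namespace GX

section rk

open MvPolynomial

private theorem ig_ev {κ : Type} [Field κ] {R : Type} [CommRing R] {N : ℕ} (e : κ ≃+* κ)
    (φ : R →+* κ) (he : ∀ a, e (φ a) = φ a) (x : Fin N → κ) (g : MvPolynomial (Fin N) R) :
    eval (fun j => e (x j)) (map φ g) = e (eval x (map φ g)) := by
  induction g using MvPolynomial.induction_on with
  | C a => rw [map_C, eval_C, eval_C, he]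
  | add p q hp hq => rw [map_add, map_add, map_add, map_add, hp, hq]
  | mul_X p i hp => rw [map_mul, map_mul, map_mul, map_mul, hp, map_X, eval_X, eval_X]

/-- The tangent space at the conjugate point has the same dimension. -/
private theorem ig_rank {κ : Type} [Field κ] {R : Type} [CommRing R] {N : ℕ} {ι : Type}
    (e : κ ≃+* κ) (φ : R →+* κ) (he : ∀ a, e (φ a) = φ a) (x : Fin N → κ)
    (g : ι → MvPolynomial (Fin N) R) :
    Module.finrank κ (tgs (fun i => map φ (g i)) fun j => e (x j)) =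
      Module.finrank κ (tgs (fun i => map φ (g i)) x) := by
  have hmem : ∀ t : Fin N → κ, t ∈ tgs (fun i => map φ (g i)) x ↔ (fun j => e (t j)) ∈
      tgs (fun i => map φ (g i)) fun j => e (x j) := by
    intro t
    rw [mem_tgs, mem_tgs]
    refine forall_congr' fun i => ?_
    have h3 : ∑ j, eval (fun j => e (x j)) (pderiv j (map φ (g i))) * e (t j) =
        e (∑ j, eval x (pderiv j (map φ (g i))) * t j) := by
      rw [map_sum]
      refine Finset.sum_congr rfl fun j _ => ?_
      rw [map_mul, pderiv_map, ig_ev e φ he]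
    rw [h3]
    exact (map_eq_zero_iff e e.injective).symm
  have h4 : Module.rank κ (tgs (fun i => map φ (g i)) x) = Module.rank κ
      (tgs (fun i => map φ (g i)) fun j => e (x j)) := by
    refine rank_eq_of_equiv_equiv (e : κ → κ)
      { toFun := fun t => ⟨fun j => e (t.1 j), (hmem t.1).1 t.2⟩
        invFun := fun t => ⟨fun j => e.symm (t.1 j), (hmem _).2 (by
          have h5 : (fun j => e (e.symm (t.1 j))) = t.1 := funext fun j =>
            e.apply_symm_apply (t.1 j)
          rw [h5]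
          exact t.2)⟩
        left_inv := fun t => Subtype.ext (funext fun j => e.symm_apply_apply (t.1 j))
        right_inv := fun t => Subtype.ext (funext fun j => e.apply_symm_apply (t.1 j))
        map_add' := fun t t' => Subtype.ext (funext fun j => map_add e (t.1 j) (t'.1 j)) }
      e.bijective fun r t => ?_
    exact Subtype.ext (funext fun j => map_mul e r (t.1 j))
  rw [Module.finrank, Module.finrank, h4]

end rk

variable {F : Type} [Field F] {N d : ℕ} {ι : Type} {f : ι → MvPolynomial (Fin N) F}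
  {Ω : Type} [Field Ω] [Algebra F Ω]

private theorem ig_act {K : Type} [Field K] [Algebra K Ω] {L : Ld K Ω} (γ : Ω ≃ₐ[K] Ω)
    {z : Ω} (h : z ∈ L.V) : γ z ∈ L.V :=
  L.mem_V.2 (by rw [L.act]; exact L.mem_V.1 h)

/-- The automorphism of the valuation ring. -/
private def igS {K : Type} [Field K] [Algebra K Ω] (L : Ld K Ω) (γ : Ω ≃ₐ[K] Ω) :
    L.V ≃+* L.V where
  toFun z := ⟨γ z, ig_act γ z.2⟩
  invFun z := ⟨γ.symm z, ig_act γ.symm z.2⟩
  left_inv z := Subtype.ext (γ.symm_apply_apply (z : Ω))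
  right_inv z := Subtype.ext (γ.apply_symm_apply (z : Ω))
  map_mul' a b := Subtype.ext (map_mul γ (a : Ω) (b : Ω))
  map_add' a b := Subtype.ext (map_add γ (a : Ω) (b : Ω))

private theorem ig_fix {K : Type} [Field K] [Algebra K Ω] [Algebra F K] [IsScalarTower F K Ω]
    (L : Ld K Ω) (γ : Ω ≃ₐ[K] Ω) (a : L.V.comap (algebraMap F Ω)) :
    IsLocalRing.ResidueField.mapEquiv (igS L γ) (rdO F L.V a) = rdO F L.V a := by
  have h1 : igS L γ (iO F L.V a) = iO F L.V a := by
    refine Subtype.ext ?_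
    change γ (algebraMap F Ω (a : F)) = algebraMap F Ω (a : F)
    rw [IsScalarTower.algebraMap_apply F K Ω]
    exact γ.commutes _
  change IsLocalRing.residue L.V (igS L γ (iO F L.V a)) = IsLocalRing.residue L.V (iO F L.V a)
  rw [h1]

/-- **The set of the points with smooth reduction.** Proof of `act`: an automorphism `γ` of `Ω` over `K` preserves `L.nm`, so `L.V`, and induces an automorphism of the residue field which fixes the coefficients of the reductions of the `f₀ i` (they are images of elements of `F`); the tangent space at the conjugate point is the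
conjugate of the tangent space: `rank_eq_of_equiv_equiv` as in `Gdk.nsg'` (`Ng/Hb`). Proof of `nea`: the residues of the coordinates in `Nrh` are the same: `Smr.of_co`. -/
theorem smr_ok {K : Type} [Field K] [Algebra K Ω] [Algebra F K] [IsScalarTower F K Ω]
    {L : Ld K Ω} (hom : ∀ i, ∃ e, (f i).IsHomogeneous e) : SOk f L (Smr L.V f d) := by
  refine ⟨fun γ P hP => ?_, fun P P' hPP hP => ?_⟩
  · obtain ⟨f₀, hf₀, x, hx, ⟨j, hj⟩, hr⟩ := hP
    refine ⟨f₀, hf₀, fun j => igS L γ (x j), co_act γ hx, ⟨j, hj.map (igS L γ)⟩, ?_⟩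
    have h1 := ig_rank (IsLocalRing.ResidueField.mapEquiv (igS L γ)) (rdO F L.V)
      (ig_fix L γ) (fun j => IsLocalRing.residue L.V (x j)) f₀
    exact h1.le.trans hr
  · obtain ⟨r, hr1, x, x', hx, hx', h1, h1', ⟨i, hi⟩, ⟨i', hi'⟩, hr⟩ := hPP
    have hunit : ∀ {z : Ω} (hz : L.nm z ≤ 1), L.nm z = 1 → IsUnit (⟨z, hz⟩ : L.V) := by
      intro z hz h
      have hz0 : z ≠ 0 := L.ne_zero (by rw [h]; exact zero_lt_one)
      have hzi : L.nm z⁻¹ ≤ 1 := by rw [L.inv, h, inv_one]
      refine IsUnit.of_mul_eq_one (⟨z⁻¹, hzi⟩ : L.V) ?_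
      exact Subtype.ext (mul_inv_cancel₀ hz0)
    have h2 := hP
    obtain ⟨f₀, hf₀, -⟩ := h2
    refine ⟨f₀, hf₀, fun j => ⟨x' j, h1' j⟩, hx', ⟨i', hunit (h1' i') hi'⟩, ?_⟩
    have h3 := Smr.of_co hom hf₀ hP (x := fun j => (⟨x j, h1 j⟩ : L.V)) hx
      ⟨i, hunit (h1 i) hi⟩
    have h4 : (fun j => IsLocalRing.residue L.V (⟨x' j, h1' j⟩ : L.V)) =
        fun j => IsLocalRing.residue L.V (⟨x j, h1 j⟩ : L.V) := by
      funext j
      have h5 : L.rs.Hv (x j) (IsLocalRing.residue L.V (⟨x j, h1 j⟩ : L.V)) := ⟨h1 j, rfl⟩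
      have h6 : L.rs.Hv (x' j) (IsLocalRing.residue L.V (⟨x' j, h1' j⟩ : L.V)) := ⟨h1' j, rfl⟩
      exact ((L.hv_sub h5 h6).2 ((hr j).trans_lt hr1)).symm
    rw [h4]
    exact h3

end GX
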