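import Pool.Agent.Lib.MP_f80667_ag.Rsm.KtM4
import Pool.Agent.Lib.MP_f80667_ag.To.Da

/-! Descent of `RfaS` by two extensions of coprime degrees, and the cycles with sum `0`. -/

open ZC BE PE CV IntermediateField

namespace GX

section loc

variable {F : Type} [Field F] {N : ℕ} {ι : Type} {f : ι → MvPolynomial (Fin N) F}
  {K Ω : Type} [Field K] [CharZero K] [Field Ω] [Algebra K Ω] [Algebra F K] [Algebra F Ω]
  [IsScalarTower F K Ω] [IsAlgClosure K Ω] {L : Ld K Ω} {a : Ω} {sm : (Xf f).pt Ω → Prop}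

private theorem m5_const (M : IntermediateField K Ω) [FiniteDimensional K M]
    {z : (Xf f).pt Ω →₀ ℤ} (hz : z ∈ (Xf f).cyc K Ω) :
    GM.nmh (Xf f) M z = Module.finrank K M • z := by
  rw [GM.nmh_apply, nm_const bot_le (GM.cyc_iff.1 hz)]
  congr 1
  have h := relIndex_fix (K := K) (Ω := Ω) (M := ⊥) (N := M) bot_le
  rwa [IntermediateField.finrank_bot, mul_one] at h

private theorem m5_cyc (M : IntermediateField K Ω) [FiniteDimensional K M]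
    {z : (Xf f).pt Ω →₀ ℤ} (hz : z ∈ (Xf f).cyc M Ω) :
    GM.nmh (Xf f) M z ∈ (Xf f).cyc K Ω := by
  rw [GM.nmh_apply, GM.cyc_iff]
  exact nm_fx bot_le (fx_cyc'.2 hz)

private theorem m5_rat (M : IntermediateField K Ω) [FiniteDimensional K M]
    {z : (Xf f).pt Ω →₀ ℤ} (hz : z ∈ (Xf f).cyc M Ω) (h : z ∈ (Xf f).ratEq M Ω) :
    GM.nmh (Xf f) M z ∈ (Xf f).ratEq K Ω := by
  rw [GM.nmh_apply]
  exact nm_ratEq h (fx_cyc'.2 hz)

private theorem m5_zra (hf : Hm f) (ha : a ≠ 0) (ha1 : L.nm a < 1) (M : IntermediateField K Ω)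
    [FiniteDimensional K M] {z : (Xf f).pt Ω →₀ ℤ} (h : Zra f L.V a z) :
    Zra f L.V a (GM.nmh (Xf f) M z) := by
  rw [zra_iff ha] at h ⊢
  rw [GM.nmh_apply]
  exact h.nm hf (L.nonneg a) ha1

/-- One extension. -/
private theorem m5_one (hf : Hm f) (ha : a ≠ 0) (ha1 : L.nm a < 1) (M : IntermediateField K Ω)
    [FiniteDimensional K M] {z e u : (Xf f).pt Ω →₀ ℤ} {q : ℕ} (hz : z ∈ (Xf f).cyc K Ω)
    (he : e ∈ (Xf f).cyc M Ω) (hu : u ∈ (Xf f).cyc M Ω) (hu' : Zra f L.V a u)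
    (h : q • z - e - u ∈ (Xf f).ratEq M Ω) :
    GM.nmh (Xf f) M u ∈ (Xf f).cyc K Ω ∧ Zra f L.V a (GM.nmh (Xf f) M u) ∧
      q • Module.finrank K M • z - GM.nmh (Xf f) M e - GM.nmh (Xf f) M u ∈
        (Xf f).ratEq K Ω := by
  refine ⟨m5_cyc M hu, m5_zra hf ha ha1 M hu', ?_⟩
  rw [← m5_const M hz, ← map_nsmul, ← map_sub, ← map_sub]
  exact m5_rat M (sub_mem (sub_mem (nsmul_mem (cyc_up hz) q) he) hu) h

/-- **Descent for `RfaS`.** -/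
theorem rfaS_cop (hf : Hm f) (ha : a ≠ 0) (ha1 : L.nm a < 1)
    {M₁ M₂ : IntermediateField K Ω} [FiniteDimensional K M₁] [FiniteDimensional K M₂]
    (h : (Module.finrank K M₁).Coprime (Module.finrank K M₂)) {p : ℕ}
    (h₁ : RfaS sm L.V M₁ a p) (h₂ : RfaS sm L.V M₂ a p) : RfaS sm L.V K a p := by
  classical
  obtain ⟨u, v, huv⟩ : ∃ u v : ℤ, u * Module.finrank K M₁ + v * Module.finrank K M₂ = 1 :=
    Nat.isCoprime_iff_coprime.2 h
  obtain ⟨⟨E₁, c₁, d₁⟩, k₁, g₁⟩ := h₁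
  obtain ⟨⟨E₂, c₂, d₂⟩, k₂, g₂⟩ := h₂
  have hZ : ∀ {x y : (Xf f).pt Ω →₀ ℤ}, Zra f L.V a x → Zra f L.V a y →
      Zra f L.V a (u • x + v • y) := fun {x y} hx hy => by
    rw [zra_iff ha] at hx hy ⊢
    exact (hx.zsmul u).add (hy.zsmul v)
  have hz1 : ∀ z : (Xf f).pt Ω →₀ ℤ,
      u • (Module.finrank K M₁ • z) + v • (Module.finrank K M₂ • z) = z := fun z => by
    rw [← natCast_zsmul, ← natCast_zsmul, smul_smul, smul_smul, ← add_smul, huv, one_smul]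
  refine ⟨⟨(E₁ ×ˢ E₂).image fun e => u • GM.nmh (Xf f) M₁ e.1 + v • GM.nmh (Xf f) M₂ e.2,
    fun e he => ?_, fun z hz hS h0 => ?_⟩, k₁ + k₂, fun z hz hS h0 => ?_⟩
  · obtain ⟨⟨e₁, e₂⟩, h3, rfl⟩ := Finset.mem_image.1 he
    obtain ⟨h4, h5⟩ := Finset.mem_product.1 h3
    exact add_mem (zsmul_mem (m5_cyc M₁ (c₁ e₁ h4)) u) (zsmul_mem (m5_cyc M₂ (c₂ e₂ h5)) v)
  · obtain ⟨e₁, he₁, u₁, m1, m2, m3⟩ := d₁ z (cyc_up hz) hS h0
    obtain ⟨e₂, he₂, u₂, n1, n2, n3⟩ := d₂ z (cyc_up hz) hS h0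
    obtain ⟨p1, p2, p3⟩ := m5_one hf ha ha1 M₁ (q := 1) hz (c₁ e₁ he₁) m1 m2
      (by rwa [one_smul])
    obtain ⟨q1, q2, q3⟩ := m5_one hf ha ha1 M₂ (q := 1) hz (c₂ e₂ he₂) n1 n2
      (by rwa [one_smul])
    rw [one_smul] at p3 q3
    refine ⟨_, Finset.mem_image.2 ⟨(e₁, e₂), Finset.mem_product.2 ⟨he₁, he₂⟩, rfl⟩,
      u • GM.nmh (Xf f) M₁ u₁ + v • GM.nmh (Xf f) M₂ u₂,
      add_mem (zsmul_mem p1 u) (zsmul_mem q1 v), hZ p2 q2, ?_⟩
    have h5 := add_mem (zsmul_mem p3 u) (zsmul_mem q3 v)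
    have e : z - (u • GM.nmh (Xf f) M₁ e₁ + v • GM.nmh (Xf f) M₂ e₂) -
        (u • GM.nmh (Xf f) M₁ u₁ + v • GM.nmh (Xf f) M₂ u₂) =
        u • (Module.finrank K M₁ • z - GM.nmh (Xf f) M₁ e₁ - GM.nmh (Xf f) M₁ u₁) +
          v • (Module.finrank K M₂ • z - GM.nmh (Xf f) M₂ e₂ - GM.nmh (Xf f) M₂ u₂) := by
      calc z - (u • GM.nmh (Xf f) M₁ e₁ + v • GM.nmh (Xf f) M₂ e₂) -
          (u • GM.nmh (Xf f) M₁ u₁ + v • GM.nmh (Xf f) M₂ u₂)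
          = (u • (Module.finrank K M₁ • z) + v • (Module.finrank K M₂ • z)) -
            (u • GM.nmh (Xf f) M₁ e₁ + v • GM.nmh (Xf f) M₂ e₂) -
            (u • GM.nmh (Xf f) M₁ u₁ + v • GM.nmh (Xf f) M₂ u₂) := by rw [hz1 z]
        _ = _ := by module
    rw [e]
    exact h5
  · obtain ⟨u₁, m1, m2, m3⟩ := g₁ z (cyc_up hz) hS h0
    obtain ⟨u₂, n1, n2, n3⟩ := g₂ z (cyc_up hz) hS h0
    obtain ⟨p1, p2, p3⟩ := m5_one hf ha ha1 M₁ (q := p ^ k₁) hz (zero_mem _) m1 m2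
      (by rwa [sub_zero])
    obtain ⟨q1, q2, q3⟩ := m5_one hf ha ha1 M₂ (q := p ^ k₂) hz (zero_mem _) n1 n2
      (by rwa [sub_zero])
    rw [map_zero, sub_zero] at p3 q3
    refine ⟨p ^ k₂ • (u • GM.nmh (Xf f) M₁ u₁) + p ^ k₁ • (v • GM.nmh (Xf f) M₂ u₂),
      add_mem (nsmul_mem (zsmul_mem p1 u) _) (nsmul_mem (zsmul_mem q1 v) _), ?_, ?_⟩
    · rw [zra_iff ha] at p2 q2 ⊢
      rw [← natCast_zsmul, ← natCast_zsmul]
      exact ((p2.zsmul u).zsmul _).add ((q2.zsmul v).zsmul _)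
    · have h5 := add_mem (nsmul_mem (zsmul_mem p3 u) (p ^ k₂))
        (nsmul_mem (zsmul_mem q3 v) (p ^ k₁))
      have e : p ^ (k₁ + k₂) • z -
          (p ^ k₂ • (u • GM.nmh (Xf f) M₁ u₁) + p ^ k₁ • (v • GM.nmh (Xf f) M₂ u₂)) =
          p ^ k₂ • (u • (p ^ k₁ • Module.finrank K M₁ • z - GM.nmh (Xf f) M₁ u₁)) +
            p ^ k₁ • (v • (p ^ k₂ • Module.finrank K M₂ • z - GM.nmh (Xf f) M₂ u₂)) := by
        calc p ^ (k₁ + k₂) • z -
            (p ^ k₂ • (u • GM.nmh (Xf f) M₁ u₁) + p ^ k₁ • (v • GM.nmh (Xf f) M₂ u₂))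
            = p ^ (k₁ + k₂) • (u • (Module.finrank K M₁ • z) + v • (Module.finrank K M₂ • z)) -
              (p ^ k₂ • (u • GM.nmh (Xf f) M₁ u₁) + p ^ k₁ • (v • GM.nmh (Xf f) M₂ u₂)) := by
                rw [hz1 z]
          _ = _ := by
                rw [pow_add]
                module
      rw [e]
      exact h5

end loc

section defs

variable {F : Type} [Field F] {N N' k k' : ℕ} {ι ι' : Type} {f : ι → MvPolynomial (Fin N) F}
  {A : Gv F N' k' ι'} {Ω : Type} [Field Ω] [Algebra F Ω]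

/-- The cycles supported in `sm` with reduction `0` and sum `0`: cycles which are `0` modulo `a` with sum `0`, and finitely many torsion
cycles. -/
def TgS (sm : (Xf f).pt Ω → Prop) (V : ValuationSubring Ω) (M : Mf f A k) (K : Type) [Field K]
    [Algebra F K] [Algebra K Ω] [IsScalarTower F K Ω] (a : Ω) (p : ℕ) : Prop :=
  letI := A.G.grp Ω
  ∃ E : Finset ((Xf f).pt Ω →₀ ℤ),
    (∀ e ∈ E, e ∈ (Xf f).cyc K Ω ∧ Zrd f V e ∧ M.S Ω e = 0 ∧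
      ∃ k : ℕ, p ^ k • e ∈ (Xf f).ratEq K Ω) ∧
    ∀ z ∈ (Xf f).cyc K Ω, (∀ P ∈ z.support, sm P) → Zrd f V z → M.S Ω z = 0 → ∃ e ∈ E,
      ∃ u ∈ (Xf f).cyc K Ω, Zra f V a u ∧ M.S Ω u = 0 ∧ z - e - u ∈ (Xf f).ratEq K Ω

end defs

section main

variable {F : Type} [Field F] {N N' k k' : ℕ} {ι ι' : Type} {f : ι → MvPolynomial (Fin N) F}
  {A : Gv F N' k' ι'} {M : Mf f A k} {K Ω : Type} [Field K] [CharZero K] [Field Ω]
  [Algebra K Ω] [Algebra F K] [Algebra F Ω] [IsScalarTower F K Ω] [IsAlgClosure K Ω] {L : Ld K Ω}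
  {a : Ω} {sm : (Xf f).pt Ω → Prop}

/-- **The cycles with reduction `0` and sum `0`.** -/
theorem tgdS_of (hf : Hm f) (hA : A.Ok) (hM : M.Ok) (ha : a ≠ 0) (ha1 : L.nm a < 1) {p : ℕ}
    (hp : p ≠ 0) (hR : RfaS sm L.V K a p) (hD : Dvz L.V M K a) : TgS sm L.V M K a p := by
  classical
  let _ : AddCommGroup ((Xf A.a).pt Ω) := A.G.grp Ω
  have hrs : ∀ x ∈ (Xf f).ratEq K Ω, M.S Ω x = 0 := fun x hx => RS.rs hf hA hM hx
  obtain ⟨⟨E, hE1, hE2⟩, k, hk⟩ := hR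
  -- the cycles with reduction `0` and sum `0`, cycles with reduction `0`, cycles which are `0` modulo `a` with sum `0`
  have hz1 : ∀ z : (Xf f).pt Ω →₀ ℤ, Zra f L.V a z → Zrd f L.V z := fun z hz =>
    zrd_iff.2 (zrt_zr hf (L.nonneg a) ha1 ((zra_iff ha).1 hz))
  -- for every `e` in `E` one cycle `g e` in the class of `e`
  have key : ∀ e : (Xf f).pt Ω →₀ ℤ, ∃ c : (Xf f).pt Ω →₀ ℤ, c ∈ (Xf f).cyc K Ω ∧ Zrd f L.V c ∧
      M.S Ω c = 0 ∧ (p ^ k • c ∈ (Xf f).ratEq K Ω) ∧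
      ∀ z ∈ (Xf f).cyc K Ω, (∀ P ∈ z.support, sm P) → Zrd f L.V z → M.S Ω z = 0 → (∃ u ∈ (Xf f).cyc K Ω,
        Zra f L.V a u ∧ z - e - u ∈ (Xf f).ratEq K Ω) → ∃ u ∈ (Xf f).cyc K Ω,
          Zra f L.V a u ∧ M.S Ω u = 0 ∧ z - c - u ∈ (Xf f).ratEq K Ω := by
    intro e
    by_cases h : ∃ z₀ ∈ (Xf f).cyc K Ω, (∀ P ∈ z₀.support, sm P) ∧ Zrd f L.V z₀ ∧ M.S Ω z₀ = 0 ∧ ∃ u ∈ (Xf f).cyc K Ω,
      Zra f L.V a u ∧ z₀ - e - u ∈ (Xf f).ratEq K Ω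
    · obtain ⟨z₀, h1, h1', h2, h3, u₀, h4, h5, h6⟩ := h
      obtain ⟨u₁, h7, h8, h9⟩ := hk z₀ h1 h1' h2
      have h10 : M.S Ω u₁ = 0 := by
        have h11 := hrs _ h9
        rw [map_sub, map_nsmul, h3, smul_zero, zero_sub, neg_eq_zero] at h11
        exact h11
      obtain ⟨w, w1, w2, w3, w4⟩ := hD (p ^ k) (pow_ne_zero k hp) u₁ h7 h8 h10
      have w3' : M.S Ω w = 0 := w3
      have hsub : ∀ {x y : (Xf f).pt Ω →₀ ℤ}, Zra f L.V a x → Zra f L.V a y →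
          Zra f L.V a (x - y) := fun {x y} hx hy => by
        rw [zra_iff ha] at hx hy ⊢
        rw [sub_eq_add_neg, ← neg_one_zsmul y]
        exact hx.add (hy.zsmul _)
      have hsubd : ∀ {x y : (Xf f).pt Ω →₀ ℤ}, Zrd f L.V x → Zrd f L.V y →
          Zrd f L.V (x - y) := fun {x y} hx hy => by
        rw [sub_eq_add_neg]
        exact zrd_iff.2 (zr_add (zrd_iff.1 hx) (zr_neg (zrd_iff.1 hy)))
      refine ⟨z₀ - w, sub_mem h1 w1, hsubd h2 (hz1 w w2), ?_, ?_, ?_⟩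
      · rw [map_sub, h3, w3', sub_zero]
      · have e1 : p ^ k • (z₀ - w) = (p ^ k • z₀ - u₁) + (u₁ - p ^ k • w) := by
          rw [smul_sub]
          abel
        rw [e1]
        exact add_mem h9 w4
      · rintro z g1 - g2 g3 ⟨u, g4, g5, g6⟩
        have e1 : z - (z₀ - w) - (u - u₀ + w) = (z - e - u) - (z₀ - e - u₀) := by abel
        have hm : z - (z₀ - w) - (u - u₀ + w) ∈ (Xf f).ratEq K Ω := by
          rw [e1]
          exact sub_mem g6 h6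
        have hw : Zra f L.V a (u - u₀ + w) := by
          have h12 := hsub g5 h5
          rw [zra_iff ha] at h12 w2 ⊢
          exact h12.add w2
        refine ⟨u - u₀ + w, add_mem (sub_mem g4 h4) w1, hw, ?_, hm⟩
        have h13 := hrs _ hm
        rw [map_sub, map_sub, g3, map_sub, h3, w3', sub_zero, sub_zero, zero_sub,
          neg_eq_zero] at h13
        exact h13
    · refine ⟨0, zero_mem _, ?_, map_zero _, ?_, ?_⟩
      · refine hz1 0 ((zra_iff ha).2 ?_)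
        intro Q
        rw [Finsupp.support_zero, Finset.filter_empty, Finset.sum_empty]
      · rw [smul_zero]
        exact zero_mem _
      · intro z g1 g1' g2 g3 g4
        exact absurd ⟨z, g1, g1', g2, g3, g4⟩ h
  choose g g1 g2 g3 g4 g5 using key
  refine ⟨E.image g, fun e he => ?_, fun z hz hs h0 hS => ?_⟩
  · obtain ⟨e, -, rfl⟩ := Finset.mem_image.1 he
    exact ⟨g1 e, g2 e, g3 e, k, g4 e⟩
  · obtain ⟨e, he, h1⟩ := hE2 z hz hs h0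
    exact ⟨g e, Finset.mem_image.2 ⟨e, he, rfl⟩, g5 e z hz hs h0 hS h1⟩

end main

end GX
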