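import Pool.Agent.Lib.MP_f80667_ag.Rsm.Ia
import Pool.Agent.Lib.MP_f80667_ag.Rsm.Ib
import Pool.Agent.Lib.MP_f80667_ag.Rsm.Ie
import Pool.Agent.Lib.MP_f80667_ag.Rsm.Ig
import Pool.Agent.Lib.MP_f80667_ag.Rsm.KtM5
import Pool.Agent.Lib.MP_f80667_ag.Kt.M5

/-!
The cycles with reduction `0` which are supported at points with smooth reduction.

* `Gsv.rfaS`: finitely many classes modulo the cycles which are `0` modulo `a`, killed by a power of `p`.
-/

open ZC BE PE CV IntermediateField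

namespace GX

variable {F : Type} [Field F] {N d : ℕ} {ι : Type} {f : ι → MvPolynomial (Fin N) F}
  {K Ω : Type} [Field K] [CharZero K] [Field Ω] [Algebra K Ω] [Algebra F K] [Algebra F Ω]
  [IsScalarTower F K Ω] [IsAlgClosure K Ω] {L : Ld K Ω} {a : Ω}

/-- With projections over `K`. -/
private theorem ja_dat (hf : Hm f) (ha : a ≠ 0) (ha1 : L.nm a < 1) {m : ℕ}
    {ψ : Fin m → Prj K N d} {f₀ : ι → MvPolynomial (Fin N) (L.V.comap (algebraMap K Ω))}
    {ψ₀ : Fin m → Prj (L.V.comap (algebraMap K Ω)) N d}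
    {f₁ : ι → MvPolynomial (Fin N) (L.V.comap (algebraMap F Ω))}
    (hf₁ : ∀ i, MvPolynomial.map (L.V.comap (algebraMap F Ω)).subtype (f₁ i) = f i)
    (h : Dts L.V (fun i => MvPolynomial.map (algebraMap F K) (f i)) ψ f₀ ψ₀) :
    RfaS (Smr L.V f d) L.V K a L.p := by
  have hch : CharZero Ω := charZero_of_injective_algebraMap (algebraMap K Ω).injective
  obtain ⟨π, hπ⟩ := exists_uf L
  have hok : SOk f L (Smr L.V f d) := smr_ok hf
  refine rfa_of2Sm hπ hf (fun i => ⟨h.pj_of hf i, fun P x hx hx1 hD => h.smr hf₁ i hx hx1 hD⟩)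
    (fun P x hP hx hx1 hx2 => h.cvr hf hf₁ hP hx hx1 hx2) (fun E hE => ?_) ha ha1
  have e : ∀ i (x : Fin N → Ω), MvPolynomial.aeval (((ψ i).map (algebraMap K E)).uv x)
      ((ψ i).map (algebraMap K E)).D = MvPolynomial.aeval ((ψ i).uv x) (ψ i).D := fun i x => by
    rw [uv_map]
    exact MvPolynomial.aeval_map_algebraMap E ((ψ i).uv x) (ψ i).D
  refine ⟨fun i => ⟨h.pj_xt hf E i, fun P x hx hx1 hD => ?_⟩, fun P x hP hx hx1 hx2 => ?_⟩
  · rw [e] at hD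
    exact h.smr hf₁ i hx hx1 hD
  · obtain ⟨i, hi⟩ := h.cvr hf hf₁ hP hx hx1 hx2
    refine ⟨i, ?_⟩
    rw [e]
    exact hi

/-- Over an unramified extension of degree a power of `l`. -/
private theorem ja_l (h : Gsv L.V f d) (hd : ((d + 1 : ℕ) : Cardinal) ≤
      Algebra.trdeg F (MvPolynomial (Fin N) F ⧸ Ideal.span (Set.range f)))
    (hp : (Ideal.span (Set.range fun i => MvPolynomial.map (algebraMap F Ω) (f i))).IsPrime)
    (ha : a ≠ 0) (ha1 : L.nm a < 1) {r l : ℕ} (hr : r ≠ 0) (hl : 2 ≤ l) :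
    ∃ a' : ℕ, RfaS (Smr L.V f d) L.V (L.Ur ⊥ (r * l ^ a')) a L.p := by
  have hch : CharZero Ω := charZero_of_injective_algebraMap (algebraMap K Ω).injective
  obtain ⟨π, hπ⟩ := exists_uf L
  obtain ⟨a', m, ψ, f₀, ψ₀, hdat⟩ := exists_dts hπ hr hl h hd hp
  obtain ⟨f₁, hf₁, -⟩ := h.red
  have hn : r * l ^ a' ≠ 0 := mul_ne_zero hr (pow_ne_zero a' (by omega))
  have hfd : FiniteDimensional K (L.Ur ⊥ (r * l ^ a')) := Ld.ur_fin ⊥ _ hn
  have hcl : IsAlgClosure (L.Ur ⊥ (r * l ^ a')) Ω :=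
    ⟨IsAlgClosure.isAlgClosed K, Algebra.IsAlgebraic.tower_top (K := K) _⟩
  exact ⟨a', ja_dat (L := xt L (L.Ur ⊥ (r * l ^ a'))) h.hom ha ha1 hf₁ hdat⟩

/-- **The classes of the cycles with reduction `0` which are supported at points with smooth reduction.** -/
theorem Gsv.rfaS (h : Gsv L.V f d) (hd : ((d + 1 : ℕ) : Cardinal) ≤
      Algebra.trdeg F (MvPolynomial (Fin N) F ⧸ Ideal.span (Set.range f)))
    (hp : (Ideal.span (Set.range fun i => MvPolynomial.map (algebraMap F Ω) (f i))).IsPrime)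
    (ha : a ≠ 0) (ha1 : L.nm a < 1) : RfaS (Smr L.V f d) L.V K a L.p := by
  obtain ⟨r, hr⟩ := exists_rf0 L
  obtain ⟨a', ha'⟩ := ja_l h hd hp ha ha1 hr.ne (le_refl 2)
  obtain ⟨b', hb'⟩ := ja_l h hd hp ha ha1 (l := 3) hr.ne (by norm_num)
  have hfa : FiniteDimensional K (L.Ur ⊥ (r * 2 ^ a')) :=
    Ld.ur_fin ⊥ _ (mul_ne_zero hr.ne (pow_ne_zero a' two_ne_zero))
  have hfb : FiniteDimensional K (L.Ur ⊥ (r * 3 ^ b')) :=
    Ld.ur_fin ⊥ _ (mul_ne_zero hr.ne (pow_ne_zero b' three_ne_zero))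
  refine rfaS_cop h.hom ha ha1 ?_ ha' hb'
  rw [ur_deg hr two_ne_zero, ur_deg hr three_ne_zero]
  exact Nat.Coprime.pow _ _ (by norm_num)

end GX
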