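import Pool.Agent.Lib.MP_f80667_ag.Rsm.Hb
import Pool.Agent.Lib.MP_f80667_ag.Gx.PjEb

/-! A geometrically irreducible variety over a field of characteristic `0`: the ideal is prime over every algebraically closed field. -/

open MvPolynomial

namespace GX

/-- The ideal over an algebraically closed field. -/
theorem prime_om {F : Type} [Field F] [CharZero F] {N : ℕ} {ι : Type}
    {f : ι → MvPolynomial (Fin N) F} (hp : (Ideal.span (Set.range f)).IsPrime)
    (hi : (Ideal.span (Set.range fun i =>
      MvPolynomial.map (algebraMap F (AlgebraicClosure F)) (f i))).radical.IsPrime)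
    (Ω : Type) [Field Ω] [IsAlgClosed Ω] [Algebra F Ω] :
    (Ideal.span (Set.range fun i => MvPolynomial.map (algebraMap F Ω) (f i))).IsPrime := by
  have h1 : (Ideal.span (Set.range fun i =>
      MvPolynomial.map (algebraMap F (AlgebraicClosure F)) (f i))).IsPrime := by
    have h2 : (Ideal.span (Set.range fun i =>
        MvPolynomial.map (algebraMap F (AlgebraicClosure F)) (f i))).IsRadical :=
      jf_radical hp (AlgebraicClosure F)
    rwa [h2.radical] at hi
  let σ : AlgebraicClosure F →ₐ[F] Ω := IsAlgClosed.lift
  let _ : Algebra (AlgebraicClosure F) Ω := σ.toRingHom.toAlgebra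
  have h3 := prime_up (Ω := Ω) h1
  have e : (fun i => MvPolynomial.map (algebraMap (AlgebraicClosure F) Ω)
      (MvPolynomial.map (algebraMap F (AlgebraicClosure F)) (f i))) =
      fun i => MvPolynomial.map (algebraMap F Ω) (f i) := by
    funext i
    have e1 : (algebraMap (AlgebraicClosure F) Ω).comp (algebraMap F (AlgebraicClosure F)) =
        algebraMap F Ω := RingHom.ext fun x => σ.commutes x
    rw [MvPolynomial.map_map, e1]
  rwa [e] at h3

end GX
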