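import Pool.Agent.Lib.MP_f80667_ag.Rsm.Ja
import Pool.Agent.Lib.MP_f80667_ag.Rsm.Jb

/-!
The cycles with reduction `0` and sum `0` which are supported at points with smooth reduction, over the completions of number fields.

* `Sst V M K d`: they are the sum of a cycle which is `0` modulo `a` with sum `0` and of a cycle of a finite set of torsion cycles of order
  a power of `p`.
-/

open ZC BE PE CV IntermediateField IsDedekindDomain NumberField

namespace GX

/-- The cycles with reduction `0` and sum `0` which are supported at points with smooth reduction, for all multiples `a` of some `a₀`. -/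
def Sst {F : Type} [Field F] {N N' k k' : ℕ} {ι ι' : Type} {f : ι → MvPolynomial (Fin N) F}
    {A : Gv F N' k' ι'} {Ω : Type} [Field Ω] [Algebra F Ω] (V : ValuationSubring Ω)
    (M : Mf f A k) (K : Type) [Field K] [Algebra F K] [Algebra K Ω] [IsScalarTower F K Ω]
    (d : ℕ) : Prop :=
  ∃ a₀ : Ω, a₀ ≠ 0 ∧ ∀ a : Ω, a ≠ 0 → (∃ c ∈ V, a = a₀ * c) → ∀ p : ℕ, p.Prime →
    (p : Ω) ∈ V.nonunits → TgS (Smr V f d) V M K a p

/-- **The points with smooth reduction.** -/
theorem sst_glob {F : Type} [Field F] [NumberField F] {N N' k k' d : ℕ} {ι ι' : Type}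
    {f : ι → MvPolynomial (Fin N) F} {A : Gv F N' k' ι'} {M : Mf f A k} (hf : Nsg f d)
    (hi : (Ideal.span (Set.range fun i =>
      MvPolynomial.map (algebraMap F (AlgebraicClosure F)) (f i))).radical.IsPrime)
    (hA : A.Ok) (hM : M.Ok) (v : HeightOneSpectrum (𝓞 F)) (hb : M.Alb (AlgebraicClosure F))
    {V : ValuationSubring (AlgebraicClosure (FK F v))}
    (hV : V.comap (algebraMap (FK F v) _) = CV.Iv v) (h : Gsv V f d) :
    Sst V M (FK F v) d := by
  have hch : CharZero (FK F v) :=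
    charZero_of_injective_algebraMap (algebraMap F (FK F v)).injective
  obtain ⟨a₁, h1, hd⟩ := ep_glob hf hA hM v hb hV
  obtain ⟨L, hL⟩ := exists_ldI v
  have hVL : V.comap (algebraMap (FK F v) _) = Ok L := by
    rw [hV]
    exact SetLike.ext fun x => (hL x).symm
  obtain rfl := GM.v_uniq L V hVL
  have hp := prime_om hf.prime hi (AlgebraicClosure (FK F v))
  obtain ⟨e, he⟩ := exists_pow_lt_of_lt_one (inv_pos.2 (L.pos h1)) L.lt
  have hlt : L.nm (a₁ * (L.p : AlgebraicClosure (FK F v)) ^ e) < 1 := by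
    rw [L.mul, L.pow]
    calc L.nm a₁ * L.nm (L.p : AlgebraicClosure (FK F v)) ^ e
        < L.nm a₁ * (L.nm a₁)⁻¹ := mul_lt_mul_of_pos_left he (L.pos h1)
      _ = 1 := mul_inv_cancel₀ (L.pos h1).ne'
  refine ⟨a₁ * (L.p : AlgebraicClosure (FK F v)) ^ e,
    mul_ne_zero h1 (pow_ne_zero _ (L.ne_zero L.p_pos)), fun a ha hc p hpp hpv => ?_⟩
  have h3 : L.p = p := by
    by_contra hne
    have h4 : L.nm (p : AlgebraicClosure (FK F v)) = 1 := L.nat_unit fun h5 =>
      hne ((Nat.prime_dvd_prime_iff_eq L.pp hpp).1 h5)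
    exact absurd (GM.non_iff.1 hpv) (by rw [h4]; exact lt_irrefl _)
  subst h3
  obtain ⟨c, hc, hac⟩ := hc
  have ha1 : L.nm a < 1 := by
    rw [hac, L.mul]
    exact (mul_le_of_le_one_right (L.nonneg _) (L.mem_V.1 hc)).trans_lt hlt
  obtain ⟨-, h4⟩ := hd a ha ⟨(L.p : AlgebraicClosure (FK F v)) ^ e * c,
    mul_mem (pow_mem (L.mem_V.2 L.lt.le) e) hc, by
      rw [hac]
      ring⟩
  exact tgdS_of hf.hom hA hM ha ha1 L.pp.ne_zero (h.rfaS hf.dim.ge hp ha ha1) h4

end GX
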