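import Pool.Agent.Lib.MP_f80667_ag.Gx.VD
import Pool.Agent.Lib.MP_f80667_ag.To.Ez
import Pool.Agent.Lib.MP_f80667_ag.Rsm.D

/-!
The cycles whose reduction is supported at points of bounded degree.

* `Rcj f V K D Q`: the reduction of `Q` has at most `D` conjugates over the residue field of `K`.
* `Zrb f V K D z`: the points of the special fibre over which the sum of the coefficients is not `0` have at most `D` conjugates.
* `TgZ sm V M K a p`: the cycles of degree `0` with sum `0`, supported in `sm`, with reduction `0`: `Wzc a` plus a finite set of cycles of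
  `p`-power torsion with reduction `0`.
* `TgD sm V M K a D`: the cycles of degree `0` with sum `0`, supported in `sm`, whose reduction is supported at such points: `Wzc a` plus a
  finite set of torsion cycles.
* `Ssd V M K d`: the structure of the cycles which are supported at points with smooth reduction.
-/

open ZC BE PE CV IntermediateField

namespace GX

section defs

variable {F : Type} [Field F] {N N' k k' : ℕ} {ι ι' : Type} (f : ι → MvPolynomial (Fin N) F)
  {Ω : Type} [Field Ω] [Algebra F Ω] (V : ValuationSubring Ω) (K : Type) [Field K] [Algebra F K]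
  [Algebra K Ω] [IsScalarTower F K Ω]

/-- The reduction of `Q` has at most `D` conjugates. -/
def Rcj (D : ℕ) (Q : (Xf f).pt Ω) : Prop :=
  ∃ s : Finset ((Xf f).pt Ω), s.card ≤ D ∧
    ∀ γ : Ω ≃ₐ[K] Ω, ∃ P ∈ s, Srd f V ((Xf f).act γ Q) P

open Classical in
/-- The reduction of the cycle is supported at points with at most `D` conjugates. -/
def Zrb (D : ℕ) (z : (Xf f).pt Ω →₀ ℤ) : Prop :=
  ∀ Q : (Xf f).pt Ω, ∑ P ∈ z.support.filter (fun P => Srd f V P Q), z P ≠ 0 → Rcj f V K D Q

variable {f} {A : Gv F N' k' ι'}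

/-- The cycles of degree `0` with sum `0` supported in `sm` with reduction `0`: `Wzc a` plus a finite set of cycles of `p`-power torsion. -/
def TgZ (sm : (Xf f).pt Ω → Prop) (M : Mf f A k) (a : Ω) (p : ℕ) : Prop :=
  ∃ E : Finset ((Xf f).pt Ω →₀ ℤ),
    (∀ e ∈ E, e ∈ Tzc M K Ω ∧ Zrd f V e ∧ ∃ n : ℕ, p ^ n • e ∈ (Xf f).ratEq K Ω) ∧
    ∀ z ∈ Tzc M K Ω, (∀ P ∈ z.support, sm P) → Zrd f V z →
      ∃ e ∈ E, ∃ u ∈ Wzc V M K a, z - e - u ∈ (Xf f).ratEq K Ω

/-- The cycles of degree `0` with sum `0` supported in `sm` whose reduction is supported at points with at most `D` conjugates: `Wzc a` plus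
a finite set of torsion cycles. -/
def TgD (sm : (Xf f).pt Ω → Prop) (M : Mf f A k) (a : Ω) (D : ℕ) : Prop :=
  ∃ E : Finset ((Xf f).pt Ω →₀ ℤ),
    (∀ e ∈ E, e ∈ Tzc M K Ω ∧ ∃ n : ℕ, n ≠ 0 ∧ n • e ∈ (Xf f).ratEq K Ω) ∧
    ∀ z ∈ Tzc M K Ω, (∀ P ∈ z.support, sm P) → Zrb f V K D z →
      ∃ e ∈ E, ∃ u ∈ Wzc V M K a, z - e - u ∈ (Xf f).ratEq K Ω

end defs

/-- The cycles of degree `0` with sum `0` which are supported at points with smooth reduction, for all multiples `a` of some `a₀`. -/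
def Ssd {F : Type} [Field F] {N N' k k' : ℕ} {ι ι' : Type} {f : ι → MvPolynomial (Fin N) F}
    {A : Gv F N' k' ι'} {Ω : Type} [Field Ω] [Algebra F Ω] (V : ValuationSubring Ω)
    (M : Mf f A k) (K : Type) [Field K] [Algebra F K] [Algebra K Ω] [IsScalarTower F K Ω]
    (d : ℕ) : Prop :=
  ∃ a₀ : Ω, a₀ ≠ 0 ∧ ∀ a : Ω, a ≠ 0 → (∃ c ∈ V, a = a₀ * c) →
    Dvw V M K a ∧ (∀ p : ℕ, p.Prime → (p : Ω) ∈ V.nonunits → TgZ V K (Smo V f d) M a p) ∧
      ∀ D : ℕ, TgD V K (Smo V f d) M a D

end GX
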