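import Pool.Agent.Lib.MP_f80667_ag.Rsm.Ka
import Pool.Agent.Lib.MP_f80667_ag.Rsm.GxXH

/-! Finitely many reductions with at most `D` conjugates. -/

open ZC BE PE CV IntermediateField

namespace GX

variable {F : Type} [Field F] {N : ℕ} {ι : Type} {f : ι → MvPolynomial (Fin N) F}
  {K Ω : Type} [Field K] [CharZero K] [Field Ω] [Algebra K Ω] [Algebra F K] [Algebra F Ω]
  [IsScalarTower F K Ω] [IsAlgClosure K Ω] {L : Ld K Ω}

omit [CharZero K] [IsAlgClosure K Ω] in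
private theorem kb_te_finite {n : ℕ} (hn : n ≠ 0) : (L.Te n).Finite := by
  classical
  have hp : 1 < L.p ^ n := Nat.one_lt_pow hn L.pp.one_lt
  have h0 : (Polynomial.X ^ L.p ^ n - Polynomial.X : Polynomial Ω) ≠ 0 :=
    FiniteField.X_pow_card_sub_X_ne_zero Ω hp
  refine ((Polynomial.X ^ L.p ^ n - Polynomial.X : Polynomial Ω).roots.toFinset.finite_toSet).subset
    fun x hx => ?_
  rw [Finset.mem_coe, Multiset.mem_toFinset, Polynomial.mem_roots h0, Polynomial.IsRoot.def,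
    Polynomial.eval_sub, Polynomial.eval_pow, Polynomial.eval_X, sub_eq_zero]
  exact hx

omit [CharZero K] [IsAlgClosure K Ω] in
private theorem kb_frob {φ : Ω ≃ₐ[K] Ω} {q : ℕ}
    (hfr : ∀ (N : ℕ), N ≠ 0 → ∀ z ∈ L.Te N, φ z = z ^ q) {N' : ℕ} (hN' : N' ≠ 0) {z : Ω}
    (hz : z ∈ L.Te N') (i : ℕ) : (φ ^ i) z = z ^ q ^ i := by
  induction i with
  | zero => rw [pow_zero, pow_zero, pow_one, AlgEquiv.one_apply]
  | succ i ih =>
    rw [pow_succ', AlgEquiv.mul_apply, ih, map_pow, hfr N' hN' z hz, ← pow_mul, pow_succ']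

private theorem kb_key (hf : Hm f) {φ : Ω ≃ₐ[K] Ω} {f0 D : ℕ}
    (hfr : ∀ (N : ℕ), N ≠ 0 → ∀ z ∈ L.Te N, φ z = z ^ L.p ^ f0) {Q : (Xf f).pt Ω}
    (h : Rcj f L.V K D Q) : ∃ x z : Fin N → Ω, (∀ j, z j ∈ L.Te (f0 * D.factorial)) ∧ Co Q x ∧
      (∃ i, L.nm (x i) = 1) ∧ (∀ j, L.nm (x j) ≤ 1) ∧ ∀ j, L.nm (x j - z j) < 1 := by
  classical
  obtain ⟨s, hs, hγ⟩ := h
  choose P hPs hP using fun i : ℕ => hγ (φ ^ i)
  obtain ⟨a, ha, b, hb, hab, hPab⟩ := Finset.exists_ne_map_eq_of_card_lt_of_maps_to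
    (s := Finset.range (D + 1)) (t := s) (by rw [Finset.card_range]; omega) (f := P)
    (fun i _ => hPs i)
  have hmain : ∀ a b : ℕ, a < b → b < D + 1 → P a = P b →
      ∃ c, c ≠ 0 ∧ c ≤ D ∧ Nea f L ((Xf f).act (φ ^ c) Q) Q := by
    intro a b hlt hb he
    refine ⟨b - a, by omega, by omega, ?_⟩
    have h1 : Nea f L ((Xf f).act (φ ^ a) Q) (P a) := srd_iff.1 (hP a)
    have h2 : Nea f L ((Xf f).act (φ ^ b) Q) (P b) := srd_iff.1 (hP b)
    rw [← he] at h2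
    have h3 := Nea.act (φ ^ a)⁻¹ (Nea.trans hf h2 h1.symm)
    rw [← act_mul (fct f), ← act_mul (fct f), inv_mul_cancel, act_one (fct f)] at h3
    have h4 : (φ ^ a)⁻¹ * φ ^ b = φ ^ (b - a) := by
      rw [inv_mul_eq_iff_eq_mul, ← pow_add]
      congr 1
      omega
    rwa [h4] at h3
  have hc : ∃ c, c ≠ 0 ∧ c ≤ D ∧ Nea f L ((Xf f).act (φ ^ c) Q) Q := by
    rcases lt_or_gt_of_ne hab with hlt | hlt
    · exact hmain a b hlt (Finset.mem_range.1 hb) hPab
    · exact hmain b a hlt (Finset.mem_range.1 ha) hPab.symm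
  obtain ⟨c, hc0, hcD, r, hr, hγ'⟩ := hc
  obtain ⟨x, i, hx, hi, hx1⟩ := exists_nco (L := L) hf Q
  choose Nf hNf z hz hxz using fun j => Ld.te_rep (L := L) (hx1 j)
  have h1 : ∀ j, L.nm ((φ ^ c) (x j) - x j) ≤ r := nrh_one hf hr hγ' (co_act (φ ^ c) hx) hx
    (by rw [hi, map_one]) hi (fun j => by rw [L.act]; exact hx1 j) hx1
  refine ⟨x, z, fun j => ?_, hx, ⟨i, by rw [hi, L.one]⟩, hx1, hxz⟩
  have hfix : (φ ^ c) (z j) = z j := by
    refine Ld.te_inj (hNf j) (Ld.te_act _ (hz j)) (hz j) ?_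
    have e : (φ ^ c) (z j) - z j = (φ ^ c) (z j - x j) + (((φ ^ c) (x j) - x j) + (x j - z j)) := by
      rw [map_sub]
      ring
    rw [e]
    refine (L.add _ _).trans_lt (max_lt ?_ ((L.add _ _).trans_lt (max_lt ((h1 j).trans_lt hr)
      (hxz j))))
    rw [L.act, L.sub_comm]
    exact hxz j
  rw [kb_frob hfr (hNf j) (hz j), ← pow_mul] at hfix
  have h5 : z j ∈ L.Te (f0 * c) := hfix
  exact Ld.te_dvd (mul_dvd_mul_left _ (Nat.dvd_factorial (Nat.pos_of_ne_zero hc0) hcD)) h5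

/-- **Finitely many reductions with at most `D` conjugates.** Proof: `exists_nco`: coordinates `x` of `Q` with `x i = 1`, integral; `Ld.te_rep`: `x j = z j` modulo the maximal ideal with `z j` a Teichmueller element (`L.Te N'`). If `γ Q` and `γ' Q` have the same reduction, then `γ (z j) = γ' (z j)` (the `i`-th
coordinate of both is `1`, two Teichmueller elements with the same residue are equal), so `z j` has at most `D` conjugates over `K`, `n = [K (z j) : K] ≤ D`, `K (z j)` is unramified (contained in `L.Ur ⊥ N'`) with residue field of degree `r * n` over `ZMod p` (`exists_rf0 L`: `L.Rf ⊥ r`; `Lv/Te.lean`, `Lv/Kd`: the degrees of the `Ur`), so `z j ∈ L.Te (r * n)` and `z j ∈ L.Te (r * D !)`: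
a finite set (roots of one polynomial) which depends only on `D`. (Other way: the coefficients of the minimal polynomial of `z j` modulo the maximal ideal are in the finite residue field of `K`, its degree is at most `D`: finitely many polynomials, so finitely many residues.) The reduction of `Q` is determined by `i` and the residues of the `z j`. -/
theorem rcj_fin (hf : ∀ i, ∃ e, (f i).IsHomogeneous e) (L : Ld K Ω) (D : ℕ) :
    ∃ B : Finset ((Xf f).pt Ω), ∀ Q, Rcj f L.V K D Q → ∃ b ∈ B, Srd f L.V Q b := by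
  classical
  obtain ⟨φ, q, hφ⟩ := exists_frob L.toLf (⊥ : IntermediateField K Ω)
  obtain ⟨f0, hf0, hq, hfr⟩ := Ld.frob_q hφ
  subst hq
  have hn : f0 * D.factorial ≠ 0 := mul_ne_zero hf0 (Nat.factorial_ne_zero D)
  have hfin : {z : Fin N → Ω | ∀ j, z j ∈ L.Te (f0 * D.factorial)}.Finite := by
    have h1 := Set.Finite.pi' (fun _ : Fin N => kb_te_finite (L := L) hn)
    exact h1
  refine ⟨hfin.toFinset.biUnion fun z => if h : ∃ b : (Xf f).pt Ω, ∃ x, Co b x ∧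
    (∃ i, L.nm (x i) = 1) ∧ (∀ j, L.nm (x j) ≤ 1) ∧ ∀ j, L.nm (x j - z j) < 1 then {h.choose}
    else ∅, fun Q hQ => ?_⟩
  obtain ⟨x, z, hz, hx, hx1, hx2, hx3⟩ := kb_key hf hfr hQ
  have hex : ∃ b : (Xf f).pt Ω, ∃ x, Co b x ∧
    (∃ i, L.nm (x i) = 1) ∧ (∀ j, L.nm (x j) ≤ 1) ∧ ∀ j, L.nm (x j - z j) < 1 :=
    ⟨Q, x, hx, hx1, hx2, hx3⟩
  obtain ⟨x', hx', hx1', hx2', hx3'⟩ := hex.choose_spec
  refine ⟨hex.choose, Finset.mem_biUnion.2 ⟨z, hfin.mem_toFinset.2 hz, ?_⟩, x, x', hx, hx',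
    GM.pmv_iff.2 ⟨hx2, hx1⟩, GM.pmv_iff.2 ⟨hx2', hx1'⟩, fun j => GM.non_iff.2 ?_⟩
  · rw [dif_pos hex]
    exact Finset.mem_singleton_self _
  · have e : x j - x' j = (x j - z j) + (z j - x' j) := by ring
    rw [e]
    refine (L.add _ _).trans_lt (max_lt (hx3 j) ?_)
    rw [L.sub_comm]
    exact hx3' j

end GX
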