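import Pool.Agent.Lib.MP_f80667_ag.Rsm.Ka
import Pool.Agent.Lib.MP_f80667_ag.Ep.Q2

/-! The cycles whose reduction is supported at points of bounded degree. -/

open ZC BE PE CV IntermediateField

namespace GX

variable {F : Type} [Field F] {N N' k k' : ℕ} {ι ι' : Type} {f : ι → MvPolynomial (Fin N) F}
  {A : Gv F N' k' ι'} {M : Mf f A k} {K Ω : Type} [Field K] [CharZero K] [Field Ω]
  [Algebra K Ω] [Algebra F K] [Algebra F Ω] [IsScalarTower F K Ω] [IsAlgClosure K Ω] {L : Ld K Ω}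
  {a : Ω} {sm : (Xf f).pt Ω → Prop}

omit [CharZero K] [Algebra F K] [IsScalarTower F K Ω] [IsAlgClosure K Ω] in
private theorem kc_le {r s : ℝ} (h : r ≤ s) {P P' : (Xf f).pt Ω} (hP : Nrh f L r P P') :
    Nrh f L s P P' := by
  obtain ⟨x, x', h1, h2, h3, h4, h5, h6, h7⟩ := hP
  exact ⟨x, x', h1, h2, h3, h4, h5, h6, fun i => (h7 i).trans h⟩

private theorem kc_srd {P P' : (Xf f).pt Ω} (h : Srd f L.V P P') :
    ∃ r, 0 ≤ r ∧ r < 1 ∧ Nrh f L r P P' := by
  obtain ⟨r, hr, h⟩ := srd_iff.1 h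
  exact ⟨max 0 r, le_max_left _ _, max_lt one_pos hr, kc_le (le_max_right _ _) h⟩

/-- To have the same reduction is an equivalence relation. -/
private theorem kc_eqv (hf : ∀ i, ∃ e, (f i).IsHomogeneous e) :
    Equivalence (Srd f L.V (Ω := Ω)) where
  refl P := by
    obtain ⟨h, -, -, -⟩ := nrh_eqv (L := L) hf (le_refl (0 : ℝ)) one_pos
    exact srd_iff.2 ⟨0, one_pos, h P⟩
  symm {P Q} h := by
    obtain ⟨r, h0, hr1, h⟩ := kc_srd h
    obtain ⟨-, h2, -, -⟩ := nrh_eqv (L := L) hf h0 hr1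
    exact srd_iff.2 ⟨r, hr1, h2 _ _ h⟩
  trans {P Q R} h h' := by
    obtain ⟨r, h0, hr1, h⟩ := kc_srd h
    obtain ⟨s, -, hs1, h'⟩ := kc_srd h'
    obtain ⟨-, -, h3, -⟩ := nrh_eqv (L := L) hf (h0.trans (le_max_left r s)) (max_lt hr1 hs1)
    exact srd_iff.2 ⟨max r s, max_lt hr1 hs1,
      h3 _ _ _ (kc_le (le_max_left _ _) h) (kc_le (le_max_right _ _) h')⟩

/-- A cycle with reduction `0` has degree `0`. Proof: sum over the classes of the points with the same reduction (`Srd` is an equivalence relation: `zrd_iff`, `Nea`), as in `zrt_zr` (`Ep/Q2`). -/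
theorem zrd_deg (hf : ∀ i, ∃ e, (f i).IsHomogeneous e) {z : (Xf f).pt Ω →₀ ℤ}
    (hz : Zrd f L.V z) : (Xf f).deg Ω z = 0 := by
  classical
  let s : Setoid ((Xf f).pt Ω) := ⟨Srd f L.V, kc_eqv hf⟩
  have e : (Xf f).deg Ω z = ∑ P ∈ z.support, z P := by
    rw [Vr.deg, Finsupp.liftAddHom_apply, Finsupp.sum]
    rfl
  rw [e, ← Finset.sum_fiberwise_of_maps_to
    (g := fun P => (Quotient.mk s P)) (t := z.support.image fun P => Quotient.mk s P)
    (fun P hP => Finset.mem_image_of_mem _ hP)]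
  refine Finset.sum_eq_zero fun c hc => ?_
  obtain ⟨Q, -, rfl⟩ := Finset.mem_image.1 hc
  have h3 := hz Q
  have h4 : (z.support.filter fun P => Quotient.mk s P = Quotient.mk s Q) =
      z.support.filter fun P => Srd f L.V P Q := by
    refine Finset.filter_congr fun P _ => ?_
    exact ⟨fun h => Quotient.exact h, fun h => Quotient.sound h⟩
  rw [h4]
  exact h3

open Classical in
/-- The sum of the coefficients at the points with the reduction of `Q`. -/
private noncomputable def kcs (f : ι → MvPolynomial (Fin N) F) (V : ValuationSubring Ω)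
    (Q : (Xf f).pt Ω) : ((Xf f).pt Ω →₀ ℤ) →+ ℤ :=
  Finsupp.liftAddHom fun P => if Srd f V P Q then AddMonoidHom.id ℤ else 0

open Classical in
omit [CharZero K] [Algebra F K] [IsScalarTower F K Ω] [IsAlgClosure K Ω] in
private theorem kcs_eq (Q : (Xf f).pt Ω) (z : (Xf f).pt Ω →₀ ℤ) :
    kcs f L.V Q z = ∑ P ∈ z.support.filter (fun P => Srd f L.V P Q), z P := by
  unfold kcs
  rw [Finsupp.liftAddHom_apply, Finsupp.sum, Finset.sum_filter]
  refine Finset.sum_congr rfl fun P _ => ?_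
  by_cases h : Srd f L.V P Q
  · rw [if_pos h, if_pos h]
    rfl
  · rw [if_neg h, if_neg h]
    rfl

private theorem kcs_congr (hf : ∀ i, ∃ e, (f i).IsHomogeneous e) {Q Q' : (Xf f).pt Ω}
    (h : Srd f L.V Q Q') (z : (Xf f).pt Ω →₀ ℤ) : kcs f L.V Q z = kcs f L.V Q' z := by
  classical
  rw [kcs_eq, kcs_eq]
  refine congrArg (fun s => ∑ P ∈ s, z P) (Finset.filter_congr fun P _ => ?_)
  exact ⟨fun h' => (kc_eqv hf).trans h' h, fun h' => (kc_eqv hf).trans h' ((kc_eqv hf).symm h)⟩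

/-- **Bounded reductions.** Proof: the cycles `z` in `Tzc`, supported in `sm`, with `Zrb D z` form a subgroup `G` (the support of a sum is in the union; the sums over a class are additive); the map `c : G → (B → ℤ)`, `z ↦` the sum of the coefficients at the points with the reduction of `b`, has kernel the cycles with reduction `0` (a class with sum
`≠ 0` is the class of a `b` in `B`), and its image is finitely generated (a subgroup of `ℤ ^ B`: Noetherian), by `c (z_1), .., c (z_r)`. `hT`: `u_i ∈ Wzc a` with `n_i (z_i - u_i) ∈ ratEq`, `n_i ≠ 0`; `t_i = z_i - u_i ∈ Tzc`. For `z` in `G`: `z = ∑ c_i z_i + g`, `g` with reduction `0` in `G`, `g = e + u` modulo `ratEq` (`hS`), so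
`z = (∑ (c_i mod n_i) t_i + e) + (∑ c_i u_i + u)` modulo `ratEq`: finitely many torsion cycles. -/
theorem tgD_of (hf : ∀ i, ∃ e, (f i).IsHomogeneous e) (hA : A.Ok) (hM : M.Ok) (ha : a ≠ 0)
    (ha1 : L.nm a < 1) {D : ℕ}
    (hB : ∃ B : Finset ((Xf f).pt Ω), ∀ Q, Rcj f L.V K D Q → ∃ b ∈ B, Srd f L.V Q b)
    (hT : Tdw L.V M K a)
    (hS : ∃ E : Finset ((Xf f).pt Ω →₀ ℤ),
      (∀ e ∈ E, e ∈ Tzc M K Ω ∧ ∃ n : ℕ, n ≠ 0 ∧ n • e ∈ (Xf f).ratEq K Ω) ∧
      ∀ z ∈ Tzc M K Ω, (∀ P ∈ z.support, sm P) → Zrd f L.V z →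
        ∃ e ∈ E, ∃ u ∈ Wzc L.V M K a, z - e - u ∈ (Xf f).ratEq K Ω) :
    TgD L.V K sm M a D := by
  classical
  let _ : AddCommGroup ((Xf A.a).pt Ω) := A.G.grp Ω
  obtain ⟨B, hB⟩ := hB
  obtain ⟨E, hE1, hE2⟩ := hS
  have hz1 : ∀ z : (Xf f).pt Ω →₀ ℤ, Zra f L.V a z → Zrd f L.V z := fun z hz =>
    zrd_iff.2 (zrt_zr hf (L.nonneg a) ha1 ((zra_iff ha).1 hz))
  have hzero : Zra f L.V a (0 : (Xf f).pt Ω →₀ ℤ) := by
    rw [zra_iff ha]
    intro Q
    rw [Finsupp.support_zero, Finset.filter_empty, Finset.sum_empty]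
  -- the subgroups
  let T : AddSubgroup ((Xf f).pt Ω →₀ ℤ) :=
    { carrier := {z | z ∈ (Xf f).cyc K Ω ∧ (Xf f).deg Ω z = 0 ∧ M.S Ω z = 0}
      add_mem' := fun {x y} hx hy => ⟨add_mem hx.1 hy.1, by
        rw [map_add, hx.2.1, hy.2.1, add_zero], by rw [map_add, hx.2.2, hy.2.2, add_zero]⟩
      zero_mem' := ⟨zero_mem _, map_zero _, map_zero _⟩
      neg_mem' := fun {x} hx => ⟨neg_mem hx.1, by
        rw [map_neg, hx.2.1, neg_zero], by rw [map_neg, hx.2.2, neg_zero]⟩ }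
  have hTz : ∀ z, z ∈ T ↔ z ∈ Tzc M K Ω := fun z => Iff.rfl
  let W : AddSubgroup ((Xf f).pt Ω →₀ ℤ) :=
    { carrier := {z | z ∈ (Xf f).cyc K Ω ∧ Zra f L.V a z ∧ M.S Ω z = 0}
      add_mem' := fun {x y} hx hy => ⟨add_mem hx.1 hy.1, by
        have h1 := (zra_iff ha).1 hx.2.1
        have h2 := (zra_iff ha).1 hy.2.1
        exact (zra_iff ha).2 (h1.add h2), by rw [map_add, hx.2.2, hy.2.2, add_zero]⟩
      zero_mem' := ⟨zero_mem _, hzero, map_zero _⟩
      neg_mem' := fun {x} hx => ⟨neg_mem hx.1, by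
        have h1 := (zra_iff ha).1 hx.2.1
        have h2 := h1.zsmul (-1)
        rw [neg_one_zsmul] at h2
        exact (zra_iff ha).2 h2, by rw [map_neg, hx.2.2, neg_zero]⟩ }
  have hWz : ∀ z, z ∈ W ↔ z ∈ Wzc L.V M K a := fun z => Iff.rfl
  have hWT : ∀ z ∈ W, z ∈ T := fun z hz => ⟨hz.1, zrd_deg hf (hz1 z hz.2.1), hz.2.2⟩
  let G : AddSubgroup ((Xf f).pt Ω →₀ ℤ) :=
    { carrier := {z | z ∈ T ∧ (∀ P ∈ z.support, sm P) ∧ ∀ Q, kcs f L.V Q z ≠ 0 → Rcj f L.V K D Q}
      add_mem' := fun {x y} hx hy => ⟨add_mem hx.1 hy.1, fun P hP => by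
        rcases Finset.mem_union.1 (Finsupp.support_add hP) with h | h
        · exact hx.2.1 P h
        · exact hy.2.1 P h, fun Q hQ => by
        by_cases h : kcs f L.V Q x = 0
        · refine hy.2.2 Q fun h' => hQ ?_
          rw [map_add, h, h', add_zero]
        · exact hx.2.2 Q h⟩
      zero_mem' := ⟨zero_mem _, fun P hP => by
        rw [Finsupp.support_zero] at hP
        exact absurd hP (Finset.notMem_empty P), fun Q hQ => absurd (map_zero _) hQ⟩
      neg_mem' := fun {x} hx => ⟨neg_mem hx.1, fun P hP => by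
        rw [Finsupp.support_neg] at hP
        exact hx.2.1 P hP, fun Q hQ => by
        refine hx.2.2 Q fun h' => hQ ?_
        rw [map_neg, h', neg_zero]⟩ }
  -- the sums over the classes of `B`
  let c : ((Xf f).pt Ω →₀ ℤ) →ₗ[ℤ] (B → ℤ) :=
    (AddMonoidHom.toIntLinearMap (AddMonoidHom.pi fun b : B => kcs f L.V b.1))
  have hc : ∀ z (b : B), c z b = kcs f L.V b.1 z := fun z b => rfl
  have hfg : ((AddSubgroup.toIntSubmodule G).map c).FG := IsNoetherian.noetherian _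
  obtain ⟨S, hS⟩ := hfg
  have hSG : ∀ i : S, ∃ z ∈ G, c z = i.1 := by
    intro i
    have h1 : (i.1 : B → ℤ) ∈ (AddSubgroup.toIntSubmodule G).map c := by
      rw [← hS]
      exact Submodule.subset_span i.2
    obtain ⟨z, hz, h2⟩ := h1
    exact ⟨z, hz, h2⟩
  choose zi hzG hzc using hSG
  have hTd : ∀ i : S, ∃ u ∈ W, ∃ n : ℕ, n ≠ 0 ∧ n • (zi i - u) ∈ (Xf f).ratEq K Ω := fun i =>
    hT (zi i) (hzG i).1
  choose ui hu ni hn hnr using hTd
  have hti : ∀ i, zi i - ui i ∈ T := fun i => sub_mem (hzG i).1 (hWT _ (hu i))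
  refine ⟨(E ×ˢ Fintype.piFinset fun i : S => Finset.range (ni i)).image
    fun q => ∑ i, q.2 i • (zi i - ui i) + q.1, fun e' he' => ?_, fun z hz hzs hzb => ?_⟩
  · obtain ⟨⟨e, r⟩, hq, rfl⟩ := Finset.mem_image.1 he'
    obtain ⟨he, hr⟩ := Finset.mem_product.1 hq
    obtain ⟨h1, m, hm, h2⟩ := hE1 e he
    refine ⟨(hTz _).1 (add_mem (sum_mem fun i _ => nsmul_mem (hti i) _) ((hTz _).2 h1)),
      (∏ i, ni i) * m, mul_ne_zero (Finset.prod_ne_zero_iff.2 fun i _ => hn i) hm, ?_⟩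
    rw [smul_add]
    refine add_mem ?_ ?_
    · rw [Finset.smul_sum]
      refine sum_mem fun i _ => ?_
      obtain ⟨l, hl⟩ := Finset.dvd_prod_of_mem ni (Finset.mem_univ i)
      have e1 : ((∏ i, ni i) * m) • ((r i) • (zi i - ui i))
          = (l * m * r i) • (ni i • (zi i - ui i)) := by
        rw [← mul_smul, ← mul_smul, hl]
        congr 1
        ring
      rw [e1]
      exact nsmul_mem (hnr i) _
    · rw [mul_smul]
      exact nsmul_mem h2 _
  · have hzG' : z ∈ G := ⟨(hTz z).2 hz, hzs, fun Q hQ => by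
      refine hzb Q ?_
      rw [← kcs_eq]
      exact hQ⟩
    have h1 : c z ∈ Submodule.span ℤ (S : Set (B → ℤ)) := by
      rw [hS]
      exact ⟨z, hzG', rfl⟩
    obtain ⟨w, -, hw⟩ := Submodule.mem_span_finset.1 h1
    have h2 : c z = ∑ i : S, w i.1 • c (zi i) := by
      rw [← hw, ← Finset.sum_coe_sort S fun x => w x • x]
      exact Finset.sum_congr rfl fun i _ => by rw [hzc]
    obtain ⟨g, hg⟩ : ∃ g, g = z - ∑ i : S, w i.1 • zi i := ⟨_, rfl⟩
    have hgG : g ∈ G := by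
      rw [hg]
      exact sub_mem hzG' (sum_mem fun i _ => zsmul_mem (hzG i) _)
    have hcg : c g = 0 := by
      rw [hg, map_sub, map_sum, h2, sub_eq_zero]
      exact Finset.sum_congr rfl fun i _ => (map_zsmul c _ _).symm
    have hgr : Zrd f L.V g := by
      intro Q
      have h3 : kcs f L.V Q g = 0 := by
        by_contra h4
        obtain ⟨b, hb, h5⟩ := hB Q (hgG.2.2 Q h4)
        apply h4
        rw [kcs_congr hf h5]
        exact congrFun hcg ⟨b, hb⟩
      rw [kcs_eq] at h3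
      exact h3
    obtain ⟨e, he, u, hu', h3⟩ := hE2 g ((hTz g).1 hgG.1) hgG.2.1 hgr
    have hni : ∀ i, (0 : ℤ) < ni i := fun i => by exact_mod_cast Nat.pos_of_ne_zero (hn i)
    let q : S → ℕ := fun i => (w i.1 % (ni i : ℤ)).toNat
    have hq : ∀ i, ((q i : ℕ) : ℤ) = w i.1 % (ni i : ℤ) := fun i =>
      Int.toNat_of_nonneg (Int.emod_nonneg _ (hni i).ne')
    refine ⟨∑ i, q i • (zi i - ui i) + e, Finset.mem_image.2 ⟨(e, q), Finset.mem_product.2
      ⟨he, Fintype.mem_piFinset.2 fun i => Finset.mem_range.2 ?_⟩, rfl⟩,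
      ∑ i : S, w i.1 • ui i + u, ?_, ?_⟩
    · have h4 := Int.emod_lt_of_pos (w i.1) (hni i)
      rw [← hq i] at h4
      exact_mod_cast h4
    · exact (hWz _).1 (add_mem (sum_mem fun i _ => zsmul_mem (hu i) _) ((hWz _).2 hu'))
    · have e1 : z - (∑ i, q i • (zi i - ui i) + e) - (∑ i : S, w i.1 • ui i + u)
          = ∑ i : S, (w i.1 / (ni i : ℤ)) • (ni i • (zi i - ui i)) + (g - e - u) := by
        have e2 : ∀ i : S, w i.1 • zi i = q i • (zi i - ui i) + w i.1 • ui i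
            + (w i.1 / (ni i : ℤ)) • (ni i • (zi i - ui i)) := by
          intro i
          have e3 : (w i.1 / (ni i : ℤ)) • (ni i • (zi i - ui i))
              = ((ni i : ℤ) * (w i.1 / (ni i : ℤ))) • (zi i - ui i) := by
            rw [← natCast_zsmul, ← mul_smul, mul_comm]
          have e4 : q i • (zi i - ui i) = (w i.1 % (ni i : ℤ)) • (zi i - ui i) := by
            rw [← hq i, natCast_zsmul]
          have e5 : w i.1 • zi i = w i.1 • (zi i - ui i) + w i.1 • ui i := by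
            rw [← smul_add, sub_add_cancel]
          have e6 : w i.1 • (zi i - ui i) = (w i.1 % (ni i : ℤ)) • (zi i - ui i)
              + ((ni i : ℤ) * (w i.1 / (ni i : ℤ))) • (zi i - ui i) := by
            rw [← add_smul, Int.emod_add_mul_ediv]
          rw [e3, e4, e5, e6]
          abel
        have e7 : ∑ i : S, w i.1 • zi i = ∑ i : S, q i • (zi i - ui i) + ∑ i : S, w i.1 • ui i
            + ∑ i : S, (w i.1 / (ni i : ℤ)) • (ni i • (zi i - ui i)) := by
          rw [← Finset.sum_add_distrib, ← Finset.sum_add_distrib]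
          exact Finset.sum_congr rfl fun i _ => e2 i
        have e8 : z = g + ∑ i : S, w i.1 • zi i := by
          rw [hg]
          abel
        rw [e8, e7]
        abel
      rw [e1]
      exact add_mem (sum_mem fun i _ => zsmul_mem (hnr i) _) h3

end GX
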