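import Pool.Agent.Lib.MP_f80667_ag.Rsm.Jc
import Pool.Agent.Lib.MP_f80667_ag.Rsm.Kb
import Pool.Agent.Lib.MP_f80667_ag.Rsm.Kc

/-!
The cycles of degree `0` with sum `0` which are supported at points with smooth reduction, over the completions of number fields.
-/

open ZC BE PE CV IntermediateField IsDedekindDomain NumberField

namespace GX

/-- **The points with smooth reduction.** -/
theorem ssd_glob {F : Type} [Field F] [NumberField F] {N N' k k' d : ℕ} {ι ι' : Type}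
    {f : ι → MvPolynomial (Fin N) F} {A : Gv F N' k' ι'} {M : Mf f A k} (hf : Nsg f d)
    (hi : (Ideal.span (Set.range fun i =>
      MvPolynomial.map (algebraMap F (AlgebraicClosure F)) (f i))).radical.IsPrime)
    (hA : A.Ok) (hM : M.Ok) (v : HeightOneSpectrum (𝓞 F)) (hb : M.Alb (AlgebraicClosure F))
    {V : ValuationSubring (AlgebraicClosure (FK F v))}
    (hV : V.comap (algebraMap (FK F v) _) = CV.Iv v) (h : Gsm V f d) :
    Ssd V M (FK F v) d := by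
  have hch : CharZero (FK F v) :=
    charZero_of_injective_algebraMap (algebraMap F (FK F v)).injective
  obtain ⟨a₁, h1, ht⟩ := sst_glob hf hi hA hM v hb hV h.gsv
  obtain ⟨a₂, h2, hw⟩ := tor_stw hf hi hA hM hb v V hV
  obtain ⟨L, hL⟩ := exists_ldI v
  have hVL : V.comap (algebraMap (FK F v) _) = Ok L := by
    rw [hV]
    exact SetLike.ext fun x => (hL x).symm
  obtain rfl := GM.v_uniq L V hVL
  have hc : ∀ b : AlgebraicClosure (FK F v), b ≠ 0 → ∃ c : AlgebraicClosure (FK F v), c ≠ 0 ∧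
      L.nm (b * c) < 1 ∧ c ∈ L.V := by
    intro b hb
    obtain ⟨e, he⟩ := exists_pow_lt_of_lt_one (inv_pos.2 (L.pos hb)) L.lt
    refine ⟨(L.p : AlgebraicClosure (FK F v)) ^ e, pow_ne_zero _ (L.ne_zero L.p_pos), ?_, ?_⟩
    · rw [L.mul, L.pow]
      calc L.nm b * L.nm (L.p : AlgebraicClosure (FK F v)) ^ e
          < L.nm b * (L.nm b)⁻¹ := mul_lt_mul_of_pos_left he (L.pos hb)
        _ = 1 := mul_inv_cancel₀ (L.pos hb).ne'
    · exact pow_mem (L.mem_V.2 L.lt.le) e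
  obtain ⟨c₁, hc1, hc1', hc1''⟩ := hc a₁ h1
  obtain ⟨c₂, hc2, hc2', hc2''⟩ := hc a₂ h2
  have hV1 : a₁ * c₁ ∈ L.V := L.mem_V.2 hc1'.le
  have hV2 : a₂ * c₂ ∈ L.V := L.mem_V.2 hc2'.le
  refine ⟨(a₁ * c₁) * (a₂ * c₂), mul_ne_zero (mul_ne_zero h1 hc1) (mul_ne_zero h2 hc2),
    fun a ha hca => ?_⟩
  obtain ⟨c, hcV, hac⟩ := hca
  have ha1 : L.nm a < 1 := by
    rw [hac, L.mul, L.mul]
    exact (mul_le_of_le_one_right (mul_nonneg (L.nonneg _) (L.nonneg _)) (L.mem_V.1 hcV)).trans_lt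
      ((mul_le_of_le_one_right (L.nonneg _) hc2'.le).trans_lt hc1')
  have h5 := ht a ha ⟨c₁ * (a₂ * c₂) * c, mul_mem (mul_mem hc1'' hV2) hcV, by
    rw [hac]
    ring⟩
  obtain ⟨-, h6, h7, -⟩ := hw a ha ⟨c₂ * (a₁ * c₁) * c, mul_mem (mul_mem hc2'' hV1) hcV, by
    rw [hac]
    ring⟩
  have h8 : ∀ p : ℕ, p.Prime → (p : AlgebraicClosure (FK F v)) ∈ L.V.nonunits →
      TgZ L.V (FK F v) (Smo L.V f d) M a p := by
    intro p hp hpn
    obtain ⟨E, hE, hE'⟩ := h5 p hp hpn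
    refine ⟨E, fun e he => ?_, fun z hz hs h0 => ?_⟩
    · obtain ⟨g1, g2, g3, n, g4⟩ := hE e he
      exact ⟨⟨g1, zrd_deg hf.hom g2, g3⟩, g2, n, g4⟩
    · obtain ⟨e, he, u, g1, g2, g3, g4⟩ := hE' z hz.1 hs h0 hz.2.2
      exact ⟨e, he, u, ⟨g1, g2, g3⟩, g4⟩
  refine ⟨h6, h8, fun D => tgD_of hf.hom hA hM ha ha1 (rcj_fin hf.hom L D) h7 ?_⟩
  obtain ⟨E, hE, hE'⟩ := h8 L.p L.pp (GM.non_iff.2 L.lt)
  refine ⟨E, fun e he => ?_, hE'⟩
  obtain ⟨g1, -, n, g4⟩ := hE e he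
  exact ⟨g1, L.p ^ n, pow_ne_zero n L.pp.ne_zero, g4⟩

end GX
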