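import Pool.Agent.Lib.MP_f80667_ag.Lv.Ln
import Pool.Agent.Lib.MP_f80667_ag.Rsm.B

/-! The theorems of `Lv/Ln` for the points of a part `sm` of the variety. -/

open ZC BE PE CV IntermediateField Polynomial

namespace GX

section dpo

variable {K Ω : Type} [Field K] [Field Ω] [Algebra K Ω] {L : Ld K Ω} {M : IntermediateField K Ω}

end dpo

section line

variable {F : Type} [Field F] {N d : ℕ} {ι : Type} {f : ι → MvPolynomial (Fin N) F} {K Ω : Type}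
  [Field K] [CharZero K] [Field Ω] [Algebra K Ω] [Algebra F K] [Algebra F Ω]
  [IsScalarTower F K Ω] [IsAlgClosure K Ω] {L : Ld K Ω} {ψ : Prj K N d} {π : Ω}
  {M : IntermediateField K Ω}

variable {sm : (Xf f).pt Ω → Prop} [SOk f L sm]

/-- A point near the branch of an arc. -/
theorem br_nearSm (hπ : Uf L π) (hψ : PjSm sm L ψ) [FiniteDimensional K M] {c : Fin (d + 1) → Ω}
    (hD : L.nm (MvPolynomial.aeval c ψ.D) = 1) (hc : ∀ r, L.nm (c r) ≤ 1) {w₀ : Ω} {s : ℕ}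
    (hs : s ≠ 0) {x y : Fin N → Ω} {P B : (Xf f).pt Ω} (hx : Iv L M x) (hP : Co P x)
    (hB : Co B y) (hBM : Fp (Xf f) M B) (hy : ∀ j, L.nm (y j) ≤ 1) (hy1 : ∃ j, L.nm (y j) = 1)
    (hxw : L.nm (ψ.yv x - w₀) < 1) (hyw : L.nm (ψ.yv y - w₀) < 1)
    (hcy : ∀ r, L.nm (ψ.uv y r - c r) < 1)
    (h : ∀ r, L.nm (ψ.uv x r - ψ.uv y r) ≤ L.nm π ^ s) :
    (Finsupp.single P 1 - Finsupp.single B 1 : (Xf f).pt Ω →₀ ℤ) ∈ DrSm sm L π s M := by
  have hs1 := hπ.pow_lt hs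
  have hx1 : ∀ j, L.nm (x j) ≤ 1 := fun j => (hx j).2
  obtain ⟨hu, hyv⟩ := hψ.uv_le hx1
  obtain ⟨hu', hyv'⟩ := hψ.uv_le hy
  have hDy : L.nm (MvPolynomial.aeval (ψ.uv y) ψ.D) = 1 :=
    hψ.D_close hc hu' (fun r => by rw [L.sub_comm]; exact hcy r) hD
  have hcl : ∀ j, L.nm (y j - x j) < 1 := fun j =>
    hψ.sheet hy hx1 (co_ne hB) (co_ne hP) (co_zero hB) (co_zero hP) hDy
      (fun r => by rw [L.sub_comm]; exact (h r).trans_lt hs1) (by
        have h5 : ψ.yv y - ψ.yv x = (ψ.yv y - w₀) - (ψ.yv x - w₀) := by ring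
        rw [h5]
        exact (L.sub _ _).trans_lt (max_lt hyw hxw)) j
  have hnr := hψ.near hy hx1 (co_zero hB) (co_zero hP) hDy
    (fun j => by rw [L.sub_comm]; exact hcl j) (pow_nonneg (L.nonneg π) s) h
  have hn : Nrh f L (L.nm π ^ s) P B :=
    nrh_symm (nrh_mk hs1 hB hP hy hx1 hy1 fun j => by rw [L.sub_comm]; exact hnr j)
  exact dr_ptG' hψ (fp_co hP fun j => (hx j).1) hBM hn hs1 hB hy hDy

/-- **The comparison on a line.** -/
theorem lnSm (hπ : Uf L π) (hψ : PjSm sm L ψ) (hM : Um L M) {c h : Fin (d + 1) → Ω} (hc : Iv L M c)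
    (hh : Iv L M h) {w₀ : Ω} (hw : w₀ ∈ M) (hw1 : L.nm w₀ ≤ 1)
    (hD : L.nm (MvPolynomial.aeval c ψ.D) = 1) (hG : L.nm (pe c w₀ ψ.G) < 1) {n : ℕ}
    {x x' : Fin n → Fin N → Ω} {P P' : Fin n → (Xf f).pt Ω} {α α' : Fin n → Ω} {s : ℕ}
    (hs : s ≠ 0)
    (h1 : ∀ i, Nb f L ψ π M w₀ s (fun r => c r + α i * h r) (x i) (P i))
    (h1' : ∀ i, Nb f L ψ π M w₀ s (fun r => c r + α' i * h r) (x' i) (P' i))
    (h2 : ∀ i, α i ∈ M ∧ L.nm (α i) < 1) (h2' : ∀ i, α' i ∈ M ∧ L.nm (α' i) < 1)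
    (hα : ∀ k, L.nm ((∏ i, (X - C (α i)) : Polynomial Ω).coeff k -
      (∏ i, (X - C (α' i)) : Polynomial Ω).coeff k) ≤ L.nm π ^ s) :
    ∑ i, Finsupp.single (P i) 1 - ∑ i, Finsupp.single (P' i) 1 ∈
      DrSm sm L π s M ⊔ (Xf f).ratEq M Ω := by
  have hfd : FiniteDimensional K M := hM.fd
  have h00 : L.nm (0 : Ω) < 1 := by rw [L.zero]; exact zero_lt_one
  obtain ⟨a, ha⟩ : ∃ a : Fin (d + 1) → Polynomial Ω, a = fun r => C (h r) * X + C (c r) :=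
    ⟨_, rfl⟩
  have hev : ∀ r z, (a r).eval z = c r + z * h r := fun r z => by
    rw [ha]
    simp only [eval_add, eval_mul, eval_C, eval_X]
    ring
  have hArc : Arc L M a := by
    intro i j
    rw [ha]
    simp only [coeff_add, coeff_C_mul, coeff_X, coeff_C]
    rcases j with _ | _ | j
    · simp only [if_neg (show ¬ (1 = 0) by omega), if_true, mul_zero, zero_add]
      exact hc i
    · simp only [zero_add, if_true, if_neg (show ¬ (1 = 0) by omega), mul_one, add_zero]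
      exact hh i
    · rw [if_neg (by omega), if_neg (by omega), mul_zero, add_zero]
      exact ⟨zero_mem M, by rw [L.zero]; exact zero_le_one⟩
  have ha0 : (fun r => (a r).eval 0) = c := funext fun r => by rw [hev, zero_mul, add_zero]
  have hD0 : L.nm (MvPolynomial.aeval (fun r => (a r).eval 0) ψ.D) = 1 := by
    rw [ha0]
    exact hD
  have hG0 : L.nm (pe (fun r => (a r).eval 0) w₀ ψ.G) < 1 := by
    rw [ha0]
    exact hG
  obtain ⟨B, hBa, hBb, hBc, hBd⟩ := exists_br hψ.toPj hArc hw hw1 hD0 hG0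
  have key : ∀ {x : Fin N → Ω} {P : (Xf f).pt Ω} {α : Ω},
      Nb f L ψ π M w₀ s (fun r => c r + α * h r) x P → α ∈ M ∧ L.nm α < 1 →
      (Finsupp.single P 1 - Finsupp.single (B α) 1 : (Xf f).pt Ω →₀ ℤ) ∈ DrSm sm L π s M := by
    rintro x P α ⟨k1, k2, k3, k6⟩ ⟨k4, k5⟩
    obtain ⟨y, l1, l2, l3, l4, l5⟩ := hBd α k5
    refine br_nearSm hπ hψ hD (fun r => (hc r).2) hs k1 k2 l1 ?_ l2 l3 k3 l5 (fun r => ?_)
      fun r => ?_
    · intro γ hγ
      rw [hBb γ hγ _ k5]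
      congr 1
      exact (IntermediateField.mem_fixingSubgroup_iff M γ).1 hγ _ k4
    · rw [l4, hev, add_sub_cancel_left, L.mul]
      exact mul_lt_one_of_nonneg_of_lt_one_left (L.nonneg _) k5 (hh r).2
    · rw [l4, hev]
      exact k6 r
  obtain ⟨z, hz, hz'⟩ := la_chSm hψ (hπ.mem M) hπ.pos hπ.lt (hπ.um_val hM) hArc hw hw1 hD0 hG0 hBa
    (prod_dpo (fun i => (h2 i).1) fun i => (h2 i).2)
    (prod_dpo (fun i => (h2' i).1) fun i => (h2' i).2)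
    (by rw [prod_deg, prod_deg]) (l := 1) (u := 0) (s := s) (Or.inl ⟨rfl, rfl, hs⟩)
    (fun i => by rw [add_zero]; exact hα i)
  rw [one_smul, rcy_prod, rcy_prod] at hz'
  have e1 : ∑ i, Finsupp.single (P i) 1 - ∑ i, Finsupp.single (P' i) (1 : ℤ) =
      (z + ∑ i, (Finsupp.single (P i) 1 - Finsupp.single (B (α i)) 1) -
        ∑ i, (Finsupp.single (P' i) 1 - Finsupp.single (B (α' i)) 1)) +
      (∑ i, Finsupp.single (B (α i)) 1 - ∑ i, Finsupp.single (B (α' i)) 1 - z) := by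
    rw [Finset.sum_sub_distrib, Finset.sum_sub_distrib]
    abel
  rw [e1]
  refine AddSubgroup.add_mem_sup (sub_mem (add_mem hz ?_) ?_) hz'
  · exact sum_mem fun i _ => key (h1 i) (h2 i)
  · exact sum_mem fun i _ => key (h1' i) (h2' i)

/-- Two points over congruent points on one sheet. -/
theorem nb_nbSm (hπ : Uf L π) (hψ : PjSm sm L ψ) [FiniteDimensional K M] {c : Fin (d + 1) → Ω}
    (hc : ∀ r, L.nm (c r) ≤ 1) (hD : L.nm (MvPolynomial.aeval c ψ.D) = 1) {w₀ : Ω} {s : ℕ}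
    (hs : s ≠ 0) {c' : Fin (d + 1) → Ω} (hcc : ∀ r, L.nm (c' r - c r) < 1)
    {x x' : Fin N → Ω} {P P' : (Xf f).pt Ω} (h : Nb f L ψ π M w₀ s c' x P)
    (h' : Nb f L ψ π M w₀ s c' x' P') :
    (Finsupp.single P' 1 - Finsupp.single P 1 : (Xf f).pt Ω →₀ ℤ) ∈ DrSm sm L π s M := by
  have hs1 := hπ.pow_lt hs
  have hx1 : ∀ j, L.nm (x j) ≤ 1 := fun j => (h.iv j).2
  obtain ⟨hu, hyv⟩ := hψ.uv_le hx1
  have hcx : ∀ r, L.nm (ψ.uv x r - c r) < 1 := fun r => by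
    have e1 : ψ.uv x r - c r = (ψ.uv x r - c' r) + (c' r - c r) := by ring
    rw [e1]
    exact (L.add _ _).trans_lt (max_lt ((h.nr r).trans_lt hs1) (hcc r))
  have hDx : L.nm (MvPolynomial.aeval (ψ.uv x) ψ.D) = 1 :=
    hψ.D_close hc hu (fun r => by rw [L.sub_comm]; exact hcx r) hD
  have hDne : MvPolynomial.aeval (ψ.uv x) ψ.D ≠ 0 :=
    L.ne_zero (by rw [hDx]; exact zero_lt_one)
  obtain ⟨hG, hpt⟩ := hψ.pt_eq (co_ne h.co) (co_zero h.co) hDne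
  obtain ⟨-, hpr, -⟩ := hψ.pt_iv (M := M) (c := ψ.uv x) (w := ψ.yv x)
    (hψ.uv_iv h.iv).1 (hψ.uv_iv h.iv).2.1 hyv hG hDx
  rw [hpt] at hpr
  refine br_nearSm hπ hψ hD hc hs h'.iv h'.co h.co (fp_co h.co fun j => (h.iv j).1) hx1 hpr h'.sh
    h.sh hcx fun r => ?_
  have e1 : ψ.uv x' r - ψ.uv x r = (ψ.uv x' r - c' r) - (ψ.uv x r - c' r) := by ring
  rw [e1]
  exact (L.sub _ _).trans (max_le (h'.nr r) (h.nr r))

end line

end GX
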