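import Pool.Agent.Lib.MP_f80667_ag.Lv.Je
import Pool.Agent.Lib.MP_f80667_ag.Rsm.LvLn
import Pool.Agent.Lib.MP_f80667_ag.Rsm.B

/-! The theorems of `Lv/Je` for the points of a part `sm` of the variety. -/

open ZC BE PE CV IntermediateField Polynomial

namespace GX

section coe

variable {K Ω : Type} [Field K] [Field Ω] [Algebra K Ω] (L : Ld K Ω)

end coe

variable {F : Type} [Field F] {N d : ℕ} {ι : Type} {f : ι → MvPolynomial (Fin N) F} {K Ω : Type}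
  [Field K] [CharZero K] [Field Ω] [Algebra K Ω] [Algebra F K] [Algebra F Ω]
  [IsScalarTower F K Ω] [IsAlgClosure K Ω] {L : Ld K Ω} {ψ : Prj K N d} {π : Ω}
  {M : IntermediateField K Ω}

variable {sm : (Xf f).pt Ω → Prop} [SOk f L sm]

/-- Two pairs of points on a line. -/
theorem ln_twoSm (hπ : Uf L π) (hψ : PjSm sm L ψ) (hM : Um L M) {c h : Fin (d + 1) → Ω}
    (hc : Iv L M c) (hh : Iv L M h) {w₀ : Ω} (hw : w₀ ∈ M) (hw1 : L.nm w₀ ≤ 1)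
    (hD : L.nm (MvPolynomial.aeval c ψ.D) = 1) (hG : L.nm (pe c w₀ ψ.G) < 1)
    {x₁ x₂ x₃ x₄ : Fin N → Ω} {P₁ P₂ P₃ P₄ : (Xf f).pt Ω} {a b a' b' : Ω} {s : ℕ} (hs : s ≠ 0)
    (h₁ : Nb f L ψ π M w₀ s (fun r => c r + a * h r) x₁ P₁)
    (h₂ : Nb f L ψ π M w₀ s (fun r => c r + b * h r) x₂ P₂)
    (h₃ : Nb f L ψ π M w₀ s (fun r => c r + a' * h r) x₃ P₃)
    (h₄ : Nb f L ψ π M w₀ s (fun r => c r + b' * h r) x₄ P₄)
    (ha : a ∈ M ∧ L.nm a < 1) (hb : b ∈ M ∧ L.nm b < 1) (ha' : a' ∈ M ∧ L.nm a' < 1)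
    (hb' : b' ∈ M ∧ L.nm b' < 1) (hab : a + b = a' + b')
    (hs' : L.nm (a * b - a' * b') ≤ L.nm π ^ s) :
    (Finsupp.single P₁ 1 + Finsupp.single P₂ 1 - (Finsupp.single P₃ 1 + Finsupp.single P₄ 1) :
      (Xf f).pt Ω →₀ ℤ) ∈ DrSm sm L π s M ⊔ (Xf f).ratEq M Ω := by
  have h := lnSm hπ hψ hM hc hh hw hw1 hD hG (n := 2) (x := ![x₁, x₂]) (x' := ![x₃, x₄])
    (P := ![P₁, P₂]) (P' := ![P₃, P₄]) (α := ![a, b]) (α' := ![a', b']) hs
    (fun i => by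
      fin_cases i
      · exact h₁
      · exact h₂)
    (fun i => by
      fin_cases i
      · exact h₃
      · exact h₄)
    (fun i => by
      fin_cases i
      · exact ha
      · exact hb)
    (fun i => by
      fin_cases i
      · exact ha'
      · exact hb')
    (two_coeff L hab hs')
  rw [Fin.sum_univ_two, Fin.sum_univ_two] at h
  exact h

/-- **Four points on a line** (PAR). -/
theorem x_parSm (hπ : Uf L π) (hψ : PjSm sm L ψ) (hM : Um L M) {c h : Fin (d + 1) → Ω}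
    (hc : Iv L M c) (hh : Iv L M h) {w₀ : Ω} (hw : w₀ ∈ M) (hw1 : L.nm w₀ ≤ 1)
    (hD : L.nm (MvPolynomial.aeval c ψ.D) = 1) (hG : L.nm (pe c w₀ ψ.G) < 1)
    {x₀ x₁ x₂ x₃ : Fin N → Ω} {P₀ P₁ P₂ P₃ : (Xf f).pt Ω} {α β : Ω} {s : ℕ} (hs : s ≠ 0)
    (hα : α ∈ M ∧ L.nm α < 1) (hβ : β ∈ M ∧ L.nm β < 1) (hs' : L.nm (α * β) ≤ L.nm π ^ s)
    (h₀ : Nb f L ψ π M w₀ s c x₀ P₀)
    (h₁ : Nb f L ψ π M w₀ s (fun r => c r + α * h r) x₁ P₁)
    (h₂ : Nb f L ψ π M w₀ s (fun r => c r + β * h r) x₂ P₂)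
    (h₃ : Nb f L ψ π M w₀ s (fun r => c r + (α + β) * h r) x₃ P₃) :
    (Finsupp.single P₁ 1 + Finsupp.single P₂ 1 - (Finsupp.single P₀ 1 + Finsupp.single P₃ 1) :
      (Xf f).pt Ω →₀ ℤ) ∈ DrSm sm L π s M ⊔ (Xf f).ratEq M Ω := by
  have hz : (0 : Ω) ∈ M ∧ L.nm (0 : Ω) < 1 := ⟨zero_mem M, by rw [L.zero]; exact zero_lt_one⟩
  exact ln_twoSm hπ hψ hM hc hh hw hw1 hD hG hs (a := α) (b := β) (a' := 0) (b' := α + β) h₁ h₂
    (h₀.of fun r => by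
      rw [zero_mul, add_zero, sub_self, L.zero]
      exact pow_nonneg (L.nonneg _) s) h₃ hα hβ hz
    ⟨add_mem hα.1 hβ.1, (L.add _ _).trans_lt (max_lt hα.2 hβ.2)⟩ (zero_add _).symm
    (by rw [zero_mul, sub_zero]; exact hs')

/-- **The multiplication by `p`**: `p` times the displacement by `α h` is the displacement by `p α h`. -/
theorem x_mulSm (hπ : Uf L π) (hψ : PjSm sm L ψ) (hM : Um L M) {c h : Fin (d + 1) → Ω}
    (hc : Iv L M c) (hh : Iv L M h) {w₀ : Ω} (hw : w₀ ∈ M) (hw1 : L.nm w₀ ≤ 1)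
    (hD : L.nm (MvPolynomial.aeval c ψ.D) = 1) (hG : L.nm (pe c w₀ ψ.G) < 1)
    {x₀ x₁ x₂ : Fin N → Ω} {P₀ P₁ P₂ : (Xf f).pt Ω} {α : Ω} {s : ℕ} (hs : s ≠ 0)
    (hα : α ∈ M ∧ L.nm α < 1) (hs1 : L.nm (L.p : Ω) * L.nm α ^ 2 ≤ L.nm π ^ s)
    (hs2 : L.nm α ^ L.p ≤ L.nm π ^ s)
    (h₀ : Nb f L ψ π M w₀ s c x₀ P₀)
    (h₁ : Nb f L ψ π M w₀ s (fun r => c r + α * h r) x₁ P₁)
    (h₂ : Nb f L ψ π M w₀ s (fun r => c r + (L.p : Ω) * α * h r) x₂ P₂) :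
    (L.p • (Finsupp.single P₁ 1 - Finsupp.single P₀ 1) -
      (Finsupp.single P₂ 1 - Finsupp.single P₀ 1) : (Xf f).pt Ω →₀ ℤ) ∈
        DrSm sm L π s M ⊔ (Xf f).ratEq M Ω := by
  have hz : (0 : Ω) ∈ M ∧ L.nm (0 : Ω) < 1 := ⟨zero_mem M, by rw [L.zero]; exact zero_lt_one⟩
  have hpM : (L.p : Ω) ∈ M := IntermediateField.natCast_mem M L.p
  have hpα : (L.p : Ω) * α ∈ M ∧ L.nm ((L.p : Ω) * α) < 1 := by
    refine ⟨mul_mem hpM hα.1, ?_⟩
    rw [L.mul]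
    exact mul_lt_one_of_nonneg_of_lt_one_left (L.nonneg _) L.lt hα.2.le
  have hpp := L.pp
  obtain ⟨m, hm⟩ : ∃ m, L.p = m + 1 := ⟨L.p - 1, by have := hpp.two_le; omega⟩
  have h := lnSm hπ hψ hM hc hh hw hw1 hD hG (n := m + 1) (x := fun _ => x₁)
    (x' := Fin.cons x₂ fun _ => x₀) (P := fun _ => P₁) (P' := Fin.cons P₂ fun _ => P₀)
    (α := fun _ => α) (α' := Fin.cons ((L.p : Ω) * α) fun _ => 0) hs (fun _ => h₁)
    (fun i => by
      refine Fin.cases ?_ (fun i => ?_) i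
      · exact h₂
      · simp only [Fin.cons_succ]
        exact h₀.of fun r => by
          rw [zero_mul, add_zero, sub_self, L.zero]
          exact pow_nonneg (L.nonneg _) s)
    (fun _ => hα)
    (fun i => by
      refine Fin.cases ?_ (fun i => ?_) i
      · exact hpα
      · exact hz)
    (fun k => by
      have e1 : (∏ _i : Fin (m + 1), (X - C α) : Polynomial Ω) = (X - C α) ^ L.p := by
        rw [Finset.prod_const, Finset.card_univ, Fintype.card_fin, hm]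
      have e2 : (∏ i : Fin (m + 1), (X - C (Fin.cons (α := fun _ => Ω) ((L.p : Ω) * α)
          (fun _ => 0) i)) : Polynomial Ω) = (X - C ((L.p : Ω) * α)) * X ^ (L.p - 1) := by
        rw [Fin.prod_univ_succ, Fin.cons_zero]
        simp only [Fin.cons_succ, C_0, sub_zero]
        rw [Finset.prod_const, Finset.card_univ, Fintype.card_fin, hm, Nat.add_sub_cancel]
      rw [e1, e2]
      exact pow_coeff L hpp hα.2.le hs1 hs2 k)
  rw [Finset.sum_const, Finset.card_univ, Fintype.card_fin, Fin.sum_univ_succ, Fin.cons_zero] at h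
  simp only [Fin.cons_succ] at h
  rw [Finset.sum_const, Finset.card_univ, Fintype.card_fin] at h
  have e3 : (L.p • (Finsupp.single P₁ 1 - Finsupp.single P₀ 1) -
      (Finsupp.single P₂ 1 - Finsupp.single P₀ 1) : (Xf f).pt Ω →₀ ℤ) =
      (m + 1) • Finsupp.single P₁ 1 - (Finsupp.single P₂ 1 + m • Finsupp.single P₀ 1) := by
    rw [hm, smul_sub, succ_nsmul (Finsupp.single P₀ (1 : ℤ)) m]
    abel
  rw [e3]
  exact h

end GX
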