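import Pool.Agent.Lib.MP_f80667_ag.Lv.Rm
import Pool.Agent.Lib.MP_f80667_ag.Rsm.LvD1
import Pool.Agent.Lib.MP_f80667_ag.Rsm.B
import Pool.Agent.Lib.MP_f80667_ag.Rsm.GxXG

/-! The theorems of `Lv/Rm` for the points of a part `sm` of the variety. -/

open ZC BE PE CV IntermediateField Polynomial

namespace GX

variable {F : Type} [Field F] {N d m : ℕ} {ι : Type} {f : ι → MvPolynomial (Fin N) F} {K Ω : Type}
  [Field K] [CharZero K] [Field Ω] [Algebra K Ω] [Algebra F K] [Algebra F Ω]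
  [IsScalarTower F K Ω] [IsAlgClosure K Ω] {L : Ld K Ω} {π : Ω}

variable {sm : (Xf f).pt Ω → Prop} [SOk f L sm]

/-- **RAM** with a projection. -/
theorem Uf.ram_goodSm (hπ : Uf L π) {ψ : Prj K N d} (h : PjSm sm L ψ) {M M₀ : IntermediateField K Ω}
    [FiniteDimensional K M] (hle : M₀ ≤ M) (h₀ : Um L M₀)
    (hr : ∀ b ∈ M, L.nm b ≤ 1 → ∃ a ∈ M₀, L.nm (b - a) < 1)
    {x x₀ : Fin N → Ω} (hx : Iv L M x) (hx₀ : Iv L M₀ x₀)
    (hD : L.nm (MvPolynomial.aeval (ψ.uv x₀) ψ.D) = 1)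
    {P P₀ : (Xf f).pt Ω} (hP : Co P x) (hP₀ : Co P₀ x₀) (hn : ∀ i, L.nm (x i - x₀ i) < 1) :
    Nm M₀ M (Finsupp.single P 1 - Finsupp.single P₀ 1 : (Xf f).pt Ω →₀ ℤ) ∈
      DrSm sm L π 1 M₀ ⊔ (Xf f).ratEq M₀ Ω := by
  classical
  have hM₀ : FiniteDimensional K M₀ := fin_le hle
  have hp0 : 0 < L.nm π := hπ.pos
  have h00 : L.nm (0 : Ω) < 1 := by rw [L.zero]; exact zero_lt_one
  obtain ⟨z, hz, hz1, e, he, hes, her, hez, hpol⟩ := eis (L := L) hle hr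
  obtain ⟨hu, -, -⟩ := h.uv_iv hx
  obtain ⟨hu₀, hy₀, hy₀'⟩ := h.uv_iv hx₀
  have huu : ∀ r, L.nm (ψ.uv x r - ψ.uv x₀ r) < 1 := fun r => lv_lt (h.iu r) hn
  have hyy : L.nm (ψ.yv x - ψ.yv x₀) < 1 := lv_lt h.iy hn
  -- the arc
  have hrx : ∀ r, ∃ q, Ipo L M₀ q ∧ q.eval z = ψ.uv x r - ψ.uv x₀ r := fun r =>
    hpol _ (sub_mem (hu r).1 (hle (hu₀ r).1)) (huu r)
  choose q hq1 hq2 using hrx
  obtain ⟨a, ha⟩ : ∃ a : Fin (d + 1) → Polynomial Ω, a = fun r => C (ψ.uv x₀ r) + q r :=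
    ⟨_, rfl⟩
  have hev : ∀ r c, (a r).eval c = ψ.uv x₀ r + (q r).eval c := fun r c => by
    rw [ha]
    simp only [eval_add, eval_C]
  have harc : Arc L M₀ a := by
    intro i j
    rw [ha]
    simp only [coeff_add, coeff_C]
    split_ifs with hj
    · refine ⟨add_mem (hu₀ i).1 ((hq1 i).mem j), ?_⟩
      exact (L.add _ _).trans (max_le (hu₀ i).2 ((hq1 i).le j))
    · rw [zero_add]
      exact ⟨(hq1 i).mem j, (hq1 i).le j⟩
  have ha0 : ∀ r, L.nm (ψ.uv x₀ r - (a r).eval 0) < 1 := by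
    intro r
    rw [hev, sub_add_cancel_left, L.neg, ← coeff_zero_eq_eval_zero]
    exact (hq1 r).lt
  have ha0i : ∀ r, L.nm ((a r).eval 0) ≤ 1 := fun r => by
    rw [← coeff_zero_eq_eval_zero]
    exact (harc r 0).2
  have hDa : L.nm (MvPolynomial.aeval (fun r => (a r).eval 0) ψ.D) = 1 :=
    h.D_close (fun r => (hu₀ r).2) ha0i ha0 hD
  have hDne : MvPolynomial.aeval (ψ.uv x₀) ψ.D ≠ 0 :=
    L.ne_zero (by rw [hD]; exact zero_lt_one)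
  have hG₀ := (h.pt_eq (co_ne hP₀) (co_zero hP₀) hDne).1
  have hGa : L.nm (pe (fun r => (a r).eval 0) (ψ.yv x₀) ψ.G) < 1 := by
    obtain ⟨i₀, -, hi₀⟩ := Finset.exists_max_image Finset.univ
      (fun r => L.nm (ψ.uv x₀ r - (a r).eval 0)) ⟨0, Finset.mem_univ _⟩
    have h1 := pe_close h.iG (fun r => (hu₀ r).2) hy₀' ha0i hy₀' (L.nonneg _)
      (fun r => hi₀ r (Finset.mem_univ r)) (by rw [sub_self, L.zero]; exact L.nonneg _)
    rw [hG₀, zero_sub, L.neg] at h1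
    exact h1.trans_lt (ha0 i₀)
  obtain ⟨B, hB1, hB2, hB3, hB4⟩ := exists_br h.toPj harc hy₀ hy₀' hDa hGa
  -- the point above the uniformizer
  have hBz : B z = P := by
    refine (hB3 z hz1 P x hP (fun j => (hx j).2) (fun r => ?_) hyy).symm
    rw [hev, hq2, add_sub_cancel]
  have hγz : ∀ γ ∈ M₀.fixingSubgroup, (Xf f).act γ (B z) = B (γ z) := fun γ hγ =>
    hB2 γ hγ z hz1
  have hF : Nm M₀ M (Finsupp.single P 1 : (Xf f).pt Ω →₀ ℤ) = rcy B e := by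
    rw [← hBz]
    exact nm_rcy hle hes her hez B hγz
  have hP₀M : Fp (Xf f) M₀ P₀ := fp_co hP₀ fun i => (hx₀ i).1
  have hF0 : Nm M₀ M (Finsupp.single P₀ 1 : (Xf f).pt Ω →₀ ℤ) =
      rcy (fun _ => P₀) e :=
    nm_rcy hle hes her hez (fun _ => P₀) fun γ hγ => hP₀M γ hγ
  have hac : IsAlgClosed Ω := IsAlgClosure.isAlgClosed K
  have hcard : Multiset.card e.roots = e.natDegree :=
    (IsAlgClosed.splits e).natDegree_eq_card_roots.symm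
  have hF1 : rcy (fun _ => P₀) e = (Finsupp.single P₀ (e.natDegree : ℤ) : (Xf f).pt Ω →₀ ℤ) := by
    rw [rcy, Multiset.map_const', Multiset.sum_replicate, hcard, Finsupp.smul_single,
      nsmul_eq_mul, mul_one]
  -- the comparison
  obtain ⟨N', hN', hN⟩ := h₀
  have hg : Dpo L M₀ (X ^ e.natDegree : Polynomial Ω) := by
    refine ⟨monic_X_pow _, fun i => ?_, fun i hi => ?_⟩
    · rw [coeff_X_pow]
      split_ifs
      · exact one_mem _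
      · exact zero_mem _
    · rw [natDegree_X_pow] at hi
      rw [coeff_X_pow, if_neg hi.ne, L.zero]
      exact zero_lt_one
  have hfg : ∀ i, L.nm (e.coeff i - (X ^ e.natDegree : Polynomial Ω).coeff i) ≤
      L.nm π ^ (1 + 0) := by
    intro i
    rw [add_zero, coeff_X_pow]
    rcases lt_trichotomy i e.natDegree with hi | hi | hi
    · rw [if_neg hi.ne, sub_zero]
      rw [pow_one]
      exact hπ.um_lt ⟨N', hN', hN⟩ (he.mem i) (he.lt i hi)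
    · rw [if_pos hi, hi, he.monic.coeff_natDegree, sub_self, L.zero]
      exact pow_nonneg hp0.le _
    · rw [if_neg hi.ne', coeff_eq_zero_of_natDegree_lt hi, sub_self, L.zero]
      exact pow_nonneg hp0.le _
  have hpM : π ∈ M₀ := hπ.mem M₀
  obtain ⟨D, hd, hd1⟩ := la_chSm h hpM hp0 hπ.lt (hπ.um_val ⟨N', hN', hN⟩) harc hy₀ hy₀' hDa hGa hB1
    he hg (natDegree_X_pow _).symm (l := 1) (u := 0) (s := 1) (Or.inl ⟨rfl, rfl, one_ne_zero⟩)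
    hfg
  rw [one_smul, rcy_X_pow] at hd1
  -- the point above `0`
  have hB0 : Fp (Xf f) M₀ (B 0) := fun γ hγ => by
    rw [hB2 γ hγ 0 h00, map_zero]
  have hnear : Nrh f L (L.nm π ^ 1) (B 0) P₀ := by
    rw [pow_one]
    obtain ⟨x', hx', hx'1, ⟨i₁, hi₁⟩, hux', hyx'⟩ := hB4 0 h00
    have hcl : ∀ i, L.nm (x₀ i - x' i) < 1 := fun i =>
      h.sheet (fun j => (hx₀ j).2) hx'1 (co_ne hP₀) (co_ne hx') (co_zero hP₀) (co_zero hx') hD
        (fun r => by rw [hux']; exact ha0 r) (by rw [L.sub_comm]; exact hyx') i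
    obtain ⟨i₀, -, hi₀⟩ := Finset.exists_max_image Finset.univ
      (fun i => L.nm (x' i - x₀ i)) ⟨i₁, Finset.mem_univ i₁⟩
    refine hπ.nrh_up h.hom ⟨N', hN', hN⟩ (r := L.nm (x' i₀ - x₀ i₀)) ?_ (nrh_mk ?_ hx' hP₀ hx'1
      (fun i => (hx₀ i).2) ⟨i₁, hi₁⟩ fun i => hi₀ i (Finset.mem_univ i)) hB0 hP₀M
    · rw [L.sub_comm]
      exact hcl i₀
    · rw [L.sub_comm]
      exact hcl i₀
  have hDp := dr_ptG' h hB0 hP₀M hnear (by rw [pow_one]; exact hπ.lt) hP₀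
    (fun i => (hx₀ i).2) hD
  -- the sum
  have hsub : Nm M₀ M (Finsupp.single P 1 - Finsupp.single P₀ 1 : (Xf f).pt Ω →₀ ℤ) =
      Nm M₀ M (Finsupp.single P 1 : (Xf f).pt Ω →₀ ℤ) -
        Nm M₀ M (Finsupp.single P₀ 1 : (Xf f).pt Ω →₀ ℤ) := by
    have h1 := nm_add hle (Finsupp.single P 1 - Finsupp.single P₀ 1 : (Xf f).pt Ω →₀ ℤ)
      (Finsupp.single P₀ 1)
    rw [sub_add_cancel] at h1
    rw [h1, add_sub_cancel_right]
  have hfin : Nm M₀ M (Finsupp.single P 1 - Finsupp.single P₀ 1 : (Xf f).pt Ω →₀ ℤ) =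
      (D + e.natDegree • (Finsupp.single (B 0) 1 - Finsupp.single P₀ 1 : (Xf f).pt Ω →₀ ℤ)) +
        (rcy B e - Finsupp.single (B 0) (e.natDegree : ℤ) - D) := by
    rw [hsub, hF, hF0, hF1, smul_sub, Finsupp.smul_single, Finsupp.smul_single, nsmul_eq_mul,
      mul_one]
    abel
  rw [hfin]
  refine add_mem (AddSubgroup.mem_sup_left (add_mem ?_ (nsmul_mem hDp _)))
    (AddSubgroup.mem_sup_right hd1)
  exact hd

/-- **RAM**, general form. -/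
theorem Uf.ram_nearSm (hπ : Uf L π) (hf : Hm f) {ψ : Fin m → Prj K N d} (hψ : ∀ i, PjSm sm L (ψ i))
    (hc : CvrSm sm L ψ) {M : IntermediateField K Ω} [FiniteDimensional K M] {k : ℕ}
    (hk : L.Rf M k) {P P₀ : (Xf f).pt Ω} (hP : Fp (Xf f) M P)
    (hP₀ : Fp (Xf f) (L.Ur ⊥ k) P₀) (hS : sm P₀) {r : ℝ} (hr : r < 1) (h : Nrh f L r P P₀) :
    Nm (K := K) ⊥ M (Finsupp.single P 1 - Finsupp.single P₀ 1 : (Xf f).pt Ω →₀ ℤ) ∈
      DrSm sm L π 1 ⊥ ⊔ (Xf f).ratEq K Ω := by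
  obtain ⟨x, x₀, i, hx, hx₀, hi, hi₀, h1, h1₀, hcl⟩ := nrh_nco hf hr h
  have hle : L.Ur ⊥ k ≤ M := hk.le
  have hMx : ∀ j, x j ∈ M := fp_mem hP hx hi
  have hMx₀ : ∀ j, x₀ j ∈ L.Ur ⊥ k := fp_mem hP₀ hx₀ hi₀
  have hfin₀ : FiniteDimensional K (L.Ur ⊥ k) := Ld.ur_fin ⊥ k hk.ne
  obtain ⟨j, hj⟩ := hc P₀ x₀ hS hx₀ h1₀ ⟨i, by rw [hi₀, L.one]⟩
  have hum : Um L (L.Ur ⊥ k) := ⟨k, hk.ne, le_rfl⟩
  have hres : ∀ b ∈ M, L.nm b ≤ 1 → ∃ a ∈ L.Ur ⊥ k, L.nm (b - a) < 1 := by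
    intro b hb hb1
    obtain ⟨τ, hτ, h2⟩ := hk.res b hb hb1
    exact ⟨τ, Ld.te_ur hτ, h2⟩
  have h3 := hπ.ram_goodSm (hψ j) hle hum hres (fun i => ⟨hMx i, h1 i⟩) (fun i => ⟨hMx₀ i, h1₀ i⟩)
    hj hx hx₀ fun i => (hcl i).trans_lt hr
  have hfx : Fx M (Finsupp.single P 1 - Finsupp.single P₀ 1 : (Xf f).pt Ω →₀ ℤ) :=
    (fx_single hP 1).sub ((fx_single hP₀ 1).mono hle)
  rw [nm_tr bot_le hle hfx]
  exact GM.nm_sup hum h3 (nm_fx hle hfx)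

end GX
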