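import Pool.Agent.Lib.MP_f80667_ag.Lv.Zr
import Pool.Agent.Lib.MP_f80667_ag.Rsm.LvRm
import Pool.Agent.Lib.MP_f80667_ag.Rsm.B
import Pool.Agent.Lib.MP_f80667_ag.Rsm.GxXG
import Pool.Agent.Lib.MP_f80667_ag.Rsm.GxXH

/-! The theorems of `Lv/Zr` for the points of a part `sm` of the variety. -/

open ZC BE PE CV IntermediateField Polynomial

namespace GX

variable {F : Type} [Field F] {N d m : ℕ} {ι : Type} {f : ι → MvPolynomial (Fin N) F} {K Ω : Type}
  [Field K] [CharZero K] [Field Ω] [Algebra K Ω] [Algebra F K] [Algebra F Ω]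
  [IsScalarTower F K Ω] [IsAlgClosure K Ω] {L : Ld K Ω} {π : Ω}

variable {sm : (Xf f).pt Ω → Prop} [SOk f L sm]

/-- **ZR.** Cycles on `sm` with reduction `0` are displacements of points of `sm`. -/
theorem Uf.x_zrSm (hπ : Uf L π) (hf : Hm f) {ψ : Fin m → Prj K N d} (hψ : ∀ i, PjSm sm L (ψ i))
    (hc : CvrSm sm L ψ) {z : (Xf f).pt Ω →₀ ℤ} (hz : z ∈ (Xf f).cyc K Ω)
    (hS : ∀ P ∈ z.support, sm P) (h : Zr f L z) :
    z ∈ DrSm sm L π 1 ⊥ ⊔ (Xf f).ratEq K Ω := by
  classical
  obtain ⟨s, hs1, hs2, hs3⟩ := exists_eqsSm (K := K) (L := L) hf hψ hc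
  have hsa : ∀ (γ : Ω ≃ₐ[K] Ω) P, sm ((Xf f).act γ P) ↔ sm P := fun γ P =>
    ⟨fun h1 => by
      have h2 := SOk.act L γ⁻¹ _ h1
      rwa [← act_mul (fct f), inv_mul_cancel, act_one (fct f)] at h2, fun h1 => SOk.act L γ P h1⟩
  obtain ⟨T, hT⟩ : ∃ T : ((Xf f).pt Ω →₀ ℤ) →+ ((Xf f).pt Ω →₀ ℤ), T =
      Finsupp.liftAddHom fun x => if sm x then
        Finsupp.singleAddHom x - Finsupp.singleAddHom (s x) else 0 := ⟨_, rfl⟩
  have hT1 : ∀ x, sm x → ∀ n : ℤ, T (Finsupp.single x n) =
      Finsupp.single x n - Finsupp.single (s x) n := fun x hx n => by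
    rw [hT, Finsupp.liftAddHom_apply_single, if_pos hx]
    rfl
  have hT0 : ∀ x, ¬ sm x → ∀ n : ℤ, T (Finsupp.single x n) = 0 := fun x hx n => by
    rw [hT, Finsupp.liftAddHom_apply_single, if_neg hx]
    rfl
  have key : ∀ y : (Xf f).pt Ω →₀ ℤ, Fx (⊥ : IntermediateField K Ω) y →
      T y ∈ DrSm sm L π 1 ⊥ ⊔ (Xf f).ratEq K Ω := by
    intro y hy
    have h1 := fx_gen exists_fph hy
    clear hy
    induction h1 using AddSubgroup.closure_induction with
    | mem y hy =>
      obtain ⟨M, x, -, hM, hx, rfl⟩ := hy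
      have h2 : T (Nm (K := K) ⊥ M (Finsupp.single x 1)) =
          Nm (K := K) ⊥ M (T (Finsupp.single x 1)) := by
        refine hom_nm T bot_le (fun γ _ a => ?_) _
        induction a using Finsupp.induction_linear with
        | zero => rw [smul_zero, map_zero, smul_zero]
        | add a b ha hb => rw [smul_add, map_add, ha, hb, map_add, smul_add]
        | single P n =>
          rw [smul_single]
          by_cases hP : sm P
          · rw [hT1 _ ((hsa γ P).2 hP), hT1 _ hP, smul_sub, smul_single, smul_single, hs1]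
          · rw [hT0 _ (fun h => hP ((hsa γ P).1 h)), hT0 _ hP, smul_zero]
      rw [h2]
      by_cases hSx : sm x
      · rw [hT1 x hSx]
        obtain ⟨k, hk0, hk⟩ := exists_ur (L := L) M
        obtain ⟨r, hr, hr1⟩ := hs2 x hSx
        exact hπ.ram_nearSm hf hψ hc hk hx (eqs_fpSm hf hs1 hs3 hk hSx hx)
          (SOk.nr hr hr1 hSx) hr hr1
      · rw [hT0 x hSx]
        have h3 : Nm (K := K) ⊥ M (0 : (Xf f).pt Ω →₀ ℤ) = 0 := by
          rw [← GM.nmh_apply, map_zero]
        rw [h3]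
        exact zero_mem _
    | zero =>
      rw [map_zero]
      exact zero_mem _
    | add a b _ _ ha hb =>
      rw [map_add]
      exact add_mem ha hb
    | neg a _ ha =>
      rw [map_neg]
      exact neg_mem ha
  have h1 := key z (GM.cyc_iff.1 hz)
  have h2 : T z = z - Finsupp.mapDomain s z := by
    have h3 : T z = z.sum fun x n => (Finsupp.single x n - Finsupp.single (s x) n) := by
      conv_lhs => rw [← Finsupp.sum_single z]
      rw [Finsupp.sum, map_sum, Finsupp.sum]
      exact Finset.sum_congr rfl fun x hx => hT1 x (hS x hx) _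
    rw [h3, Finsupp.sum_sub, Finsupp.sum_single]
    rfl
  have h0 : Finsupp.mapDomain s z = 0 := by
    have hm : ∀ y, Finsupp.mapDomain s z y =
        ∑ x ∈ z.support.filter (fun x => s x = y), z x := by
      intro y
      rw [Finsupp.mapDomain, Finsupp.sum, Finsupp.finsetSum_apply, Finset.sum_filter]
      exact Finset.sum_congr rfl fun x _ => Finsupp.single_apply
    ext y
    rw [hm, Finsupp.zero_apply]
    by_cases hy : ∃ x0 ∈ z.support, s x0 = y
    · obtain ⟨x0, hx0, rfl⟩ := hy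
      have h4 := h x0
      rw [← h4]
      refine Finset.sum_congr (Finset.filter_congr fun x hx => ⟨fun h5 => ?_, fun h5 => ?_⟩)
        fun _ _ => rfl
      · have h6 := hs2 x (hS x hx)
        rw [h5] at h6
        exact h6.trans hf (hs2 x0 (hS x0 hx0)).symm
      · exact hs3 x x0 (hS x hx) h5
    · refine Finset.sum_eq_zero fun x hx => ?_
      exact absurd ⟨x, (Finset.mem_filter.1 hx).1, (Finset.mem_filter.1 hx).2⟩ hy
  rwa [h2, h0, sub_zero] at h1

end GX
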