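import Pool.Agent.Lib.MP_f80667_ag.Lv.Vn
import Pool.Agent.Lib.MP_f80667_ag.Rsm.LvZr
import Pool.Agent.Lib.MP_f80667_ag.Rsm.B
import Pool.Agent.Lib.MP_f80667_ag.Rsm.LvD1

/-! The theorems of `Lv/Vn` for the points of a part `S` of the variety. -/

open ZC BE PE CV IntermediateField Polynomial

namespace GX

variable {F : Type} [Field F] {N d m : ℕ} {ι : Type} {K Ω : Type}
  [Field K] [CharZero K] [Field Ω] [Algebra K Ω] [Algebra F K] [Algebra F Ω]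
  [IsScalarTower F K Ω] [IsAlgClosure K Ω]

/-- The cycles which are displacements of level `n` modulo rational equivalence. -/
noncomputable def VlSm {f : ι → MvPolynomial (Fin N) F} (sm : (Xf f).pt Ω → Prop) (L : Ld K Ω)
    (π : Ω) (n : ℕ) :
    AddSubgroup ((Xf f).pt Ω →₀ ℤ) := DrSm sm L π n ⊥ ⊔ (Xf f).ratEq K Ω

variable {f : ι → MvPolynomial (Fin N) F} {L : Ld K Ω} {π : Ω}

variable {sm : (Xf f).pt Ω → Prop} [SOk f L sm]

theorem vl_ratSm (n : ℕ) : (Xf f).ratEq K Ω ≤ VlSm sm L π n := le_sup_right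

theorem vl_drSm (n : ℕ) : DrSm sm L π n ⊥ ≤ VlSm sm L π n := le_sup_left

theorem vl_antiSm (hπ : Uf L π) : Antitone (VlSm sm L π) := fun _ _ h =>
  sup_le_sup_right (dr_monoSm hπ h) _

/-- `p V n ≤ V t` for `t ≤ n + e`, `t ≤ p n`. -/
theorem vl_mulSm (hπ : Uf L π) (hf : Hm f) {ψ : Fin m → Prj K N d} (hψ : ∀ i, PjSm sm L (ψ i))
    (hc : CvrSm sm L ψ) {e : ℕ} (he : L.nm (L.p : Ω) = L.nm π ^ e) {n t : ℕ} (hn : n ≠ 0)
    (h1 : t ≤ n + e) (h2 : t ≤ L.p * n) {z : (Xf f).pt Ω →₀ ℤ} (hz : z ∈ VlSm sm L π n) :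
    L.p • z ∈ VlSm sm L π t := by
  obtain ⟨a, ha, b, hb, rfl⟩ := AddSubgroup.mem_sup.1 hz
  rw [smul_add]
  exact add_mem (hπ.x_pmSm hf hψ hc he hn h1 h2 a ha) (vl_ratSm t (nsmul_mem hb _))

/-- `p V n ≤ V (n + 1)`. -/
theorem vl_mul_oneSm (hπ : Uf L π) (hf : Hm f) {ψ : Fin m → Prj K N d} (hψ : ∀ i, PjSm sm L (ψ i))
    (hc : CvrSm sm L ψ) {n : ℕ} (hn : n ≠ 0) {z : (Xf f).pt Ω →₀ ℤ} (hz : z ∈ VlSm sm L π n) :
    L.p • z ∈ VlSm sm L π (n + 1) := by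
  obtain ⟨e, he0, he⟩ := exists_e hπ
  have h2 := L.pp.two_le
  refine vl_mulSm hπ hf hψ hc he hn (by omega) ?_ hz
  calc n + 1 ≤ n + n := by omega
    _ = 2 * n := (two_mul n).symm
    _ ≤ L.p * n := Nat.mul_le_mul_right n h2

end GX
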