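import Pool.Agent.Lib.MP_f80667_ag.Lv.Ka
import Pool.Agent.Lib.MP_f80667_ag.Rsm.LvVn
import Pool.Agent.Lib.MP_f80667_ag.Rsm.B

/-! The theorems of `Lv/Ka` for the points of a part `S` of the variety. -/

open ZC BE PE CV IntermediateField

namespace GX

section loc

variable {F : Type} [Field F] {N : ℕ} {ι : Type} {f : ι → MvPolynomial (Fin N) F}
  {K Ω : Type} [Field K] [CharZero K] [Field Ω] [Algebra K Ω] [Algebra F K] [Algebra F Ω]
  [IsScalarTower F K Ω] [IsAlgClosure K Ω] (sm : (Xf f).pt Ω → Prop) (L : Ld K Ω) (π : Ω)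

/-- `χ` is a character of the graded piece of level `s`. -/
structure ChSm (s : ℕ) (χ : ((Xf f).pt Ω →₀ ℤ) → ZMod L.p) : Prop where
  add : ∀ z ∈ VlSm sm L π s, ∀ z' ∈ VlSm sm L π s, χ (z + z') = χ z + χ z'
  zero : ∀ z ∈ VlSm sm L π (s + 1), χ z = 0

end loc

end GX
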