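import Pool.Agent.Lib.MP_f80667_ag.Lv.Kd
import Pool.Agent.Lib.MP_f80667_ag.Rsm.LvTb
import Pool.Agent.Lib.MP_f80667_ag.Rsm.B
import Pool.Agent.Lib.MP_f80667_ag.Rsm.LvVn
import Pool.Agent.Lib.MP_f80667_ag.Rsm.LvKa

/-! The theorems of `Lv/Kd` for the points of a part `S` of the variety. -/

open ZC BE PE CV IntermediateField

namespace GX

variable {F : Type} [Field F] {N d : ℕ} {ι : Type} {f : ι → MvPolynomial (Fin N) F}
  {K Ω : Type} [Field K] [CharZero K] [Field Ω] [Algebra K Ω] [Algebra F K] [Algebra F Ω]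
  [IsScalarTower F K Ω] [IsAlgClosure K Ω] {L : Ld K Ω} {ψ : Prj K N d} {π : Ω} {k s : ℕ}
  {χ : ((Xf f).pt Ω →₀ ℤ) → ZMod L.p} {M M' : IntermediateField K Ω}
  {c g g' : Fin (d + 1) → Ω} {w : Ω}

variable {sm : (Xf f).pt Ω → Prop} [SOk f L sm]

theorem ChSm.map_zeroSm (hχ : ChSm sm L π s χ) : χ 0 = 0 := by
  exact hχ.zero 0 (zero_mem _)

theorem ChSm.map_negSm (hχ : ChSm sm L π s χ) {z : (Xf f).pt Ω →₀ ℤ} (hz : z ∈ VlSm sm L π s) :
    χ (-z) = -χ z := by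
  have h := hχ.add z hz (-z) (neg_mem hz)
  rw [add_neg_cancel, hχ.map_zeroSm] at h
  exact eq_neg_of_add_eq_zero_right h.symm

theorem ChSm.map_sumSm (hχ : ChSm sm L π s χ) {α : Type} (S : Finset α)
    {T : α → (Xf f).pt Ω →₀ ℤ} (h : ∀ i ∈ S, T i ∈ VlSm sm L π s) :
    χ (∑ i ∈ S, T i) = ∑ i ∈ S, χ (T i) := by
  classical
  induction S using Finset.induction_on with
  | empty => rw [Finset.sum_empty, Finset.sum_empty, hχ.map_zeroSm]
  | insert i S hi ih =>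
    have h1 : ∀ j ∈ S, T j ∈ VlSm sm L π s := fun j hj => h j (Finset.mem_insert_of_mem hj)
    rw [Finset.sum_insert hi, Finset.sum_insert hi,
      hχ.add _ (h i (Finset.mem_insert_self i S)) _ (sum_mem h1), ih h1]

/-- Proof: `z = z' + (z - z')`; `Vl (s + 1) ≤ Vl s` (`vl_anti`). -/
theorem ChSm.congrSm (hπ : Uf L π) (hχ : ChSm sm L π s χ) {z z' : (Xf f).pt Ω →₀ ℤ}
    (hz' : z' ∈ VlSm sm L π s) (h : z - z' ∈ VlSm sm L π (s + 1)) : χ z = χ z' := by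
  have h1 : z - z' ∈ VlSm sm L π s := vl_antiSm hπ (Nat.le_succ s) h
  have h2 := hχ.add z' hz' (z - z') h1
  rw [add_sub_cancel, hχ.zero _ h, add_zero] at h2
  exact h2

end GX
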