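import Pool.Agent.Lib.MP_f80667_ag.Kt.A
import Pool.Agent.Lib.MP_f80667_ag.Rsm.LvTb
import Pool.Agent.Lib.MP_f80667_ag.Rsm.B
import Pool.Agent.Lib.MP_f80667_ag.Rsm.LvLn
import Pool.Agent.Lib.MP_f80667_ag.Rsm.LvKd

/-! The theorems of `Kt/A` for the points of a part `S` of the variety. -/

open ZC BE PE CV IntermediateField Polynomial

namespace GX

variable {F : Type} [Field F] {N d : ℕ} {ι : Type} {f : ι → MvPolynomial (Fin N) F} {K Ω : Type}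
  [Field K] [CharZero K] [Field Ω] [Algebra K Ω] [Algebra F K] [Algebra F Ω]
  [IsScalarTower F K Ω] [IsAlgClosure K Ω] {L : Ld K Ω} {ψ : Prj K N d} {π : Ω}
  {M : IntermediateField K Ω}

variable {sm : (Xf f).pt Ω → Prop} [SOk f L sm]

/-- **The comparison on an arc.** -/
theorem lnaSm (hπ : Uf L π) (hψ : PjSm sm L ψ) (hM : Um L M) {a : Fin (d + 1) → Polynomial Ω}
    (hArc : Arc L M a) {w₀ : Ω} (hw : w₀ ∈ M) (hw1 : L.nm w₀ ≤ 1)
    (hD0 : L.nm (MvPolynomial.aeval (fun r => (a r).eval 0) ψ.D) = 1)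
    (hG0 : L.nm (pe (fun r => (a r).eval 0) w₀ ψ.G) < 1) {n : ℕ}
    {x x' : Fin n → Fin N → Ω} {P P' : Fin n → (Xf f).pt Ω} {α α' : Fin n → Ω} {s : ℕ}
    (hs : s ≠ 0)
    (h1 : ∀ i, Nb f L ψ π M w₀ s (fun r => (a r).eval (α i)) (x i) (P i))
    (h1' : ∀ i, Nb f L ψ π M w₀ s (fun r => (a r).eval (α' i)) (x' i) (P' i))
    (h2 : ∀ i, α i ∈ M ∧ L.nm (α i) < 1) (h2' : ∀ i, α' i ∈ M ∧ L.nm (α' i) < 1)
    (hα : ∀ k, L.nm ((∏ i, (X - C (α i)) : Polynomial Ω).coeff k -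
      (∏ i, (X - C (α' i)) : Polynomial Ω).coeff k) ≤ L.nm π ^ s) :
    ∑ i, Finsupp.single (P i) 1 - ∑ i, Finsupp.single (P' i) 1 ∈
      DrSm sm L π s M ⊔ (Xf f).ratEq M Ω := by
  have hfd : FiniteDimensional K M := hM.fd
  have hcl : ∀ c, L.nm c < 1 → ∀ r, L.nm ((a r).eval c - (a r).eval 0) < 1 := by
    intro c hc r
    have h1 := L.eval_close (f := a r) (fun j => (hArc r j).2) (x := 0) (y := c)
      (by rw [L.zero]; exact zero_le_one) hc.le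
    rw [zero_sub, L.neg, L.sub_comm] at h1
    exact h1.trans_lt hc
  have hc0 : ∀ r, L.nm ((a r).eval 0) ≤ 1 := fun r => by
    rw [← coeff_zero_eq_eval_zero]
    exact (hArc r 0).2
  obtain ⟨B, hBa, hBb, hBc, hBd⟩ := exists_br hψ.toPj hArc hw hw1 hD0 hG0
  have key : ∀ {x : Fin N → Ω} {P : (Xf f).pt Ω} {α : Ω},
      Nb f L ψ π M w₀ s (fun r => (a r).eval α) x P → α ∈ M ∧ L.nm α < 1 →
      (Finsupp.single P 1 - Finsupp.single (B α) 1 : (Xf f).pt Ω →₀ ℤ) ∈ DrSm sm L π s M := by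
    rintro x P α ⟨k1, k2, k3, k6⟩ ⟨k4, k5⟩
    obtain ⟨y, l1, l2, l3, l4, l5⟩ := hBd α k5
    refine br_nearSm hπ hψ hD0 hc0 hs k1 k2 l1 ?_ l2 l3 k3 l5 (fun r => ?_) fun r => ?_
    · intro γ hγ
      rw [hBb γ hγ _ k5]
      congr 1
      exact (IntermediateField.mem_fixingSubgroup_iff M γ).1 hγ _ k4
    · rw [l4]
      exact hcl α k5 r
    · rw [l4]
      exact k6 r
  obtain ⟨z, hz, hz'⟩ := la_chSm hψ (hπ.mem M) hπ.pos hπ.lt (hπ.um_val hM) hArc hw hw1 hD0 hG0 hBa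
    (prod_dpo (fun i => (h2 i).1) fun i => (h2 i).2)
    (prod_dpo (fun i => (h2' i).1) fun i => (h2' i).2)
    (by rw [prod_deg, prod_deg]) (l := 1) (u := 0) (s := s) (Or.inl ⟨rfl, rfl, hs⟩)
    (fun i => by rw [add_zero]; exact hα i)
  rw [one_smul, rcy_prod, rcy_prod] at hz'
  have e1 : ∑ i, Finsupp.single (P i) 1 - ∑ i, Finsupp.single (P' i) (1 : ℤ) =
      (z + ∑ i, (Finsupp.single (P i) 1 - Finsupp.single (B (α i)) 1) -
        ∑ i, (Finsupp.single (P' i) 1 - Finsupp.single (B (α' i)) 1)) +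
      (∑ i, Finsupp.single (B (α i)) 1 - ∑ i, Finsupp.single (B (α' i)) 1 - z) := by
    rw [Finset.sum_sub_distrib, Finset.sum_sub_distrib]
    abel
  rw [e1]
  refine AddSubgroup.add_mem_sup (sub_mem (add_mem hz ?_) ?_) hz'
  · exact sum_mem fun i _ => key (h1 i) (h2 i)
  · exact sum_mem fun i _ => key (h1' i) (h2' i)

/-- **The displacement by `π ^ s v`** at `c` and at `c + π v + π ^ 2 u`. -/
theorem x_shiftSm (hπ : Uf L π) (hψ : PjSm sm L ψ) (hM : Um L M) {c v u : Fin (d + 1) → Ω}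
    (hc : Iv L M c) (hv : Iv L M v) (hu : Iv L M u) {w₀ : Ω} (hw : w₀ ∈ M) (hw1 : L.nm w₀ ≤ 1)
    (hD : L.nm (MvPolynomial.aeval c ψ.D) = 1) (hG : L.nm (pe c w₀ ψ.G) < 1)
    {x₀ x₁ x₂ x₃ : Fin N → Ω} {P₀ P₁ P₂ P₃ : (Xf f).pt Ω} {s : ℕ} (hs : s ≠ 0)
    (h₀ : Nb f L ψ π M w₀ (s + 1) c x₀ P₀)
    (h₁ : Nb f L ψ π M w₀ (s + 1) (fun r => c r + π * v r + π ^ 2 * u r) x₁ P₁)
    (h₂ : Nb f L ψ π M w₀ (s + 1) (fun r => c r + π ^ s * v r) x₂ P₂)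
    (h₃ : Nb f L ψ π M w₀ (s + 1) (fun r => c r + π * v r + π ^ 2 * u r + π ^ s * v r) x₃ P₃) :
    (Finsupp.single P₁ 1 + Finsupp.single P₂ 1 - (Finsupp.single P₀ 1 + Finsupp.single P₃ 1) :
      (Xf f).pt Ω →₀ ℤ) ∈ DrSm sm L π (s + 1) M ⊔ (Xf f).ratEq M Ω := by
  obtain ⟨a, ha⟩ : ∃ a : Fin (d + 1) → Polynomial Ω,
    a = fun r => C (u r) * X ^ 2 + C (v r) * X + C (c r) := ⟨_, rfl⟩
  have hev : ∀ r z, (a r).eval z = c r + z * v r + z ^ 2 * u r := fun r z => by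
    rw [ha]
    simp only [eval_add, eval_mul, eval_C, eval_X, eval_pow]
    ring
  have hArc : Arc L M a := by
    intro i j
    rw [ha]
    simp only [coeff_add, coeff_C_mul, coeff_X, coeff_C, coeff_X_pow]
    have h01 : (0 : Ω) ∈ M ∧ L.nm (0 : Ω) ≤ 1 := ⟨zero_mem M, by rw [L.zero]; exact zero_le_one⟩
    rcases j with _ | _ | _ | j
    · rw [if_neg (by omega), if_neg (by omega), if_pos rfl, mul_zero, mul_zero, zero_add,
        zero_add]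
      exact hc i
    · rw [if_neg (by omega), if_pos rfl, if_neg (by omega), mul_zero, mul_one, zero_add,
        add_zero]
      exact hv i
    · rw [if_pos rfl, if_neg (by omega), if_neg (by omega), mul_zero, mul_one, add_zero,
        add_zero]
      exact hu i
    · rw [if_neg (by omega), if_neg (by omega), if_neg (by omega), mul_zero, mul_zero,
        add_zero, add_zero]
      exact h01
  have ha0 : (fun r => (a r).eval 0) = c := funext fun r => by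
    rw [hev, zero_mul, add_zero]
    ring
  have hπ1 : L.nm π < 1 := hπ.lt
  have hπM : π ∈ M := hπ.mem M
  have hps : L.nm (π ^ s) < 1 := by
    rw [L.pow]
    exact hπ.pow_lt hs
  have hle : ∀ {y t : Ω}, L.nm t ≤ 1 → L.nm y ≤ L.nm π ^ (s + 1) →
      L.nm (y * t) ≤ L.nm π ^ (s + 1) := fun {y t} ht hy => by
    rw [L.mul]
    exact (mul_le_of_le_one_right (L.nonneg _) ht).trans hy
  have h2s : L.nm ((π ^ s) ^ 2) ≤ L.nm π ^ (s + 1) := by
    rw [← pow_mul, L.pow]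
    exact hπ.pow_le (by omega)
  have h := lnaSm hπ hψ hM hArc hw hw1 (by rw [ha0]; exact hD) (by rw [ha0]; exact hG) (n := 2)
    (x := ![x₁, x₂]) (x' := ![x₀, x₃]) (P := ![P₁, P₂]) (P' := ![P₀, P₃]) (α := ![π, π ^ s])
    (α' := ![0, π + π ^ s]) (Nat.succ_ne_zero s)
    (fun i => by
      fin_cases i
      · refine h₁.of fun r => ?_
        change L.nm (c r + π * v r + π ^ 2 * u r - (a r).eval π) ≤ _
        rw [hev, sub_self, L.zero]
        exact pow_nonneg (L.nonneg _) _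
      · refine h₂.of fun r => ?_
        change L.nm (c r + π ^ s * v r - (a r).eval (π ^ s)) ≤ _
        rw [hev]
        have e1 : c r + π ^ s * v r - (c r + π ^ s * v r + (π ^ s) ^ 2 * u r) =
            -((π ^ s) ^ 2 * u r) := by ring
        rw [e1, L.neg]
        exact hle (hu r).2 h2s)
    (fun i => by
      fin_cases i
      · refine h₀.of fun r => ?_
        change L.nm (c r - (a r).eval 0) ≤ _
        rw [hev]
        have e1 : c r - (c r + 0 * v r + 0 ^ 2 * u r) = 0 := by ring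
        rw [e1, L.zero]
        exact pow_nonneg (L.nonneg _) _
      · refine h₃.of fun r => ?_
        change L.nm (c r + π * v r + π ^ 2 * u r + π ^ s * v r - (a r).eval (π + π ^ s)) ≤ _
        rw [hev]
        have e1 : c r + π * v r + π ^ 2 * u r + π ^ s * v r -
            (c r + (π + π ^ s) * v r + (π + π ^ s) ^ 2 * u r) =
            -((2 * π ^ (s + 1) + (π ^ s) ^ 2) * u r) := by ring
        rw [e1, L.neg]
        refine hle (hu r).2 ((L.add _ _).trans (max_le ?_ h2s))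
        rw [L.mul, L.pow]
        have h2 : L.nm (2 : Ω) ≤ 1 := by
          have h := L.nat_le 2
          rwa [Nat.cast_ofNat] at h
        exact mul_le_of_le_one_left (pow_nonneg (L.nonneg _) _) h2)
    (fun i => by
      fin_cases i
      · exact ⟨hπM, hπ1⟩
      · exact ⟨pow_mem hπM s, hps⟩)
    (fun i => by
      fin_cases i
      · exact ⟨zero_mem M, by
          change L.nm (0 : Ω) < 1
          rw [L.zero]
          exact zero_lt_one⟩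
      · exact ⟨add_mem hπM (pow_mem hπM s), (L.add _ _).trans_lt (max_lt hπ1 hps)⟩)
    (two_coeff L (by rw [zero_add]) (by
      rw [zero_mul, sub_zero, ← pow_succ', L.pow]))
  rw [Fin.sum_univ_two, Fin.sum_univ_two] at h
  exact h

/-- **Additivity** of the displacements of level `s`, `2 ≤ s`, modulo level `s + 1`. -/
theorem x_add2Sm (hπ : Uf L π) (hψ : PjSm sm L ψ) (hM : Um L M) {c u v : Fin (d + 1) → Ω}
    (hc : Iv L M c) (hu : Iv L M u) (hv : Iv L M v) {w₀ : Ω} (hw : w₀ ∈ M) (hw1 : L.nm w₀ ≤ 1)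
    (hD : L.nm (MvPolynomial.aeval c ψ.D) = 1) (hG : L.nm (pe c w₀ ψ.G) < 1)
    {x₀ x₁ x₂ x₃ : Fin N → Ω} {P₀ P₁ P₂ P₃ : (Xf f).pt Ω} {s : ℕ} (hs : 2 ≤ s)
    (h₀ : Nb f L ψ π M w₀ (s + 1) c x₀ P₀)
    (h₁ : Nb f L ψ π M w₀ (s + 1) (fun r => c r + π ^ s * u r) x₁ P₁)
    (h₂ : Nb f L ψ π M w₀ (s + 1) (fun r => c r + π ^ s * v r) x₂ P₂)
    (h₃ : Nb f L ψ π M w₀ (s + 1) (fun r => c r + π ^ s * (u r + v r)) x₃ P₃) :
    (Finsupp.single P₁ 1 + Finsupp.single P₂ 1 - (Finsupp.single P₀ 1 + Finsupp.single P₃ 1) :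
      (Xf f).pt Ω →₀ ℤ) ∈ DrSm sm L π (s + 1) M ⊔ (Xf f).ratEq M Ω := by
  have hs0 : s ≠ 0 := by omega
  obtain ⟨t, rfl⟩ : ∃ t, s = t + 2 := ⟨s - 2, by omega⟩
  have hπM : π ∈ M := hπ.mem M
  have hπ1 : L.nm π < 1 := hπ.lt
  have hsm : ∀ {t v : Ω}, t ∈ M ∧ L.nm t ≤ 1 → v ∈ M ∧ L.nm v < 1 →
      v * t ∈ M ∧ L.nm (v * t) < 1 := by
    intro t v ht hv
    refine ⟨mul_mem hv.1 ht.1, ?_⟩
    rw [L.mul]
    exact mul_lt_one_of_nonneg_of_lt_one_left (L.nonneg _) hv.2 ht.2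
  -- the base point
  have hc₀ : Iv L M fun r => c r - π * v r := fun r =>
    ⟨sub_mem (hc r).1 (hsm (hv r) ⟨hπM, hπ1⟩).1, (L.sub _ _).trans (max_le (hc r).2
      (hsm (hv r) ⟨hπM, hπ1⟩).2.le)⟩
  have hcc : ∀ r, L.nm (c r - (c r - π * v r)) < 1 := fun r => by
    rw [sub_sub_cancel]
    exact (hsm (hv r) ⟨hπM, hπ1⟩).2
  have hD' := hψ.D_close (fun r => (hc r).2) (fun r => (hc₀ r).2) hcc hD
  obtain ⟨i₀, -, hi₀⟩ := Finset.exists_max_image Finset.univ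
    (fun r => L.nm (c r - (c r - π * v r))) ⟨0, Finset.mem_univ _⟩
  have hG' : L.nm (pe (fun r => c r - π * v r) w₀ ψ.G) < 1 := by
    have l1 := pe_close hψ.iG (fun r => (hc r).2) hw1 (fun r => (hc₀ r).2) hw1 (L.nonneg _)
      (fun r => hi₀ r (Finset.mem_univ r)) (by rw [sub_self, L.zero]; exact L.nonneg _)
    have l2 := L.sub (pe c w₀ ψ.G) (pe c w₀ ψ.G - pe (fun r => c r - π * v r) w₀ ψ.G)
    rw [sub_sub_cancel] at l2
    exact l2.trans_lt (max_lt hG (l1.trans_lt (hcc i₀)))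
  -- the two points
  obtain ⟨y₀, Q₀, k₀, -, -⟩ := exists_nb (f := f) (M := M) hψ (fun r => (hc r).2) hw hw1 hD hG
    (π := π) (c' := fun r => c r - π * v r) hc₀ fun r => by
      rw [L.sub_comm]
      exact hcc r
  have hps : (π ^ (t + 2)) ∈ M ∧ L.nm (π ^ (t + 2)) < 1 := by
    refine ⟨pow_mem hπM _, ?_⟩
    rw [L.pow]
    exact hπ.pow_lt hs0
  obtain ⟨y₂, Q₂, k₂, -, -⟩ := exists_nb (f := f) (M := M) hψ (fun r => (hc r).2) hw hw1 hD hG
    (π := π) (c' := fun r => c r - π * v r + π ^ (t + 2) * v r) (fun r =>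
      ⟨add_mem (hc₀ r).1 (hsm (hv r) hps).1, (L.add _ _).trans (max_le (hc₀ r).2
        (hsm (hv r) hps).2.le)⟩) fun r => by
      have e1 : c r - π * v r + π ^ (t + 2) * v r - c r =
          -(c r - (c r - π * v r)) + π ^ (t + 2) * v r := by ring
      rw [e1]
      refine (L.add _ _).trans_lt (max_lt ?_ (hsm (hv r) hps).2)
      rw [L.neg]
      exact hcc r
  have hu' : Iv L M fun r => π ^ t * u r := fun r => by
    have h1 : π ^ t ∈ M ∧ L.nm (π ^ t) ≤ 1 := by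
      refine ⟨pow_mem hπM _, ?_⟩
      rw [L.pow]
      exact pow_le_one₀ (L.nonneg _) hπ1.le
    refine ⟨mul_mem h1.1 (hu r).1, ?_⟩
    rw [L.mul]
    exact mul_le_one₀ h1.2 (L.nonneg _) (hu r).2
  have hz' : Iv L M fun _ : Fin (d + 1) => (0 : Ω) := fun r =>
    ⟨zero_mem M, by rw [L.zero]; exact zero_le_one⟩
  have hnz : (0 : ℝ) ≤ L.nm π ^ (t + 2 + 1) := pow_nonneg (L.nonneg _) _
  -- `c - π v`, `c + π ^ s u`
  have g1 := x_shiftSm hπ hψ hM hc₀ hv hu' hw hw1 hD' hG' (s := t + 2) hs0 (k₀ _)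
    (h₁.of fun r => by
      have e1 : c r + π ^ (t + 2) * u r - (c r - π * v r + π * v r + π ^ 2 * (π ^ t * u r)) = 0 := by
        ring
      rw [e1, L.zero]
      exact hnz) (k₂ _)
    (h₃.of fun r => by
      have e1 : c r + π ^ (t + 2) * (u r + v r) -
          (c r - π * v r + π * v r + π ^ 2 * (π ^ t * u r) + π ^ (t + 2) * v r) = 0 := by
        ring
      rw [e1, L.zero]
      exact hnz)
  -- `c - π v`, `c`
  have g2 := x_shiftSm hπ hψ hM hc₀ hv hz' hw hw1 hD' hG' (s := t + 2) hs0 (k₀ _)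
    (h₀.of fun r => by
      have e1 : c r - (c r - π * v r + π * v r + π ^ 2 * 0) = 0 := by ring
      rw [e1, L.zero]
      exact hnz) (k₂ _)
    (h₂.of fun r => by
      have e1 : c r + π ^ (t + 2) * v r -
          (c r - π * v r + π * v r + π ^ 2 * 0 + π ^ (t + 2) * v r) = 0 := by
        ring
      rw [e1, L.zero]
      exact hnz)
  have e2 : (Finsupp.single P₁ 1 + Finsupp.single P₂ 1 -
      (Finsupp.single P₀ 1 + Finsupp.single P₃ 1) : (Xf f).pt Ω →₀ ℤ) =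
      (Finsupp.single P₁ 1 + Finsupp.single Q₂ 1 -
        (Finsupp.single Q₀ 1 + Finsupp.single P₃ 1)) -
      (Finsupp.single P₀ 1 + Finsupp.single Q₂ 1 -
        (Finsupp.single Q₀ 1 + Finsupp.single P₂ 1)) := by abel
  rw [e2]
  exact sub_mem g1 g2

variable {c h h' : Fin (d + 1) → Ω} {w : Ω}

omit [CharZero K] [IsAlgClosure K Ω] in
private theorem tb_t {L : Ld K Ω} {h : Fin (d + 1) → Ω} (h1 : ∀ r, L.nm (h r) < 1) :
    ∃ t : ℝ, t < 1 ∧ ∀ r, L.nm (h r) ≤ t := by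
  obtain ⟨i₀, -, hi₀⟩ := Finset.exists_max_image Finset.univ (fun r => L.nm (h r))
    ⟨0, Finset.mem_univ _⟩
  exact ⟨L.nm (h i₀), h1 i₀, fun r => hi₀ r (Finset.mem_univ r)⟩

private theorem tb_nb0 (hψ : PjSm sm L ψ) (g : Gp L ψ M c w) : ∃ P : (Xf f).pt Ω,
    Fp (Xf f) M P ∧ zx f ((ψ.om Ω).pt c w) = Finsupp.single P 1 ∧
      ∀ s, Nb f L ψ π M w s c ((ψ.om Ω).pt c w) P := by
  obtain ⟨k1, -, k2, k3, P, hP, hFp, hz⟩ := g.pt hψ.toPj
  refine ⟨P, hFp, hz, fun s => ⟨k1, hP, ?_, fun r => ?_⟩⟩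
  · rw [k3, sub_self, L.zero]
    exact zero_lt_one
  · rw [k2, sub_self, L.zero]
    exact pow_nonneg (L.nonneg _) s

private theorem tb_nb (hψ : PjSm sm L ψ) (g : Gp L ψ M c w) (hh : Iv L M h)
    (h1 : ∀ r, L.nm (h r) < 1) : ∃ P : (Xf f).pt Ω, Fp (Xf f) M P ∧
      zx f ((ψ.om Ω).pt (c + h) (sht L ψ w (c + h))) = Finsupp.single P 1 ∧
        ∀ s, ∀ c' : Fin (d + 1) → Ω, (∀ r, c' r = c r + h r) →
          Nb f L ψ π M w s c' ((ψ.om Ω).pt (c + h) (sht L ψ w (c + h))) P := by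
  obtain ⟨t, ht, h2⟩ := tb_t h1
  obtain ⟨g', hg'⟩ := g.sh hψ.toPj hh ht h2
  obtain ⟨k1, -, k2, k3, P, hP, hFp, hz⟩ := g'.pt hψ.toPj
  refine ⟨P, hFp, hz, fun s c' hc' => ⟨k1, hP, ?_, fun r => ?_⟩⟩
  · rw [k3]
    exact hg'.trans_lt ht
  · rw [k2, hc' r, Pi.add_apply, sub_self, L.zero]
    exact pow_nonneg (L.nonneg _) s

private theorem tb_supSm [FiniteDimensional K M] (hM : Um L M) {z : (Xf f).pt Ω →₀ ℤ} {s : ℕ}
    (hz : z ∈ DrSm sm L π s M ⊔ (Xf f).ratEq M Ω) (hf : Fx M z) :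
    Nm (K := K) ⊥ M z ∈ DrSm sm L π s ⊥ ⊔ (Xf f).ratEq K Ω := GM.nm_sup hM hz hf

private theorem tb_nsub [FiniteDimensional K M] (P Q : (Xf f).pt Ω →₀ ℤ) :
    Nm (K := K) ⊥ M (P - Q) = Nm (K := K) ⊥ M P - Nm (K := K) ⊥ M Q :=
  (GM.nmh (Xf f) M).map_sub P Q

omit [CharZero K] [IsAlgClosure K Ω] in
private theorem tb_div (hπ : Uf L π) {s : ℕ} (hh : Iv L M h)
    (h1 : ∀ r, L.nm (h r) ≤ L.nm π ^ s) :
    Iv L M (fun r => (π ^ s)⁻¹ * h r) ∧ ∀ r, π ^ s * ((π ^ s)⁻¹ * h r) = h r := by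
  have h0 : π ^ s ≠ 0 := pow_ne_zero s hπ.ne
  have h2 : 0 < L.nm π ^ s := pow_pos hπ.pos s
  refine ⟨fun r => ⟨mul_mem (inv_mem (pow_mem (hπ.mem M) s)) (hh r).1, ?_⟩, fun r => ?_⟩
  · rw [L.mul, L.inv, L.pow, inv_mul_le_iff₀ h2, mul_one]
    exact h1 r
  · rw [← mul_assoc, mul_inv_cancel₀ h0, one_mul]

/-- **ADD** on the levels `≥ 2`. Proof: as `cyv_four` with `x_add2`. -/
theorem cyv_four2Sm (hπ : Uf L π) (hψ : PjSm sm L ψ) (hM : Um L M)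
    (g : Gp L ψ M c w) (hh : Iv L M h) (hh' : Iv L M h') {s : ℕ} (hs : 2 ≤ s)
    (h1 : ∀ r, L.nm (h r) ≤ L.nm π ^ s) (h1' : ∀ r, L.nm (h' r) ≤ L.nm π ^ s) :
    cyv f L ψ M c w (h + h') - cyv f L ψ M c w h - cyv f L ψ M c w h' ∈
      DrSm sm L π (s + 1) ⊥ ⊔ (Xf f).ratEq K Ω := by
  have hfd : FiniteDimensional K M := hM.fd
  have hs0 : s ≠ 0 := by omega
  have ht := hπ.pow_lt hs0
  have h3 : Iv L M (h + h') := fun r =>
    ⟨add_mem (hh r).1 (hh' r).1, (L.add _ _).trans (max_le (hh r).2 (hh' r).2)⟩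
  have h4 : ∀ r, L.nm (h r) < 1 := fun r => (h1 r).trans_lt ht
  have h4' : ∀ r, L.nm (h' r) < 1 := fun r => (h1' r).trans_lt ht
  have h5 : ∀ r, L.nm ((h + h') r) < 1 := fun r =>
    (L.add _ _).trans_lt (max_lt (h4 r) (h4' r))
  obtain ⟨P₀, f₀, z₀, n₀⟩ := tb_nb0 (π := π) hψ g
  obtain ⟨P₁, f₁, z₁, n₁⟩ := tb_nb (π := π) hψ g hh h4
  obtain ⟨P₂, f₂, z₂, n₂⟩ := tb_nb (π := π) hψ g hh' h4'
  obtain ⟨P₃, f₃, z₃, n₃⟩ := tb_nb (π := π) hψ g h3 h5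
  obtain ⟨u1, u2⟩ := tb_div hπ hh h1
  obtain ⟨v1, v2⟩ := tb_div hπ hh' h1'
  have hz := x_add2Sm hπ hψ hM g.iv u1 v1 g.mem g.le g.D
    (by rw [g.G, L.zero]; exact zero_lt_one) hs (n₀ (s + 1))
    (n₁ (s + 1) _ fun r => by rw [u2 r]) (n₂ (s + 1) _ fun r => by rw [v2 r])
    (n₃ (s + 1) _ fun r => by rw [mul_add, u2 r, v2 r, Pi.add_apply])
  have hf : Fx M (Finsupp.single P₁ 1 + Finsupp.single P₂ 1 -
      (Finsupp.single P₀ 1 + Finsupp.single P₃ 1) : (Xf f).pt Ω →₀ ℤ) :=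
    ((fx_single f₁ 1).add (fx_single f₂ 1)).sub ((fx_single f₀ 1).add (fx_single f₃ 1))
  have hk := neg_mem (tb_supSm hM hz hf)
  unfold cyv
  rw [z₀, z₁, z₂, z₃, ← tb_nsub, ← tb_nsub]
  have e1 : (Finsupp.single P₃ 1 - Finsupp.single P₀ 1 - (Finsupp.single P₁ 1 -
      Finsupp.single P₀ 1) - (Finsupp.single P₂ 1 - Finsupp.single P₀ 1) : (Xf f).pt Ω →₀ ℤ) =
      0 - (Finsupp.single P₁ 1 + Finsupp.single P₂ 1 -
      (Finsupp.single P₀ 1 + Finsupp.single P₃ 1)) := by abel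
  rw [e1, tb_nsub]
  have e2 : Nm (K := K) ⊥ M (0 : (Xf f).pt Ω →₀ ℤ) = 0 := (GM.nmh (Xf f) M).map_zero
  rw [e2, zero_sub]
  exact hk

end GX
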