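import Pool.Agent.Lib.MP_f80667_ag.Kt.Kh
import Pool.Agent.Lib.MP_f80667_ag.Rsm.KtKg1
import Pool.Agent.Lib.MP_f80667_ag.Rsm.B
import Pool.Agent.Lib.MP_f80667_ag.Rsm.LvKa
import Pool.Agent.Lib.MP_f80667_ag.Rsm.LvKd

/-! The theorems of `Kt/Kh` for the points of a part `S` of the variety. -/

open ZC BE PE CV IntermediateField

namespace GX

namespace Kt

variable {F : Type} [Field F] {N d : ℕ} {ι : Type} {f : ι → MvPolynomial (Fin N) F}
  {K Ω : Type} [Field K] [CharZero K] [Field Ω] [Algebra K Ω] [Algebra F K] [Algebra F Ω]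
  [IsScalarTower F K Ω] [IsAlgClosure K Ω] {L : Ld K Ω} {ψ : Prj K N d} {π : Ω} {k s : ℕ}
  {χ : ((Xf f).pt Ω →₀ ℤ) → ZMod L.p} {c h h' : Fin (d + 1) → Rn L}

variable {sm : (Xf f).pt Ω → Prop} [SOk f L sm]

/-- Proof: `pw_sh` three times, `lw_disc` (`pw_fld`). -/
theorem pw_discSm (hy : Hyt f L π k) (hψ : PjSm sm L ψ) (hχ : ChSm sm L π s χ) (hs : 2 ≤ s)
    (hD : L.nm (MvPolynomial.aeval (fun r => (c r : Ω)) ψ.D) = 1) (j : ℕ)
    (u : Fin (d + 1) → L.κ) :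
    Pw f L ψ π s χ k j (c + hy.uf.rn • (h + h')) u + Pw f L ψ π s χ k j c u =
      Pw f L ψ π s χ k j (c + hy.uf.rn • h) u + Pw f L ψ π s χ k j (c + hy.uf.rn • h') u := by
  obtain ⟨n, hn, hkn, h1, h2, h2', h3⟩ := pw_fld (h := h) (h' := h') hy.rf hψ.toPj hD
  rw [pw_sh hy hψ hD, pw_sh hy hψ hD, pw_sh hy hψ hD]
  unfold Pw
  rw [← Finset.sum_add_distrib, ← Finset.sum_add_distrib]
  refine Finset.sum_congr rfl fun w hw => ?_
  rw [← mul_add, ← mul_add, ← Finset.sum_add_distrib, ← Finset.sum_add_distrib]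
  congr 1
  refine Finset.sum_congr rfl fun r _ => ?_
  rw [← add_mul, ← add_mul]
  have h4 := lw_discSm hy hψ hχ hs hn hkn (h3 w hw) h2 h2' r
  exact congrArg (fun x => x * u r) h4

/-- Proof: `pw_sh` twice, `lw_disc_smul`; a common field for `b` too. -/
theorem pw_disc_smulSm (hy : Hyt f L π k) (hψ : PjSm sm L ψ) (hχ : ChSm sm L π s χ) (hs : 2 ≤ s)
    (hD : L.nm (MvPolynomial.aeval (fun r => (c r : Ω)) ψ.D) = 1) (b : Rn L) (j : ℕ)
    (u : Fin (d + 1) → L.κ) :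
    Pw f L ψ π s χ k j (c + hy.uf.rn • (b • h)) u - Pw f L ψ π s χ k j c u =
      rdn L b * (Pw f L ψ π s χ k j (c + hy.uf.rn • h) u - Pw f L ψ π s χ k j c u) := by
  obtain ⟨n, hn, hkn, h1, h2, h2', h3⟩ := pw_fld (h := h) (h' := fun _ => b) hy.rf hψ.toPj hD
  rw [pw_sh hy hψ hD, pw_sh hy hψ hD]
  unfold Pw
  rw [← Finset.sum_sub_distrib, ← Finset.sum_sub_distrib, Finset.mul_sum]
  refine Finset.sum_congr rfl fun w hw => ?_
  rw [← mul_sub, ← mul_sub, mul_left_comm (rdn L b), ← Finset.sum_sub_distrib,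
    ← Finset.sum_sub_distrib, Finset.mul_sum _ _ (rdn L b)]
  refine congrArg (fun x => rv L w ^ j * x) ?_
  refine Finset.sum_congr rfl fun r _ => ?_
  rw [← sub_mul, ← sub_mul, ← mul_assoc, ← rv_rdn]
  have h4 := lw_disc_smulSm hy hψ hχ hs hn hkn (h3 w hw) h2 (h2' 0).1 (h2' 0).2 r
  exact congrArg (fun x => x * u r) h4

end Kt

end GX
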