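import Pool.Agent.Lib.MP_f80667_ag.Kt.Kh1
import Pool.Agent.Lib.MP_f80667_ag.Rsm.KtKh
import Pool.Agent.Lib.MP_f80667_ag.Rsm.KtKe2
import Pool.Agent.Lib.MP_f80667_ag.Rsm.B
import Pool.Agent.Lib.MP_f80667_ag.Rsm.LvKa

/-! The theorems of `Kt/Kh1` for the points of a part `S` of the variety. -/

open ZC BE PE CV IntermediateField

namespace GX

namespace Kt

variable {F : Type} [Field F] {N d : ℕ} {ι : Type} {f : ι → MvPolynomial (Fin N) F}
  {K Ω : Type} [Field K] [CharZero K] [Field Ω] [Algebra K Ω] [Algebra F K] [Algebra F Ω]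
  [IsScalarTower F K Ω] [IsAlgClosure K Ω] {L : Ld K Ω} {ψ : Prj K N d} {π : Ω} {k s : ℕ}
  {χ : ((Xf f).pt Ω →₀ ℤ) → ZMod L.p} {c h h' : Fin (d + 1) → Rn L}

variable {sm : (Xf f).pt Ω → Prop} [SOk f L sm]

/-- A vector with the same residues is `c + π h₁`. -/
private theorem lift_diff (hπ : Uf L π) {c c' : Fin (d + 1) → Rn L}
    (hc : ∀ r, rdn L (c' r) = rdn L (c r)) : ∃ h₁ : Fin (d + 1) → Rn L, c' = c + hπ.rn • h₁ := by
  have h1 : ∀ r, ∃ y, c' r - c r = hπ.rn * y := fun r =>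
    hπ.rdn_ker (c' r - c r) (by rw [map_sub, hc r, sub_self])
  choose y hy using h1
  refine ⟨y, funext fun r => ?_⟩
  have h2 : (c + hπ.rn • y) r = c r + hπ.rn * y r := rfl
  rw [h2, ← hy r]
  ring

/-- The difference depends only on the residues of `c` and `h`. Proof: `c' = c + π h₁`, `h' = h + π h₂` (`Uf.rdn_ker`): `pw_disc` for `c`, `h₁`, `h'` and `pw_disc` for `h`, `π h₂`, `pw_disc_smul` for `b = π` (`Uf.rdn_rn`). -/
theorem pw_diffSm (hy : Hyt f L π k) (hψ : PjSm sm L ψ) (hχ : ChSm sm L π s χ) (hs : 2 ≤ s)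
    {c' : Fin (d + 1) → Rn L}
    (hD : L.nm (MvPolynomial.aeval (fun r => (c r : Ω)) ψ.D) = 1)
    (hc : ∀ r, rdn L (c' r) = rdn L (c r)) (hh : ∀ r, rdn L (h' r) = rdn L (h r)) (j : ℕ)
    (u : Fin (d + 1) → L.κ) :
    Pw f L ψ π s χ k j (c' + hy.uf.rn • h') u - Pw f L ψ π s χ k j c' u =
      Pw f L ψ π s χ k j (c + hy.uf.rn • h) u - Pw f L ψ π s χ k j c u := by
  obtain ⟨h₁, rfl⟩ := lift_diff hy.uf hc
  obtain ⟨h₂, rfl⟩ := lift_diff hy.uf hh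
  have e1 : c + hy.uf.rn • h₁ + hy.uf.rn • (h + hy.uf.rn • h₂) =
      c + hy.uf.rn • (h₁ + (h + hy.uf.rn • h₂)) := by
    rw [smul_add (hy.uf.rn : Rn L) h₁, add_assoc]
  have a1 := pw_discSm (h := h₁) (h' := h + hy.uf.rn • h₂) hy hψ hχ hs hD j u
  have a2 := pw_discSm (h := h) (h' := hy.uf.rn • h₂) hy hψ hχ hs hD j u
  have a3 := pw_disc_smulSm (h := h₂) hy hψ hχ hs hD (hy.uf.rn : Rn L) j u
  rw [hy.uf.rdn_rn, zero_mul] at a3
  rw [e1]
  linear_combination a1 + a2 + a3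

/-- Homogeneity. Proof: `rts_smul`, `lw_hom` (a common field for `t`: `rn_fin`). -/
theorem pw_homSm (hy : Hyt f L π k) (hψ : PjSm sm L ψ) (hχ : ChSm sm L π s χ) (hs : 2 ≤ s)
    (hD : L.nm (MvPolynomial.aeval (fun r => (c r : Ω)) ψ.D) = 1) {t : Rn L}
    (ht : rdn L t ≠ 0) (j : ℕ) (u : Fin (d + 1) → L.κ) :
    rdn L t * Pw f L ψ π s χ k j (t • c) u = rdn L t ^ j * Pw f L ψ π s χ k j c u := by
  have ht1 : L.nm (t : Ω) = 1 := (L.hv_ne (rdn_hv L t)).1 ht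
  have ht0 : (t : Ω) ≠ 0 := by
    intro h0
    rw [h0, L.zero] at ht1
    exact zero_ne_one ht1
  obtain ⟨n, hn, hkn, _, hF, _, hG⟩ := pw_fld (h := fun _ => t) (h' := fun _ => t) hy.rf hψ.toPj hD
  have htn : (t : Ω) ∈ L.Ur ⊥ n := (hF 0).1
  have e1 : (fun r => (((t • c) r : Rn L) : Ω)) = (t : Ω) • fun r => (c r : Ω) := rfl
  have h1 : Pw f L ψ π s χ k j (t • c) u = ∑ w ∈ rts ψ fun r => (c r : Ω),
      rv L ((t : Ω) * w) ^ j *
        ∑ r, lw f L ψ π s χ k ((t : Ω) • fun r => (c r : Ω)) ((t : Ω) * w) r * u r := by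
    unfold Pw
    rw [e1]
    exact rts_smul hψ.toPj ht0 _
  rw [h1]
  unfold Pw
  rw [Finset.mul_sum, Finset.mul_sum]
  refine Finset.sum_congr rfl fun w hw => ?_
  have hw1 : L.nm w ≤ 1 := rts_le hψ.toPj (fun r => rn_le L (c r)) hw
  have h2 : rv L ((t : Ω) * w) = rdn L t * rv L w := by
    have h3 : L.nm ((t : Ω) * w) ≤ 1 := by
      rw [L.mul, ht1, one_mul]
      exact hw1
    exact (rv_hv L h3).uniq ((rdn_hv L t).mul (rv_hv L hw1))
  have h4 : ∀ r, rdn L t * lw f L ψ π s χ k ((t : Ω) • fun r => (c r : Ω)) ((t : Ω) * w) r =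
      lw f L ψ π s χ k (fun r => (c r : Ω)) w r := fun r => by
    rw [← rv_rdn L t]
    exact lw_homSm hy hψ hχ hs hn hkn (hG w hw) htn ht1 r
  have h5 : rdn L t * ∑ r, lw f L ψ π s χ k ((t : Ω) • fun r => (c r : Ω)) ((t : Ω) * w) r * u r =
      ∑ r, lw f L ψ π s χ k (fun r => (c r : Ω)) w r * u r := by
    rw [Finset.mul_sum]
    refine Finset.sum_congr rfl fun r _ => ?_
    rw [← mul_assoc, h4]
  rw [h2, mul_pow, ← h5]
  ring

end Kt

end GX
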