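import Pool.Agent.Lib.MP_f80667_ag.Lv.Td
import Pool.Agent.Lib.MP_f80667_ag.Rsm.LvTb
import Pool.Agent.Lib.MP_f80667_ag.Rsm.B
import Pool.Agent.Lib.MP_f80667_ag.Rsm.LvKd

/-! The theorems of `Lv/Td` for the points of a part `S` of the variety. -/

open ZC BE PE CV IntermediateField

namespace GX

section td

variable {K Ω : Type} [Field K] [Field Ω] [Algebra K Ω] {M : IntermediateField K Ω}

private theorem td_ev {p : Polynomial Ω} (hp : ∀ i, p.coeff i ∈ M) {z : Ω} (hz : z ∈ M) :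
    p.eval z ∈ M := by
  rw [Polynomial.eval_eq_sum_range]
  exact sum_mem fun i _ => mul_mem (hp i) (pow_mem hz i)

private theorem td_der {p : Polynomial Ω} (hp : ∀ i, p.coeff i ∈ M) (i : ℕ) :
    (Polynomial.derivative p).coeff i ∈ M := by
  rw [Polynomial.coeff_derivative]
  refine mul_mem (hp _) ?_
  have h : ((i : Ω) + 1) = (((i + 1 : ℕ) : Ω)) := by push_cast; rfl
  rw [h]
  exact IntermediateField.natCast_mem M _

private theorem td_prod (S : Finset Ω) (hS : ∀ c ∈ S, c ∈ M) (i : ℕ) :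
    (∏ c ∈ S, (Polynomial.X - Polynomial.C c)).coeff i ∈ M := by
  classical
  induction S using Finset.induction_on generalizing i with
  | empty =>
    rw [Finset.prod_empty, Polynomial.coeff_one]
    split_ifs
    · exact one_mem M
    · exact zero_mem M
  | insert a S ha ih =>
    rw [Finset.prod_insert ha, sub_mul, Polynomial.coeff_sub, Polynomial.coeff_C_mul]
    have ih' := ih fun c hc => hS c (Finset.mem_insert_of_mem hc)
    refine sub_mem ?_ (mul_mem (hS a (Finset.mem_insert_self a S)) (ih' i))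
    rcases i with _ | i
    · rw [Polynomial.mul_coeff_zero, Polynomial.coeff_X_zero, zero_mul]
      exact zero_mem M
    · rw [Polynomial.coeff_X_mul]
      exact ih' i

private theorem td_root {L : Ld K Ω} {d : ℕ} {c : Fin (d + 1) → Ω} {w : Ω}
    {G : Polynomial (MvPolynomial (Fin (d + 1)) K)} (hG : G.Monic)
    (hi : ∀ j e, L.nm (algebraMap K Ω ((G.coeff j).coeff e)) ≤ 1)
    (hc : ∀ r, L.nm (c r) ≤ 1) (h : pe c w G = 0) : L.nm w ≤ 1 := by
  refine L.root_le (f := G.map (MvPolynomial.aeval c :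
    MvPolynomial (Fin (d + 1)) K →ₐ[K] Ω).toRingHom) (hG.map _) (fun i => ?_) ?_
  · rw [Polynomial.coeff_map]
    exact GM.ae_le (hi i) hc
  · rw [Polynomial.eval_map]
    rw [pe, Polynomial.coe_eval₂RingHom] at h
    exact h

end td

variable {F : Type} [Field F] {N d : ℕ} {ι : Type} {f : ι → MvPolynomial (Fin N) F} {K Ω : Type}
  [Field K] [CharZero K] [Field Ω] [Algebra K Ω] [Algebra F K] [Algebra F Ω]
  [IsScalarTower F K Ω] [IsAlgClosure K Ω] {L : Ld K Ω} {ψ : Prj K N d} {π : Ω}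
  {M : IntermediateField K Ω}

variable {sm : (Xf f).pt Ω → Prop} [SOk f L sm]

/-- **CR.** `a` is an arc of degree `≤ ρ` over `M`, `D (a(c))` is a unit for `c ∈ S` and all the points `q = (c, w) ∈ T` over `S` are rational over `M`. Proof: `ty_cr` with `π ^ s` in place of `π`
(it needs only `π ^ s ∈ M` and the norm `< 1`); `P' q` is the point over `c + h'` (`Gp.eq`), `h'` congruent to `h` modulo `π ^ (2 s)` (`cyv_close`); the trace from `M` to `K`. If `T` is empty the sum is `0`. -/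
theorem cyv_crvSm (hπ : Uf L π) (hψ : PjSm sm L ψ) (hM : Um L M)
    {a : Fin (d + 1) → Polynomial Ω} (ha : Arc L M a) {ρ : ℕ} (hρ : ∀ i, (a i).natDegree ≤ ρ)
    {S : Finset Ω} (hS : ∀ c ∈ S, c ∈ M ∧ L.nm c ≤ 1 ∧
      L.nm (MvPolynomial.aeval (fun r => (a r).eval c) ψ.D) = 1)
    (hS' : ∀ c ∈ S, ∀ c' ∈ S, c ≠ c' → L.nm (c - c') = 1) {j : ℕ} (hj : j * ρ < S.card) {τ : Ω}
    (hτ : τ ∈ M) (hτ' : L.nm τ ≤ 1) {T : Finset (Ω × Ω)}
    (hT : ∀ q, q ∈ T ↔ q.1 ∈ S ∧ pe (fun r => (a r).eval q.1) q.2 ψ.G = 0)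
    (hT' : ∀ q ∈ T, q.2 ∈ M) {s : ℕ} (hs : s ≠ 0) :
    ∑ q ∈ T, cyv f L ψ M (fun r => (a r).eval q.1) q.2 (fun r => π ^ s * (τ * q.2 ^ j /
        (Polynomial.derivative (∏ c ∈ S, (Polynomial.X - Polynomial.C c))).eval q.1) *
          (Polynomial.derivative (a r)).eval q.1) ∈
      DrSm sm L π (2 * s) ⊥ ⊔ (Xf f).ratEq K Ω := by
  have hfd : FiniteDimensional K M := hM.fd
  rcases T.eq_empty_or_nonempty with hT0 | hn
  · rw [hT0, Finset.sum_empty]
    exact zero_mem _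
  have hπs : π ^ s ∈ M := pow_mem (hπ.mem M) s
  have hπ1 : L.nm (π ^ s) < 1 := by
    rw [L.pow]
    exact hπ.pow_lt hs
  have hπ0 : 0 ≤ L.nm (π ^ s) := L.nonneg _
  obtain ⟨P, P', x, x', hq, hsum⟩ := ty_cr hψ.toPj hπs hπ1 ha hρ hS hS' hj hτ hτ' hT hT' hn
  set h : Ω × Ω → Fin (d + 1) → Ω := fun q r => π ^ s * (τ * q.2 ^ j /
    (Polynomial.derivative (∏ c ∈ S, (Polynomial.X - Polynomial.C c))).eval q.1) *
      (Polynomial.derivative (a r)).eval q.1 with hh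
  set h' : Ω × Ω → Fin (d + 1) → Ω := fun q r => ψ.uv (x' q) r - (a r).eval q.1 with hh'
  -- the point of the hypersurface
  have hgp : ∀ q ∈ T, Gp L ψ M (fun r => (a r).eval q.1) q.2 := fun q hq' => by
    obtain ⟨h1, h2⟩ := (hT q).1 hq'
    obtain ⟨h3, h4, h5⟩ := hS _ h1
    have h6 : ∀ r, L.nm ((a r).eval q.1) ≤ 1 := fun r => L.eval_le (fun i => (ha r i).2) h4
    exact ⟨fun r => ⟨td_ev (fun i => (ha r i).1) h3, h6 r⟩, hT' q hq',
      td_root hψ.mon hψ.iG h6 h2, h2, h5⟩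
  have hxp : ∀ q ∈ T, x q = (ψ.om Ω).pt (fun r => (a r).eval q.1) q.2 := fun q hq' =>
    funext fun i => by rw [om_pt]; exact (hq q hq').1 i
  -- the displacements
  have hcM : ∀ q ∈ T, ∀ r, (a r).eval q.1 ∈ M := fun q hq' r => ((hgp q hq').iv r).1
  have hmM : ∀ q ∈ T, (Polynomial.derivative
      (∏ c ∈ S, (Polynomial.X - Polynomial.C c))).eval q.1 ∈ M := fun q hq' =>
    td_ev (td_der (td_prod S fun c hc => (hS c hc).1)) (hS _ ((hT q).1 hq').1).1
  have hhM : ∀ q ∈ T, ∀ r, h q r ∈ M := fun q hq' r =>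
    mul_mem (mul_mem hπs (div_mem (mul_mem hτ (pow_mem (hT' q hq') j)) (hmM q hq')))
      (td_ev (td_der fun i => (ha r i).1) (hS _ ((hT q).1 hq').1).1)
  have hux : ∀ q ∈ T, ψ.uv (x q) = fun r => (a r).eval q.1 := fun q hq' => by
    rw [hxp q hq']
    exact ((hgp q hq').pt hψ.toPj).2.2.1
  have hh1 : ∀ q ∈ T, ∀ r, L.nm (h' q r) ≤ L.nm (π ^ s) := fun q hq' r => by
    obtain ⟨-, -, -, -, -, h6, -⟩ := hq q hq'
    have h7 := lv_close (L := L) (hψ.iu r) hπ0 h6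
    have h8 := congrFun (hux q hq') r
    change L.nm (ψ.uv (x' q) r - (a r).eval q.1) ≤ _
    rw [← h8]
    exact h7
  have hh2 : ∀ q ∈ T, ∀ r, L.nm (h' q r - h q r) ≤ L.nm π ^ (2 * s) := fun q hq' r => by
    obtain ⟨-, -, -, -, -, -, h7⟩ := hq q hq'
    have h8 := h7 r
    have h9 : h' q r - h q r = ψ.uv (x' q) r - ((a r).eval q.1 + h q r) := by
      change ψ.uv (x' q) r - (a r).eval q.1 - h q r = _
      ring
    rw [h9]
    refine h8.trans_eq ?_
    rw [L.pow, ← pow_mul, Nat.mul_comm]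
  have hh3 : ∀ q ∈ T, ∀ r, L.nm (h q r) < 1 := fun q hq' r => by
    have h9 : h q r = h' q r - (h' q r - h q r) := by ring
    rw [h9]
    exact (L.sub _ _).trans_lt (max_lt ((hh1 q hq' r).trans_lt hπ1)
      ((hh2 q hq' r).trans_lt (hπ.pow_lt (by omega))))
  have hI : ∀ q ∈ T, Iv L M (h q) := fun q hq' r => ⟨hhM q hq' r, (hh3 q hq' r).le⟩
  have hI' : ∀ q ∈ T, Iv L M (h' q) := fun q hq' r => by
    obtain ⟨-, -, -, -, h5, -, -⟩ := hq q hq'
    exact ⟨sub_mem ((hψ.uv_iv h5).1 r).1 (hcM q hq' r), (hh1 q hq' r).trans hπ1.le⟩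
  -- the value at `h'`
  have hval : ∀ q ∈ T, cyv f L ψ M (fun r => (a r).eval q.1) q.2 (h' q) =
      Nm (⊥ : IntermediateField K Ω) M
        (Finsupp.single (P' q) 1 - Finsupp.single (P q) 1 : (Xf f).pt Ω →₀ ℤ) := fun q hq' => by
    obtain ⟨-, h2, h3, h4, h5, h6, -⟩ := hq q hq'
    have h8 := (hgp q hq').eq hψ (h := h' q) (fun r => (hh1 q hq' r).trans_lt hπ1)
      (x := x' q) (fun i => (h5 i).2) (co_ne h3) (co_zero h3)
      (fun i => by
        rw [← hxp q hq']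
        exact (h6 i).trans_lt hπ1)
      (funext fun r => by
        change ψ.uv (x' q) r = (a r).eval q.1 + (ψ.uv (x' q) r - (a r).eval q.1)
        ring)
    rw [cyv, h8, ← hxp q hq', zx_co h3, zx_co h2]
  -- the sum
  have hfx : ∀ q ∈ T, Fx M
      (Finsupp.single (P' q) 1 - Finsupp.single (P q) 1 : (Xf f).pt Ω →₀ ℤ) := fun q hq' => by
    obtain ⟨-, h2, h3, h4, h5, -, -⟩ := hq q hq'
    exact (fx_single (fp_co h3 fun i => (h5 i).1) 1).sub
      (fx_single (fp_co h2 fun i => (h4 i).1) 1)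
  have h10 : ∑ q ∈ T, cyv f L ψ M (fun r => (a r).eval q.1) q.2 (h' q) ∈ (Xf f).ratEq K Ω := by
    have h11 := nm_ratEq hsum (Fx.sum T hfx)
    have h12 := map_sum (GM.nmh (Xf f) M)
      (fun q => (Finsupp.single (P' q) 1 - Finsupp.single (P q) 1 : (Xf f).pt Ω →₀ ℤ)) T
    rw [GM.nmh_apply] at h12
    rw [h12] at h11
    rw [Finset.sum_congr rfl hval]
    exact h11
  have h13 : ∑ q ∈ T, cyv f L ψ M (fun r => (a r).eval q.1) q.2 (h q) =
      ∑ q ∈ T, cyv f L ψ M (fun r => (a r).eval q.1) q.2 (h' q) -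
        ∑ q ∈ T, (cyv f L ψ M (fun r => (a r).eval q.1) q.2 (h' q) -
          cyv f L ψ M (fun r => (a r).eval q.1) q.2 (h q)) := by
    rw [Finset.sum_sub_distrib]
    abel
  change ∑ q ∈ T, cyv f L ψ M (fun r => (a r).eval q.1) q.2 (h q) ∈ _
  rw [h13]
  refine sub_mem (AddSubgroup.mem_sup_right h10) (AddSubgroup.mem_sup_left
    (sum_mem fun q hq' => ?_))
  exact cyv_closeSm hπ hψ hM (hgp q hq') (hI q hq') (hI' q hq') (by omega) (hh3 q hq')
    (hh2 q hq')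

end GX
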