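import Pool.Agent.Lib.MP_f80667_ag.Lv.Kk
import Pool.Agent.Lib.MP_f80667_ag.Rsm.LvTe
import Pool.Agent.Lib.MP_f80667_ag.Rsm.B
import Pool.Agent.Lib.MP_f80667_ag.Rsm.LvVn
import Pool.Agent.Lib.MP_f80667_ag.Rsm.LvKa
import Pool.Agent.Lib.MP_f80667_ag.Rsm.LvKd

/-! The theorems of `Lv/Kk` for the points of a part `S` of the variety. -/

open ZC BE PE CV IntermediateField

namespace GX

variable {F : Type} [Field F] {N d m : ℕ} {ι : Type} {f : ι → MvPolynomial (Fin N) F}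
  {K Ω : Type} [Field K] [CharZero K] [Field Ω] [Algebra K Ω] [Algebra F K] [Algebra F Ω]
  [IsScalarTower F K Ω] [IsAlgClosure K Ω] {L : Ld K Ω} {ψ : Fin m → Prj K N d} {π : Ω}
  {k s : ℕ}

variable {sm : (Xf f).pt Ω → Prop} [SOk f L sm]

/-- The graded piece. -/
abbrev GrSm {f : ι → MvPolynomial (Fin N) F} (sm : (Xf f).pt Ω → Prop) (L : Ld K Ω) (π : Ω)
    (s : ℕ) : Type :=
  VlSm sm L π s ⧸ (VlSm sm L π (s + 1)).addSubgroupOf (VlSm sm L π s)

open Classical in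
/-- The extension by `0` of a character of the graded piece. -/
noncomputable def chiSm (θ : GrSm sm L π s →+ ZMod L.p) (z : (Xf f).pt Ω →₀ ℤ) : ZMod L.p :=
  if h : z ∈ VlSm sm L π s then θ (QuotientAddGroup.mk ⟨z, h⟩) else 0

/-- Proof: `vl_anti`, `QuotientAddGroup.eq_zero_iff`. -/
theorem chi_chSm (hπ : Uf L π) (θ : GrSm sm L π s →+ ZMod L.p) : ChSm sm L π s (chiSm θ) := by
  refine ⟨fun z hz z' hz' => ?_, fun z hz => ?_⟩
  · rw [chiSm, chiSm, chiSm, dif_pos hz, dif_pos hz', dif_pos (add_mem hz hz'), ← map_add]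
    rfl
  · have h1 : z ∈ VlSm sm L π s := vl_antiSm hπ (Nat.le_succ s) hz
    have h2 : (QuotientAddGroup.mk ⟨z, h1⟩ : GrSm sm L π s) = 0 := by
      rw [QuotientAddGroup.eq_zero_iff]
      exact hz
    rw [chiSm, dif_pos h1, h2, map_zero]

/-- The values of the trace functionals. -/
noncomputable def ewSm (ψ : Fin m → Prj K N d) (k : ℕ) (θ : GrSm sm L π s →+ ZMod L.p)
    (z : Xw L ψ k) : L.κ :=
  ∑ r, lw f L (ψ z.1.1.1) π s (chiSm θ) k z.1.2.1 z.1.2.2 r * z.1.1.2 r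

end GX
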