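import Pool.Agent.Lib.MP_f80667_ag.Kt.Kk2
import Pool.Agent.Lib.MP_f80667_ag.Rsm.KtKk
import Pool.Agent.Lib.MP_f80667_ag.Rsm.KtKj1
import Pool.Agent.Lib.MP_f80667_ag.Rsm.B
import Pool.Agent.Lib.MP_f80667_ag.Rsm.LvKd
import Pool.Agent.Lib.MP_f80667_ag.Rsm.LvKk

/-! The theorems of `Kt/Kk2` for the points of a part `S` of the variety. -/

open ZC BE PE CV IntermediateField

namespace GX

namespace Kt

variable {F : Type} [Field F] {N d m : ℕ} {ι : Type} {f : ι → MvPolynomial (Fin N) F}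
  {K Ω : Type} [Field K] [CharZero K] [Field Ω] [Algebra K Ω] [Algebra F K] [Algebra F Ω]
  [IsScalarTower F K Ω] [IsAlgClosure K Ω] {L : Ld K Ω} {ψ : Fin m → Prj K N d} {π : Ω}
  {k s : ℕ}

variable {sm : (Xf f).pt Ω → Prop} [SOk f L sm]

private theorem kk2_zero {R κ : Type} [CommRing R] [Field κ] (ρ : R →+* κ) (π : R) {d : ℕ}
    (Δ : MvPolynomial (Fin (d + 1)) κ) (j : ℕ) :
    Pc ρ π Δ j (0 : (Fin (d + 1) → R) → (Fin (d + 1) → κ) → κ) 0 where
  add := fun _ _ _ _ => by simp only [Pi.zero_apply, add_zero]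
  smul := fun _ _ _ _ => by simp only [Pi.zero_apply, mul_zero]
  hom := fun _ _ _ _ _ => by simp only [Pi.zero_apply, mul_zero]
  arc := fun n _ _ => ⟨0, by rw [Polynomial.natDegree_zero]; exact Nat.zero_le _, fun _ _ => by
    rw [Polynomial.eval_zero]; rfl⟩
  addB := fun _ _ _ _ _ => by simp only [Pi.zero_apply, add_zero]
  smulB := fun _ _ _ _ _ => by simp only [Pi.zero_apply, mul_zero]
  two := fun _ _ _ _ => by simp only [Pi.zero_apply, add_zero]

private theorem kk2_comm {κ A B : Type} [Field κ] [Fintype B] (S : Finset A) (a : A → κ)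
    (η : B → κ) (X : B → A → κ) :
    ∑ w ∈ S, a w * ∑ l, η l * X l w = ∑ l, η l * ∑ w ∈ S, a w * X l w := by
  calc ∑ w ∈ S, a w * ∑ l, η l * X l w
      = ∑ w ∈ S, ∑ l, a w * (η l * X l w) :=
        Finset.sum_congr rfl fun w _ => Finset.mul_sum _ _ _
    _ = ∑ l, ∑ w ∈ S, a w * (η l * X l w) := Finset.sum_comm
    _ = ∑ l, η l * ∑ w ∈ S, a w * X l w := by
        refine Finset.sum_congr rfl fun l _ => ?_
        rw [Finset.mul_sum]
        exact Finset.sum_congr rfl fun w _ => mul_left_comm _ _ _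

/-- **Linear dependence.** Proof: `pc_fin` for `Δ' i = if rD L (ψ i) = 0 then 1 else rD L (ψ i)` and `n i = (ψ i).G.natDegree`: `g`; for `g + 1` characters the families `Pw` (`pw_pc`), `0` for the `i` with `rD L (ψ i) = 0` (the class contains `0`): `η`. At an argument `(i, u, c, w)`: `c` has components in `Rn L`, `w ∈ rts` (`mem_rts`), `rD_one`;
`rts_van` for `T w = ∑ η_l ∑ lw .. r * u r` (`Finset.sum_comm`). -/
theorem ew_depSm (hy : Hyt f L π k) (hψ : ∀ i, PjSm sm L (ψ i)) (hs : 2 ≤ s) : ∃ g : ℕ,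
    ∀ θ : Fin (g + 1) → GrSm sm L π s →+ ZMod L.p, ∃ η : Fin (g + 1) → L.κ, η ≠ 0 ∧
      ∀ z, ∑ l, η l * ewSm ψ k (θ l) z = 0 := by
  classical
  have hΩ : IsAlgClosed Ω := IsAlgClosure.isAlgClosed K
  have hκ : IsAlgClosed L.κ := L.κ_closed
  have hch : CharP L.κ L.p := L.char_κ
  have hinf : Infinite L.κ := inferInstance
  let Δ : Fin m → MvPolynomial (Fin (d + 1)) L.κ := fun i =>
    if rD L (ψ i) = 0 then 1 else rD L (ψ i)
  have hΔ1 : ∀ i, rD L (ψ i) ≠ 0 → Δ i = rD L (ψ i) := fun i h => if_neg h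
  have hΔ0 : ∀ i, rD L (ψ i) = 0 → Δ i = 1 := fun i h => if_pos h
  have h0 : ∀ i, Δ i ≠ 0 := by
    intro i
    by_cases h : rD L (ψ i) = 0
    · rw [hΔ0 i h]
      exact one_ne_zero
    · rw [hΔ1 i h]
      exact h
  have hΔ : ∀ i, ∃ e, (Δ i).IsHomogeneous e := by
    intro i
    by_cases h : rD L (ψ i) = 0
    · refine ⟨0, ?_⟩
      rw [hΔ0 i h]
      exact MvPolynomial.isHomogeneous_one _ _
    · rw [hΔ1 i h]
      exact rD_hom (hψ i).toPj
  choose e he using hΔ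
  obtain ⟨g, hg⟩ := pc_fin (ρ := rdn L) (π := hy.uf.rn) rdn_surj hy.uf.rdn_rn hy.uf.rdn_ker
    L.pp (fun x => IsAlgClosed.exists_pow_nat_eq x L.pp.pos) h0 he (fun i => (ψ i).G.natDegree)
  refine ⟨g, fun θ => ?_⟩
  obtain ⟨η, hη, h⟩ := hg
    (fun l i j => if rD L (ψ i) = 0 then 0 else Pw f L (ψ i) π s (chiSm (θ l)) k j)
    (fun l i j => if rD L (ψ i) = 0 then 0 else Bw f L (ψ i) π s (chiSm (θ l)) k hy.uf j) (by
      intro l i j _
      by_cases h : rD L (ψ i) = 0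
      · simp only [if_pos h]
        exact kk2_zero _ _ _ _
      · simp only [if_neg h]
        rw [hΔ1 i h]
        exact pw_pcSm hy (hψ i) (chi_chSm hy.uf (θ l)) hs j)
  refine ⟨η, hη, ?_⟩
  rintro ⟨⟨⟨i, u⟩, ⟨c, w⟩⟩, n, hn, hkn, hG⟩
  have hc : ∀ r, c r ∈ Rn L := fun r => mem_rn L hn (hG.iv r).1 (hG.iv r).2
  let c' : Fin (d + 1) → Rn L := fun r => ⟨c r, hc r⟩
  have hD : MvPolynomial.eval (fun r => rdn L (c' r)) (rD L (ψ i)) ≠ 0 :=
    (rD_one (hψ i).toPj c').2 hG.D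
  have hr : rD L (ψ i) ≠ 0 := by
    intro h'
    rw [h'] at hD
    exact hD (map_zero _)
  refine rts_van (hψ i).toPj (c := c) (fun r => (hc r).1) hG.D
    (T := fun w => ∑ l, η l * ∑ r, lw f L (ψ i) π s (chiSm (θ l)) k c w r * u r)
    (fun j hj => ?_) w ((mem_rts (hψ i).toPj).2 hG.G)
  have h1 := h i j hj c' (by rw [hΔ1 i hr]; exact hD) u
  simp only [if_neg hr] at h1
  refine Eq.trans ?_ h1
  exact kk2_comm (rts (ψ i) c) (fun w => rv L w ^ j) η
    (fun l w => ∑ r, lw f L (ψ i) π s (chiSm (θ l)) k c w r * u r)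

end Kt

end GX
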