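import Pool.Agent.Lib.MP_f80667_ag.Kt.Kk3
import Pool.Agent.Lib.MP_f80667_ag.Rsm.KtKk
import Pool.Agent.Lib.MP_f80667_ag.Rsm.KtKk1
import Pool.Agent.Lib.MP_f80667_ag.Rsm.KtKk2
import Pool.Agent.Lib.MP_f80667_ag.Rsm.B
import Pool.Agent.Lib.MP_f80667_ag.Rsm.LvVn
import Pool.Agent.Lib.MP_f80667_ag.Rsm.LvKk

/-! The theorems of `Kt/Kk3` for the points of a part `S` of the variety. -/

open ZC BE PE CV IntermediateField

namespace GX

variable {F : Type} [Field F] {N d m : ℕ} {ι : Type} {f : ι → MvPolynomial (Fin N) F}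
  {K Ω : Type} [Field K] [CharZero K] [Field Ω] [Algebra K Ω] [Algebra F K] [Algebra F Ω]
  [IsScalarTower F K Ω] [IsAlgClosure K Ω] {L : Ld K Ω} {ψ : Fin m → Prj K N d} {π : Ω}
  {k s : ℕ}

variable {sm : (Xf f).pt Ω → Prop} [SOk f L sm]

/-- **The graded pieces are finite.** Proof: `ew` as an injective additive map (`ew_add`, `ew_inj`) from the characters; `dc_card` for its range (`ew_frob`, `ew_dep`; `L.κ` algebraically closed of characteristic `p`): finitely many characters; `du_card'` of `Gy/Rb.lean` or `du_card` of `Gy/Dc.lean` (`p • x = 0`: `vl_mul_one`, `AddCommGroup.zmodModule`,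
`AddMonoidHom.toZModLinearMap`): the graded piece is finite; `AddSubgroup.relIndex`, `AddSubgroup.index` is `Nat.card` of the quotient. -/
theorem Kt.gr_finSm (hy : Kt.Hyt f L π k) (hψ : ∀ i, PjSm sm L (ψ i)) (hc : CvrSm sm L ψ) (hs : 2 ≤ s) :
    (VlSm sm L π (s + 1)).relIndex (VlSm sm L π s) ≠ 0 := by
  have : Fact L.p.Prime := ⟨L.pp⟩
  have : CharP L.κ L.p := L.char_κ
  have : IsAlgClosed Ω := IsAlgClosure.isAlgClosed K
  have : IsAlgClosed L.κ := L.κ_closed
  obtain ⟨φ, hφ⟩ := Kt.ew_frobSm (s := s) hy hψ hs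
  obtain ⟨g, hg⟩ := Kt.ew_depSm (s := s) hy hψ hs
  let e : (GrSm sm L π s →+ ZMod L.p) →+ (Xw L ψ k → L.κ) :=
    AddMonoidHom.mk' (fun θ => ewSm ψ k θ) fun θ θ' => Kt.ew_addSm hy hψ hs θ θ'
  have he : Function.Injective e := by
    rw [injective_iff_map_eq_zero]
    intro θ hθ
    exact Kt.ew_injSm hy hψ hc hs hθ
  obtain ⟨h2, h3⟩ := dc_card (p := L.p) hy.rf.ne (φ := φ) (g := g) e.range (by
    rintro _ ⟨θ, rfl⟩ z
    exact hφ θ z) (by
    intro e' he' hli
    choose θ hθ using he'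
    obtain ⟨η, hη, hz⟩ := hg θ
    refine hη (funext fun i => Fintype.linearIndependent_iff.1 hli η (funext fun z => ?_) i)
    rw [Finset.sum_apply, Pi.zero_apply, ← hz z]
    refine Finset.sum_congr rfl fun l _ => ?_
    rw [Pi.smul_apply, smul_eq_mul, ← hθ l]
    rfl)
  have e1 := e.ofInjective he
  have h4 : Finite (GrSm sm L π s) ∧ Nat.card (GrSm sm L π s) ≤ (L.p ^ k) ^ g := by
    refine du_card' (p := L.p) (fun x => ?_) (Finite.of_equiv _ e1.symm.toEquiv) ?_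
    · induction x using QuotientAddGroup.induction_on with
      | H x =>
        rw [← QuotientAddGroup.mk_nsmul, QuotientAddGroup.eq_zero_iff,
          AddSubgroup.mem_addSubgroupOf, AddSubgroup.coe_nsmul]
        exact vl_mul_oneSm hy.uf hy.hm hψ hc (by omega) x.2
    · rw [Nat.card_congr e1.toEquiv]
      exact h3
  have h5 := h4.1
  have h6 : (VlSm sm L π (s + 1)).relIndex (VlSm sm L π s) = Nat.card (GrSm sm L π s) := rfl
  rw [h6]
  exact Nat.card_pos.ne'

/-- **The graded pieces of level `≥ 2` are finite**, for every residue characteristic. -/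
theorem gr_fin2Sm (hf : Hm f) (hπ : Uf L π) (hψ : ∀ i, PjSm sm L (ψ i))
    (hc : CvrSm sm L ψ) (hs : 2 ≤ s) : (VlSm sm L π (s + 1)).relIndex (VlSm sm L π s) ≠ 0 := by
  have hac : IsAlgClosed Ω := IsAlgClosure.isAlgClosed K
  obtain ⟨φ, q, hφ⟩ := exists_frob L.toLf (⊥ : IntermediateField K Ω)
  obtain ⟨k, hk, hq, -⟩ := Ld.frob_q hφ
  rw [hq] at hφ
  obtain ⟨h3, h4⟩ := Ld.frob_te hφ
  have hr : L.Rf ⊥ k := ⟨hk, sup_le le_rfl (adjoin_le_iff.2 fun z hz => h4 z hz), h3⟩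
  exact Kt.gr_finSm ⟨hf, hπ, hr⟩ hψ hc hs

end GX
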