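import Pool.Agent.Lib.MP_f80667_ag.Kt.M2
import Pool.Agent.Lib.MP_f80667_ag.Rsm.B
import Pool.Agent.Lib.MP_f80667_ag.Rsm.LvKd

/-! The theorems of `Kt/M2` for the points of a part `S` of the variety. -/

open ZC BE PE CV IntermediateField

namespace GX

variable {F : Type} [Field F] {N : ℕ} {ι : Type} {f : ι → MvPolynomial (Fin N) F}
  {K Ω : Type} [Field K] [CharZero K] [Field Ω] [Algebra K Ω] [Algebra F K] [Algebra F Ω]
  [IsScalarTower F K Ω] [IsAlgClosure K Ω] {L : Ld K Ω} {π : Ω}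

variable {sm : (Xf f).pt Ω → Prop} [SOk f L sm]

/-- **Level `1`.** -/
theorem dr_rmSm {E : IntermediateField K Ω} [FiniteDimensional K E] {ϖ : Ω}
    (hϖ : L.nm π ≤ L.nm ϖ ^ 2) {l : ℕ} (hd : ∀ M : IntermediateField K Ω, Um L M →
      Module.finrank K (E ⊔ M : IntermediateField K Ω) = l * Module.finrank K M)
    {z : (Xf f).pt Ω →₀ ℤ} (hz : z ∈ DrSm sm L π 1 (⊥ : IntermediateField K Ω)) :
    ∃ w ∈ DrSm sm (xt L E) ϖ 2 (⊥ : IntermediateField E Ω), GM.nmh (Xf f) E w = l • z := by
  have hcl : IsAlgClosure E Ω := yd_ac E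
  rw [dr_genSm] at hz
  induction hz using AddSubgroup.closure_induction with
  | mem z hz =>
    obtain ⟨M, y, y', he, h4, h5, h6, rfl⟩ := hz
    obtain ⟨N₀, hN₀, hM⟩ := he.2
    have hUm : Um L M := ⟨N₀, hN₀, hM⟩
    have hfM : FiniteDimensional K M := hUm.fd
    have hle : E ≤ E ⊔ M := le_sup_left
    have hfs : FiniteDimensional K (E ⊔ M : IntermediateField K Ω) :=
      IntermediateField.finiteDimensional_sup E M
    obtain ⟨T, hT⟩ : ∃ T : IntermediateField E Ω, T.restrictScalars K = E ⊔ M :=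
      ⟨IntermediateField.extendScalars hle, IntermediateField.extendScalars_restrictScalars hle⟩
    have hfT : FiniteDimensional E T := by
      have h1 : FiniteDimensional K T := by
        have h2 : FiniteDimensional K (T.restrictScalars K) := by
          rw [hT]
          exact hfs
        exact h2
      exact FiniteDimensional.right K E T
    have hy : Fp (Xf f) T y := yd_fp.2 (by
      rw [hT]
      exact fun γ hγ => h4 γ (fix_le le_sup_right hγ))
    have hy' : Fp (Xf f) T y' := yd_fp.2 (by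
      rw [hT]
      exact fun γ hγ => h5 γ (fix_le le_sup_right hγ))
    have hfx : Fx T (Finsupp.single y 1 - Finsupp.single y' 1 : (Xf f).pt Ω →₀ ℤ) :=
      (fx_single hy 1).sub (fx_single hy' 1)
    have hfx' : Fx M (Finsupp.single y 1 - Finsupp.single y' 1 : (Xf f).pt Ω →₀ ℤ) :=
      (fx_single h4 1).sub (fx_single h5 1)
    have hfx2 : Fx (E ⊔ M) (Finsupp.single y 1 - Finsupp.single y' 1 : (Xf f).pt Ω →₀ ℤ) := by
      rw [← hT]
      exact yd_fx.1 hfx
    have hEm : Em (xt L E) (⊥ : IntermediateField E Ω) T := by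
      refine ⟨bot_le, N₀, hN₀, ?_⟩
      have h1 : E ⊔ M ≤ ((xt L E).Ur ⊥ N₀).restrictScalars K := by
        refine sup_le ?_ (hM.trans ?_)
        · intro x hx
          exact ((xt L E).Ur ⊥ N₀).algebraMap_mem ⟨x, hx⟩
        · exact sup_le bot_le (adjoin_le_iff.2 fun x hx => Ld.te_ur (L := xt L E) hx)
      intro x hx
      have h2 : x ∈ T.restrictScalars K := hx
      rw [hT] at h2
      exact h1 h2
    refine ⟨Nm (⊥ : IntermediateField E Ω) T
      (Finsupp.single y 1 - Finsupp.single y' 1 : (Xf f).pt Ω →₀ ℤ), ?_, ?_⟩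
    · rw [dr_genSm]
      refine AddSubgroup.subset_closure ⟨T, y, y', hEm, hy, hy', ?_, rfl⟩
      rw [pow_one] at h6
      exact ⟨nrh_mono hϖ h6.1, h6.2⟩
    · rw [GM.nmh_apply, yd_tr hfx, hT, nm_tr bot_le le_sup_right hfx2,
        nm_const le_sup_right hfx', nm_nsmul bot_le]
      congr 1
      have h1 := relIndex_fix (K := K) (Ω := Ω) (M := M) (N := E ⊔ M) le_sup_right
      rw [hd M hUm] at h1
      exact Nat.eq_of_mul_eq_mul_right Module.finrank_pos h1
  | zero => exact ⟨0, zero_mem _, by rw [map_zero, smul_zero]⟩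
  | add a b _ _ ha hb =>
    obtain ⟨w, hw, h1⟩ := ha
    obtain ⟨w', hw', h1'⟩ := hb
    exact ⟨w + w', add_mem hw hw', by rw [map_add, h1, h1', smul_add]⟩
  | neg a _ ha =>
    obtain ⟨w, hw, h1⟩ := ha
    exact ⟨-w, neg_mem hw, by rw [map_neg, h1, smul_neg]⟩

end GX
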